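import Pool.Agent.H23.LZ.CkC
import Pool.Agent.H23.LZ.TabC
import Pool.Agent.H23.LZ.TabZ

/-!
# The tables of the counting rules
-/

namespace H23.LZ.Ck.Cnt

set_option maxRecDepth 100000

theorem chkC_c : chkC cTab = true := by decide +kernel

theorem chkC_z : chkC zTab = true := by decide +kernel

end H23.LZ.Ck.Cnt
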