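import Pool.Agent.H23.LZ.CkS6
import Pool.Agent.H23.LZ.TabC
import Pool.Agent.H23.LZ.TabZ

/-!
# The check of the tables for the partition rule
-/

namespace H23.LZ.Ck

theorem chkS6_c : chkS6 cTab = true := by decide +kernel

theorem chkS6_z : chkS6 zTab = true := by decide +kernel

end H23.LZ.Ck
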