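import Pool.Agent.H23.LZ.CkI
import Pool.Agent.H23.LZ.TabC
import Pool.Agent.H23.LZ.TabZ

/-!
# The initial states of the two searches
-/

namespace H23.LZ.Ck

open H40.VT Sm Ort Pool.Agent.H53.AEG

namespace St

variable {K : Finset (Finset (Fin 18))} {y : Finset (Fin 18) → ZMod 3}

/-- automorphisms preserving the cycle -/
def Au (K : Finset (Finset (Fin 18))) (y : Finset (Fin 18) → ZMod 3)
    (g : Equiv.Perm (Fin 18)) : Prop :=
  (∀ σ : Finset (Fin 18), σ ∈ K ↔ σ.image g ∈ K) ∧ G g y = y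

theorem Au.one : Au K y 1 := by
  refine ⟨fun σ => ?_, G_one y⟩
  have : σ.image (1 : Equiv.Perm (Fin 18)) = σ := Finset.image_id
  rw [this]

theorem Au.mul {g g' : Equiv.Perm (Fin 18)} (h : Au K y g) (h' : Au K y g') :
    Au K y (g * g') := by
  refine ⟨fun σ => ?_, ?_⟩
  · have : σ.image (g * g' : Equiv.Perm (Fin 18)) = (σ.image g').image g := by
      rw [Finset.image_image]
      rfl
    rw [this, h'.1 σ, h.1 (σ.image g')]
  · rw [G_comp, h'.2, h.2]

theorem Au.pow {g : Equiv.Perm (Fin 18)} (h : Au K y g) (n : ℕ) : Au K y (g ^ n) := by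
  induction n with
  | zero =>
    rw [pow_zero]
    exact Au.one
  | succ n ih =>
    rw [pow_succ]
    exact ih.mul h

theorem Au_of {g : Equiv.Perm (Fin 18)} (hg : ∀ σ : Finset (Fin 18), σ ∈ K ↔ σ.image g ∈ K)
    (h : ∀ σ, y (σ.image g) = (-1) ^ nv g σ * y σ) : Au K y g := by
  refine ⟨hg, ?_⟩
  funext τ
  have e : (τ.image g.symm).image g = τ := im_symm_im τ
  rw [← e, G_image, h]

/-- assembling the invariants -/
theorem good_of {tb : Tab} (h : Hyp K α9) (yK : ∀ σ, y σ ≠ 0 ↔ σ ∈ K ∧ σ.card = 6)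
    (yb : obd y = 0)
    (hA : ∀ s < 18, ∃ g : Equiv.Perm (Fin 18), Au K y g ∧ ∀ i, gf tb s i = g i) :
    Good tb K y := by
  refine ⟨h, ?_, yK, yb, ?_⟩
  · intro s hs σ
    obtain ⟨g, h1, h2⟩ := hA s hs
    have e : gf tb s = g := funext h2
    rw [e]
    exact (h1.1 σ).symm
  · intro s hs σ
    obtain ⟨g, h1, h2⟩ := hA s hs
    have e : gf tb s = g := funext h2
    rw [e]
    have h3 := G_image g y σ
    rw [h1.2] at h3
    exact h3

theorem good_neg {tb : Tab} (h : Good tb K y) : Good tb K (-y) := by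
  refine ⟨h.hyp, h.inv, ?_, ?_, ?_⟩
  · intro σ
    rw [← h.yK σ, Pi.neg_apply, neg_ne_zero]
  · have : -y = (0 : Finset (Fin 18) → ZMod 3) - y := (zero_sub y).symm
    rw [this, obd_sub', obd_zero', h.yb, sub_zero]
  · intro s hs σ
    rw [Pi.neg_apply, Pi.neg_apply, h.yg s hs σ, mul_neg]

/-- two orbits of an element -/
def um (tb : Tab) (s0 : ℕ) (i j : Fin 18) : ℕ :=
  bi i ||| bi (gf tb s0 i) ||| bi (gf tb s0 (gf tb s0 i)) ||| bi j ||| bi (gf tb s0 j) |||
    bi (gf tb s0 (gf tb s0 j))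

theorem D_um (tb : Tab) (s0 : ℕ) (i j : Fin 18) : D (um tb s0 i j) =
    {i, gf tb s0 i, gf tb s0 (gf tb s0 i), j, gf tb s0 j, gf tb s0 (gf tb s0 j)} := by
  ext x
  rw [mem_D, um]
  simp only [Nat.testBit_or, Bool.or_eq_true, bi_test, decide_eq_true_eq, Finset.mem_insert,
    Finset.mem_singleton, Fin.ext_iff]
  constructor
  · rintro (((((h | h) | h) | h) | h) | h) <;> simp [h]
  · rintro (h | h | h | h | h | h) <;> simp [h]

/-- either an antipodal pair or an image of the facet `f0` -/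
def adj (tb : Tab) (s0 f0 : ℕ) (i j : Fin 18) : Bool :=
  (List.range 18).any (fun x => (um tb s0 i j).testBit x &&
    (um tb s0 i j).testBit ((x + 9) % 18)) ||
  (List.range 18).any (fun s => Nat.beq (img tb s (e18 tb.r6 f0)) (um tb s0 i j))

theorem adj_mem {tb : Tab} (hG : chkG tb = true) (h : Hyp K α9)
    (hinv : ∀ s < 18, ∀ σ : Finset (Fin 18), σ.image (gf tb s) ∈ K ↔ σ ∈ K)
    {s0 f0 : ℕ} {i j : Fin 18} (hc : adj tb s0 f0 i j = true)
    (hm : D (um tb s0 i j) ∈ K) : D (e18 tb.r6 f0) ∈ K := by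
  unfold adj at hc
  rw [Bool.or_eq_true, List.any_eq_true, List.any_eq_true] at hc
  rcases hc with ⟨x, hx, hx2⟩ | ⟨s, hs, hs2⟩
  · exfalso
    rw [List.mem_range] at hx
    rw [Bool.and_eq_true] at hx2
    refine h.noa _ hm ⟨x, hx⟩ ((mem_D _ _).2 hx2.1) ((mem_D _ _).2 ?_)
    exact hx2.2
  · rw [List.mem_range] at hs
    have e := Nat.eq_of_beq_eq_true hs2
    rw [← e, D_img hG hs, hinv s hs] at hm
    exact hm

/-- the connectivity argument -/
theorem smith_tab {tb : Tab} (hG : chkG tb = true) (h : Hyp K α9)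
    (hinv : ∀ s < 18, ∀ σ : Finset (Fin 18), σ.image (gf tb s) ∈ K ↔ σ ∈ K)
    {s0 f0 : ℕ} (hs0 : s0 < 18) (S : Fin 18 → Bool)
    (h1 : ∀ i, gf tb s0 (gf tb s0 (gf tb s0 i)) = i) (h2 : ∀ i, gf tb s0 i ≠ i)
    (h3 : ∀ i, ({i, gf tb s0 i, gf tb s0 (gf tb s0 i)} : Finset (Fin 18)).card = 3 ∧
      ∀ x ∈ ({i, gf tb s0 i, gf tb s0 (gf tb s0 i)} : Finset (Fin 18)),
        x + 9 ∉ ({i, gf tb s0 i, gf tb s0 (gf tb s0 i)} : Finset (Fin 18)))
    (h4 : ∀ i, S i = true → S (gf tb s0 i) = true) (h5 : ∃ i, S i = true)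
    (h6 : ∃ i, S i = false)
    (h7 : ∀ i, S i = true → ∀ j, S j = false → adj tb s0 f0 i j = true) :
    D (e18 tb.r6 f0) ∈ K := by
  by_contra hn
  let g : Equiv.Perm (Fin 18) := ⟨gf tb s0, fun i => gf tb s0 (gf tb s0 i), h1, h1⟩
  have hgv : ∀ i, g i = gf tb s0 i := fun _ => rfl
  obtain ⟨i0, hi0⟩ := h5
  obtain ⟨j0, hj0⟩ := h6
  have key := smith h g h1 h2 (fun σ => (hinv s0 hs0 σ).symm) (fun i => h.ngb _ (h3 i).1 (h3 i).2)
    (Finset.univ.filter fun i => S i = true) ⟨i0, by simp [hi0]⟩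
    (by
      intro i hi
      rw [Finset.mem_filter] at hi ⊢
      exact ⟨Finset.mem_univ _, h4 i hi.2⟩)
    (by
      intro i hi j hm
      rw [Finset.mem_filter] at hi ⊢
      refine ⟨Finset.mem_univ _, ?_⟩
      by_contra hj
      rw [Bool.not_eq_true] at hj
      refine hn (adj_mem hG h hinv (h7 i hi.2 j hj) ?_)
      rw [D_um]
      exact hm) j0
  rw [Finset.mem_filter, hj0] at key
  exact Bool.false_ne_true key.2

/-- the sign of a facet -/
theorem sign {tb : Tab} (h : Good tb K y) {f : ℕ} (hf : D (e18 tb.r6 f) ∈ K)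
    (hc : (D (e18 tb.r6 f)).card = 6) :
    y (D (e18 tb.r6 f)) = 1 ∨ y (D (e18 tb.r6 f)) = -1 := by
  have h1 : y (D (e18 tb.r6 f)) ≠ 0 := (h.yK _).2 ⟨hf, hc⟩
  revert h1
  generalize y (D (e18 tb.r6 f)) = t
  revert t
  decide

/-- normalisation of the sign -/
theorem normal {tb : Tab} (hy : ∃ y, Good tb K y) {f : ℕ} (hf : D (e18 tb.r6 f) ∈ K)
    (hc : (D (e18 tb.r6 f)).card = 6) (hlt : f < 304) (hnf : f < tb.nf) :
    ∃ y, Good tb K y ∧ At tb K y f := by
  obtain ⟨y, h⟩ := hy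
  rcases sign h hf hc with h1 | h1
  · refine ⟨y, h, ?_⟩
    unfold At
    rw [if_pos hlt]
    exact ⟨hnf, h1⟩
  · refine ⟨-y, good_neg h, ?_⟩
    unfold At
    rw [if_pos hlt, Pi.neg_apply, h1]
    exact ⟨hnf, by decide⟩

theorem opp_not {tb : Tab} {f : ℕ} (hf : f < 304) (h : At tb K y f) :
    ∀ i, (opp f).testBit i = true → ¬ At tb K y i := by
  intro i hi hA
  unfold opp at hi
  rw [cn_eq, if_pos (by rw [Nat.blt_eq]; exact hf)] at hi
  change (bi (f + 304)).testBit i = true at hi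
  rw [bi_test, decide_eq_true_eq] at hi
  subst hi
  unfold At at h hA
  rw [if_pos hf] at h
  rw [if_neg (by omega), if_pos (by omega)] at hA
  have e : f + 304 - 304 = f := by omega
  rw [e] at hA
  rw [h.2] at hA
  exact absurd hA.2 (by decide)

/-- the atoms of a facet with unknown sign -/
theorem common {tb : Tab} (h : Good tb K y)
    (hct : ∀ a b, (row tb.ct a).testBit b = true → At tb K y a → At tb K y b) {f : ℕ}
    (hf : D (e18 tb.r6 f) ∈ K) (hc : (D (e18 tb.r6 f)).card = 6) (hlt : f < 304)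
    (hnf : f < tb.nf) :
    ∀ i, (row tb.ct f &&& row tb.ct (f + 304)).testBit i = true → At tb K y i := by
  intro i hi
  rw [Nat.testBit_and, Bool.and_eq_true] at hi
  rcases sign h hf hc with h1 | h1
  · refine hct f i hi.1 ?_
    unfold At
    rw [if_pos hlt]
    exact ⟨hnf, h1⟩
  · refine hct (f + 304) i hi.2 ?_
    unfold At
    rw [if_neg (by omega), if_pos (by omega)]
    have e : f + 304 - 304 = f := by omega
    rw [e]
    exact ⟨hnf, h1⟩

theorem chkG_c : chkG cTab = true := by decide +kernel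

theorem chkG_z : chkG zTab = true := by decide +kernel

theorem gf_c : ∀ s < 18, ∀ i : Fin 18,
    gf cTab s i = (Equiv.addRight (1 : Fin 18))^[s] i := by
  decide +kernel

theorem goodC (h : Hyp K α9)
    (hg : ∀ σ : Finset (Fin 18), σ ∈ K ↔ σ.image (fun i => i + 1) ∈ K) :
    ∃ y, Good cTab K y := by
  obtain ⟨y, y1, y2, _, _, y5⟩ := orient h
  have h9 : (Equiv.addRight (1 : Fin 18)) ^ 9 = α9 := by
    ext i
    rw [← Equiv.Perm.iterate_eq_pow]
    revert i
    decide +kernel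
  have hA : Au K y (Equiv.addRight (1 : Fin 18)) := Au_of hg (y5 _ hg h9)
  refine ⟨y, good_of h y1 y2 fun s hs => ⟨_, hA.pow s, fun i => ?_⟩⟩
  rw [← Equiv.Perm.iterate_eq_pow]
  exact gf_c s hs i

/-- the translations of `Z_3^2` -/
def A1 : Equiv.Perm (Fin 18) := ⟨a1, fun i => a1 (a1 i), by decide, by decide⟩

def A2 : Equiv.Perm (Fin 18) := ⟨a2, fun i => a2 (a2 i), by decide, by decide⟩

theorem gf_z : ∀ s < 18, ∀ i : Fin 18,
    gf zTab s i = a1^[s / 3 % 3] (a2^[s % 3] (α9^[s / 9] i)) := by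
  decide +kernel

theorem goodZ (h : Hyp K α9) (hg1 : ∀ σ : Finset (Fin 18), σ ∈ K ↔ σ.image a1 ∈ K)
    (hg2 : ∀ σ : Finset (Fin 18), σ ∈ K ↔ σ.image a2 ∈ K) :
    ∃ y, Good zTab K y := by
  obtain ⟨y, y1, y2, y3, y4, _⟩ := orient h
  have hA1 : Au K y A1 := Au_of hg1 (y4 A1 hg1 (by decide))
  have hA2 : Au K y A2 := Au_of hg2 (y4 A2 hg2 (by decide))
  have hA3 : Au K y α9 := Au_of h.alK y3
  refine ⟨y, good_of h y1 y2 fun s hs =>
    ⟨A1 ^ (s / 3 % 3) * (A2 ^ (s % 3) * α9 ^ (s / 9)), (hA1.pow _).mul ((hA2.pow _).mul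
      (hA3.pow _)), fun i => ?_⟩⟩
  rw [gf_z s hs i, Equiv.Perm.mul_apply, Equiv.Perm.mul_apply, ← Equiv.Perm.iterate_eq_pow,
    ← Equiv.Perm.iterate_eq_pow, ← Equiv.Perm.iterate_eq_pow]
  rfl

end St

open St

variable {K : Finset (Finset (Fin 18))}

/-- **The start for `Z_18`.** -/
theorem startC (h : Hyp K α9)
    (hg : ∀ σ : Finset (Fin 18), σ ∈ K ↔ σ.image (fun i => i + 1) ∈ K) :
    ∃ y, Good cTab K y ∧ At cTab K y 257 := by
  obtain ⟨y, hy⟩ := goodC h hg
  refine normal ⟨y, hy⟩ (smith_tab chkG_c h hy.inv (s0 := 6) (by norm_num)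
    (fun i => decide ((i : ℕ) % 2 = 0)) (by decide +kernel) (by decide +kernel)
    (by decide +kernel) (by decide +kernel) (by decide +kernel) (by decide +kernel)
    (by decide +kernel)) (by decide +kernel) (by norm_num) (by norm_num [cTab])

/-- **The start for `Z_3^2 x Z_2`.** -/
theorem startZ (h : Hyp K α9) (hg1 : ∀ σ : Finset (Fin 18), σ ∈ K ↔ σ.image a1 ∈ K)
    (hg2 : ∀ σ : Finset (Fin 18), σ ∈ K ↔ σ.image a2 ∈ K) :
    ∃ y, Good zTab K y ∧ At zTab K y 47 ∧ D (e18 zTab.r6 290) ∈ K ∧ D (e18 zTab.r6 302) ∈ K ∧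
      D (e18 zTab.r6 303) ∈ K := by
  obtain ⟨y, hy⟩ := goodZ h hg1 hg2
  obtain ⟨y', hy', ha⟩ := normal (f := 47) ⟨y, hy⟩ (smith_tab chkG_z h hy.inv (s0 := 1)
    (by norm_num) (fun i => decide ((i : ℕ) < 9)) (by decide +kernel) (by decide +kernel)
    (by decide +kernel) (by decide +kernel) (by decide +kernel) (by decide +kernel)
    (by decide +kernel)) (by decide +kernel) (by norm_num) (by norm_num [zTab])
  refine ⟨y', hy', ha, ?_, ?_, ?_⟩
  · exact smith_tab chkG_z h hy.inv (s0 := 3) (by norm_num) (fun i => decide ((i : ℕ) < 9))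
      (by decide +kernel) (by decide +kernel) (by decide +kernel) (by decide +kernel)
      (by decide +kernel) (by decide +kernel) (by decide +kernel)
  · exact smith_tab chkG_z h hy.inv (s0 := 4) (by norm_num) (fun i => decide ((i : ℕ) < 9))
      (by decide +kernel) (by decide +kernel) (by decide +kernel) (by decide +kernel)
      (by decide +kernel) (by decide +kernel) (by decide +kernel)
  · exact smith_tab chkG_z h hy.inv (s0 := 5) (by norm_num) (fun i => decide ((i : ℕ) < 9))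
      (by decide +kernel) (by decide +kernel) (by decide +kernel) (by decide +kernel)
      (by decide +kernel) (by decide +kernel) (by decide +kernel)

/-- the initial masks -/
def cT : ℕ := row cTab.ct 257
def cF : ℕ := opp 257
def zT : ℕ := row zTab.ct 47 ||| (row zTab.ct 290 &&& row zTab.ct (290 + 304)) |||
  (row zTab.ct 302 &&& row zTab.ct (302 + 304)) ||| (row zTab.ct 303 &&& row zTab.ct (303 + 304))
def zF : ℕ := opp 47

/-- **The initial state for `Z_18`.** -/
theorem satC {y : Finset (Fin 18) → ZMod 3}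
    (hct : ∀ a b, (row cTab.ct a).testBit b = true → At cTab K y a → At cTab K y b)
    (ha : At cTab K y 257) : Sat (At cTab K y) cT cF :=
  ⟨fun i hi => hct 257 i hi ha, opp_not (by norm_num) ha⟩

/-- **The initial state for `Z_3^2 x Z_2`.** -/
theorem satZ {y : Finset (Fin 18) → ZMod 3} (h : Good zTab K y)
    (hct : ∀ a b, (row zTab.ct a).testBit b = true → At zTab K y a → At zTab K y b)
    (ha : At zTab K y 47) (h1 : D (e18 zTab.r6 290) ∈ K) (h2 : D (e18 zTab.r6 302) ∈ K)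
    (h3 : D (e18 zTab.r6 303) ∈ K) : Sat (At zTab K y) zT zF := by
  refine ⟨fun i hi => ?_, opp_not (by norm_num) ha⟩
  unfold zT at hi
  rw [Nat.testBit_or, Bool.or_eq_true, Nat.testBit_or, Bool.or_eq_true, Nat.testBit_or,
    Bool.or_eq_true] at hi
  rcases hi with ((hi | hi) | hi) | hi
  · exact hct 47 i hi ha
  · exact common h hct h1 (by decide +kernel) (by norm_num) (by norm_num [zTab]) i hi
  · exact common h hct h2 (by decide +kernel) (by norm_num) (by norm_num [zTab]) i hi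
  · exact common h hct h3 (by decide +kernel) (by norm_num) (by norm_num [zTab]) i hi

end H23.LZ.Ck
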