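import Pool.Agent.H23.LZ.Rul
import Pool.Agent.H23.LZ.CkCT
import Pool.Agent.H23.LZ.CkQT
import Pool.Agent.H23.LZ.CkS6T
import Pool.Agent.H23.LZ.KillC
import Pool.Agent.H23.LZ.Start

/-!
# The two groups: contradiction from a certificate
-/

namespace H23.LZ.Ck

open H40.VT St Pool.Agent.H53.AEG

set_option maxRecDepth 100000

theorem chkCl_c : chkCl cTab = true := by decide +kernel

theorem chkCl_z : chkCl zTab = true := by decide +kernel

theorem chkR_c : Rid.chkR cTab = true := by decide +kernel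

theorem chkR_z : Rid.chkR zTab = true := by decide +kernel

theorem chkN_c : chkN cTab = true := by decide +kernel

theorem chkN_z : chkN zTab = true := by decide +kernel

variable {K : Finset (Finset (Fin 18))} {y : Finset (Fin 18) → ZMod 3}

theorem rules_c (G : Good cTab K y) : Rules cTab (At cTab K y) :=
  rules_of G chkG_c chkCl_c chkR_c chkN_c chkQ_c Cnt.chkC_c chkS6_c

theorem rules_z (G : Good zTab K y) : Rules zTab (At zTab K y) :=
  rules_of G chkG_z chkCl_z chkR_z chkN_z chkQ_z Cnt.chkC_z chkS6_z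

theorem ct_lt_c : cTab.ct < 2 ^ (944 * 944) := by decide +kernel

theorem ct_lt_z : zTab.ct < 2 ^ (944 * 944) := by decide +kernel

theorem row_zero {t : ℕ} (ht : t < 2 ^ (944 * 944)) {a : ℕ} (ha : 944 ≤ a) : row t a = 0 := by
  have h : t >>> (944 * a) = 0 := by
    rw [Nat.shiftRight_eq_div_pow]
    exact Nat.div_eq_of_lt (lt_of_lt_of_le ht (Nat.pow_le_pow_right (by norm_num) (by omega)))
  unfold row
  show Nat.mod (t >>> (944 * a)) _ = 0
  rw [h]
  exact Nat.zero_mod _

theorem hct_of {tb : Tab} (G : Good tb K y) (hg : chkG tb = true) (hc : chkCl tb = true)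
    (ht : tb.ct < 2 ^ (944 * 944)) (a b : ℕ) (h : (row tb.ct a).testBit b = true)
    (hA : At tb K y a) : At tb K y b := by
  by_cases ha : a < 944
  · exact ct_ok G hg hc ha h hA
  · rw [row_zero ht (by omega), Nat.zero_testBit] at h
    exact absurd h Bool.false_ne_true

/-- no complex for `Z_18`, given a certificate -/
theorem c18_of {cert : List ℕ} (h : check cTab cXt cXf 12 cert cT cF = true)
    (K : Finset (Finset (Fin 18))) (hK : Hyp K α9)
    (hg : ∀ σ : Finset (Fin 18), σ ∈ K ↔ σ.image (fun i => i + 1) ∈ K) : False := by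
  obtain ⟨y, G, ha⟩ := startC hK hg
  exact check_sound (rules_c G) (cKill chkG_c G) h
    (satC (hct_of G chkG_c chkCl_c ct_lt_c) ha)

/-- no complex for `Z_3^2 x Z_2`, given a certificate -/
theorem c33_of {cert : List ℕ} (h : check zTab 0 0 0 cert zT zF = true)
    (K : Finset (Finset (Fin 18))) (hK : Hyp K α9)
    (hg1 : ∀ σ : Finset (Fin 18), σ ∈ K ↔ σ.image a1 ∈ K)
    (hg2 : ∀ σ : Finset (Fin 18), σ ∈ K ↔ σ.image a2 ∈ K) : False := by
  obtain ⟨y, G, ha, h1, h2, h3⟩ := startZ hK hg1 hg2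
  exact check_sound (rules_z G) (fun j hj => absurd hj (Nat.not_lt_zero j)) h
    (satZ G (hct_of G chkG_z chkCl_z ct_lt_z) ha h1 h2 h3)

end H23.LZ.Ck
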