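import Pool.Agent.H23.LZ.Asm

/-!
# The two groups: contradiction from certificates in several parts
-/

namespace H23.LZ.Ck

open H40.VT St Pool.Agent.H53.AEG

/-- no complex for `Z_18`, given certificates in several parts: the rows `12 + j` of `XT`, `XF`
are states refuted by certificates of their own -/
theorem c18_of' {XT XF m : ℕ}
    (h12 : ∀ j < 12, row XT j = row cXt j ∧ row XF j = row cXf j)
    (hp : ∀ j < m, ∃ cert, check cTab XT XF 12 cert (row XT (12 + j)) (row XF (12 + j)) = true)
    {cert : List ℕ} (h : check cTab XT XF (12 + m) cert cT cF = true)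
    (K : Finset (Finset (Fin 18))) (hK : Hyp K α9)
    (hg : ∀ σ : Finset (Fin 18), σ ∈ K ↔ σ.image (fun i => i + 1) ∈ K) : False := by
  obtain ⟨y, G, ha⟩ := startC hK hg
  have h0 : ∀ j < 12, ¬ Sat (At cTab K y) (row XT j) (row XF j) := by
    intro j hj
    rw [(h12 j hj).1, (h12 j hj).2]
    exact cKill chkG_c G j hj
  have hX : ∀ j < 12 + m, ¬ Sat (At cTab K y) (row XT j) (row XF j) := by
    intro j hj
    by_cases h1 : j < 12
    · exact h0 j h1
    · obtain ⟨j', rfl⟩ := Nat.exists_eq_add_of_le (Nat.le_of_not_lt h1)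
      obtain ⟨cert', h2⟩ := hp j' (by omega)
      exact check_sound (rules_c G) h0 h2
  exact check_sound (rules_c G) hX h (satC (hct_of G chkG_c chkCl_c ct_lt_c) ha)

/-- no complex for `Z_3^2 x Z_2`, given certificates in several parts -/
theorem c33_of' {XT XF m : ℕ}
    (hp : ∀ j < m, ∃ cert, check zTab XT XF 0 cert (row XT j) (row XF j) = true)
    {cert : List ℕ} (h : check zTab XT XF m cert zT zF = true)
    (K : Finset (Finset (Fin 18))) (hK : Hyp K α9)
    (hg1 : ∀ σ : Finset (Fin 18), σ ∈ K ↔ σ.image a1 ∈ K)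
    (hg2 : ∀ σ : Finset (Fin 18), σ ∈ K ↔ σ.image a2 ∈ K) : False := by
  obtain ⟨y, G, ha, h1, h2, h3⟩ := startZ hK hg1 hg2
  have hX : ∀ j < m, ¬ Sat (At zTab K y) (row XT j) (row XF j) := by
    intro j hj
    obtain ⟨cert', h4⟩ := hp j hj
    exact check_sound (rules_z G) (fun j hj => absurd hj (Nat.not_lt_zero j)) h4
  exact check_sound (rules_z G) hX h (satZ G (hct_of G chkG_z chkCl_z ct_lt_z) ha h1 h2 h3)

end H23.LZ.Ck
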