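import Mathlib

/-!
# The kernel checker for the search trees: definitions

States are pairs of masks `T`, `F` over 944 atoms: `f < 304`: facet orbit `f` in `K` with sign `1`,
`304 + f`: with sign `-1`, `608 + r`: ridge orbit `r` in `K`, `832 + q`: orbit `q` of 4-sets in `K`.
-/

namespace H23.LZ.Ck

/-- forced evaluation -/
def fo (x : ℕ) (k : ℕ → Bool) : Bool :=
  @Nat.rec (fun _ => Bool) (k 0) (fun m _ => k m) (Nat.add x 1)

/-- if -/
def ic (c a b : Bool) : Bool := @Bool.rec (fun _ => Bool) b a c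

/-- if, natural numbers -/
def cn (c : Bool) (a b : ℕ) : ℕ := @Bool.rec (fun _ => ℕ) b a c

/-- bit -/
def bt (m i : ℕ) : Bool := Nat.beq (Nat.mod (Nat.shiftRight m i) 2) 1

/-- the mask with the single bit `i` -/
def bi (i : ℕ) : ℕ := Nat.shiftLeft 1 i

/-- the data of a group of order 18 acting on 18 points -/
structure Tab where
  /-- the group, width 5, entry `18 s + i` is the image of `i` under the element `s` -/
  gp : ℕ
  /-- number of orbits of facets and triples -/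
  nf : ℕ
  nt : ℕ
  /-- representatives (vertex masks), width 18 -/
  r3 : ℕ
  r4 : ℕ
  r5 : ℕ
  r6 : ℕ
  /-- incidences, width 24: id (9 bits), group element (5 bits), vertex (5 bits), vertex or sign
  (5 bits) -/
  fy : ℕ
  fz : ℕ
  rz : ℕ
  rf : ℕ
  qy : ℕ
  qf : ℕ
  tz : ℕ
  ty : ℕ
  /-- closures, width 944 -/
  ct : ℕ
  df : ℕ
  /-- sides of the ridges, width 944 -/
  sa : ℕ
  sb : ℕ

/-- row of a table of width 944 -/
def row (t i : ℕ) : ℕ := Nat.mod (Nat.shiftRight t (Nat.mul 944 i)) (Nat.pow 2 944)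

/-- entry of a table of width 24 -/
def en (t i : ℕ) : ℕ := Nat.mod (Nat.shiftRight t (Nat.mul 24 i)) 16777216

/-- entry of a table of width 18 -/
def e18 (t i : ℕ) : ℕ := Nat.mod (Nat.shiftRight t (Nat.mul 18 i)) 262144

/-- the parts of an entry -/
def eid (e : ℕ) : ℕ := Nat.mod e 512
def eg (e : ℕ) : ℕ := Nat.mod (Nat.shiftRight e 9) 32
def ea (e : ℕ) : ℕ := Nat.mod (Nat.shiftRight e 14) 32
def eb (e : ℕ) : ℕ := Nat.shiftRight e 19

/-- the opposite atom of a facet atom, as a mask -/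
def opp (a : ℕ) : ℕ :=
  cn (Nat.blt a 304) (bi (Nat.add a 304)) (cn (Nat.blt a 608) (bi (Nat.sub a 304)) 0)

/-- the atoms of 4-sets in a mask -/
def zpart (x : ℕ) : ℕ := Nat.shiftLeft (Nat.shiftRight x 832) 832

/-- the atoms of ridges in a mask -/
def ypart (x : ℕ) : ℕ := Nat.shiftLeft (Nat.mod (Nat.shiftRight x 608) (Nat.pow 2 224)) 608

/-- at most one bit -/
def one (x : ℕ) : Bool := Nat.beq (Nat.land x (Nat.sub x 1)) 0

/-- one step of the binary search for the position of the highest bit -/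
def lgs (s u b : ℕ) (k : ℕ → ℕ → Bool) : Bool :=
  fo (Nat.shiftRight u s) fun t => ic (Nat.beq t 0) (k u b) (fo (Nat.add b s) fun b' => k t b')

/-- the position of the highest bit -/
def lg (u : ℕ) (k : ℕ → Bool) : Bool :=
  ic (Nat.beq (Nat.shiftRight u 1024) 0)
    (lgs 512 u 0 fun u b => lgs 256 u b fun u b => lgs 128 u b fun u b => lgs 64 u b fun u b =>
      lgs 32 u b fun u b => lgs 16 u b fun u b => lgs 8 u b fun u b => lgs 4 u b fun u b =>
      lgs 2 u b fun u b => lgs 1 u b fun _ b => k b)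
    (k (Nat.log2 u))

/-- set atom `a` true -/
def asT (tb : Tab) (a T F : ℕ) (ok : ℕ → ℕ → Bool) (cf : Bool) : Bool :=
  fo (Nat.lor T (row tb.ct a)) fun T' => fo (Nat.lor F (opp a)) fun F' =>
    ic (Nat.beq (Nat.land T' F') 0) (ok T' F') cf

/-- set atom `a` false -/
def asF (tb : Tab) (a T F : ℕ) (ok : ℕ → ℕ → Bool) (cf : Bool) : Bool :=
  fo (Nat.lor F (row tb.df a)) fun F' => ic (Nat.beq (Nat.land T F') 0) (ok T F') cf

/-- one side of a ridge: `S` is the mask of the facet atoms with a given induced sign -/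
def side (tb : Tab) (S r T F : ℕ) (ok : ℕ → ℕ → Bool) (cf : Bool) : Bool :=
  fo (Nat.land T S) fun t =>
    ic (Nat.beq t 0)
      (fo (Nat.xor S (Nat.land S F)) fun u =>
        ic (Nat.beq u 0) (asF tb (Nat.add 608 r) T F ok cf)
          (ic (one u) (ic (bt T (Nat.add 608 r)) (lg u fun a => asT tb a T F ok cf) (ok T F))
            (ok T F)))
      (ic (one t)
        (fo (Nat.lor F (Nat.xor S t)) fun F' => ic (Nat.beq (Nat.land T F') 0) (ok T F') cf)
        cf)

/-- the ridge rule -/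
def ruR (tb : Tab) (r T F : ℕ) (ok : ℕ → ℕ → Bool) (cf : Bool) : Bool :=
  fo (row tb.sa r) fun S => side tb S r T F
    (fun T' F' => fo (row tb.sb r) fun S' => side tb S' r T' F' ok cf) cf

/-- a 5-set all of whose 4-subsets are faces is a face -/
def ruN5 (tb : Tab) (r T F : ℕ) (ok : ℕ → ℕ → Bool) (cf : Bool) : Bool :=
  fo (zpart (row tb.ct (Nat.add 608 r))) fun z =>
    fo (Nat.xor z (Nat.land z T)) fun u =>
      ic (Nat.beq u 0) (asT tb (Nat.add 608 r) T F ok cf)
        (ic (one u) (ic (bt F (Nat.add 608 r)) (lg u fun a => asF tb a T F ok cf) (ok T F)) (ok T F))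

/-- a 6-set all of whose 5-subsets are faces is a facet -/
def ruN6 (tb : Tab) (f T F : ℕ) (ok : ℕ → ℕ → Bool) (cf : Bool) : Bool :=
  fo (ypart (row tb.ct f)) fun y =>
    fo (Nat.xor y (Nat.land y T)) fun u =>
      ic (Nat.beq u 0)
        (ic (bt F f) (asT tb (Nat.add f 304) T F ok cf)
          (ic (bt F (Nat.add f 304)) (asT tb f T F ok cf) (ok T F)))
        (ic (one u)
          (ic (bt F f) (ic (bt F (Nat.add f 304)) (lg u fun a => asF tb a T F ok cf) (ok T F))
            (ok T F))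
          (ok T F))

/-- xor of Booleans -/
def bx (a b : Bool) : Bool := @Bool.rec (fun _ => Bool) b (@Bool.rec (fun _ => Bool) true false b) a

/-- the crossing 4-sets of a facet for the partition `A` (`n` entries of `fz` from `i` on) -/
def s6z (tb : Tab) (A : ℕ) (n : ℕ) : ℕ → ℕ → (ℕ → Bool) → Bool :=
  @Nat.rec (fun _ => ℕ → ℕ → (ℕ → Bool) → Bool) (fun _ z k => k z)
    (fun _ ih i z k => fo (en tb.fz i) fun e =>
      ic (bx (bt A (ea e)) (bt A (eb e)))
        (fo (Nat.lor z (bi (Nat.add 832 (eid e)))) fun z' => ih (Nat.add i 1) z' k)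
        (ih (Nat.add i 1) z k)) n

/-- the ridges `U - v`, `v ∈ A` of a facet (`n` entries of `fy` from `i` on) -/
def s6y (tb : Tab) (A : ℕ) (n : ℕ) : ℕ → ℕ → (ℕ → Bool) → Bool :=
  @Nat.rec (fun _ => ℕ → ℕ → (ℕ → Bool) → Bool) (fun _ z k => k z)
    (fun _ ih i z k => fo (en tb.fy i) fun e =>
      ic (bt A (ea e))
        (fo (Nat.lor z (bi (Nat.add 608 (eid e)))) fun z' => ih (Nat.add i 1) z' k)
        (ih (Nat.add i 1) z k)) n

/-- set the ridges `U - v`, `v ∈ A` true -/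
def s6a (tb : Tab) (A : ℕ) (cf : Bool) (ok : ℕ → ℕ → Bool) (n : ℕ) : ℕ → ℕ → ℕ → Bool :=
  @Nat.rec (fun _ => ℕ → ℕ → ℕ → Bool) (fun _ T F => ok T F)
    (fun _ ih i T F => fo (en tb.fy i) fun e =>
      ic (bt A (ea e)) (asT tb (Nat.add 608 (eid e)) T F (fun T' F' => ih (Nat.add i 1) T' F') cf)
        (ih (Nat.add i 1) T F)) n

/-- the partition rule: `A`, `B` vertex masks -/
def ruS6 (tb : Tab) (f A B T F : ℕ) (ok : ℕ → ℕ → Bool) (cf : Bool) : Bool :=
  s6z tb A 15 (Nat.mul 15 f) 0 fun z => fo (Nat.xor z (Nat.land z T)) fun u =>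
    ic (one u)
      (s6y tb A 6 (Nat.mul 6 f) 0 fun ya => s6y tb B 6 (Nat.mul 6 f) 0 fun yb =>
        ic (Nat.beq u 0)
          (ic (Nat.beq (Nat.land ya F) 0)
            (ic (Nat.beq (Nat.land yb F) 0) (ok T F) (s6a tb A cf ok 6 (Nat.mul 6 f) T F))
            (s6a tb B cf ok 6 (Nat.mul 6 f) T F))
          (ic (Nat.beq (Nat.land ya F) 0) (ok T F)
            (ic (Nat.beq (Nat.land yb F) 0) (ok T F) (lg u fun a => asF tb a T F ok cf))))
      (ok T F)

/-- the edges of a closed path in the link of a 4-set: `n` local edges, 6 bits each, in strictly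
decreasing order, all below `p`; `x` the sum mod 2 of the endpoints, `o` their union -/
def cyc (tb : Tab) (q T : ℕ) (n : ℕ) : ℕ → ℕ → ℕ → ℕ → (ℕ → ℕ → Bool) → Bool :=
  @Nat.rec (fun _ => ℕ → ℕ → ℕ → ℕ → (ℕ → ℕ → Bool) → Bool) (fun _ _ x o k => k x o)
    (fun _ ih p c x o k => fo (Nat.mod c 64) fun j =>
      ic (Nat.blt j p)
        (fo (en tb.qf (Nat.add (Nat.mul 40 q) j)) fun e =>
          ic (ic (bt T (eid e)) true (bt T (Nat.add 304 (eid e))))
            (fo (Nat.shiftRight c 6) fun c' => fo (Nat.lor (bi (ea e)) (bi (eb e))) fun m =>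
              fo (Nat.xor x m) fun x' => fo (Nat.lor o m) fun o' => ih j c' x' o' k)
            false)
        false) n

/-- the vertices outside a closed cycle are not in the link -/
def qout (tb : Tab) (o : ℕ) (cf : Bool) (ok : ℕ → ℕ → Bool) (n : ℕ) : ℕ → ℕ → ℕ → Bool :=
  @Nat.rec (fun _ => ℕ → ℕ → ℕ → Bool) (fun _ T F => ok T F)
    (fun _ ih i T F => fo (en tb.qy i) fun e =>
      ic (bt o (ea e)) (ih (Nat.add i 1) T F)
        (asF tb (Nat.add 608 (eid e)) T F (fun T' F' => ih (Nat.add i 1) T' F') cf)) n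

/-- the cycle rule: `n` edges `es` -/
def ruQ (tb : Tab) (q n es T F : ℕ) (ok : ℕ → ℕ → Bool) (cf : Bool) : Bool :=
  ic (Nat.beq n 0) false
    (cyc tb q T n 40 es 0 0 fun x o => ic (Nat.beq x 0) (qout tb o cf ok 10 (Nat.mul 10 q) T F) false)

/-- number of entries from `i` on (of `n`) whose atom `b + id` has bit value `v` in `M` -/
def cnt (t b M : ℕ) (n : ℕ) : ℕ → ℕ → (ℕ → Bool) → Bool :=
  @Nat.rec (fun _ => ℕ → ℕ → (ℕ → Bool) → Bool) (fun _ s k => k s)
    (fun _ ih i s k => fo (Nat.add b (eid (en t i))) fun a =>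
      ic (bt M a) (fo (Nat.add s 1) fun s' => ih (Nat.add i 1) s' k) (ih (Nat.add i 1) s k)) n

/-- set all entries not false to true -/
def allT (tb : Tab) (t b : ℕ) (cf : Bool) (ok : ℕ → ℕ → Bool) (n : ℕ) : ℕ → ℕ → ℕ → Bool :=
  @Nat.rec (fun _ => ℕ → ℕ → ℕ → Bool) (fun _ T F => ok T F)
    (fun _ ih i T F => fo (Nat.add b (eid (en t i))) fun a =>
      ic (bt F a) (ih (Nat.add i 1) T F)
        (asT tb a T F (fun T' F' => ih (Nat.add i 1) T' F') cf)) n

/-- set all entries not true to false -/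
def allF (tb : Tab) (t b : ℕ) (cf : Bool) (ok : ℕ → ℕ → Bool) (n : ℕ) : ℕ → ℕ → ℕ → Bool :=
  @Nat.rec (fun _ => ℕ → ℕ → ℕ → Bool) (fun _ T F => ok T F)
    (fun _ ih i T F => fo (Nat.add b (eid (en t i))) fun a =>
      ic (bt T a) (ih (Nat.add i 1) T F)
        (asF tb a T F (fun T' F' => ih (Nat.add i 1) T' F') cf)) n

/-- the counting rule `E = 3 V - 6` in the link of a triple, many edges -/
def ruC0 (tb : Tab) (t T F : ℕ) (ok : ℕ → ℕ → Bool) (cf : Bool) : Bool :=
  cnt tb.tz 832 F 12 (Nat.mul 12 t) 0 fun zf => fo (Nat.sub 12 zf) fun zu =>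
    cnt tb.ty 608 T 60 (Nat.mul 60 t) 0 fun yl =>
      ic (Nat.blt (Nat.mul 3 zu) (Nat.add yl 6)) cf
        (ic (Nat.beq (Nat.mul 3 zu) (Nat.add yl 6))
          (allF tb tb.ty 608 cf (fun T' F' => allT tb tb.tz 832 cf ok 12 (Nat.mul 12 t) T' F') 60
            (Nat.mul 60 t) T F)
          (ok T F))

/-- the counting rule `E = 3 V - 6` in the link of a triple, few edges -/
def ruC1 (tb : Tab) (t T F : ℕ) (ok : ℕ → ℕ → Bool) (cf : Bool) : Bool :=
  cnt tb.tz 832 T 12 (Nat.mul 12 t) 0 fun zl => cnt tb.ty 608 F 60 (Nat.mul 60 t) 0 fun yf =>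
    fo (cn (Nat.blt zl 4) 4 zl) fun zm => fo (Nat.sub 60 yf) fun yu =>
      ic (Nat.blt (Nat.add yu 6) (Nat.mul 3 zm)) cf
        (ic (Nat.beq (Nat.mul 3 zm) (Nat.add yu 6))
          (ic (Nat.blt zl 4) (allT tb tb.ty 608 cf ok 60 (Nat.mul 60 t) T F)
            (allF tb tb.tz 832 cf (fun T' F' => allT tb tb.ty 608 cf ok 60 (Nat.mul 60 t) T' F')
              12 (Nat.mul 12 t) T F))
          (ok T F))

end H23.LZ.Ck
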