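import Pool.Agent.H23.LZ.CkS

/-!
# The interpreter of certificates

A certificate is a list of chunks, read from the low end: operation code (3 bits) and arguments.
`1 r(8)` ridge rule, `2 f(9) A(18)` partition rule, `3 a(10) v(1)` case distinction on the atom `a`
(first the case of truth value `v`, the rest of the text after its refutation is for the other
value), `4 q(7) n(4) es(6 n)` cycle rule, `5 r(8)`, `6 f(9)` closure rules, `7 0(2) t(6)`,
`7 2(2) t(6)` counting rules, `7 1(2) j(10)` external clause, `0` next chunk.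
-/

namespace H23.LZ.Ck

/-- inclusion of masks -/
def msub (a b : ℕ) : Bool := Nat.beq (Nat.land a b) a

section

variable (tb : Tab) (xt xf nx : ℕ) (ih : ℕ → List ℕ → ℕ → ℕ → (ℕ → List ℕ → Bool) → Bool)
  (d : ℕ) (l : List ℕ) (T F : ℕ) (k : ℕ → List ℕ → Bool)

def iR : Bool :=
  fo (Nat.mod d 256) fun r => fo (Nat.shiftRight d 8) fun c =>
    ic (Nat.blt r 224) (ruR tb r T F (fun T' F' => ih c l T' F' k) (k c l)) false

def iS6 : Bool :=
  fo (Nat.mod d 512) fun f => fo (Nat.mod (Nat.shiftRight d 9) 262144) fun A =>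
    fo (Nat.shiftRight d 27) fun c => fo (Nat.xor (e18 tb.r6 f) A) fun B =>
      ic (Nat.blt f tb.nf) (ic (Nat.beq (Nat.land A B) 0)
        (ruS6 tb f A B T F (fun T' F' => ih c l T' F' k) (k c l)) false) false

/-- continuation of the case `a` true: `a` is false -/
def kF (a c : ℕ) (l : List ℕ) : Bool :=
  asF tb a T F (fun T' F' => ih c l T' F' k) (k c l)

/-- continuation of the case `a` false: `a` is true -/
def kT (a c : ℕ) (l : List ℕ) : Bool :=
  asT tb a T F (fun T' F' => ih c l T' F' k) (k c l)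

def iL : Bool :=
  fo (Nat.mod d 1024) fun a => fo (Nat.shiftRight d 11) fun c =>
    ic (Nat.blt a 944)
      (ic (bt d 10)
        (asT tb a T F (fun T' F' => ih c l T' F' (kF tb ih T F k a)) (kF tb ih T F k a c l))
        (asF tb a T F (fun T' F' => ih c l T' F' (kT tb ih T F k a)) (kT tb ih T F k a c l)))
      false

def iQ : Bool :=
  fo (Nat.mod d 128) fun q => fo (Nat.mod (Nat.shiftRight d 7) 16) fun n =>
    fo (Nat.shiftRight d 11) fun e => fo (Nat.mod e (Nat.pow 64 n)) fun es =>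
      fo (Nat.shiftRight e (Nat.mul 6 n)) fun c =>
        ic (Nat.blt q 112) (ruQ tb q n es T F (fun T' F' => ih c l T' F' k) (k c l)) false

def iN5 : Bool :=
  fo (Nat.mod d 256) fun r => fo (Nat.shiftRight d 8) fun c =>
    ic (Nat.blt r 224) (ruN5 tb r T F (fun T' F' => ih c l T' F' k) (k c l)) false

def iN6 : Bool :=
  fo (Nat.mod d 512) fun f => fo (Nat.shiftRight d 9) fun c =>
    ic (Nat.blt f tb.nf) (ruN6 tb f T F (fun T' F' => ih c l T' F' k) (k c l)) false

def iO : Bool :=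
  ic (Nat.beq (Nat.mod d 4) 0)
    (fo (Nat.mod (Nat.shiftRight d 2) 64) fun t => fo (Nat.shiftRight d 8) fun c =>
      ic (Nat.blt t tb.nt) (ruC1 tb t T F (fun T' F' => ih c l T' F' k) (k c l)) false)
    (ic (Nat.beq (Nat.mod d 4) 1)
      (fo (Nat.mod (Nat.shiftRight d 2) 1024) fun j => fo (Nat.shiftRight d 12) fun c =>
        ic (Nat.blt j nx) (ic (msub (row xt j) T) (ic (msub (row xf j) F) (k c l) false) false)
          false)
      (fo (Nat.mod (Nat.shiftRight d 2) 64) fun t => fo (Nat.shiftRight d 8) fun c =>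
        ic (Nat.blt t tb.nt) (ruC0 tb t T F (fun T' F' => ih c l T' F' k) (k c l)) false))

def iE : Bool :=
  @List.rec ℕ (fun _ => Bool) false (fun c l' _ => ih c l' T F k) l

def step (c : ℕ) : Bool :=
  fo (Nat.mod c 8) fun op => fo (Nat.shiftRight c 3) fun d =>
    ic (Nat.beq op 1) (iR tb ih d l T F k)
      (ic (Nat.beq op 2) (iS6 tb ih d l T F k)
        (ic (Nat.beq op 3) (iL tb ih d l T F k)
          (ic (Nat.beq op 4) (iQ tb ih d l T F k)
            (ic (Nat.beq op 5) (iN5 tb ih d l T F k)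
              (ic (Nat.beq op 6) (iN6 tb ih d l T F k)
                (ic (Nat.beq op 7) (iO tb xt xf nx ih d l T F k) (iE ih l T F k)))))))

end

/-- the interpreter -/
def run (tb : Tab) (xt xf nx n : ℕ) : ℕ → List ℕ → ℕ → ℕ → (ℕ → List ℕ → Bool) → Bool :=
  @Nat.rec (fun _ => ℕ → List ℕ → ℕ → ℕ → (ℕ → List ℕ → Bool) → Bool) (fun _ _ _ _ _ => false)
    (fun _ ih c l T F k => step tb xt xf nx ih l T F k c) n

/-- the top level -/
def check (tb : Tab) (xt xf nx : ℕ) (cert : List ℕ) (T F : ℕ) : Bool :=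
  run tb xt xf nx 1000000 0 cert T F fun _ _ => true

/-- what the soundness of the interpreter needs -/
structure Rules (tb : Tab) (A : ℕ → Prop) : Prop where
  tT : ∀ a < 944, ∀ T F ok cf, (Sat A T F → A a) → asT tb a T F ok cf = true → Res A T F ok cf
  tF : ∀ a < 944, ∀ T F ok cf, (Sat A T F → ¬ A a) → asF tb a T F ok cf = true → Res A T F ok cf
  R : ∀ r < 224, ∀ T F ok cf, ruR tb r T F ok cf = true → Res A T F ok cf
  N5 : ∀ r < 224, ∀ T F ok cf, ruN5 tb r T F ok cf = true → Res A T F ok cf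
  N6 : ∀ f < tb.nf, ∀ T F ok cf, ruN6 tb f T F ok cf = true → Res A T F ok cf
  S6 : ∀ f < tb.nf, ∀ A' B, A' &&& B = 0 → A' ||| B = e18 tb.r6 f → ∀ T F ok cf,
    ruS6 tb f A' B T F ok cf = true → Res A T F ok cf
  Q : ∀ q < 112, ∀ n es T F ok cf, ruQ tb q n es T F ok cf = true → Res A T F ok cf
  C0 : ∀ t < tb.nt, ∀ T F ok cf, ruC0 tb t T F ok cf = true → Res A T F ok cf
  C1 : ∀ t < tb.nt, ∀ T F ok cf, ruC1 tb t T F ok cf = true → Res A T F ok cf

end H23.LZ.Ck
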