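import Pool.Agent.H23.LZ.CkI
import Pool.Agent.H23.LZ.CkD

/-!
# Soundness of the counting rules
-/

namespace H23.LZ.Ck.Cnt

open H40.VT

/-! ### the link of a triple -/

section Link

variable {K : Finset (Finset (Fin 18))}

theorem link3 (h : Sph 6 K) {τ : Finset (Fin 18)} (hτ : τ ∈ K) (hc : τ.card = 3) :
    ((lk K τ).filter fun σ => σ.card = 2).card + 6 =
      3 * (Finset.univ.filter fun v => v ∉ τ ∧ insert v τ ∈ K).card ∧
    4 ≤ (Finset.univ.filter fun v => v ∉ τ ∧ insert v τ ∈ K).card := by
  classical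
  have h1 := link_tri h hτ (by omega)
  have h2 := Cor_double h (σ := τ) (by omega)
  have h3 : ((lk K τ).filter fun σ => σ.card = 1).card =
      (Finset.univ.filter fun v => v ∉ τ ∧ insert v τ ∈ K).card := by
    rw [Cor_card_one]
    congr 1
    exact Finset.filter_congr fun v _ => Cor_vert
  rw [h3] at h1
  obtain ⟨φ, hφ, hτφ, hφc⟩ := sphere_pure h.1 h.2.1 h.2.2 hτ
  have h4 : φ \ τ ∈ (lk K τ).filter fun σ => σ.card = 3 := by
    rw [Finset.mem_filter, mem_lk]
    refine ⟨⟨Finset.sdiff_disjoint, ?_⟩, ?_⟩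
    · rw [Finset.sdiff_union_of_subset hτφ]
      exact hφ
    · rw [Finset.card_sdiff_of_subset hτφ, hφc, hc]
  have h5 : 0 < ((lk K τ).filter fun σ => σ.card = 3).card := Finset.card_pos.2 ⟨_, h4⟩
  refine ⟨by omega, ?_⟩
  by_contra h6
  have h7 : (Finset.univ.filter fun v => v ∉ τ ∧ insert v τ ∈ K).card = 3 := by omega
  have h8 : ((lk K τ).filter fun σ => σ.card = 3).card ≤ 1 := by
    rw [Finset.card_le_one]
    have key : ∀ σ ∈ (lk K τ).filter (fun σ => σ.card = 3),
        σ = Finset.univ.filter fun v => v ∉ τ ∧ insert v τ ∈ K := by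
      intro σ hσ
      rw [Finset.mem_filter] at hσ
      refine Finset.eq_of_subset_of_card_le ?_ (by rw [h7, hσ.2])
      intro v hv
      rw [Finset.mem_filter]
      refine ⟨Finset.mem_univ v, Cor_vert.1 (lk_DC h.1 τ σ hσ.1 {v} ?_)⟩
      exact Finset.singleton_subset_iff.2 hv
    intro a ha b hb
    rw [key a ha, key b hb]
  omega

end Link

/-! ### Boolean tools -/

theorem ic_and {a b : Bool} (h : ic a b false = true) : a = true ∧ b = true := by
  cases a
  · exact absurd h Bool.false_ne_true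
  · exact ⟨rfl, h⟩

theorem blt_lt {a b : ℕ} (h : Nat.blt a b = true) : a < b := Eq.mp Nat.blt_eq h

/-- collect the codes `c i`, all different -/
def mkc (c : ℕ → ℕ) (n : ℕ) : ℕ → ℕ → (ℕ → Bool) → Bool :=
  @Nat.rec (fun _ => ℕ → ℕ → (ℕ → Bool) → Bool) (fun _ M k => k M)
    (fun _ ih i M k => fo (c i) fun x =>
      ic (bt M x) false (fo (Nat.lor M (bi x)) fun M' => ih (Nat.add i 1) M' k)) n

theorem mkc_spec (c : ℕ → ℕ) (n : ℕ) : ∀ (i M : ℕ) (k : ℕ → Bool), mkc c n i M k = true →
    ∃ M', k M' = true ∧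
      (∀ x, M'.testBit x = true ↔ M.testBit x = true ∨ ∃ j, i ≤ j ∧ j < i + n ∧ c j = x) ∧
      (∀ j, i ≤ j → j < i + n → M.testBit (c j) = false) ∧
      (∀ j j', i ≤ j → j < j' → j' < i + n → c j ≠ c j') := by
  induction n with
  | zero =>
    intro i M k h
    refine ⟨M, h, fun x => ?_, fun j h1 h2 => by omega, fun j j' h1 h2 h3 => by omega⟩
    constructor
    · exact Or.inl
    · rintro (h | ⟨j, h1, h2, -⟩)
      · exact h
      · omega
  | succ n ih =>
    intro i M k h
    change ic (bt M (c i)) false (mkc c n (i + 1) (M ||| bi (c i)) k) = true at h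
    rw [ic_eq, bt_eq] at h
    split_ifs at h with h0
    obtain ⟨M', h1, h2, h3, h4⟩ := ih (i + 1) (M ||| bi (c i)) k h
    have hb : ∀ x, (M ||| bi (c i)).testBit x = true ↔ M.testBit x = true ∨ c i = x := by
      intro x
      rw [Nat.testBit_or, Bool.or_eq_true, bi_test, decide_eq_true_eq]
    refine ⟨M', h1, fun x => ?_, fun j h5 h6 => ?_, fun j j' h5 h6 h7 => ?_⟩
    · rw [h2, hb]
      constructor
      · rintro ((h | h) | ⟨j, h5, h6, h7⟩)
        · exact Or.inl h
        · exact Or.inr ⟨i, le_refl i, by omega, h⟩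
        · exact Or.inr ⟨j, by omega, by omega, h7⟩
      · rintro (h | ⟨j, h5, h6, h7⟩)
        · exact Or.inl (Or.inl h)
        · rcases Nat.eq_or_lt_of_le h5 with h8 | h8
          · left
            right
            rw [h8]
            exact h7
          · exact Or.inr ⟨j, h8, by omega, h7⟩
    · rcases Nat.eq_or_lt_of_le h5 with h8 | h8
      · rw [← h8]
        exact Bool.eq_false_iff.2 h0
      · have h9 := h3 j h8 (by omega)
        by_contra h10
        rw [Bool.not_eq_false] at h10
        rw [(hb _).2 (Or.inl h10)] at h9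
        exact absurd h9 (by decide)
    · rcases Nat.eq_or_lt_of_le h5 with h8 | h8
      · have h9 := h3 j' (by omega) (by omega)
        intro h10
        rw [← h8] at h10
        rw [(hb _).2 (Or.inr h10)] at h9
        exact absurd h9 (by decide)
      · exact h4 j j' h8 h6 (by omega)

/-- number of bits below 18 -/
def pc (m : ℕ) : ℕ :=
  @Nat.rec (fun _ => ℕ) 0 (fun i acc => Nat.add acc (Nat.mod (Nat.shiftRight m i) 2)) 18

theorem pc_eq (m : ℕ) : (D m).card = pc m := by
  have h1 : ∀ n, (@Nat.rec (fun _ => ℕ) 0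
      (fun i acc => Nat.add acc (Nat.mod (Nat.shiftRight m i) 2)) n : ℕ) =
      ∑ i ∈ Finset.range n, if m.testBit i then 1 else 0 := by
    intro n
    induction n with
    | zero => rfl
    | succ n ih =>
      rw [Finset.sum_range_succ, ← ih]
      change _ + ((m >>> n) % 2) = _
      congr 1
      have h2 : m.testBit n = ((m >>> n) % 2 != 0) := by
        rw [Nat.testBit, Nat.and_comm, Nat.and_one_is_mod]
      rw [h2]
      rcases Nat.mod_two_eq_zero_or_one (m >>> n) with h | h <;> rw [h] <;> rfl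
  unfold pc
  rw [h1, D, Finset.card_filter]
  exact Fin.sum_univ_eq_sum_range (fun i => if m.testBit i then 1 else 0) 18

/-- the antipode -/
def an (v : ℕ) : ℕ := Nat.mod (Nat.add v 9) 18

theorem α9_val (v : Fin 18) : ((Pool.Agent.H53.AEG.α9 v : Fin 18) : ℕ) = an v := by
  rw [Pool.Agent.H53.AEG.α9_apply]
  rfl

/-! ### the table check -/

/-- entry of `tz` -/
def ptz (tb : Tab) (m3 i : ℕ) : Bool :=
  fo (en tb.tz i) fun e => ic (Nat.blt (ea e) 18) (ic (Nat.blt (eg e) 18)
    (ic (Nat.blt (eid e) 112)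
      (Nat.beq (img tb (eg e) (e18 tb.r4 (eid e))) (Nat.lor m3 (bi (ea e)))) false) false) false

/-- entry of `ty` -/
def pty (tb : Tab) (m3 M i : ℕ) : Bool :=
  fo (en tb.ty i) fun e => ic (Nat.blt (eb e) 18) (ic (Nat.blt (ea e) (eb e))
    (ic (bt M (ea e)) (ic (bt M (eb e))
      (ic (Nat.blt (eg e) 18) (ic (Nat.blt (eid e) 224)
        (Nat.beq (img tb (eg e) (e18 tb.r5 (eid e)))
          (Nat.lor (Nat.lor m3 (bi (ea e))) (bi (eb e)))) false) false) false) false) false) false

/-- the vertex mask `M` -/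
def pM (m3 M v : ℕ) : Bool :=
  ic (bt m3 v) (ic (bt m3 (an v)) false (ic (bt M v) false true))
    (ic (bt m3 (an v)) (ic (bt M v) false true) (bt M v))

/-- every admissible pair has a code -/
def pC (M C c : ℕ) : Bool :=
  ic (Nat.blt (Nat.div c 18) (Nat.mod c 18)) (ic (bt M (Nat.div c 18)) (ic (bt M (Nat.mod c 18))
    (ic (Nat.beq (Nat.add (Nat.div c 18) 9) (Nat.mod c 18)) true (bt C c)) true) true) true

/-- the code of a pair -/
def cod (tb : Tab) (i : ℕ) : ℕ :=
  Nat.add (Nat.mul 18 (ea (en tb.ty i))) (eb (en tb.ty i))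

/-- all of a range -/
def al (p : ℕ → Bool) (n : ℕ) : Bool :=
  @Nat.rec (fun _ => Bool) true (fun i acc => ic (p i) acc false) n

theorem al_spec {p : ℕ → Bool} {n : ℕ} (h : al p n = true) : ∀ i < n, p i = true := chk_all h

/-- one triple -/
def pT (tb : Tab) (t : ℕ) : Bool :=
  fo (e18 tb.r3 t) fun m3 => ic (Nat.beq (pc m3) 3)
    (mkc (fun i => ea (en tb.tz i)) 12 (Nat.mul 12 t) 0 fun M =>
      ic (al (pM m3 M) 18)
        (ic (al (fun j => ptz tb m3 (Nat.add (Nat.mul 12 t) j)) 12)
          (ic (al (fun j => pty tb m3 M (Nat.add (Nat.mul 60 t) j)) 60)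
            (mkc (cod tb) 60 (Nat.mul 60 t) 0 fun C => al (pC M C) 324) false) false) false) false

/-- the check of the tables `tz`, `ty` -/
def chkC (tb : Tab) : Bool := al (pT tb) tb.nt

/-- what the check means -/
theorem pT_spec {tb : Tab} {t : ℕ} (h : pT tb t = true) :
    ∃ m3 M, m3 = e18 tb.r3 t ∧ (D m3).card = 3 ∧
      (∀ v < 18, m3.testBit v = true → m3.testBit (an v) = false) ∧
      (∀ v < 18, M.testBit v = true ↔ m3.testBit v = false ∧ m3.testBit (an v) = false) ∧
      (∀ x, M.testBit x = true ↔ ∃ j, 12 * t ≤ j ∧ j < 12 * t + 12 ∧ ea (en tb.tz j) = x) ∧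
      (∀ j j', 12 * t ≤ j → j < j' → j' < 12 * t + 12 → ea (en tb.tz j) ≠ ea (en tb.tz j')) ∧
      (∀ j < 12, ptz tb m3 (12 * t + j) = true) ∧
      (∀ j < 60, pty tb m3 M (60 * t + j) = true) ∧
      (∀ j j', 60 * t ≤ j → j < j' → j' < 60 * t + 60 → cod tb j ≠ cod tb j') ∧
      (∀ x x', x < x' → x' < 18 → M.testBit x = true → M.testBit x' = true → x + 9 ≠ x' →
        ∃ j, 60 * t ≤ j ∧ j < 60 * t + 60 ∧ cod tb j = 18 * x + x') := by
  obtain ⟨h1, h2⟩ := ic_and h
  obtain ⟨M, h3, h4, -, h6⟩ := mkc_spec _ _ _ _ _ h2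
  obtain ⟨h7, h8⟩ := ic_and h3
  obtain ⟨h9, h10⟩ := ic_and h8
  obtain ⟨h11, h12⟩ := ic_and h10
  obtain ⟨C, h13, h14, -, h16⟩ := mkc_spec _ _ _ _ _ h12
  have hM : ∀ v < 18, pM (e18 tb.r3 t) M v = true := al_spec h7
  refine ⟨e18 tb.r3 t, M, rfl, ?_, ?_, ?_, ?_, ?_, ?_, ?_, ?_, ?_⟩
  · rw [pc_eq]
    exact Nat.eq_of_beq_eq_true h1
  · intro v hv hb
    have h17 := hM v hv
    unfold pM at h17
    rw [ic_eq, bt_eq, if_pos hb] at h17
    rw [ic_eq, bt_eq] at h17
    split_ifs at h17 with h18
    exact Bool.eq_false_iff.2 h18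
  · intro v hv
    have h17 := hM v hv
    unfold pM at h17
    rw [bt_eq, bt_eq, bt_eq] at h17
    generalize (e18 tb.r3 t).testBit v = b1 at *
    generalize (e18 tb.r3 t).testBit (an v) = b2 at *
    generalize M.testBit v = b3 at *
    revert h17
    cases b1 <;> cases b2 <;> cases b3 <;> decide
  · intro x
    rw [h4]
    constructor
    · rintro (h | h)
      · rw [Nat.zero_testBit] at h
        exact absurd h (by decide)
      · exact h
    · exact Or.inr
  · exact h6
  · exact al_spec h9
  · exact al_spec h11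
  · exact h16
  · intro x x' hx hx' hM1 hM2 hne
    have h17 := al_spec h13 (18 * x + x') (by omega)
    have e1 : Nat.div (18 * x + x') 18 = x := by
      change (18 * x + x') / 18 = x
      omega
    have e2 : Nat.mod (18 * x + x') 18 = x' := by
      change (18 * x + x') % 18 = x'
      omega
    unfold pC at h17
    rw [e1, e2] at h17
    rw [ic_eq, if_pos (Eq.mpr Nat.blt_eq hx), ic_eq, bt_eq, if_pos hM1, ic_eq, bt_eq,
      if_pos hM2, ic_eq, if_neg, bt_eq] at h17
    · rcases (h14 _).1 h17 with h | h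
      · rw [Nat.zero_testBit] at h
        exact absurd h (by decide)
      · exact h
    · intro h
      exact hne (Nat.eq_of_beq_eq_true h)

/-! ### the meaning of the entries -/

section Sem

variable {tb : Tab} {K : Finset (Finset (Fin 18))} {y : Finset (Fin 18) → ZMod 3}

theorem At_z {q : ℕ} (hq : q < 112) : At tb K y (832 + q) ↔ D (e18 tb.r4 q) ∈ K := by
  unfold At
  rw [if_neg (by omega), if_neg (by omega), if_neg (by omega), Nat.add_sub_cancel_left]
  constructor
  · exact fun h => h.2
  · exact fun h => ⟨by omega, h⟩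

theorem At_y {r : ℕ} (hr : r < 224) : At tb K y (608 + r) ↔ D (e18 tb.r5 r) ∈ K := by
  unfold At
  rw [if_neg (by omega), if_neg (by omega), if_pos (by omega), Nat.add_sub_cancel_left]

theorem ptz_spec (h : Good tb K y) (hg : chkG tb = true) {m3 i : ℕ}
    (hp : ptz tb m3 i = true) : eid (en tb.tz i) < 112 ∧ ∃ hx : ea (en tb.tz i) < 18,
      (At tb K y (832 + eid (en tb.tz i)) ↔ insert ⟨ea (en tb.tz i), hx⟩ (D m3) ∈ K) := by
  obtain ⟨h1, h2⟩ := ic_and hp
  obtain ⟨h3, h4⟩ := ic_and h2
  obtain ⟨h5, h6⟩ := ic_and h4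
  have h7 := Nat.eq_of_beq_eq_true h6
  refine ⟨blt_lt h5, blt_lt h1, ?_⟩
  rw [At_z (blt_lt h5), ← h.img_mem hg (blt_lt h3), h7, ← D_ins m3 (blt_lt h1)]
  rfl

theorem pty_spec (h : Good tb K y) (hg : chkG tb = true) {m3 M i : ℕ}
    (hp : pty tb m3 M i = true) : eid (en tb.ty i) < 224 ∧ ea (en tb.ty i) < eb (en tb.ty i) ∧
      M.testBit (ea (en tb.ty i)) = true ∧ M.testBit (eb (en tb.ty i)) = true ∧
      ∃ (hx : ea (en tb.ty i) < 18) (hx' : eb (en tb.ty i) < 18),
      (At tb K y (608 + eid (en tb.ty i)) ↔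
        insert ⟨eb (en tb.ty i), hx'⟩ (insert ⟨ea (en tb.ty i), hx⟩ (D m3)) ∈ K) := by
  obtain ⟨h1, h2⟩ := ic_and hp
  obtain ⟨h3, h4⟩ := ic_and h2
  obtain ⟨h5, h6⟩ := ic_and h4
  obtain ⟨h7, h8⟩ := ic_and h6
  obtain ⟨h9, h10⟩ := ic_and h8
  obtain ⟨h11, h12⟩ := ic_and h10
  have h13 := Nat.eq_of_beq_eq_true h12
  have hb := blt_lt h1
  have ha : ea (en tb.ty i) < 18 := lt_trans (blt_lt h3) hb
  rw [bt_eq] at h5 h7
  refine ⟨blt_lt h11, blt_lt h3, h5, h7, ha, hb, ?_⟩
  rw [At_y (blt_lt h11), ← h.img_mem hg (blt_lt h9), h13, ← D_ins m3 ha,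
    ← D_ins (m3 ||| bi (ea (en tb.ty i))) hb]
  rfl

/-- the numbers of vertices and edges of the link, in terms of atoms -/
theorem counts (h : Good tb K y) (hg : chkG tb = true) {t : ℕ} (ht : pT tb t = true) :
    ∃ V E : ℕ, E + 6 = 3 * V ∧ 4 ≤ V ∧
      (∀ j < 12, eid (en tb.tz (12 * t + j)) < 112) ∧
      (∀ j < 60, eid (en tb.ty (60 * t + j)) < 224) ∧
      (∀ (S : Finset ℕ), (∀ j, j ∈ S ↔ j < 12 ∧ At tb K y (832 + eid (en tb.tz (12 * t + j)))) →
        S.card = V) ∧
      (∀ (S : Finset ℕ), (∀ j, j ∈ S ↔ j < 60 ∧ At tb K y (608 + eid (en tb.ty (60 * t + j)))) →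
        S.card = E) := by
  classical
  obtain ⟨m3, M, -, hc, hanti, hMv, hMj, hinj, hz, hy, hyinj, hysur⟩ := pT_spec ht
  have hz' := fun j hj => ptz_spec h hg (hz j hj)
  have hy' := fun j hj => pty_spec h hg (hy j hj)
  have hK : D m3 ∈ K := by
    apply h.hyp.ngb _ hc
    intro i hi hi2
    rw [mem_D] at hi hi2
    rw [α9_val, hanti i i.2 hi] at hi2
    exact absurd hi2 (by decide)
  obtain ⟨hE, hV⟩ := link3 h.hyp.sph hK hc
  refine ⟨_, _, hE, hV, fun j hj => (hz' j hj).1, fun j hj => (hy' j hj).1, ?_, ?_⟩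
  · intro S hS
    refine Finset.card_bij (fun j _ => Fin.ofNat 18 (ea (en tb.tz (12 * t + j)))) ?_ ?_ ?_
    · intro j hj
      obtain ⟨h1, h2⟩ := (hS j).1 hj
      obtain ⟨-, hx, h3⟩ := hz' j h1
      have e1 : Fin.ofNat 18 (ea (en tb.tz (12 * t + j))) = ⟨_, hx⟩ :=
        Fin.ext (Nat.mod_eq_of_lt hx)
      rw [e1, Finset.mem_filter]
      refine ⟨Finset.mem_univ _, ?_, h3.1 h2⟩
      intro h4
      rw [mem_D] at h4
      have h5 := (hMj (ea (en tb.tz (12 * t + j)))).2 ⟨12 * t + j, by omega, by omega, rfl⟩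
      rw [((hMv _ hx).1 h5).1] at h4
      exact absurd h4 (by decide)
    · intro a ha b hb hab
      obtain ⟨h1, -⟩ := (hS a).1 ha
      obtain ⟨h2, -⟩ := (hS b).1 hb
      obtain ⟨-, hx, -⟩ := hz' a h1
      obtain ⟨-, hx', -⟩ := hz' b h2
      have h3 : ea (en tb.tz (12 * t + a)) = ea (en tb.tz (12 * t + b)) := by
        have h4 := congrArg Fin.val hab
        change ea (en tb.tz (12 * t + a)) % 18 = ea (en tb.tz (12 * t + b)) % 18 at h4
        rwa [Nat.mod_eq_of_lt hx, Nat.mod_eq_of_lt hx'] at h4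
      by_contra hne
      rcases Nat.lt_or_gt_of_ne hne with h5 | h5
      · exact hinj _ _ (by omega) (by omega) (by omega) h3
      · exact hinj _ _ (by omega) (by omega) (by omega) h3.symm
    · intro v hv
      rw [Finset.mem_filter] at hv
      obtain ⟨-, hv1, hv2⟩ := hv
      have h5 : M.testBit v = true := by
        rw [hMv v v.2]
        constructor
        · rw [mem_D] at hv1
          exact Bool.eq_false_iff.2 hv1
        · have h6 : Pool.Agent.H53.AEG.α9 v ∉ D m3 := fun h7 =>
            h.hyp.noa _ hv2 v (Finset.mem_insert_self _ _) (Finset.mem_insert_of_mem h7)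
          rw [mem_D, α9_val] at h6
          exact Bool.eq_false_iff.2 h6
      obtain ⟨j, h6, h7, h8⟩ := (hMj v).1 h5
      obtain ⟨j', rfl⟩ := Nat.exists_eq_add_of_le h6
      have hj' : j' < 12 := by omega
      obtain ⟨-, hx, h9⟩ := hz' j' hj'
      have e1 : (⟨_, hx⟩ : Fin 18) = v := Fin.ext h8
      refine ⟨j', (hS j').2 ⟨hj', h9.2 ?_⟩, ?_⟩
      · rw [e1]
        exact hv2
      · rw [← e1]
        exact Fin.ext (Nat.mod_eq_of_lt hx)
  · intro S hS
    refine Finset.card_bij (fun j _ => ({Fin.ofNat 18 (ea (en tb.ty (60 * t + j))),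
      Fin.ofNat 18 (eb (en tb.ty (60 * t + j)))} : Finset (Fin 18))) ?_ ?_ ?_
    · intro j hj
      obtain ⟨h1, h2⟩ := (hS j).1 hj
      obtain ⟨-, hlt, hMa, hMb, hx, hx', h3⟩ := hy' j h1
      have e1 : Fin.ofNat 18 (ea (en tb.ty (60 * t + j))) = ⟨_, hx⟩ :=
        Fin.ext (Nat.mod_eq_of_lt hx)
      have e2 : Fin.ofNat 18 (eb (en tb.ty (60 * t + j))) = ⟨_, hx'⟩ :=
        Fin.ext (Nat.mod_eq_of_lt hx')
      rw [e1, e2, Finset.mem_filter, mem_lk]
      refine ⟨⟨?_, ?_⟩, ?_⟩
      · rw [Finset.disjoint_left]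
        intro w hw
        rw [Finset.mem_insert, Finset.mem_singleton] at hw
        rw [mem_D]
        rcases hw with rfl | rfl
        · rw [((hMv _ hx).1 hMa).1]
          decide
        · rw [((hMv _ hx').1 hMb).1]
          decide
      · have h4 := h3.1 h2
        have e3 : ({⟨_, hx⟩, ⟨_, hx'⟩} : Finset (Fin 18)) ∪ D m3 =
            insert ⟨_, hx'⟩ (insert ⟨_, hx⟩ (D m3)) := by
          ext w
          simp only [Finset.mem_union, Finset.mem_insert, Finset.mem_singleton]
          tauto
        rw [e3]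
        exact h4
      · apply Finset.card_pair
        intro h4
        have h5 := congrArg Fin.val h4
        exact absurd h5 (Nat.ne_of_lt hlt)
    · intro a ha b hb hab
      obtain ⟨h1, -⟩ := (hS a).1 ha
      obtain ⟨h2, -⟩ := (hS b).1 hb
      obtain ⟨-, hlt, -, -, hx, hx', -⟩ := hy' a h1
      obtain ⟨-, hlt2, -, -, hw, hw', -⟩ := hy' b h2
      have e1 : ∀ {x : ℕ} (hx : x < 18), Fin.ofNat 18 x = ⟨x, hx⟩ :=
        fun hx => Fin.ext (Nat.mod_eq_of_lt hx)
      rw [e1 hx, e1 hx', e1 hw, e1 hw'] at hab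
      have m1 : (⟨_, hx⟩ : Fin 18) ∈ ({⟨_, hw⟩, ⟨_, hw'⟩} : Finset (Fin 18)) := by
        rw [← hab]
        exact Finset.mem_insert_self _ _
      have m2 : (⟨_, hx'⟩ : Fin 18) ∈ ({⟨_, hw⟩, ⟨_, hw'⟩} : Finset (Fin 18)) := by
        rw [← hab]
        exact Finset.mem_insert_of_mem (Finset.mem_singleton_self _)
      rw [Finset.mem_insert, Finset.mem_singleton, Fin.ext_iff, Fin.ext_iff] at m1 m2
      change ea (en tb.ty (60 * t + a)) = ea (en tb.ty (60 * t + b)) ∨
        ea (en tb.ty (60 * t + a)) = eb (en tb.ty (60 * t + b)) at m1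
      change eb (en tb.ty (60 * t + a)) = ea (en tb.ty (60 * t + b)) ∨
        eb (en tb.ty (60 * t + a)) = eb (en tb.ty (60 * t + b)) at m2
      have h3 : ea (en tb.ty (60 * t + a)) = ea (en tb.ty (60 * t + b)) ∧
          eb (en tb.ty (60 * t + a)) = eb (en tb.ty (60 * t + b)) := by omega
      have h4 : cod tb (60 * t + a) = cod tb (60 * t + b) := by
        unfold cod
        rw [h3.1, h3.2]
      by_contra hne
      rcases Nat.lt_or_gt_of_ne hne with h5 | h5
      · exact hyinj _ _ (by omega) (by omega) (by omega) h4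
      · exact hyinj _ _ (by omega) (by omega) (by omega) h4.symm
    · intro σ hσ
      rw [Finset.mem_filter, mem_lk] at hσ
      obtain ⟨⟨hd, hσK⟩, hσ2⟩ := hσ
      have key : ∃ u v : Fin 18, u < v ∧ σ = {u, v} := by
        obtain ⟨u, v, huv, rfl⟩ := Finset.card_eq_two.1 hσ2
        rcases lt_or_gt_of_ne huv with h1 | h1
        · exact ⟨u, v, h1, rfl⟩
        · exact ⟨v, u, h1, Finset.pair_comm u v⟩
      obtain ⟨u, v, huv, rfl⟩ := key
      have hin : ∀ w : Fin 18, w ∈ ({u, v} : Finset (Fin 18)) → M.testBit w = true := by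
        intro w hw
        rw [hMv w w.2]
        constructor
        · have h1 : w ∉ D m3 := Finset.disjoint_left.1 hd hw
          rw [mem_D] at h1
          exact Bool.eq_false_iff.2 h1
        · have h1 : Pool.Agent.H53.AEG.α9 w ∉ D m3 := fun h2 =>
            h.hyp.noa _ hσK w (Finset.mem_union_left _ hw) (Finset.mem_union_right _ h2)
          rw [mem_D, α9_val] at h1
          exact Bool.eq_false_iff.2 h1
      have hne : (u : ℕ) + 9 ≠ v := by
        intro h1
        have h2 : Pool.Agent.H53.AEG.α9 u = v := by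
          apply Fin.ext
          rw [α9_val]
          change ((u : ℕ) + 9) % 18 = v
          rw [h1]
          exact Nat.mod_eq_of_lt v.2
        refine h.hyp.noa _ hσK u (Finset.mem_union_left _ (Finset.mem_insert_self _ _)) ?_
        rw [h2]
        exact Finset.mem_union_left _ (Finset.mem_insert_of_mem (Finset.mem_singleton_self _))
      obtain ⟨j, h6, h7, h8⟩ := hysur u v huv v.2 (hin u (Finset.mem_insert_self _ _))
        (hin v (Finset.mem_insert_of_mem (Finset.mem_singleton_self _))) hne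
      obtain ⟨j', rfl⟩ := Nat.exists_eq_add_of_le h6
      have hj' : j' < 60 := by omega
      obtain ⟨-, hlt, -, -, hx, hx', h9⟩ := hy' j' hj'
      have h10 : ea (en tb.ty (60 * t + j')) = u ∧ eb (en tb.ty (60 * t + j')) = v := by
        change 18 * ea (en tb.ty (60 * t + j')) + eb (en tb.ty (60 * t + j')) = 18 * (u : ℕ) + v
          at h8
        have := v.2
        omega
      have e1 : (⟨_, hx⟩ : Fin 18) = u := Fin.ext h10.1
      have e2 : (⟨_, hx'⟩ : Fin 18) = v := Fin.ext h10.2
      have e3 : Fin.ofNat 18 (ea (en tb.ty (60 * t + j'))) = u := by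
        rw [← e1]
        exact Fin.ext (Nat.mod_eq_of_lt hx)
      have e4 : Fin.ofNat 18 (eb (en tb.ty (60 * t + j'))) = v := by
        rw [← e2]
        exact Fin.ext (Nat.mod_eq_of_lt hx')
      refine ⟨j', (hS j').2 ⟨hj', h9.2 ?_⟩, ?_⟩
      · rw [e1, e2]
        have e5 : insert v (insert u (D m3)) = ({u, v} : Finset (Fin 18)) ∪ D m3 := by
          ext w
          simp only [Finset.mem_union, Finset.mem_insert, Finset.mem_singleton]
          tauto
        rw [e5]
        exact hσK
      · rw [e3, e4]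

end Sem

/-! ### the rules -/

section Rule

variable {tb : Tab} {A : ℕ → Prop}

/-- the closure facts -/
structure Clo (tb : Tab) (A : ℕ → Prop) : Prop where
  T : ∀ a < 944, ∀ T F, Sat A T F → A a → Sat A (T ||| row tb.ct a) (F ||| opp a)
  F : ∀ a < 944, ∀ T F, Sat A T F → ¬ A a → Sat A T (F ||| row tb.df a)

theorem Clo_of
    (hT : ∀ a < 944, ∀ T F ok cf, (Sat A T F → A a) → asT tb a T F ok cf = true →
      Res A T F ok cf)
    (hF : ∀ a < 944, ∀ T F ok cf, (Sat A T F → ¬ A a) → asF tb a T F ok cf = true →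
      Res A T F ok cf) : Clo tb A := by
  constructor
  · intro a ha T F hs hA
    by_cases h0 : (T ||| row tb.ct a) &&& (F ||| opp a) = 0
    · have h1 := hT a ha T F
        (fun x z => decide (x = (T ||| row tb.ct a) ∧ z = (F ||| opp a))) false (fun _ => hA) (by
          change ic (Nat.beq ((T ||| row tb.ct a) &&& (F ||| opp a)) 0)
            (decide (_ = _ ∧ _ = _)) false = true
          rw [h0, ic_eq, if_pos (show Nat.beq 0 0 = true from rfl)]
          exact decide_eq_true ⟨rfl, rfl⟩)
      rcases h1 with ⟨h1, -⟩ | ⟨T', F', h1, h2⟩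
      · exact absurd h1 Bool.false_ne_true
      · obtain ⟨rfl, rfl⟩ := of_decide_eq_true h1
        exact h2 hs
    · have h1 := hT a ha T F (fun _ _ => false) true (fun _ => hA) (by
          change ic (Nat.beq ((T ||| row tb.ct a) &&& (F ||| opp a)) 0) false true = true
          rw [ic_eq, if_neg]
          exact fun h => h0 (Nat.eq_of_beq_eq_true h))
      rcases h1 with ⟨-, h1⟩ | ⟨T', F', h1, h2⟩
      · exact absurd hs h1
      · exact absurd h1 Bool.false_ne_true
  · intro a ha T F hs hA
    by_cases h0 : T &&& (F ||| row tb.df a) = 0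
    · have h1 := hF a ha T F
        (fun x z => decide (x = T ∧ z = (F ||| row tb.df a))) false (fun _ => hA) (by
          change ic (Nat.beq (T &&& (F ||| row tb.df a)) 0)
            (decide (_ = _ ∧ _ = _)) false = true
          rw [h0, ic_eq, if_pos (show Nat.beq 0 0 = true from rfl)]
          exact decide_eq_true ⟨rfl, rfl⟩)
      rcases h1 with ⟨h1, -⟩ | ⟨T', F', h1, h2⟩
      · exact absurd h1 Bool.false_ne_true
      · obtain ⟨rfl, rfl⟩ := of_decide_eq_true h1
        exact h2 hs
    · have h1 := hF a ha T F (fun _ _ => false) true (fun _ => hA) (by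
          change ic (Nat.beq (T &&& (F ||| row tb.df a)) 0) false true = true
          rw [ic_eq, if_neg]
          exact fun h => h0 (Nat.eq_of_beq_eq_true h))
      rcases h1 with ⟨-, h1⟩ | ⟨T', F', h1, h2⟩
      · exact absurd hs h1
      · exact absurd h1 Bool.false_ne_true

/-- results which only add information -/
def RM (A : ℕ → Prop) (T F : ℕ) (ok : ℕ → ℕ → Bool) (cf : Bool) : Prop :=
  (cf = true ∧ ¬ Sat A T F) ∨ ∃ T' F', ok T' F' = true ∧ (Sat A T F → Sat A T' F') ∧
    (∀ i, T.testBit i = true → T'.testBit i = true) ∧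
    (∀ i, F.testBit i = true → F'.testBit i = true)

theorem RM_Res {T F : ℕ} {ok : ℕ → ℕ → Bool} {cf : Bool} (h : RM A T F ok cf) :
    Res A T F ok cf := by
  rcases h with h | ⟨T', F', h1, h2, -, -⟩
  · exact Or.inl h
  · exact Or.inr ⟨T', F', h1, h2⟩

theorem Sat_mono {T F T' F' : ℕ} (h : Sat A T' F')
    (h1 : ∀ i, T.testBit i = true → T'.testBit i = true)
    (h2 : ∀ i, F.testBit i = true → F'.testBit i = true) : Sat A T F :=
  ⟨fun i hi => h.1 i (h1 i hi), fun i hi => h.2 i (h2 i hi)⟩

theorem lor_mono (T m : ℕ) : ∀ i, T.testBit i = true → (T ||| m).testBit i = true := by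
  intro i hi
  rw [Nat.testBit_or, hi, Bool.true_or]

theorem test_false {T T' : ℕ} (h : ∀ i, T.testBit i = true → T'.testBit i = true) {i : ℕ}
    (hi : T'.testBit i = false) : T.testBit i = false := by
  by_contra h1
  rw [Bool.not_eq_false] at h1
  rw [h i h1] at hi
  exact absurd hi (by decide)

theorem allT_RM (hC : Clo tb A) {t b : ℕ} {cf : Bool} {ok : ℕ → ℕ → Bool} (n : ℕ) :
    ∀ i T F, (∀ j, i ≤ j → j < i + n → b + eid (en t j) < 944) →
      (Sat A T F → ∀ j, i ≤ j → j < i + n → F.testBit (b + eid (en t j)) = false →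
        A (b + eid (en t j))) →
      allT tb t b cf ok n i T F = true → RM A T F ok cf := by
  induction n with
  | zero =>
    intro i T F _ _ h
    exact Or.inr ⟨T, F, h, id, fun _ => id, fun _ => id⟩
  | succ n ih =>
    intro i T F hb hA h
    change ic (bt F (b + eid (en t i))) (allT tb t b cf ok n (i + 1) T F)
      (ic (Nat.beq ((T ||| row tb.ct (b + eid (en t i))) &&& (F ||| opp (b + eid (en t i)))) 0)
        (allT tb t b cf ok n (i + 1) (T ||| row tb.ct (b + eid (en t i)))
          (F ||| opp (b + eid (en t i)))) cf) = true at h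
    rw [ic_eq, bt_eq] at h
    split_ifs at h with h0
    · exact ih (i + 1) T F (fun j h1 h2 => hb j (by omega) (by omega))
        (fun hs j h1 h2 => hA hs j (by omega) (by omega)) h
    · have hai := hb i (le_refl i) (by omega)
      have hsat : Sat A T F → Sat A (T ||| row tb.ct (b + eid (en t i)))
          (F ||| opp (b + eid (en t i))) := fun hs =>
        hC.T _ hai T F hs (hA hs i (le_refl i) (by omega) (Bool.eq_false_iff.2 h0))
      rw [ic_eq] at h
      split_ifs at h with h1
      · rcases ih (i + 1) _ _ (fun j h1 h2 => hb j (by omega) (by omega))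
          (fun hs j h2 h3 h4 => hA (Sat_mono hs (lor_mono _ _) (lor_mono _ _)) j (by omega)
            (by omega) (test_false (lor_mono _ _) h4)) h with ⟨h2, h3⟩ | ⟨T', F', h2, h3, h4, h5⟩
        · exact Or.inl ⟨h2, fun hs => h3 (hsat hs)⟩
        · exact Or.inr ⟨T', F', h2, fun hs => h3 (hsat hs),
            fun i hi => h4 i (lor_mono _ _ i hi), fun i hi => h5 i (lor_mono _ _ i hi)⟩
      · refine Or.inl ⟨h, fun hs => h1 ?_⟩
        rw [Sat_land (hsat hs)]
        rfl

theorem allF_RM (hC : Clo tb A) {t b : ℕ} {cf : Bool} {ok : ℕ → ℕ → Bool} (n : ℕ) :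
    ∀ i T F, (∀ j, i ≤ j → j < i + n → b + eid (en t j) < 944) →
      (Sat A T F → ∀ j, i ≤ j → j < i + n → T.testBit (b + eid (en t j)) = false →
        ¬ A (b + eid (en t j))) →
      allF tb t b cf ok n i T F = true → RM A T F ok cf := by
  induction n with
  | zero =>
    intro i T F _ _ h
    exact Or.inr ⟨T, F, h, id, fun _ => id, fun _ => id⟩
  | succ n ih =>
    intro i T F hb hA h
    change ic (bt T (b + eid (en t i))) (allF tb t b cf ok n (i + 1) T F)
      (ic (Nat.beq (T &&& (F ||| row tb.df (b + eid (en t i)))) 0)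
        (allF tb t b cf ok n (i + 1) T (F ||| row tb.df (b + eid (en t i)))) cf) = true at h
    rw [ic_eq, bt_eq] at h
    split_ifs at h with h0
    · exact ih (i + 1) T F (fun j h1 h2 => hb j (by omega) (by omega))
        (fun hs j h1 h2 => hA hs j (by omega) (by omega)) h
    · have hai := hb i (le_refl i) (by omega)
      have hsat : Sat A T F → Sat A T (F ||| row tb.df (b + eid (en t i))) := fun hs =>
        hC.F _ hai T F hs (hA hs i (le_refl i) (by omega) (Bool.eq_false_iff.2 h0))
      rw [ic_eq] at h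
      split_ifs at h with h1
      · rcases ih (i + 1) _ _ (fun j h1 h2 => hb j (by omega) (by omega))
          (fun hs j h2 h3 h4 => hA (Sat_mono hs (fun _ => id) (lor_mono _ _)) j (by omega)
            (by omega) h4) h with ⟨h2, h3⟩ | ⟨T', F', h2, h3, h4, h5⟩
        · exact Or.inl ⟨h2, fun hs => h3 (hsat hs)⟩
        · exact Or.inr ⟨T', F', h2, fun hs => h3 (hsat hs), h4,
            fun i hi => h5 i (lor_mono _ _ i hi)⟩
      · refine Or.inl ⟨h, fun hs => h1 ?_⟩
        rw [Sat_land (hsat hs)]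
        rfl

theorem cnt_eq (t b M : ℕ) (n : ℕ) : ∀ (i s : ℕ) (k : ℕ → Bool), cnt t b M n i s k =
    k (s + ((Finset.range n).filter fun j => M.testBit (b + eid (en t (i + j))) = true).card) := by
  induction n with
  | zero =>
    intro i s k
    rfl
  | succ n ih =>
    intro i s k
    change ic (bt M (b + eid (en t i))) (cnt t b M n (i + 1) (s + 1) k)
      (cnt t b M n (i + 1) s k) = _
    rw [ih, ih, ic_eq, bt_eq]
    have h1 : ((Finset.range (n + 1)).filter fun j =>
        M.testBit (b + eid (en t (i + j))) = true).card =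
        ((Finset.range n).filter fun j => M.testBit (b + eid (en t (i + 1 + j))) = true).card +
          if M.testBit (b + eid (en t i)) = true then 1 else 0 := by
      rw [Finset.card_filter, Finset.sum_range_succ', Finset.card_filter]
      congr 1
      exact Finset.sum_congr rfl fun j _ => by rw [add_assoc, add_comm 1 j]
    rw [h1]
    split_ifs with h0
    · congr 1
      ring
    · congr 1

variable {K : Finset (Finset (Fin 18))} {y : Finset (Fin 18) → ZMod 3}

theorem ruC0_eq (tb : Tab) (t T F : ℕ) (ok : ℕ → ℕ → Bool) (cf : Bool) :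
    ruC0 tb t T F ok cf =
    ic (Nat.blt (3 * (12 - ((Finset.range 12).filter fun j =>
        F.testBit (832 + eid (en tb.tz (12 * t + j))) = true).card))
        (((Finset.range 60).filter fun j =>
          T.testBit (608 + eid (en tb.ty (60 * t + j))) = true).card + 6)) cf
      (ic (Nat.beq (3 * (12 - ((Finset.range 12).filter fun j =>
        F.testBit (832 + eid (en tb.tz (12 * t + j))) = true).card))
        (((Finset.range 60).filter fun j =>
          T.testBit (608 + eid (en tb.ty (60 * t + j))) = true).card + 6))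
        (allF tb tb.ty 608 cf (fun T' F' => allT tb tb.tz 832 cf ok 12 (12 * t) T' F') 60
          (60 * t) T F) (ok T F)) := by
  unfold ruC0
  simp only [cnt_eq, fo_eq, zero_add, Nat.mul_eq, Nat.add_eq, Nat.sub_eq]

theorem ruC1_eq (tb : Tab) (t T F : ℕ) (ok : ℕ → ℕ → Bool) (cf : Bool) :
    ruC1 tb t T F ok cf =
    ic (Nat.blt ((60 - ((Finset.range 60).filter fun j =>
        F.testBit (608 + eid (en tb.ty (60 * t + j))) = true).card) + 6)
        (3 * cn (Nat.blt ((Finset.range 12).filter fun j =>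
          T.testBit (832 + eid (en tb.tz (12 * t + j))) = true).card 4) 4
          ((Finset.range 12).filter fun j =>
          T.testBit (832 + eid (en tb.tz (12 * t + j))) = true).card)) cf
      (ic (Nat.beq (3 * cn (Nat.blt ((Finset.range 12).filter fun j =>
          T.testBit (832 + eid (en tb.tz (12 * t + j))) = true).card 4) 4
          ((Finset.range 12).filter fun j =>
          T.testBit (832 + eid (en tb.tz (12 * t + j))) = true).card)
          ((60 - ((Finset.range 60).filter fun j =>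
            F.testBit (608 + eid (en tb.ty (60 * t + j))) = true).card) + 6))
        (ic (Nat.blt ((Finset.range 12).filter fun j =>
          T.testBit (832 + eid (en tb.tz (12 * t + j))) = true).card 4)
          (allT tb tb.ty 608 cf ok 60 (60 * t) T F)
          (allF tb tb.tz 832 cf (fun T' F' => allT tb tb.ty 608 cf ok 60 (60 * t) T' F')
            12 (12 * t) T F)) (ok T F)) := by
  unfold ruC1
  simp only [cnt_eq, fo_eq, zero_add, Nat.mul_eq, Nat.add_eq, Nat.sub_eq]

theorem ruC0_res (h : Good tb K y) (hg : chkG tb = true) (hc : chkC tb = true)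
    (hC : Clo tb (At tb K y)) {t : ℕ} (ht : t < tb.nt) (T F : ℕ) (ok : ℕ → ℕ → Bool) (cf : Bool)
    (hr : ruC0 tb t T F ok cf = true) : Res (At tb K y) T F ok cf := by
  classical
  obtain ⟨V, E, hE, hV, hz, hy, hVc, hEc⟩ := counts h hg (al_spec hc t ht)
  have hVS := hVc ((Finset.range 12).filter fun j => At tb K y (832 + eid (en tb.tz (12 * t + j))))
    (fun j => by rw [Finset.mem_filter, Finset.mem_range])
  have hES := hEc ((Finset.range 60).filter fun j => At tb K y (608 + eid (en tb.ty (60 * t + j))))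
    (fun j => by rw [Finset.mem_filter, Finset.mem_range])
  rw [ruC0_eq] at hr
  obtain ⟨Sz, hSz⟩ : ∃ S, S = (Finset.range 12).filter fun j =>
    F.testBit (832 + eid (en tb.tz (12 * t + j))) = true := ⟨_, rfl⟩
  obtain ⟨Sy, hSy⟩ : ∃ S, S = (Finset.range 60).filter fun j =>
    T.testBit (608 + eid (en tb.ty (60 * t + j))) = true := ⟨_, rfl⟩
  rw [← hSz, ← hSy] at hr
  have hsubz : Sat (At tb K y) T F → ((Finset.range 12).filter fun j =>
      At tb K y (832 + eid (en tb.tz (12 * t + j)))) ⊆ Finset.range 12 \ Sz := by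
    intro hs j hj
    rw [Finset.mem_filter] at hj
    rw [Finset.mem_sdiff, hSz, Finset.mem_filter]
    exact ⟨hj.1, fun h1 => hs.2 _ h1.2 hj.2⟩
  have hsuby : Sat (At tb K y) T F → Sy ⊆ ((Finset.range 60).filter fun j =>
      At tb K y (608 + eid (en tb.ty (60 * t + j)))) := by
    intro hs j hj
    rw [hSy, Finset.mem_filter] at hj
    rw [Finset.mem_filter]
    exact ⟨hj.1, hs.1 _ hj.2⟩
  have hcz : (Finset.range 12 \ Sz).card = 12 - Sz.card := by
    rw [Finset.card_sdiff_of_subset, Finset.card_range]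
    rw [hSz]
    exact Finset.filter_subset _ _
  rw [ic_eq] at hr
  split_ifs at hr with h0
  · refine Res_cf hr fun hs => ?_
    have h1 := blt_lt h0
    have h2 := Finset.card_le_card (hsubz hs)
    have h3 := Finset.card_le_card (hsuby hs)
    rw [hVS, hcz] at h2
    rw [hES] at h3
    omega
  · rw [ic_eq] at hr
    split_ifs at hr with h1
    · have h1' := Nat.eq_of_beq_eq_true h1
      have key : Sat (At tb K y) T F → V = 12 - Sz.card ∧ E = Sy.card := by
        intro hs
        have h2 := Finset.card_le_card (hsubz hs)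
        have h3 := Finset.card_le_card (hsuby hs)
        rw [hVS, hcz] at h2
        rw [hES] at h3
        omega
      have h4 := allF_RM hC 60 (60 * t) T F (fun j h2 h3 => by
        obtain ⟨j', rfl⟩ := Nat.exists_eq_add_of_le h2
        have := hy j' (by omega)
        omega) (fun hs j h2 h3 h5 hA => by
        obtain ⟨j', rfl⟩ := Nat.exists_eq_add_of_le h2
        have h6 := Finset.eq_of_subset_of_card_le (hsuby hs) (by rw [hES, (key hs).2])
        have h7 : j' ∈ Sy := by
          rw [h6, Finset.mem_filter, Finset.mem_range]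
          exact ⟨by omega, hA⟩
        rw [hSy, Finset.mem_filter] at h7
        rw [h7.2] at h5
        exact absurd h5 (by decide)) hr
      rcases h4 with h4 | ⟨T', F', h4, h5, h6, h7⟩
      · exact Or.inl h4
      · refine Res_pre h5 (RM_Res (allT_RM hC 12 (12 * t) T' F' (fun j h2 h3 => by
          obtain ⟨j', rfl⟩ := Nat.exists_eq_add_of_le h2
          have := hz j' (by omega)
          omega) (fun hs' j h2 h3 h8 => ?_) h4))
        obtain ⟨j', rfl⟩ := Nat.exists_eq_add_of_le h2
        have hs := Sat_mono hs' h6 h7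
        have h9 := Finset.eq_of_subset_of_card_le (hsubz hs) (by rw [hVS, hcz, (key hs).1])
        have h10 : j' ∈ Finset.range 12 \ Sz := by
          rw [Finset.mem_sdiff, hSz, Finset.mem_filter, Finset.mem_range]
          refine ⟨by omega, fun h11 => ?_⟩
          rw [test_false h7 h8] at h11
          exact absurd h11.2 (by decide)
        rw [← h9, Finset.mem_filter] at h10
        exact h10.2
    · exact Res_ok hr id

theorem ruC1_res (h : Good tb K y) (hg : chkG tb = true) (hc : chkC tb = true)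
    (hC : Clo tb (At tb K y)) {t : ℕ} (ht : t < tb.nt) (T F : ℕ) (ok : ℕ → ℕ → Bool) (cf : Bool)
    (hr : ruC1 tb t T F ok cf = true) : Res (At tb K y) T F ok cf := by
  classical
  obtain ⟨V, E, hE, hV, hz, hy, hVc, hEc⟩ := counts h hg (al_spec hc t ht)
  have hVS := hVc ((Finset.range 12).filter fun j => At tb K y (832 + eid (en tb.tz (12 * t + j))))
    (fun j => by rw [Finset.mem_filter, Finset.mem_range])
  have hES := hEc ((Finset.range 60).filter fun j => At tb K y (608 + eid (en tb.ty (60 * t + j))))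
    (fun j => by rw [Finset.mem_filter, Finset.mem_range])
  rw [ruC1_eq] at hr
  obtain ⟨Sz, hSz⟩ : ∃ S, S = (Finset.range 12).filter fun j =>
    T.testBit (832 + eid (en tb.tz (12 * t + j))) = true := ⟨_, rfl⟩
  obtain ⟨Sy, hSy⟩ : ∃ S, S = (Finset.range 60).filter fun j =>
    F.testBit (608 + eid (en tb.ty (60 * t + j))) = true := ⟨_, rfl⟩
  obtain ⟨zm, hzm⟩ : ∃ z, z = cn (Nat.blt Sz.card 4) 4 Sz.card := ⟨_, rfl⟩
  rw [← hSz, ← hSy, ← hzm] at hr
  have hzm' : (Sz.card < 4 ∧ zm = 4) ∨ (4 ≤ Sz.card ∧ zm = Sz.card) := by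
    rw [hzm, cn_eq]
    split_ifs with h1
    · exact Or.inl ⟨blt_lt h1, rfl⟩
    · refine Or.inr ⟨?_, rfl⟩
      by_contra h2
      exact h1 (Eq.mpr Nat.blt_eq (not_le.1 h2))
  have hsubz : Sat (At tb K y) T F → Sz ⊆ ((Finset.range 12).filter fun j =>
      At tb K y (832 + eid (en tb.tz (12 * t + j)))) := by
    intro hs j hj
    rw [hSz, Finset.mem_filter] at hj
    rw [Finset.mem_filter]
    exact ⟨hj.1, hs.1 _ hj.2⟩
  have hsuby : Sat (At tb K y) T F → ((Finset.range 60).filter fun j =>
      At tb K y (608 + eid (en tb.ty (60 * t + j)))) ⊆ Finset.range 60 \ Sy := by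
    intro hs j hj
    rw [Finset.mem_filter] at hj
    rw [Finset.mem_sdiff, hSy, Finset.mem_filter]
    exact ⟨hj.1, fun h1 => hs.2 _ h1.2 hj.2⟩
  have hcy : (Finset.range 60 \ Sy).card = 60 - Sy.card := by
    rw [Finset.card_sdiff_of_subset, Finset.card_range]
    rw [hSy]
    exact Finset.filter_subset _ _
  rw [ic_eq] at hr
  split_ifs at hr with h0
  · refine Res_cf hr fun hs => ?_
    have h1 := blt_lt h0
    have h2 := Finset.card_le_card (hsubz hs)
    have h3 := Finset.card_le_card (hsuby hs)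
    rw [hVS] at h2
    rw [hES, hcy] at h3
    omega
  · rw [ic_eq] at hr
    split_ifs at hr with h1
    · have h1' := Nat.eq_of_beq_eq_true h1
      have key : Sat (At tb K y) T F → V = zm ∧ E = 60 - Sy.card := by
        intro hs
        have h2 := Finset.card_le_card (hsubz hs)
        have h3 := Finset.card_le_card (hsuby hs)
        rw [hVS] at h2
        rw [hES, hcy] at h3
        omega
      -- the edges
      have hedge : ∀ T' F', (Sat (At tb K y) T F → Sat (At tb K y) T' F') →
          (∀ i, T.testBit i = true → T'.testBit i = true) →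
          (∀ i, F.testBit i = true → F'.testBit i = true) →
          allT tb tb.ty 608 cf ok 60 (60 * t) T' F' = true → Res (At tb K y) T F ok cf := by
        intro T' F' h5 h6 h7 h4
        refine Res_pre h5 (RM_Res (allT_RM hC 60 (60 * t) T' F' (fun j h2 h3 => by
          obtain ⟨j', rfl⟩ := Nat.exists_eq_add_of_le h2
          have := hy j' (by omega)
          omega) (fun hs' j h2 h3 h8 => ?_) h4))
        obtain ⟨j', rfl⟩ := Nat.exists_eq_add_of_le h2
        have hs := Sat_mono hs' h6 h7
        have h9 := Finset.eq_of_subset_of_card_le (hsuby hs) (by rw [hES, hcy, (key hs).2])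
        have h10 : j' ∈ Finset.range 60 \ Sy := by
          rw [Finset.mem_sdiff, hSy, Finset.mem_filter, Finset.mem_range]
          refine ⟨by omega, fun h11 => ?_⟩
          rw [test_false h7 h8] at h11
          exact absurd h11.2 (by decide)
        rw [← h9, Finset.mem_filter] at h10
        exact h10.2
      rw [ic_eq] at hr
      split_ifs at hr with h2
      · exact hedge T F id (fun _ => id) (fun _ => id) hr
      · have h3 : zm = Sz.card := by
          rcases hzm' with h3 | h3
          · exact absurd (Eq.mpr Nat.blt_eq h3.1) h2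
          · exact h3.2
        have h4 := allF_RM hC 12 (12 * t) T F (fun j h2 h3 => by
          obtain ⟨j', rfl⟩ := Nat.exists_eq_add_of_le h2
          have := hz j' (by omega)
          omega) (fun hs j h2 h6 h5 hA => by
          obtain ⟨j', rfl⟩ := Nat.exists_eq_add_of_le h2
          have h7 := Finset.eq_of_subset_of_card_le (hsubz hs) (by
            rw [hVS, (key hs).1, h3])
          have h8 : j' ∈ Sz := by
            rw [h7, Finset.mem_filter, Finset.mem_range]
            exact ⟨by omega, hA⟩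
          rw [hSz, Finset.mem_filter] at h8
          rw [h8.2] at h5
          exact absurd h5 (by decide)) hr
        rcases h4 with h4 | ⟨T', F', h4, h5, h6, h7⟩
        · exact Or.inl h4
        · exact hedge T' F' h5 h6 h7 h4
    · exact Res_ok hr id

end Rule

end H23.LZ.Ck.Cnt
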