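import Pool.Agent.H23.LZ.CkI

/-!
# Closures: setting an atom true or false
-/

namespace H23.LZ.Ck.Cl

open H40.VT

/-- inclusion of masks -/
def sub (a b : ℕ) : Bool := Nat.beq (Nat.land a b) a

/-- union of the atoms `b + id` of the entries `i0, ..., i0 + n - 1` -/
def orE (t b i0 n : ℕ) : ℕ :=
  @Nat.rec (fun _ => ℕ) 0 (fun j acc =>
    Nat.lor (bi (Nat.add b (eid (en t (Nat.add i0 j))))) acc) n

/-- union of the rows `b + id` of the entries `i0, ..., i0 + n - 1` -/
def orR (tb : Tab) (t b i0 n : ℕ) : ℕ :=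
  @Nat.rec (fun _ => ℕ) 0 (fun j acc =>
    Nat.lor (row tb.ct (Nat.add b (eid (en t (Nat.add i0 j))))) acc) n

/-- an entry `e` of a table for the small set `m` and the big set `M` -/
def inc (tb : Tab) (bnd R M e : ℕ) : Bool :=
  ic (Nat.blt (eid e) bnd) (ic (Nat.blt (eg e) 18)
    (sub (img tb (eg e) (e18 R (eid e))) M) false) false

/-- the entries of a table -/
def chkE (tb : Tab) (t bnd R S w n : ℕ) : Bool :=
  @Nat.rec (fun _ => Bool) true (fun r acc => ic
    (fo (e18 S r) fun M => @Nat.rec (fun _ => Bool) true (fun j acc' => ic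
      (fo (en t (Nat.add (Nat.mul w r) j)) fun e => inc tb bnd R M e) acc' false) w) acc false) n

/-- the rows of the ridges -/
def chkR (tb : Tab) : Bool :=
  @Nat.rec (fun _ => Bool) true (fun r acc => ic
    (sub (row tb.ct (Nat.add 608 r)) (Nat.lor (bi (Nat.add 608 r))
      (orE tb.rz 832 (Nat.mul 5 r) 5))) acc false) 224

/-- the rows of the facets -/
def chkF (tb : Tab) : Bool :=
  @Nat.rec (fun _ => Bool) true (fun f acc => ic
    (fo (orR tb tb.fy 608 (Nat.mul 6 f) 6) fun U =>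
      ic (sub (row tb.ct f) (Nat.lor (bi f) U))
        (sub (row tb.ct (Nat.add 304 f)) (Nat.lor (bi (Nat.add 304 f)) U)) false) acc false) tb.nf

/-- the rows of the 4-sets -/
def chkZ (tb : Tab) : Bool :=
  @Nat.rec (fun _ => Bool) true (fun q acc => ic
    (sub (row tb.ct (Nat.add 832 q)) (bi (Nat.add 832 q))) acc false) 112

/-- both signs of a facet -/
def fo2 (f : ℕ) : ℕ := Nat.lor (bi f) (bi (Nat.add 304 f))

/-- union of the two signs of the facets of the entries -/
def orF (t i0 n : ℕ) : ℕ :=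
  @Nat.rec (fun _ => ℕ) 0 (fun j acc =>
    Nat.lor (fo2 (eid (en t (Nat.add i0 j)))) acc) n

/-- union of the rows `608 + id` of `df` of the entries -/
def orD (tb : Tab) (t i0 n : ℕ) : ℕ :=
  @Nat.rec (fun _ => ℕ) 0 (fun j acc =>
    Nat.lor (row tb.df (Nat.add 608 (eid (en t (Nat.add i0 j))))) acc) n

/-- the rows of the ridges in the table `df` -/
def chkD1 (tb : Tab) : Bool :=
  @Nat.rec (fun _ => Bool) true (fun r acc => ic
    (ic (sub (row tb.df (Nat.add 608 r)) (Nat.lor (bi (Nat.add 608 r)) (orF tb.rf (Nat.mul 8 r) 8)))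
      (@Nat.rec (fun _ => Bool) true (fun j acc' => ic
        (fo (eid (en tb.rf (Nat.add (Nat.mul 8 r) j))) fun g =>
          ic (bt (row tb.ct g) (Nat.add 608 r)) (bt (row tb.ct (Nat.add 304 g)) (Nat.add 608 r))
            false) acc' false) 8) false) acc false) 224

/-- the rows of the 4-sets in the table `df` -/
def chkD2 (tb : Tab) : Bool :=
  @Nat.rec (fun _ => Bool) true (fun q acc => ic
    (ic (sub (row tb.df (Nat.add 832 q)) (Nat.lor (bi (Nat.add 832 q))
        (orD tb tb.qy (Nat.mul 10 q) 10)))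
      (@Nat.rec (fun _ => Bool) true (fun j acc' => ic
        (fo (eid (en tb.qy (Nat.add (Nat.mul 10 q) j))) fun g => ic (Nat.blt g 224)
          (bt (row tb.ct (Nat.add 608 g)) (Nat.add 832 q)) false) acc' false) 10) false)
      acc false) 112

/-- the rows of the table `df` -/
def chkD (tb : Tab) : Bool :=
  ic (@Nat.rec (fun _ => Bool) true (fun a acc => ic (sub (row tb.df a) (bi a)) acc false) 608)
    (ic (chkD1 tb) (chkD2 tb) false) false

/-- the whole check of the closures -/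
def _root_.H23.LZ.Ck.chkCl (tb : Tab) : Bool :=
  ic (Nat.ble tb.nf 304) (ic (chkE tb tb.fy 224 tb.r5 tb.r6 6 tb.nf)
    (ic (chkE tb tb.rz 112 tb.r4 tb.r5 5 224)
      (ic (chkR tb) (ic (chkF tb) (ic (chkZ tb) (chkD tb) false) false) false) false) false) false

theorem ic_and {c a : Bool} (h : ic c a false = true) : c = true ∧ a = true := by
  cases c
  · exact absurd h (by simp [ic])
  · exact ⟨rfl, h⟩

theorem sub_test {a b : ℕ} (h : sub a b = true) {i : ℕ} (hi : a.testBit i = true) :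
    b.testBit i = true := by
  have h1 : a &&& b = a := Nat.eq_of_beq_eq_true h
  rw [← h1, Nat.testBit_and, Bool.and_eq_true] at hi
  exact hi.2

theorem D_mono {a b : ℕ} (h : sub a b = true) : D a ⊆ D b := by
  intro i hi
  rw [mem_D] at hi ⊢
  exact sub_test h hi

theorem row_lt {t i j : ℕ} (h : (row t i).testBit j = true) : j < 944 := by
  by_contra hc
  have h1 : (row t i).testBit j = false := by
    change ((t >>> (944 * i)) % 2 ^ 944).testBit j = false
    rw [Nat.testBit_mod_two_pow, decide_eq_false hc, Bool.false_and]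
  rw [h1] at h
  exact Bool.false_ne_true h

theorem orE_test {t b i0 n j : ℕ} (h : (orE t b i0 n).testBit j = true) :
    ∃ i < n, j = b + eid (en t (i0 + i)) := by
  induction n with
  | zero =>
    change (0 : ℕ).testBit j = true at h
    simp at h
  | succ n ih =>
    change ((bi (b + eid (en t (i0 + n)))) ||| (orE t b i0 n) : ℕ).testBit j = true at h
    rw [Nat.testBit_or, Bool.or_eq_true, bi_test, decide_eq_true_eq] at h
    rcases h with h | h
    · exact ⟨n, Nat.lt_succ_self n, h.symm⟩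
    · obtain ⟨i, h1, h2⟩ := ih h
      exact ⟨i, Nat.lt_succ_of_lt h1, h2⟩

theorem orR_test {tb : Tab} {t b i0 n j : ℕ} (h : (orR tb t b i0 n).testBit j = true) :
    ∃ i < n, (row tb.ct (b + eid (en t (i0 + i)))).testBit j = true := by
  induction n with
  | zero =>
    change (0 : ℕ).testBit j = true at h
    simp at h
  | succ n ih =>
    change ((row tb.ct (b + eid (en t (i0 + n)))) ||| (orR tb t b i0 n) : ℕ).testBit j = true at h
    rw [Nat.testBit_or, Bool.or_eq_true] at h
    rcases h with h | h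
    · exact ⟨n, Nat.lt_succ_self n, h⟩
    · obtain ⟨i, h1, h2⟩ := ih h
      exact ⟨i, Nat.lt_succ_of_lt h1, h2⟩

theorem chkE_ok {tb : Tab} {t bnd R S w n : ℕ} (h : chkE tb t bnd R S w n = true) {r : ℕ}
    (hr : r < n) {j : ℕ} (hj : j < w) : inc tb bnd R (e18 S r) (en t (w * r + j)) = true := by
  have h1 := chk_all (p := fun r => fo (e18 S r) fun M =>
    @Nat.rec (fun _ => Bool) true (fun j acc' => ic
      (fo (en t (Nat.add (Nat.mul w r) j)) fun e => inc tb bnd R M e) acc' false) w) h r hr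
  exact chk_all (p := fun j => fo (en t (Nat.add (Nat.mul w r) j)) fun e =>
    inc tb bnd R (e18 S r) e) h1 j hj

section

variable {tb : Tab} {K : Finset (Finset (Fin 18))} {y : Finset (Fin 18) → ZMod 3}

theorem inc_K (G : Good tb K y) (hg : chkG tb = true) {bnd R M e : ℕ}
    (h : inc tb bnd R M e = true) (hM : D M ∈ K) : eid e < bnd ∧ D (e18 R (eid e)) ∈ K := by
  unfold inc at h
  obtain ⟨h1, h2⟩ := ic_and h
  obtain ⟨h3, h4⟩ := ic_and h2
  refine ⟨by simpa [Nat.blt_eq] using h1, ?_⟩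
  have h5 : eg e < 18 := by simpa [Nat.blt_eq] using h3
  rw [← G.img_mem hg h5]
  exact G.hyp.sph.1 _ hM _ (D_mono h4)

theorem At_fac {f : ℕ} (hf : f < 304) :
    At tb K y f ↔ f < tb.nf ∧ y (D (e18 tb.r6 f)) = 1 := by
  unfold At
  rw [if_pos hf]

theorem At_fac' {f : ℕ} (hf : f < 304) :
    At tb K y (304 + f) ↔ f < tb.nf ∧ y (D (e18 tb.r6 f)) = -1 := by
  unfold At
  rw [if_neg (by omega), if_pos (by omega), Nat.add_sub_cancel_left]

theorem At_rid {r : ℕ} (hr : r < 224) : At tb K y (608 + r) ↔ D (e18 tb.r5 r) ∈ K := by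
  unfold At
  rw [if_neg (by omega), if_neg (by omega), if_pos (by omega), Nat.add_sub_cancel_left]

theorem At_fou {q : ℕ} (hq : q < 112) : At tb K y (832 + q) ↔ D (e18 tb.r4 q) ∈ K := by
  unfold At
  rw [if_neg (by omega), if_neg (by omega), if_neg (by omega), Nat.add_sub_cancel_left]
  exact ⟨fun h => h.2, fun h => ⟨by omega, h⟩⟩

/-- the two signs exclude each other -/
theorem _root_.H23.LZ.Ck.ex_ok {f : ℕ} (hf : f < 304) : ¬ (At tb K y f ∧ At tb K y (304 + f)) := by
  rw [At_fac hf, At_fac' hf]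
  rintro ⟨⟨_, h1⟩, _, h2⟩
  rw [h1] at h2
  exact absurd h2 (by decide)

variable (G : Good tb K y) (hg : chkG tb = true) (hc : chkCl tb = true)

include hc in
theorem chkCl_parts : tb.nf ≤ 304 ∧ chkE tb tb.fy 224 tb.r5 tb.r6 6 tb.nf = true ∧
    chkE tb tb.rz 112 tb.r4 tb.r5 5 224 = true ∧ chkR tb = true ∧ chkF tb = true ∧
    chkZ tb = true ∧ chkD tb = true := by
  unfold chkCl at hc
  obtain ⟨h1, hc⟩ := ic_and hc
  obtain ⟨h2, hc⟩ := ic_and hc
  obtain ⟨h3, hc⟩ := ic_and hc
  obtain ⟨h4, hc⟩ := ic_and hc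
  obtain ⟨h5, hc⟩ := ic_and hc
  obtain ⟨h6, h7⟩ := ic_and hc
  exact ⟨Nat.le_of_ble_eq_true h1, h2, h3, h4, h5, h6, h7⟩

include G hg hc

theorem ct_rid {r b : ℕ} (hr : r < 224) (h : (row tb.ct (608 + r)).testBit b = true)
    (hA : At tb K y (608 + r)) : At tb K y b := by
  obtain ⟨_, _, hz, hR, _⟩ := chkCl_parts hc
  have h1 := chk_all (p := fun r => sub (row tb.ct (Nat.add 608 r)) (Nat.lor (bi (Nat.add 608 r))
      (orE tb.rz 832 (Nat.mul 5 r) 5))) hR r hr
  have h2 : (bi (608 + r) ||| orE tb.rz 832 (5 * r) 5 : ℕ).testBit b = true := sub_test h1 h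
  rw [Nat.testBit_or, Bool.or_eq_true, bi_test, decide_eq_true_eq] at h2
  rcases h2 with h2 | h2
  · exact h2 ▸ hA
  · obtain ⟨i, h3, rfl⟩ := orE_test h2
    obtain ⟨h4, h5⟩ := inc_K G hg (chkE_ok hz hr h3) ((At_rid hr).1 hA)
    exact (At_fou h4).2 h5

theorem facet_rid {f : ℕ} (hf : f < tb.nf) (hK : D (e18 tb.r6 f) ∈ K) {b : ℕ}
    (h : (orR tb tb.fy 608 (6 * f) 6).testBit b = true) : At tb K y b := by
  obtain ⟨_, hy, _⟩ := chkCl_parts hc
  obtain ⟨i, h3, h4⟩ := orR_test h
  obtain ⟨h5, h6⟩ := inc_K G hg (chkE_ok hy hf h3) hK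
  exact ct_rid G hg hc h5 h4 ((At_rid h5).2 h6)

/-- the consequences of a true atom -/
theorem _root_.H23.LZ.Ck.ct_ok {a b : ℕ} (ha : a < 944) (h : (row tb.ct a).testBit b = true)
    (hA : At tb K y a) : At tb K y b := by
  obtain ⟨hn, _, _, _, hF, hZ, _⟩ := chkCl_parts hc
  have hF' : ∀ f < tb.nf, sub (row tb.ct f) (bi f ||| orR tb tb.fy 608 (6 * f) 6) = true ∧
      sub (row tb.ct (304 + f)) (bi (304 + f) ||| orR tb tb.fy 608 (6 * f) 6) = true := by
    intro f hf
    exact ic_and (chk_all (p := fun f => fo (orR tb tb.fy 608 (Nat.mul 6 f) 6) fun U =>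
      ic (sub (row tb.ct f) (Nat.lor (bi f) U))
        (sub (row tb.ct (Nat.add 304 f)) (Nat.lor (bi (Nat.add 304 f)) U)) false) hF f hf)
  by_cases h1 : a < 304
  · have h2 := (At_fac h1).1 hA
    have h3 : D (e18 tb.r6 a) ∈ K := ((G.yK _).1 (by rw [h2.2]; decide)).1
    have h4 := sub_test (hF' a h2.1).1 h
    rw [Nat.testBit_or, Bool.or_eq_true, bi_test, decide_eq_true_eq] at h4
    rcases h4 with h4 | h4
    · exact h4 ▸ hA
    · exact facet_rid G hg hc h2.1 h3 h4
  by_cases h5 : a < 608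
  · obtain ⟨f, rfl⟩ : ∃ f, a = 304 + f := ⟨a - 304, by omega⟩
    have h2 := (At_fac' (by omega)).1 hA
    have h3 : D (e18 tb.r6 f) ∈ K := ((G.yK _).1 (by rw [h2.2]; decide)).1
    have h4 := sub_test (hF' f h2.1).2 h
    rw [Nat.testBit_or, Bool.or_eq_true, bi_test, decide_eq_true_eq] at h4
    rcases h4 with h4 | h4
    · exact h4 ▸ hA
    · exact facet_rid G hg hc h2.1 h3 h4
  by_cases h6 : a < 832
  · obtain ⟨r, rfl⟩ : ∃ r, a = 608 + r := ⟨a - 608, by omega⟩
    exact ct_rid G hg hc (by omega) h hA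
  · obtain ⟨q, rfl⟩ : ∃ q, a = 832 + q := ⟨a - 832, by omega⟩
    have h2 := chk_all (p := fun q => sub (row tb.ct (Nat.add 832 q)) (bi (Nat.add 832 q)))
      hZ q (show q < 112 by omega)
    have h3 : (bi (832 + q)).testBit b = true := sub_test h2 h
    rw [bi_test, decide_eq_true_eq] at h3
    exact h3 ▸ hA

omit G hg hc in
theorem orF_test {t i0 n j : ℕ} (h : (orF t i0 n).testBit j = true) :
    ∃ i < n, j = eid (en t (i0 + i)) ∨ j = 304 + eid (en t (i0 + i)) := by
  induction n with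
  | zero =>
    change (0 : ℕ).testBit j = true at h
    simp at h
  | succ n ih =>
    change ((bi (eid (en t (i0 + n))) ||| bi (304 + eid (en t (i0 + n)))) |||
      (orF t i0 n) : ℕ).testBit j = true at h
    rw [Nat.testBit_or, Nat.testBit_or, Bool.or_eq_true, Bool.or_eq_true, bi_test, bi_test,
      decide_eq_true_eq, decide_eq_true_eq] at h
    rcases h with (h | h) | h
    · exact ⟨n, Nat.lt_succ_self n, Or.inl h.symm⟩
    · exact ⟨n, Nat.lt_succ_self n, Or.inr h.symm⟩
    · obtain ⟨i, h1, h2⟩ := ih h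
      exact ⟨i, Nat.lt_succ_of_lt h1, h2⟩

omit G hg hc in
theorem orD_test {t i0 n j : ℕ} (h : (orD tb t i0 n).testBit j = true) :
    ∃ i < n, (row tb.df (608 + eid (en t (i0 + i)))).testBit j = true := by
  induction n with
  | zero =>
    change (0 : ℕ).testBit j = true at h
    simp at h
  | succ n ih =>
    change ((row tb.df (608 + eid (en t (i0 + n)))) ||| (orD tb t i0 n) : ℕ).testBit j = true at h
    rw [Nat.testBit_or, Bool.or_eq_true] at h
    rcases h with h | h
    · exact ⟨n, Nat.lt_succ_self n, h⟩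
    · obtain ⟨i, h1, h2⟩ := ih h
      exact ⟨i, Nat.lt_succ_of_lt h1, h2⟩

theorem df_rid (h1 : chkD1 tb = true) {r b : ℕ} (hr : r < 224)
    (h : (row tb.df (608 + r)).testBit b = true) (hA : ¬ At tb K y (608 + r)) :
    ¬ At tb K y b := by
  have h2 := chk_all (p := fun r => ic (sub (row tb.df (Nat.add 608 r))
      (Nat.lor (bi (Nat.add 608 r)) (orF tb.rf (Nat.mul 8 r) 8)))
      (@Nat.rec (fun _ => Bool) true (fun j acc' => ic
        (fo (eid (en tb.rf (Nat.add (Nat.mul 8 r) j))) fun g =>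
          ic (bt (row tb.ct g) (Nat.add 608 r)) (bt (row tb.ct (Nat.add 304 g)) (Nat.add 608 r))
            false) acc' false) 8) false) h1 r hr
  obtain ⟨h3, h4⟩ := ic_and h2
  have h5 : (bi (608 + r) ||| orF tb.rf (8 * r) 8 : ℕ).testBit b = true := sub_test h3 h
  rw [Nat.testBit_or, Bool.or_eq_true, bi_test, decide_eq_true_eq] at h5
  rcases h5 with h5 | h5
  · exact h5 ▸ hA
  · obtain ⟨i, hi, h6⟩ := orF_test h5
    have h7 := chk_all (p := fun j => fo (eid (en tb.rf (Nat.add (Nat.mul 8 r) j))) fun g =>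
          ic (bt (row tb.ct g) (Nat.add 608 r)) (bt (row tb.ct (Nat.add 304 g)) (Nat.add 608 r))
            false) h4 i hi
    rw [fo_eq] at h7
    obtain ⟨h8, h9⟩ := ic_and h7
    rw [bt_eq] at h8 h9
    intro hB
    rcases h6 with h6 | h6
    · exact hA (ct_ok G hg hc (row_lt h) (h6 ▸ h8) hB)
    · exact hA (ct_ok G hg hc (row_lt h) (h6 ▸ h9) hB)

/-- the consequences of a false atom -/
theorem _root_.H23.LZ.Ck.df_ok {a b : ℕ} (ha : a < 944) (h : (row tb.df a).testBit b = true)
    (hA : ¬ At tb K y a) : ¬ At tb K y b := by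
  obtain ⟨_, _, _, _, _, _, hD⟩ := chkCl_parts hc
  unfold chkD at hD
  obtain ⟨h0, hD⟩ := ic_and hD
  obtain ⟨h1, h2⟩ := ic_and hD
  by_cases h3 : a < 608
  · have h4 := chk_all (p := fun a => sub (row tb.df a) (bi a)) h0 a h3
    have h5 := sub_test h4 h
    rw [bi_test, decide_eq_true_eq] at h5
    exact h5 ▸ hA
  by_cases h6 : a < 832
  · obtain ⟨r, rfl⟩ : ∃ r, a = 608 + r := ⟨a - 608, by omega⟩
    exact df_rid G hg hc h1 (by omega) h hA
  · obtain ⟨q, rfl⟩ : ∃ q, a = 832 + q := ⟨a - 832, by omega⟩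
    have h4 := chk_all (p := fun q => ic (sub (row tb.df (Nat.add 832 q))
        (Nat.lor (bi (Nat.add 832 q)) (orD tb tb.qy (Nat.mul 10 q) 10)))
      (@Nat.rec (fun _ => Bool) true (fun j acc' => ic
        (fo (eid (en tb.qy (Nat.add (Nat.mul 10 q) j))) fun g => ic (Nat.blt g 224)
          (bt (row tb.ct (Nat.add 608 g)) (Nat.add 832 q)) false) acc' false) 10) false) h2 q
        (show q < 112 by omega)
    obtain ⟨h5, h7⟩ := ic_and h4
    have h8 : (bi (832 + q) ||| orD tb tb.qy (10 * q) 10 : ℕ).testBit b = true := sub_test h5 h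
    rw [Nat.testBit_or, Bool.or_eq_true, bi_test, decide_eq_true_eq] at h8
    rcases h8 with h8 | h8
    · exact h8 ▸ hA
    · obtain ⟨i, hi, h9⟩ := orD_test h8
      have h10 := chk_all (p := fun j => fo (eid (en tb.qy (Nat.add (Nat.mul 10 q) j))) fun g =>
        ic (Nat.blt g 224) (bt (row tb.ct (Nat.add 608 g)) (Nat.add 832 q)) false) h7 i hi
      rw [fo_eq] at h10
      obtain ⟨h11, h12⟩ := ic_and h10
      rw [bt_eq] at h12
      have h13 : eid (en tb.qy (10 * q + i)) < 224 := by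
        simpa [Nat.blt_eq] using h11
      refine df_rid G hg hc h1 h13 h9 fun hB => hA ?_
      exact ct_ok G hg hc (show 608 + eid (en tb.qy (10 * q + i)) < 944 by omega) h12 hB

omit G hg hc in
/-- the opposite atom -/
theorem opp_ok {a b : ℕ} (h : (opp a).testBit b = true)
    (hA : At tb K y a) : ¬ At tb K y b := by
  unfold opp at h
  rw [cn_eq] at h
  split_ifs at h with h1
  · have h2 : a < 304 := by simpa [Nat.blt_eq] using h1
    rw [bi_test, decide_eq_true_eq] at h
    intro hB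
    refine ex_ok (tb := tb) (K := K) (y := y) h2 ⟨hA, ?_⟩
    rw [← h] at hB
    rwa [Nat.add_comm 304 a]
  · rw [cn_eq] at h
    split_ifs at h with h3
    · have h4 : a < 608 := by simpa [Nat.blt_eq] using h3
      have h5 : ¬ a < 304 := fun h6 => h1 (by simpa [Nat.blt_eq] using h6)
      rw [bi_test, decide_eq_true_eq] at h
      intro hB
      have h7 : b = a - 304 := h.symm
      refine ex_ok (tb := tb) (K := K) (y := y) (f := b) (by omega) ⟨hB, ?_⟩
      have h8 : 304 + b = a := by omega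
      rwa [h8]
    · simp at h

/-- setting an atom true -/
theorem _root_.H23.LZ.Ck.asT_res {a : ℕ} (ha : a < 944) {T F : ℕ} {ok : ℕ → ℕ → Bool} {cf : Bool}
    (hA : Sat (At tb K y) T F → At tb K y a) (h : asT tb a T F ok cf = true) :
    Res (At tb K y) T F ok cf := by
  unfold asT at h
  rw [fo_eq, fo_eq] at h
  refine Res_test (fun hs => ?_) h
  have h1 : Sat (At tb K y) (T ||| row tb.ct a) F :=
    Sat_lor hs fun i hi => ct_ok G hg hc ha hi (hA hs)
  exact Sat_lorF h1 fun i hi => opp_ok hi (hA hs)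

/-- setting an atom false -/
theorem _root_.H23.LZ.Ck.asF_res {a : ℕ} (ha : a < 944) {T F : ℕ} {ok : ℕ → ℕ → Bool} {cf : Bool}
    (hA : Sat (At tb K y) T F → ¬ At tb K y a) (h : asF tb a T F ok cf = true) :
    Res (At tb K y) T F ok cf := by
  unfold asF at h
  rw [fo_eq] at h
  refine Res_test (fun hs => ?_) h
  exact Sat_lorF hs fun i hi => df_ok G hg hc ha hi (hA hs)

end

end H23.LZ.Ck.Cl
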