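import Pool.Agent.H23.LZ.CkS

/-!
# Incidences: masks and vertex sets
-/

namespace H23.LZ.Ck

/-- the image of a mask under the group element `s` -/
def img (tb : Tab) (s m : ℕ) : ℕ :=
  @Nat.rec (fun _ => ℕ) 0 (fun i acc =>
    cn (bt m i) (Nat.lor acc (bi (Nat.mod (Nat.shiftRight tb.gp
      (Nat.mul 5 (Nat.add (Nat.mul 18 s) i))) 32))) acc) 18

/-- all entries of the group table are below 18 -/
def chkG (tb : Tab) : Bool :=
  @Nat.rec (fun _ => Bool) true (fun i acc =>
    ic (Nat.blt (Nat.mod (Nat.shiftRight tb.gp (Nat.mul 5 i)) 32) 18) acc false) 324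

theorem chk_all {p : ℕ → Bool} {n : ℕ}
    (h : @Nat.rec (fun _ => Bool) true (fun i acc => ic (p i) acc false) n = true) :
    ∀ i < n, p i = true := by
  induction n with
  | zero => intro i hi; omega
  | succ n ih =>
    change ic (p n) (@Nat.rec (fun _ => Bool) true (fun i acc => ic (p i) acc false) n) false
      = true at h
    rw [ic_eq] at h
    split_ifs at h with h0
    intro i hi
    rcases Nat.lt_succ_iff_lt_or_eq.1 hi with h1 | h1
    · exact ih h i h1
    · exact h1 ▸ h0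

theorem gf_val {tb : Tab} (hg : chkG tb = true) {s : ℕ} (hs : s < 18) (i : Fin 18) :
    ((gf tb s i : Fin 18) : ℕ)
      = Nat.mod (Nat.shiftRight tb.gp (Nat.mul 5 (Nat.add (Nat.mul 18 s) i))) 32 := by
  have h1 := chk_all (p := fun i => Nat.blt (Nat.mod (Nat.shiftRight tb.gp (Nat.mul 5 i)) 32) 18)
    hg (Nat.add (Nat.mul 18 s) i) (by
      change 18 * s + (i : ℕ) < 324
      have := i.2
      omega)
  have h2 : Nat.mod (Nat.shiftRight tb.gp (Nat.mul 5 (Nat.add (Nat.mul 18 s) i))) 32 < 18 := by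
    exact Eq.mp Nat.blt_eq h1
  unfold gf
  exact Nat.mod_eq_of_lt h2

theorem img_test {tb : Tab} (hg : chkG tb = true) {s : ℕ} (hs : s < 18) (m : ℕ) (n : ℕ)
    (hn : n ≤ 18) (j : ℕ) :
    (@Nat.rec (fun _ => ℕ) 0 (fun i acc =>
      cn (bt m i) (Nat.lor acc (bi (Nat.mod (Nat.shiftRight tb.gp
        (Nat.mul 5 (Nat.add (Nat.mul 18 s) i))) 32))) acc) n : ℕ).testBit j = true ↔
      ∃ i : Fin 18, (i : ℕ) < n ∧ m.testBit i = true ∧ ((gf tb s i : Fin 18) : ℕ) = j := by
  induction n with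
  | zero =>
    change (0 : ℕ).testBit j = true ↔ _
    simp
  | succ n ih =>
    have ih' := ih (by omega)
    change (cn (bt m n) (Nat.lor _ (bi _)) _ : ℕ).testBit j = true ↔ _
    rw [cn_eq, bt_eq]
    have hv := gf_val hg hs ⟨n, by omega⟩
    change _ = Nat.mod (Nat.shiftRight tb.gp (Nat.mul 5 (Nat.add (Nat.mul 18 s) n))) 32 at hv
    split_ifs with h0
    · rw [← hv]
      change (_ ||| bi _ : ℕ).testBit j = true ↔ _
      rw [Nat.testBit_or, Bool.or_eq_true, ih', bi_test, decide_eq_true_eq]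
      constructor
      · rintro (⟨i, h1, h2, h3⟩ | h1)
        · exact ⟨i, by omega, h2, h3⟩
        · exact ⟨⟨n, by omega⟩, by change n < n + 1; omega, h0, h1⟩
      · rintro ⟨i, h1, h2, h3⟩
        rcases Nat.lt_succ_iff_lt_or_eq.1 h1 with h4 | h4
        · exact Or.inl ⟨i, h4, h2, h3⟩
        · right
          have : (⟨n, by omega⟩ : Fin 18) = i := Fin.ext h4.symm
          rw [this]
          exact h3
    · rw [ih']
      constructor
      · rintro ⟨i, h1, h2, h3⟩
        exact ⟨i, by omega, h2, h3⟩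
      · rintro ⟨i, h1, h2, h3⟩
        rcases Nat.lt_succ_iff_lt_or_eq.1 h1 with h4 | h4
        · exact ⟨i, h4, h2, h3⟩
        · rw [h4] at h2
          exact absurd h2 h0

/-- images of masks are images of sets -/
theorem D_img {tb : Tab} (hg : chkG tb = true) {s : ℕ} (hs : s < 18) (m : ℕ) :
    D (img tb s m) = (D m).image (gf tb s) := by
  ext j
  rw [mem_D, Finset.mem_image]
  unfold img
  rw [img_test hg hs m 18 le_rfl j]
  constructor
  · rintro ⟨i, _, h2, h3⟩
    exact ⟨i, (mem_D m i).2 h2, Fin.ext h3⟩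
  · rintro ⟨i, h2, h3⟩
    exact ⟨i, i.2, (mem_D m i).1 h2, congrArg Fin.val h3⟩

theorem D_lor (m m' : ℕ) : D (m ||| m') = D m ∪ D m' := by
  ext i
  rw [mem_D, Nat.testBit_or, Bool.or_eq_true, Finset.mem_union, mem_D, mem_D]

theorem D_bi {a : ℕ} (ha : a < 18) : D (bi a) = {⟨a, ha⟩} := by
  ext i
  rw [mem_D, bi_test, decide_eq_true_eq, Finset.mem_singleton, Fin.ext_iff]
  exact eq_comm

/-- adding a vertex to a mask -/
theorem D_ins (m : ℕ) {a : ℕ} (ha : a < 18) : D (m ||| bi a) = insert ⟨a, ha⟩ (D m) := by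
  rw [D_lor, D_bi ha, Finset.union_comm]
  rfl

/-- faces and their images -/
theorem Good.img_mem {tb : Tab} {K : Finset (Finset (Fin 18))} {y : Finset (Fin 18) → ZMod 3}
    (h : Good tb K y) (hg : chkG tb = true) {s : ℕ} (hs : s < 18) (m : ℕ) :
    D (img tb s m) ∈ K ↔ D m ∈ K := by
  rw [D_img hg hs]
  exact h.inv s hs _

end H23.LZ.Ck
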