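import Pool.Agent.H23.LZ.Planar

/-!
# Full subcomplexes of the sphere have no homology below the top, and the rules N5, N6, S6
-/

namespace H23.LZ

open H40.VT

variable {N : ℕ}

/-- the faces which avoid `D` -/
def av (L : Finset (Finset (Fin N))) (D : Finset (Fin N)) : Finset (Finset (Fin N)) :=
  L.filter fun σ => Disjoint σ D

theorem mem_av {L : Finset (Finset (Fin N))} {D σ : Finset (Fin N)} :
    σ ∈ av L D ↔ σ ∈ L ∧ Disjoint σ D := Finset.mem_filter

theorem dis_compl {τ U : Finset (Fin N)} : Disjoint τ Uᶜ ↔ τ ⊆ U := by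
  rw [disjoint_compl_right_iff]

theorem obd_zero2 : obd (0 : Finset (Fin N) → ZMod 2) = 0 := by
  funext τ
  rw [pl_obd]
  exact Finset.sum_eq_zero fun _ _ => rfl

theorem obd_add2 (a b : Finset (Fin N) → ZMod 2) : obd (a + b) = obd a + obd b := by
  funext τ
  simp only [pl_obd, Pi.add_apply, Finset.sum_add_distrib]

theorem OAcy_zero {L : Finset (Finset (Fin N))} {n : ℕ}
    (h : ∀ c : Finset (Fin N) → ZMod 2, OIn L n c → obd c = 0 → c = 0) : OAcy (ZMod 2) L n := by
  intro c hc hb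
  exact ⟨0, fun σ hσ => absurd rfl hσ, by rw [h c hc hb, obd_zero2]⟩

/-- remove one vertex -/
theorem av_step {L : Finset (Finset (Fin N))} (hL : DC L) {D : Finset (Fin N)} {w : Fin N} {n : ℕ}
    (h1 : OAcy (ZMod 2) (av L D) n) (h2 : OAcy (ZMod 2) (av (lk L {w}) D) n) :
    OAcy (ZMod 2) (av L (insert w D)) n := by
  classical
  intro c hc hb
  have hcw : ∀ τ, w ∈ τ → c τ = 0 := by
    intro τ hw
    by_contra hne
    have h3 := (mem_av.1 (hc τ hne).1).2
    rw [Finset.disjoint_insert_right] at h3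
    exact h3.1 hw
  obtain ⟨b, hb1, hb2⟩ := h1 c (fun τ hτ => by
    have h3 := hc τ hτ
    rw [mem_av, Finset.disjoint_insert_right] at h3
    exact ⟨mem_av.2 ⟨h3.1.1, h3.1.2.2⟩, h3.2⟩) hb
  obtain ⟨b1, hb1e⟩ : ∃ b1 : Finset (Fin N) → ZMod 2,
      ∀ τ, b1 τ = if w ∈ τ then 0 else b (insert w τ) := ⟨_, fun _ => rfl⟩
  obtain ⟨b0, hb0e⟩ : ∃ b0 : Finset (Fin N) → ZMod 2,
      ∀ τ, b0 τ = if w ∈ τ then 0 else b τ := ⟨_, fun _ => rfl⟩
  have hs : obd b0 + b1 = c := by
    funext τ
    rw [Pi.add_apply, pl_obd, hb1e]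
    by_cases hw : w ∈ τ
    · rw [if_pos hw, hcw τ hw, add_zero]
      refine Finset.sum_eq_zero fun v _ => ?_
      rw [hb0e, if_pos (Finset.mem_insert_of_mem hw)]
    · rw [if_neg hw, ← hb2, pl_obd, ← Finset.sum_erase_add _ _ (Finset.mem_compl.2 hw),
        ← Finset.sum_erase_add (a := w) _ (fun v => b (insert v τ)) (Finset.mem_compl.2 hw)]
      rw [hb0e (insert w τ), if_pos (Finset.mem_insert_self _ _), add_zero]
      congr 1
      refine Finset.sum_congr rfl fun v hv => ?_
      rw [Finset.mem_erase] at hv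
      rw [hb0e, if_neg]
      rw [Finset.mem_insert, not_or]
      exact ⟨hv.1.symm, hw⟩
  have hz : obd b1 = 0 := by
    funext τ
    rw [pl_obd, Pi.zero_apply]
    by_cases hw : w ∈ τ
    · refine Finset.sum_eq_zero fun v _ => ?_
      rw [hb1e, if_pos (Finset.mem_insert_of_mem hw)]
    · have h3 : obd b (insert w τ) = 0 := by
        rw [hb2]
        exact hcw _ (Finset.mem_insert_self _ _)
      rw [← h3, pl_obd, ← Finset.sum_erase_add _ _ (Finset.mem_compl.2 hw), hb1e (insert w τ),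
        if_pos (Finset.mem_insert_self _ _), add_zero]
      have h4 : τᶜ.erase w = (insert w τ)ᶜ := by
        ext v
        simp only [Finset.mem_erase, Finset.mem_compl, Finset.mem_insert]
        tauto
      rw [h4]
      refine Finset.sum_congr rfl fun v hv => ?_
      rw [Finset.mem_compl, Finset.mem_insert, not_or] at hv
      rw [hb1e, if_neg, Finset.insert_comm]
      rw [Finset.mem_insert, not_or]
      exact ⟨Ne.symm hv.1, hw⟩
  obtain ⟨b', hb'1, hb'2⟩ := h2 b1 (fun τ hτ => by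
    rw [hb1e] at hτ
    by_cases hw : w ∈ τ
    · rw [if_pos hw] at hτ
      exact absurd rfl hτ
    · rw [if_neg hw] at hτ
      obtain ⟨h3, h4⟩ := hb1 _ hτ
      rw [mem_av, Finset.disjoint_insert_left] at h3
      rw [Finset.card_insert_of_notMem hw] at h4
      refine ⟨mem_av.2 ⟨mem_lk.2 ⟨Finset.disjoint_singleton_right.2 hw, ?_⟩, h3.2.2⟩, by omega⟩
      rw [Finset.union_comm, ← Finset.insert_eq]
      exact h3.1) hz
  refine ⟨b0 + b', ?_, ?_⟩
  · intro τ hτ
    rw [Pi.add_apply] at hτ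
    have h5 : b0 τ ≠ 0 ∨ b' τ ≠ 0 := by
      by_contra hcon
      push Not at hcon
      exact hτ (by rw [hcon.1, hcon.2, add_zero])
    rcases h5 with h5 | h5
    · rw [hb0e] at h5
      by_cases hw : w ∈ τ
      · rw [if_pos hw] at h5
        exact absurd rfl h5
      · rw [if_neg hw] at h5
        obtain ⟨h6, h7⟩ := hb1 _ h5
        rw [mem_av] at h6
        exact ⟨mem_av.2 ⟨h6.1, Finset.disjoint_insert_right.2 ⟨hw, h6.2⟩⟩, h7⟩
    · obtain ⟨h6, h7⟩ := hb'1 _ h5
      rw [mem_av, mem_lk, Finset.disjoint_singleton_right] at h6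
      exact ⟨mem_av.2 ⟨hL _ h6.1.2 _ Finset.subset_union_left,
        Finset.disjoint_insert_right.2 ⟨h6.1.1, h6.2⟩⟩, h7⟩
  · rw [obd_add2, hb'2, hs]

/-- a link minus a vertex is acyclic -/
theorem av_one {d : ℕ} {K : Finset (Finset (Fin N))} (h : Sph d K) {σ : Finset (Fin N)}
    {u : Fin N} (hu : {u} ∈ lk K σ) (n : ℕ) : OAcy (ZMod 2) (av (lk K σ) {u}) n := by
  obtain ⟨hK, h0, hh⟩ := h
  have h1 : av (lk K σ) {u} = del (lk K σ) {u} := by
    refine Finset.filter_congr fun τ _ => ?_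
    rw [Finset.disjoint_singleton_right, Finset.singleton_subset_iff]
  rw [h1]
  apply OAcy_of (del_DC (lk_DC hK σ) {u})
  have h2 := LA_lk (R := ZMod 2) hK h0 hh σ (↑({u} : Finset (Fin N)))
    ((mem_Fam (lk_DC hK σ)).2 hu) (by simp)
  rw [del_Fam (lk_DC hK σ)] at h2
  intro c hc _ hb
  exact h2 c hc hb

/-- top cycles of a link which avoid a vertex are zero -/
theorem av_top {d : ℕ} {K : Finset (Finset (Fin N))} (h : Sph d K) {σ : Finset (Fin N)}
    {u : Fin N} (hu : {u} ∈ lk K σ) {n : ℕ} (hn : n + σ.card = d) {D : Finset (Fin N)}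
    (hD : u ∈ D) : OAcy (ZMod 2) (av (lk K σ) D) n := by
  apply OAcy_zero
  intro c hc hb
  obtain ⟨b, hb1, hb2⟩ := av_one h hu n c (fun τ hτ => by
    obtain ⟨h1, h2⟩ := hc τ hτ
    rw [mem_av] at h1
    exact ⟨mem_av.2 ⟨h1.1, h1.2.mono_right (Finset.singleton_subset_iff.2 hD)⟩, h2⟩) hb
  have hb0 : b = 0 := by
    funext τ
    by_contra hne
    obtain ⟨h1, h2⟩ := hb1 τ hne
    have h3 := Cor_card h (mem_av.1 h1).1
    omega
  rw [← hb2, hb0, obd_zero2]

theorem lk_lk (K : Finset (Finset (Fin N))) {w c : Fin N} (hwc : c ≠ w) :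
    lk (lk K {w}) {c} = lk K {c, w} := by
  ext τ
  rw [mem_lk, mem_lk, mem_lk]
  have e : τ ∪ {c} ∪ {w} = τ ∪ {c, w} := by
    rw [Finset.union_assoc]
    rfl
  rw [e]
  simp only [Finset.disjoint_singleton_right, Finset.disjoint_insert_right, Finset.mem_union,
    Finset.mem_singleton]
  have := hwc.symm
  tauto

theorem lk_lk_empty {K : Finset (Finset (Fin N))} (hK : DC K) {w c : Fin N}
    (hc : {c} ∉ lk K {w}) : lk (lk K {w}) {c} = ∅ := by
  rw [Finset.eq_empty_iff_forall_notMem]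
  intro τ hτ
  rw [mem_lk] at hτ
  exact hc (lk_DC hK {w} _ hτ.2 _ Finset.subset_union_right)

section Hyp

variable {K : Finset (Finset (Fin 18))} {α : Equiv.Perm (Fin 18)}

theorem trip (h : Hyp K α) {a b w : Fin 18} (hab : a ≠ b) (haw : a ≠ w) (hbw : b ≠ w)
    (hab' : a ≠ α b) (haw' : a ≠ α w) (hbw' : b ≠ α w) : ({a, b, w} : Finset (Fin 18)) ∈ K := by
  apply h.ngb
  · rw [Finset.card_eq_three]
    exact ⟨a, b, w, hab, haw, hbw, rfl⟩
  · have i1 : ∀ x y, x ≠ α y → α x ≠ y := fun x y hxy e => hxy (by rw [← e, h.inv])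
    intro i hi
    simp only [Finset.mem_insert, Finset.mem_singleton] at hi ⊢
    push Not
    rcases hi with rfl | rfl | rfl
    · exact ⟨h.free _, i1 _ _ hab', i1 _ _ haw'⟩
    · exact ⟨hab'.symm, h.free _, i1 _ _ hbw'⟩
    · exact ⟨haw'.symm, hbw'.symm, h.free _⟩

theorem pair_lk (h : Hyp K α) {a w : Fin 18} (haw : a ≠ w) (haw' : a ≠ α w) :
    ({a} : Finset (Fin 18)) ∈ lk K {w} := by
  -- choose a third vertex
  obtain ⟨b, hb⟩ : ∃ b, b ∉ ({a, w, α a, α w} : Finset (Fin 18)) := by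
    by_contra hcon
    push Not at hcon
    have h1 : (Finset.univ : Finset (Fin 18)).card ≤ ({a, w, α a, α w} : Finset (Fin 18)).card :=
      Finset.card_le_card fun b _ => hcon b
    have h2 : ({a, w, α a, α w} : Finset (Fin 18)).card ≤ 4 := Finset.card_le_four
    rw [Finset.card_univ, Fintype.card_fin] at h1
    omega
  simp only [Finset.mem_insert, Finset.mem_singleton, not_or] at hb
  obtain ⟨hb1, hb2, hb3, hb4⟩ := hb
  have h3 := trip h (a := a) (b := b) (w := w) (Ne.symm hb1) haw hb2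
    (fun e => hb3 (by rw [e, h.inv])) haw' hb4
  rw [mem_lk]
  refine ⟨by simpa using haw, h.sph.1 _ h3 _ ?_⟩
  intro x hx
  simp only [Finset.mem_union, Finset.mem_insert, Finset.mem_singleton] at hx ⊢
  tauto

theorem lk_ne (h : Hyp K α) {a w : Fin 18} (ha : ({a} : Finset (Fin 18)) ∈ lk K {w}) :
    a ≠ w ∧ a ≠ α w := by
  rw [mem_lk] at ha
  have h1 : a ≠ w := by simpa using ha.1
  refine ⟨h1, ?_⟩
  intro e
  have h2 := h.noa _ ha.2 w (by simp)
  exact h2 (by simp [e])

/-- the link of `w`, two removed vertices which are not antipodal -/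
theorem lk_two (h : Hyp K α) {w a b : Fin 18} (ha : ({a} : Finset (Fin 18)) ∈ lk K {w})
    (hb : ({b} : Finset (Fin 18)) ∈ lk K {w}) (hab : a ≠ b) (hab' : a ≠ α b)
    (E : Finset (Fin 18)) : OAcy (ZMod 2) (av (lk K {w}) (E ∪ {b, a})) 4 := by
  classical
  have key : ∀ c : Fin 18, ∀ D : Finset (Fin 18), c ∉ D →
      (∃ u ∈ D, ({u} : Finset (Fin 18)) ∈ lk K {w} ∧ u ≠ α c) →
      OAcy (ZMod 2) (av (lk (lk K {w}) {c}) D) 4 := by
    rintro c D hcD ⟨u, huD, hu, huc⟩
    by_cases hc : ({c} : Finset (Fin 18)) ∈ lk K {w}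
    · obtain ⟨hc1, hc2⟩ := lk_ne h hc
      obtain ⟨hu1, hu2⟩ := lk_ne h hu
      have huc' : u ≠ c := fun e => hcD (e ▸ huD)
      rw [lk_lk K hc1]
      refine av_top h.sph (u := u) ?_ ?_ huD
      · rw [mem_lk]
        refine ⟨?_, trip h huc' hu1 hc1 huc hu2 hc2⟩
        rw [Finset.disjoint_singleton_left]
        simp [huc', hu1]
      · rw [Finset.card_pair hc1]
    · rw [lk_lk_empty h.sph.1 hc]
      apply OAcy_zero
      intro e he _
      funext τ
      by_contra hne
      have := (mem_av.1 (he τ hne).1).1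
      simp at this
  induction E using Finset.induction_on with
  | empty =>
    rw [Finset.empty_union]
    apply av_step (lk_DC h.sph.1 _) (av_one h.sph ha 4)
    exact key b {a} (by simpa using hab.symm) ⟨a, by simp, ha, hab'⟩
  | insert c E hc ih =>
    rw [Finset.insert_union]
    by_cases hcm : c ∈ E ∪ {b, a}
    · rw [Finset.insert_eq_of_mem hcm]
      exact ih
    · apply av_step (lk_DC h.sph.1 _) ih
      apply key c _ hcm
      by_cases hac : a = α c
      · refine ⟨b, by simp, hb, ?_⟩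
        intro e
        exact hab (hac.trans e.symm)
      · exact ⟨a, by simp, ha, hac⟩

theorem sph_one (h : Hyp K α) (v : Fin 18) (n : ℕ) : OAcy (ZMod 2) (av K {v}) n := by
  have h1 : ({v} : Finset (Fin 18)) ∈ lk K ∅ := by
    rw [lk_empty]
    obtain ⟨b, hb⟩ : ∃ b, b ∉ ({v, α v} : Finset (Fin 18)) := by
      by_contra hcon
      push Not at hcon
      have h1 : (Finset.univ : Finset (Fin 18)).card ≤ ({v, α v} : Finset (Fin 18)).card :=
        Finset.card_le_card fun b _ => hcon b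
      have h2 : ({v, α v} : Finset (Fin 18)).card ≤ 2 := Finset.card_le_two
      rw [Finset.card_univ, Fintype.card_fin] at h1
      omega
    simp only [Finset.mem_insert, Finset.mem_singleton, not_or] at hb
    have h2 := pair_lk h hb.1 hb.2
    rw [mem_lk] at h2
    exact h.sph.1 _ h2.2 _ Finset.subset_union_right
  have h2 := av_one h.sph h1 n
  rwa [lk_empty] at h2

/-- three removed vertices from different pairs: cycles of faces with 4 vertices bound -/
theorem acy4 (h : Hyp K α) {a b c : Fin 18} (hab : a ≠ b) (hac : a ≠ c) (hbc : b ≠ c)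
    (hab' : a ≠ α b) (hac' : a ≠ α c) (hbc' : b ≠ α c) (E : Finset (Fin 18)) :
    OAcy (ZMod 2) (av K (E ∪ {c, b, a})) 4 := by
  classical
  have i1 : ∀ x y, x ≠ α y → y ≠ α x := fun x y hxy e => hxy (by rw [e, h.inv])
  have s1 : OAcy (ZMod 2) (av K {b, a}) 4 :=
    av_step h.sph.1 (sph_one h a 4) (av_one h.sph (pair_lk h hab hab') 4)
  have s2 : OAcy (ZMod 2) (av K {c, b, a}) 4 := by
    apply av_step h.sph.1 s1
    have := lk_two h (pair_lk h hac hac') (pair_lk h hbc hbc') hab hab' ∅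
    rwa [Finset.empty_union] at this
  induction E using Finset.induction_on with
  | empty => rwa [Finset.empty_union]
  | insert w E hw ih =>
    rw [Finset.insert_union]
    by_cases hwm : w ∈ E ∪ {c, b, a}
    · rw [Finset.insert_eq_of_mem hwm]
      exact ih
    · apply av_step h.sph.1 ih
      have hw' := hwm
      simp only [Finset.mem_union, Finset.mem_insert, Finset.mem_singleton, not_or] at hw'
      obtain ⟨_, hwc, hwb, hwa⟩ := hw'
      have key : ∀ x y : Fin 18, x ∈ E ∪ {c, b, a} → y ∈ E ∪ {c, b, a} → x ≠ w → y ≠ w →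
          x ≠ α w → y ≠ α w → x ≠ y → x ≠ α y →
          OAcy (ZMod 2) (av (lk K {w}) (E ∪ {c, b, a})) 4 := by
        intro x y hx hy hxw hyw hxw' hyw' hxy hxy'
        have := lk_two h (pair_lk h hxw hxw') (pair_lk h hyw hyw') hxy hxy' (E ∪ {c, b, a})
        rwa [Finset.union_eq_left.2] at this
        intro z hz
        simp only [Finset.mem_insert, Finset.mem_singleton] at hz
        rcases hz with rfl | rfl
        · exact hy
        · exact hx
      by_cases ha : a = α w
      · refine key b c (by simp) (by simp) (Ne.symm hwb) (Ne.symm hwc) ?_ ?_ hbc hbc'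
        · exact fun e => hab (ha.trans e.symm)
        · exact fun e => hac (ha.trans e.symm)
      · by_cases hb : b = α w
        · refine key a c (by simp) (by simp) (Ne.symm hwa) (Ne.symm hwc) ha ?_ hac hac'
          exact fun e => hbc (hb.trans e.symm)
        · exact key a b (by simp) (by simp) (Ne.symm hwa) (Ne.symm hwb) ha hb hab hab'

/-- two removed vertices from different pairs: cycles of faces with 5 vertices bound -/
theorem acy5 (h : Hyp K α) {a b : Fin 18} (hab : a ≠ b) (hab' : a ≠ α b) (E : Finset (Fin 18)) :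
    OAcy (ZMod 2) (av K (E ∪ {b, a})) 5 := by
  classical
  induction E using Finset.induction_on with
  | empty =>
    rw [Finset.empty_union]
    exact av_step h.sph.1 (sph_one h a 5) (av_one h.sph (pair_lk h hab hab') 5)
  | insert w E hw ih =>
    rw [Finset.insert_union]
    by_cases hwm : w ∈ E ∪ {b, a}
    · rw [Finset.insert_eq_of_mem hwm]
      exact ih
    · apply av_step h.sph.1 ih
      have hw' := hwm
      simp only [Finset.mem_union, Finset.mem_insert, Finset.mem_singleton, not_or] at hw'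
      obtain ⟨_, hwb, hwa⟩ := hw'
      by_cases ha : a = α w
      · exact av_top h.sph (u := b) (pair_lk h (Ne.symm hwb) (fun e => hab (ha.trans e.symm)))
          (by simp) (by simp)
      · exact av_top h.sph (u := a) (pair_lk h (Ne.symm hwa) ha) (by simp) (by simp)

theorem antip (h : Hyp K α) {U : Finset (Fin 18)} (hU : 3 ≤ U.card) (ha : ∀ i ∈ U, α i ∉ U) :
    ∃ a b c, a ∉ U ∧ b ∉ U ∧ c ∉ U ∧ a ≠ b ∧ a ≠ c ∧ b ≠ c ∧ a ≠ α b ∧ a ≠ α c ∧ b ≠ α c := by
  obtain ⟨x, y, z, hx, hy, hz, hxy, hxz, hyz⟩ := Finset.two_lt_card_iff.1 hU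
  have i1 : ∀ x y, x ≠ y → α x ≠ α y := fun x y hxy e => hxy (α.injective e)
  have i2 : ∀ x y, x ∈ U → y ∈ U → α x ≠ α (α y) := by
    intro x y hx hy e
    rw [h.inv] at e
    exact ha x hx (e ▸ hy)
  exact ⟨α x, α y, α z, ha x hx, ha y hy, ha z hz, i1 _ _ hxy, i1 _ _ hxz, i1 _ _ hyz,
    i2 _ _ hx hy, i2 _ _ hx hz, i2 _ _ hy hz⟩

/-- cycles of faces with 4 vertices in an antipode-free set bound -/
theorem full4 (h : Hyp K α) {U : Finset (Fin 18)} (hU : 3 ≤ U.card) (ha : ∀ i ∈ U, α i ∉ U) :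
    OAcy (ZMod 2) (av K Uᶜ) 4 := by
  obtain ⟨a, b, c, haU, hbU, hcU, hab, hac, hbc, hab', hac', hbc'⟩ := antip h hU ha
  have h1 := acy4 h hab hac hbc hab' hac' hbc' Uᶜ
  rwa [Finset.union_eq_left.2] at h1
  intro z hz
  simp only [Finset.mem_insert, Finset.mem_singleton] at hz
  rw [Finset.mem_compl]
  rcases hz with rfl | rfl | rfl
  · exact hcU
  · exact hbU
  · exact haU

/-- cycles of faces with 5 vertices in an antipode-free set bound -/
theorem full5 (h : Hyp K α) {U : Finset (Fin 18)} (hU : 3 ≤ U.card) (ha : ∀ i ∈ U, α i ∉ U) :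
    OAcy (ZMod 2) (av K Uᶜ) 5 := by
  obtain ⟨a, b, c, haU, hbU, hcU, hab, hac, hbc, hab', hac', hbc'⟩ := antip h hU ha
  have h1 := acy5 h hab hab' Uᶜ
  rwa [Finset.union_eq_left.2] at h1
  intro z hz
  simp only [Finset.mem_insert, Finset.mem_singleton] at hz
  rw [Finset.mem_compl]
  rcases hz with rfl | rfl
  · exact hbU
  · exact haU

end Hyp

open Classical in
/-- the boundary of a simplex -/
theorem obd_single {U : Finset (Fin N)} (τ : Finset (Fin N)) :
    obd (Pi.single U (1 : ZMod 2)) τ = if ∃ v ∈ U, τ = U.erase v then 1 else 0 := by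
  rw [pl_obd]
  split_ifs with hτ
  · obtain ⟨v, hv, rfl⟩ := hτ
    rw [Finset.sum_eq_single v]
    · rw [Finset.insert_erase hv, Pi.single_eq_same]
    · intro x hx hxv
      rw [Pi.single_eq_of_ne]
      intro e
      rw [Finset.mem_compl, Finset.mem_erase] at hx
      have h1 : x ∈ U := e ▸ Finset.mem_insert_self _ _
      exact hx ⟨hxv, h1⟩
    · intro hv2
      exact absurd (by simp) hv2
  · refine Finset.sum_eq_zero fun v hv => ?_
    rw [Pi.single_eq_of_ne]
    intro e
    apply hτ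
    rw [Finset.mem_compl] at hv
    exact ⟨v, e ▸ Finset.mem_insert_self _ _, by rw [← e, Finset.erase_insert hv]⟩

section Rules

variable {K : Finset (Finset (Fin 18))} {α : Equiv.Perm (Fin 18)}

theorem n_rule {R : Finset (Fin 18)} {n : ℕ} (hR : R.card = n + 1)
    (hA : OAcy (ZMod 2) (av K Rᶜ) n) (h4 : ∀ v ∈ R, R.erase v ∈ K) : R ∈ K := by
  classical
  obtain ⟨b, hb1, hb2⟩ := hA (obd (Pi.single R (1 : ZMod 2))) (by
    intro τ hτ
    rw [obd_single] at hτ
    split_ifs at hτ with h1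
    · obtain ⟨v, hv, rfl⟩ := h1
      refine ⟨mem_av.2 ⟨h4 v hv, ?_⟩, ?_⟩
      · rw [dis_compl]
        exact Finset.erase_subset _ _
      · rw [Finset.card_erase_of_mem hv, hR]
        rfl
    · exact absurd rfl hτ) (obd_obd _)
  by_contra hRK
  have hb0 : b = 0 := by
    funext τ
    by_contra hne
    obtain ⟨h1, h2⟩ := hb1 τ hne
    rw [mem_av, dis_compl] at h1
    have h3 : τ = R := Finset.eq_of_subset_of_card_le h1.2 (by omega)
    exact hRK (h3 ▸ h1.1)
  obtain ⟨v, hv⟩ : R.Nonempty := Finset.card_pos.1 (by omega)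
  have h5 := congrFun hb2 (R.erase v)
  rw [hb0, obd_zero2, obd_single, if_pos ⟨v, hv, rfl⟩] at h5
  exact zero_ne_one h5

/-- (N5) -/
theorem n5 (h : Hyp K α) {R : Finset (Fin 18)} (hR : R.card = 5) (ha : ∀ i ∈ R, α i ∉ R)
    (h4 : ∀ v ∈ R, R.erase v ∈ K) : R ∈ K :=
  n_rule (n := 4) hR (full4 h (by omega) ha) h4

/-- (N6) -/
theorem n6 (h : Hyp K α) {R : Finset (Fin 18)} (hR : R.card = 6) (ha : ∀ i ∈ R, α i ∉ R)
    (h4 : ∀ v ∈ R, R.erase v ∈ K) : R ∈ K :=
  n_rule (n := 5) hR (full5 h (by omega) ha) h4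

/-- (S6) -/
theorem s6 (h : Hyp K α) {U A B : Finset (Fin 18)} (hU : U.card = 6) (ha : ∀ i ∈ U, α i ∉ U)
    (hAB : A ∪ B = U) (hd : Disjoint A B) (hc : ∀ a ∈ A, ∀ b ∈ B, (U.erase a).erase b ∈ K) :
    (∀ a ∈ A, U.erase a ∈ K) ∨ ∀ b ∈ B, U.erase b ∈ K := by
  classical
  have one0 : (1 : ZMod 2) ≠ 0 := by decide
  have dich : ∀ p : ZMod 2, p = 0 ∨ p = 1 := by decide
  have two : ∀ p : ZMod 2, p + p = 0 := by decide
  -- the parts of the boundary
  obtain ⟨cp, hcp⟩ : ∃ cp : Finset (Fin 18) → Finset (Fin 18) → ZMod 2,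
      ∀ X τ, cp X τ = if ∃ v ∈ X, τ = U.erase v then 1 else 0 := ⟨_, fun _ _ => rfl⟩
  have hAU : A ⊆ U := hAB ▸ Finset.subset_union_left
  have hBU : B ⊆ U := hAB ▸ Finset.subset_union_right
  have hinj : ∀ v ∈ U, ∀ w ∈ U, U.erase v = U.erase w → v = w := by
    intro v hv w hw e
    by_contra hne
    have : v ∈ U.erase w := Finset.mem_erase.2 ⟨hne, hv⟩
    rw [← e] at this
    exact (Finset.mem_erase.1 this).1 rfl
  have hsum : cp A + cp B = obd (Pi.single U (1 : ZMod 2)) := by
    funext τ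
    rw [Pi.add_apply, hcp, hcp, obd_single]
    by_cases h1 : ∃ v ∈ A, τ = U.erase v
    · obtain ⟨v, hv, rfl⟩ := h1
      have h3 : ¬ ∃ w ∈ B, U.erase v = U.erase w := by
        rintro ⟨w, hw, e⟩
        have := hinj v (hAU hv) w (hBU hw) e
        exact Finset.disjoint_left.1 hd hv (this ▸ hw)
      have h4 : ∃ w ∈ U, U.erase v = U.erase w := ⟨v, hAU hv, rfl⟩
      rw [if_pos ⟨v, hv, rfl⟩, if_neg h3, if_pos h4, add_zero]
    · rw [if_neg h1, zero_add]
      by_cases h2 : ∃ v ∈ B, τ = U.erase v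
      · obtain ⟨v, hv, rfl⟩ := h2
        rw [if_pos ⟨v, hv, rfl⟩, if_pos ⟨v, hBU hv, rfl⟩]
      · rw [if_neg h2, if_neg]
        rintro ⟨v, hv, e⟩
        rw [← hAB, Finset.mem_union] at hv
        rcases hv with hv | hv
        · exact h1 ⟨v, hv, e⟩
        · exact h2 ⟨v, hv, e⟩
  have hz : obd (cp A) = obd (cp B) := by
    have h1 : obd (cp A) + obd (cp B) = 0 := by
      rw [← obd_add2, hsum, obd_obd]
    funext τ
    have h2 := congrFun h1 τ
    rw [Pi.add_apply, Pi.zero_apply] at h2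
    have : ∀ p q : ZMod 2, p + q = 0 → p = q := by decide
    exact this _ _ h2
  have hsupp : ∀ X ⊆ U, ∀ τ, obd (cp X) τ ≠ 0 → ∃ v ∈ X, ∃ w ∈ U, w ≠ v ∧
      τ = (U.erase v).erase w := by
    intro X hX τ hτ
    rw [pl_obd] at hτ
    obtain ⟨w, hw, hne⟩ := Finset.exists_ne_zero_of_sum_ne_zero hτ
    rw [hcp] at hne
    split_ifs at hne with h1
    · obtain ⟨v, hv, e⟩ := h1
      rw [Finset.mem_compl] at hw
      have h2 : w ∈ U.erase v := e ▸ Finset.mem_insert_self _ _
      rw [Finset.mem_erase] at h2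
      refine ⟨v, hv, w, h2.2, h2.1, ?_⟩
      rw [← e, Finset.erase_insert hw]
    · exact absurd rfl hne
  obtain ⟨b, hb1, hb2⟩ := full4 h (by omega) ha (obd (cp A)) (by
    intro τ hτ
    obtain ⟨v, hv, w, hw, hwv, rfl⟩ := hsupp A hAU τ hτ
    have hτ2 := hτ
    rw [hz] at hτ2
    obtain ⟨v', hv', w', hw', hwv', e⟩ := hsupp B hBU _ hτ2
    have hcard : ((U.erase v).erase w).card = 4 := by
      rw [Finset.card_erase_of_mem (Finset.mem_erase.2 ⟨hwv, hw⟩),
        Finset.card_erase_of_mem (hAU hv), hU]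
    refine ⟨mem_av.2 ⟨?_, ?_⟩, hcard⟩
    · -- v' is v or w, so it is w
      have h1 : v' ∉ (U.erase v).erase w := by
        rw [e, Finset.mem_erase, Finset.mem_erase]
        tauto
      have h2 : v' = v ∨ v' = w := by
        by_contra hcon
        push Not at hcon
        exact h1 (Finset.mem_erase.2 ⟨hcon.2, Finset.mem_erase.2 ⟨hcon.1, hBU hv'⟩⟩)
      have h3 : v' = w := by
        rcases h2 with h2 | h2
        · exact absurd (h2 ▸ hv') (Finset.disjoint_left.1 hd hv)
        · exact h2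
      exact hc v hv w (h3 ▸ hv')
    · rw [dis_compl]
      exact (Finset.erase_subset _ _).trans (Finset.erase_subset _ _)) (obd_obd _)
  -- the difference is a multiple of the boundary of the simplex
  obtain ⟨x, hx⟩ : U.Nonempty := Finset.card_pos.1 (by omega)
  obtain ⟨g, hg⟩ : ∃ g, g = cp A + b := ⟨_, rfl⟩
  have hgb : obd g = 0 := by
    rw [hg, obd_add2, hb2]
    funext τ
    exact two _
  have hgs : ∀ τ, g τ ≠ 0 → τ ⊆ U ∧ τ.card = 5 := by
    intro τ hτ
    rw [hg, Pi.add_apply] at hτ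
    have h5 : cp A τ ≠ 0 ∨ b τ ≠ 0 := by
      by_contra hcon
      push Not at hcon
      exact hτ (by rw [hcon.1, hcon.2, add_zero])
    rcases h5 with h5 | h5
    · rw [hcp] at h5
      split_ifs at h5 with h1
      · obtain ⟨v, hv, rfl⟩ := h1
        refine ⟨Finset.erase_subset _ _, ?_⟩
        rw [Finset.card_erase_of_mem (hAU hv), hU]
      · exact absurd rfl h5
    · obtain ⟨h1, h2⟩ := hb1 τ h5
      rw [mem_av, dis_compl] at h1
      exact ⟨h1.2, h2⟩
  have hgx : g = obd (ordIns x g) := by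
    rw [ord_obd_ins, hgb, map_zero, sub_zero]
  have hgt : ∃ t : ZMod 2, ordIns x g = t • (Pi.single U (1 : ZMod 2)) := by
    refine ⟨ordIns x g U, ?_⟩
    funext τ
    rw [Pi.smul_apply]
    by_cases hτ : τ = U
    · rw [hτ, Pi.single_eq_same, smul_eq_mul, mul_one]
    · rw [Pi.single_eq_of_ne hτ, smul_zero]
      by_contra hne
      rw [ordIns_apply] at hne
      split_ifs at hne with h1
      · have h2 : g (τ.erase x) ≠ 0 := fun e => hne (by rw [e, mul_zero])
        obtain ⟨h3, h4⟩ := hgs _ h2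
        apply hτ
        apply Finset.eq_of_subset_of_card_le
        · rw [← Finset.insert_erase h1]
          exact Finset.insert_subset hx h3
        · rw [Finset.card_erase_of_mem h1] at h4
          omega
      · exact absurd rfl hne
  obtain ⟨t, ht⟩ := hgt
  have hfin : cp A + b = t • (cp A + cp B) := by
    rw [← hg, hgx, ht, hsum]
    have := (ordB (R := ZMod 2) (N := 18)).map_smul t (Pi.single U 1)
    exact this
  rcases dich t with rfl | rfl
  · left
    intro a haA
    have h1 := congrFun hfin (U.erase a)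
    rw [zero_smul, Pi.add_apply, Pi.zero_apply, hcp, if_pos ⟨a, haA, rfl⟩] at h1
    have h2 : b (U.erase a) ≠ 0 := by
      intro e
      rw [e, add_zero] at h1
      exact one0 h1
    exact (mem_av.1 (hb1 _ h2).1).1
  · right
    intro v hvB
    have h1 := congrFun hfin (U.erase v)
    rw [one_smul, Pi.add_apply, Pi.add_apply, hcp B, if_pos ⟨v, hvB, rfl⟩] at h1
    have h2 : b (U.erase v) ≠ 0 := by
      rw [add_left_cancel h1]
      exact one0
    exact (mem_av.1 (hb1 _ h2).1).1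

end Rules

end H23.LZ
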