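import Pool.Agent.H23.LZ.CkI
import Pool.Agent.H23.LZ.H3

/-!
# The rules N5 and N6 of the checker
-/

namespace H23.LZ.Ck

open H40.VT

/-- and -/
def an (a b : Bool) : Bool := @Bool.rec (fun _ => Bool) false b a

theorem an_iff {a b : Bool} : an a b = true ↔ a = true ∧ b = true := by
  cases a <;> cases b <;> simp [an]

/-- number of bits below `n` -/
def pcn (m n : ℕ) : ℕ :=
  @Nat.rec (fun _ => ℕ) 0 (fun i acc => cn (bt m i) (Nat.add acc 1) acc) n

/-- the set of the vertices of the entries `i0, .., i0 + n - 1` -/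
def orE (t i0 n : ℕ) : ℕ :=
  @Nat.rec (fun _ => ℕ) 0 (fun i acc => Nat.lor acc (bi (ea (en t (Nat.add i0 i))))) n

/-- one entry: the small face is the large face `B` minus a vertex -/
def chkE (tb : Tab) (S B e : ℕ) : Bool :=
  fo (img tb (eg e) (e18 S (eid e))) fun m =>
    an (Nat.beq (Nat.lor m (bi (ea e))) B)
      (an (Nat.blt (eg e) 18) (an (Nat.blt (ea e) 18) (Nat.beq (Nat.land m (bi (ea e))) 0)))

/-- all entries of a table: `N` rows of `n` entries; the atoms `b + id` are in the closure of the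
atom `b' + j`, `id < M` -/
def chkT (tb : Tab) (t S R n b b' M N : ℕ) : Bool :=
  @Nat.rec (fun _ => Bool) true (fun i acc => ic
    (fo (en t i) fun e => fo (Nat.div i n) fun j => fo (e18 R j) fun B =>
      an (Nat.blt (eid e) M)
        (an (chkE tb S B e) (bt (row tb.ct (Nat.add b' j)) (Nat.add b (eid e))))) acc false)
    (Nat.mul N n)

/-- the representatives have `n` vertices, the vertices of the entries, and no antipodes -/
def chkV (t R n N : ℕ) : Bool :=
  @Nat.rec (fun _ => Bool) true (fun j acc => ic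
    (fo (e18 R j) fun B => an (Nat.beq (pcn B 18) n)
      (an (Nat.beq (orE t (Nat.mul n j) n) B)
        (Nat.beq (Nat.land B (Nat.shiftRight B 9)) 0))) acc false) N

/-- the check of the tables for the rules N5 and N6 -/
def chkN (tb : Tab) : Bool :=
  an (Nat.ble tb.nf 304)
    (an (an (chkT tb tb.rz tb.r4 tb.r5 5 832 608 112 224) (chkV tb.rz tb.r5 5 224))
      (an (chkT tb tb.fy tb.r5 tb.r6 6 608 0 224 tb.nf) (chkV tb.fy tb.r6 6 tb.nf)))

theorem pcn_card (m n : ℕ) :
    pcn m n = ((Finset.range n).filter fun i => m.testBit i = true).card := by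
  induction n with
  | zero => rfl
  | succ n ih =>
    change cn (bt m n) (pcn m n + 1) (pcn m n) = _
    rw [Finset.range_add_one, Finset.filter_insert, cn_eq, bt_eq, ih]
    split_ifs with h0
    · rw [Finset.card_insert_of_notMem]
      simp
    · rfl

theorem card_D (m : ℕ) : (D m).card = pcn m 18 := by
  rw [pcn_card]
  refine Finset.card_bij (fun i _ => (i : ℕ)) ?_ ?_ ?_
  · intro i hi
    rw [Finset.mem_filter, Finset.mem_range]
    exact ⟨i.2, (mem_D m i).1 hi⟩
  · intro i _ j _ h
    exact Fin.ext h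
  · intro j hj
    rw [Finset.mem_filter, Finset.mem_range] at hj
    exact ⟨⟨j, hj.1⟩, (mem_D m _).2 hj.2, rfl⟩

theorem orE_test (t i0 n j : ℕ) :
    (orE t i0 n).testBit j = true ↔ ∃ i < n, ea (en t (i0 + i)) = j := by
  induction n with
  | zero =>
    change (0 : ℕ).testBit j = true ↔ _
    simp
  | succ n ih =>
    change (orE t i0 n ||| bi (ea (en t (i0 + n))) : ℕ).testBit j = true ↔ _
    rw [Nat.testBit_or, Bool.or_eq_true, ih, bi_test, decide_eq_true_eq]
    constructor
    · rintro (⟨i, h1, h2⟩ | h)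
      · exact ⟨i, by omega, h2⟩
      · exact ⟨n, by omega, h⟩
    · rintro ⟨i, h1, h2⟩
      rcases Nat.lt_succ_iff_lt_or_eq.1 h1 with h3 | h3
      · exact Or.inl ⟨i, h3, h2⟩
      · exact Or.inr (h3 ▸ h2)

theorem noAnti {B : ℕ} (h : B &&& (B >>> 9) = 0) :
    ∀ i ∈ D B, Pool.Agent.H53.AEG.α9 i ∉ D B := by
  have key : ∀ a : ℕ, B.testBit a = true → B.testBit (a + 9) = true → False := by
    intro a h1 h2
    have h3 : (B &&& (B >>> 9)).testBit a = true := by
      rw [Nat.testBit_and, Nat.testBit_shiftRight, Nat.add_comm 9 a, h1, h2]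
      rfl
    rw [h, Nat.zero_testBit] at h3
    exact absurd h3 (by decide)
  intro i hi hj
  rw [mem_D] at hi hj
  rw [Pool.Agent.H53.AEG.α9_apply] at hj
  have hv : ((i + 9 : Fin 18) : ℕ) = ((i : ℕ) + 9) % 18 := rfl
  rw [hv] at hj
  have hi2 := i.2
  rcases lt_or_ge (i : ℕ) 9 with h1 | h1
  · rw [Nat.mod_eq_of_lt (by omega)] at hj
    exact key _ hi hj
  · have h2 : ((i : ℕ) + 9) % 18 = (i : ℕ) - 9 := by omega
    rw [h2] at hj
    refine key _ hj ?_
    have h3 : (i : ℕ) - 9 + 9 = i := by omega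
    rw [h3]
    exact hi

theorem erase_of_or {m B a : ℕ} (ha : a < 18) (h1 : m ||| bi a = B) (h2 : m &&& bi a = 0) :
    (D B).erase ⟨a, ha⟩ = D m := by
  rw [← h1, D_ins m ha, Finset.erase_insert]
  rw [mem_D]
  intro h3
  have h4 : (m &&& bi a).testBit a = true := by
    rw [Nat.testBit_and, bi_test]
    simp [h3]
  rw [h2, Nat.zero_testBit] at h4
  exact absurd h4 (by decide)

section

variable {tb : Tab} {K : Finset (Finset (Fin 18))} {y : Finset (Fin 18) → ZMod 3}

/-- one entry -/
theorem chkE_spec (hG : Good tb K y) (hg : chkG tb = true) {S B e : ℕ}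
    (h : chkE tb S B e = true) : ∃ ha : ea e < 18,
      ((D B).erase ⟨ea e, ha⟩ ∈ K ↔ D (e18 S (eid e)) ∈ K) := by
  unfold chkE at h
  rw [fo_eq, an_iff, an_iff, an_iff] at h
  obtain ⟨h1, h2, h3, h4⟩ := h
  have ha : ea e < 18 := by simpa [Nat.blt_eq] using h3
  have hs : eg e < 18 := by simpa [Nat.blt_eq] using h2
  refine ⟨ha, ?_⟩
  rw [erase_of_or ha (Nat.eq_of_beq_eq_true h1) (Nat.eq_of_beq_eq_true h4)]
  exact hG.img_mem hg hs _

/-- the faces of a representative are the sets given by the entries -/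
theorem rows_spec (hG : Good tb K y) (hg : chkG tb = true) {t S R n b b' M N : ℕ} (hn : 0 < n)
    (hT : chkT tb t S R n b b' M N = true) (hV : chkV t R n N = true) {j : ℕ} (hj : j < N) :
    (D (e18 R j)).card = n ∧ (∀ i ∈ D (e18 R j), Pool.Agent.H53.AEG.α9 i ∉ D (e18 R j)) ∧
    ∀ v ∈ D (e18 R j), ∃ id < M, (row tb.ct (b' + j)).testBit (b + id) = true ∧
      ((D (e18 R j)).erase v ∈ K ↔ D (e18 S id) ∈ K) := by
  unfold chkV at hV
  have h1 := chk_all hV j hj
  rw [fo_eq, an_iff, an_iff] at h1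
  obtain ⟨h2, h3, h4⟩ := h1
  refine ⟨by rw [card_D]; exact Nat.eq_of_beq_eq_true h2, noAnti (Nat.eq_of_beq_eq_true h4), ?_⟩
  intro v hv
  have h5 : orE t (n * j) n = e18 R j := Nat.eq_of_beq_eq_true h3
  rw [mem_D, ← h5, orE_test] at hv
  obtain ⟨i, hi, hv⟩ := hv
  unfold chkT at hT
  have hk : n * j + i < N * n := by
    have : n * (j + 1) ≤ N * n := by
      rw [Nat.mul_comm N n]
      exact Nat.mul_le_mul_left n hj
    have h6 : n * (j + 1) = n * j + n := by ring
    omega
  have h7 := chk_all hT (n * j + i) hk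
  have h8 : Nat.div (n * j + i) n = j := by
    change (n * j + i) / n = j
    rw [Nat.mul_add_div hn, Nat.div_eq_of_lt hi, add_zero]
  rw [fo_eq, fo_eq, fo_eq, h8, an_iff, an_iff, bt_eq] at h7
  obtain ⟨h12, h9, h10⟩ := h7
  have h13 : eid (en t (n * j + i)) < M := by simpa [Nat.blt_eq] using h12
  obtain ⟨ha, h11⟩ := chkE_spec hG hg h9
  have hv' : (⟨ea (en t (n * j + i)), ha⟩ : Fin 18) = v := Fin.ext hv
  rw [hv'] at h11
  exact ⟨_, h13, h10, h11⟩

theorem zpart_test (x i : ℕ) : (zpart x).testBit i = (decide (832 ≤ i) && x.testBit i) := by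
  change ((x >>> 832) <<< 832).testBit i = _
  rw [Nat.testBit_shiftLeft, Nat.testBit_shiftRight]
  by_cases h : 832 ≤ i
  · have : 832 + (i - 832) = i := by omega
    rw [this]
  · simp [h]

theorem ypart_test (x i : ℕ) : (ypart x).testBit i
    = (decide (608 ≤ i) && (decide (i < 832) && x.testBit i)) := by
  change (((x >>> 608) % 2 ^ 224) <<< 608).testBit i = _
  rw [Nat.testBit_shiftLeft, Nat.testBit_mod_two_pow, Nat.testBit_shiftRight]
  by_cases h : 608 ≤ i
  · have h1 : 608 + (i - 608) = i := by omega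
    have h2 : (i - 608 < 224) ↔ i < 832 := by omega
    rw [h1]
    simp [h, h2]
  · simp [h]

set_option exponentiation.threshold 1000 in
theorem row_test {t i a : ℕ} (h : (row t i).testBit a = true) : a < 944 := by
  by_contra hc
  change ((Nat.shiftRight t (Nat.mul 944 i)) % 2 ^ 944).testBit a = true at h
  rw [Nat.testBit_mod_two_pow] at h
  simp [hc] at h

/-- the mask of the missing atoms -/
theorem miss_test (z T i : ℕ) :
    (Nat.xor z (Nat.land z T)).testBit i = (z.testBit i && !(T.testBit i)) := by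
  change (z ^^^ (z &&& T)).testBit i = _
  rw [Nat.testBit_xor, Nat.testBit_and]
  cases z.testBit i <;> cases T.testBit i <;> rfl

/-- a nonzero mask with at most one bit -/
theorem one_spec {u : ℕ} (h0 : u ≠ 0) (h : one u = true) (i : ℕ) :
    u.testBit i = true ↔ i = Nat.log2 u := by
  have h1 : u &&& (u - 1) = 0 := Nat.eq_of_beq_eq_true h
  have hl : u.testBit (Nat.log2 u) = true := Nat.testBit_log2 h0
  have hp : u = 2 ^ Nat.log2 u := by
    have h2 : 2 ^ Nat.log2 u ≤ u := Nat.log2_self_le h0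
    have h3 : u < 2 ^ (Nat.log2 u + 1) := Nat.lt_log2_self
    by_contra hne
    have h4 : 2 ^ Nat.log2 u ≤ u - 1 := by omega
    have h5 : (u - 1).testBit (Nat.log2 u) = true := by
      obtain ⟨k, hk⟩ : ∃ k, u - 1 = 2 ^ Nat.log2 u + k := ⟨_, (Nat.add_sub_cancel' h4).symm⟩
      have h6 : k < 2 ^ Nat.log2 u := by
        rw [pow_succ] at h3
        omega
      rw [hk, Nat.testBit_two_pow_add_eq, Nat.testBit_lt_two_pow h6]
      rfl
    have h7 : (u &&& (u - 1)).testBit (Nat.log2 u) = true := by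
      rw [Nat.testBit_and, hl, h5]
      rfl
    rw [h1, Nat.zero_testBit] at h7
    exact absurd h7 (by decide)
  constructor
  · intro h2
    rw [hp, Nat.testBit_two_pow, decide_eq_true_eq] at h2
    exact h2.symm
  · rintro rfl
    exact hl

/-- the rule N5 for the valuation -/
theorem n5_key (hG : Good tb K y) (hg : chkG tb = true) (hN : chkN tb = true) {r : ℕ}
    (hr : r < 224)
    (h : ∀ i, (zpart (row tb.ct (608 + r))).testBit i = true → At tb K y i) :
    At tb K y (608 + r) := by
  unfold chkN at hN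
  rw [an_iff, an_iff, an_iff, an_iff] at hN
  obtain ⟨_, ⟨hT, hV⟩, _⟩ := hN
  obtain ⟨h1, h2, h3⟩ := rows_spec hG hg (by norm_num) hT hV hr
  unfold At
  rw [if_neg (by omega), if_neg (by omega), if_pos (by omega), Nat.add_sub_cancel_left]
  refine n5 hG.hyp h1 h2 fun v hv => ?_
  obtain ⟨id, h8, h4, h5⟩ := h3 v hv
  rw [h5]
  have h6 := h (832 + id) (by
    rw [zpart_test, h4]
    simp)
  unfold At at h6
  rw [if_neg (by omega), if_neg (by omega), if_neg (by omega), Nat.add_sub_cancel_left] at h6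
  exact h6.2

/-- the rule N6 for the valuation -/
theorem n6_key (hG : Good tb K y) (hg : chkG tb = true) (hN : chkN tb = true) {f : ℕ}
    (hf : f < tb.nf)
    (h : ∀ i, (ypart (row tb.ct f)).testBit i = true → At tb K y i) :
    f < 304 ∧ (y (D (e18 tb.r6 f)) = 1 ∨ y (D (e18 tb.r6 f)) = -1) := by
  unfold chkN at hN
  rw [an_iff, an_iff, an_iff, an_iff] at hN
  obtain ⟨h0, _, hT, hV⟩ := hN
  have h00 : tb.nf ≤ 304 := Nat.le_of_ble_eq_true h0
  refine ⟨by omega, ?_⟩
  obtain ⟨h1, h2, h3⟩ := rows_spec hG hg (by norm_num) hT hV hf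
  have hK : D (e18 tb.r6 f) ∈ K := by
    refine n6 hG.hyp h1 h2 fun v hv => ?_
    obtain ⟨id, h8, h4, h5⟩ := h3 v hv
    rw [Nat.zero_add] at h4
    rw [h5]
    have h6 := h (608 + id) (by
      have h9 : 608 + id < 832 := by omega
      rw [ypart_test, h4]
      simp [h9])
    unfold At at h6
    rw [if_neg (by omega), if_neg (by omega), if_pos (by omega), Nat.add_sub_cancel_left] at h6
    exact h6
  have h7 := (hG.yK (D (e18 tb.r6 f))).2 ⟨hK, h1⟩
  have : ∀ x : ZMod 3, x ≠ 0 → x = 1 ∨ x = -1 := by decide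
  exact this _ h7
/-- the rule N5 of the checker -/
theorem ruN5_res (hG : Good tb K y) (hg : chkG tb = true) (hN : chkN tb = true)
    (tT : ∀ a < 944, ∀ T F ok cf, (Sat (At tb K y) T F → At tb K y a) →
      asT tb a T F ok cf = true → Res (At tb K y) T F ok cf)
    (tF : ∀ a < 944, ∀ T F ok cf, (Sat (At tb K y) T F → ¬ At tb K y a) →
      asF tb a T F ok cf = true → Res (At tb K y) T F ok cf)
    {r : ℕ} (hr : r < 224) {T F : ℕ} {ok : ℕ → ℕ → Bool} {cf : Bool}
    (h : ruN5 tb r T F ok cf = true) : Res (At tb K y) T F ok cf := by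
  unfold ruN5 at h
  have h608 : Nat.add 608 r = 608 + r := rfl
  rw [fo_eq, fo_eq, h608, ic_eq, ic_eq, ic_eq, lg_eq] at h
  have key := n5_key hG hg hN hr
  have hz9 : ∀ i, (zpart (row tb.ct (608 + r))).testBit i = true → i < 944 := by
    intro i hi
    rw [zpart_test, Bool.and_eq_true] at hi
    exact row_test hi.2
  generalize zpart (row tb.ct (608 + r)) = z at h key hz9
  have hm := miss_test z T
  generalize Nat.xor z (Nat.land z T) = u at h hm
  split_ifs at h with h1 h2 h3
  · have hu : u = 0 := Nat.eq_of_beq_eq_true h1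
    refine tT _ (by omega) T F ok cf (fun hs => key fun i hi => hs.1 i ?_) h
    have h4 := hm i
    rw [hu, Nat.zero_testBit, hi] at h4
    revert h4
    cases T.testBit i <;> simp
  · have hu : u ≠ 0 := fun e => h1 (by rw [e]; rfl)
    have hl := (one_spec hu h2 (Nat.log2 u)).2 rfl
    have hl9 : Nat.log2 u < 944 := by
      apply hz9
      have h4 := hm (Nat.log2 u)
      rw [hl] at h4
      exact (Bool.and_eq_true _ _ ▸ h4.symm : _ ∧ _).1
    refine tF _ hl9 T F ok cf (fun hs hA => ?_) h
    rw [bt_eq] at h3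
    refine hs.2 _ h3 (key fun i hi => ?_)
    by_cases h4 : i = Nat.log2 u
    · exact h4 ▸ hA
    · apply hs.1
      by_contra h5
      apply h4
      rw [← one_spec hu h2 i, hm i, hi]
      simpa using h5
  · exact Res_ok h id
  · exact Res_ok h id

/-- the rule N6 of the checker -/
theorem ruN6_res (hG : Good tb K y) (hg : chkG tb = true) (hN : chkN tb = true)
    (tT : ∀ a < 944, ∀ T F ok cf, (Sat (At tb K y) T F → At tb K y a) →
      asT tb a T F ok cf = true → Res (At tb K y) T F ok cf)
    (tF : ∀ a < 944, ∀ T F ok cf, (Sat (At tb K y) T F → ¬ At tb K y a) →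
      asF tb a T F ok cf = true → Res (At tb K y) T F ok cf)
    {f : ℕ} (hf : f < tb.nf) {T F : ℕ} {ok : ℕ → ℕ → Bool} {cf : Bool}
    (h : ruN6 tb f T F ok cf = true) : Res (At tb K y) T F ok cf := by
  unfold ruN6 at h
  have h304 : Nat.add f 304 = f + 304 := rfl
  rw [fo_eq, fo_eq, h304] at h
  simp only [ic_eq, lg_eq] at h
  have key := n6_key hG hg hN hf
  have hf4 : f < 304 := by
    unfold chkN at hN
    rw [an_iff] at hN
    have h00 : tb.nf ≤ 304 := Nat.le_of_ble_eq_true hN.1
    omega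
  have hA1 : At tb K y f ↔ y (D (e18 tb.r6 f)) = 1 := by
    unfold At
    rw [if_pos hf4]
    exact and_iff_right hf
  have hA2 : At tb K y (f + 304) ↔ y (D (e18 tb.r6 f)) = -1 := by
    unfold At
    rw [if_neg (by omega), if_pos (by omega), Nat.add_sub_cancel]
    exact and_iff_right hf
  rw [← hA1, ← hA2] at key
  have hz9 : ∀ i, (ypart (row tb.ct f)).testBit i = true → i < 944 := by
    intro i hi
    rw [ypart_test, Bool.and_eq_true, Bool.and_eq_true] at hi
    exact row_test hi.2.2
  generalize ypart (row tb.ct f) = z at h key hz9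
  have hm := miss_test z T
  generalize Nat.xor z (Nat.land z T) = u at h hm
  by_cases h1 : Nat.beq u 0 = true
  · rw [if_pos h1] at h
    have hu : u = 0 := Nat.eq_of_beq_eq_true h1
    have hs1 : Sat (At tb K y) T F → At tb K y f ∨ At tb K y (f + 304) := by
      intro hs
      refine (key fun i hi => hs.1 i ?_).2
      have h4 := hm i
      rw [hu, Nat.zero_testBit, hi] at h4
      revert h4
      cases T.testBit i <;> simp
    split_ifs at h with h2 h3
    · rw [bt_eq] at h2
      exact tT _ (by omega) T F ok cf (fun hs => (hs1 hs).resolve_left (hs.2 _ h2)) h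
    · rw [bt_eq] at h3
      exact tT _ (by omega) T F ok cf (fun hs => (hs1 hs).resolve_right (hs.2 _ h3)) h
    · exact Res_ok h id
  · rw [if_neg h1] at h
    have hu : u ≠ 0 := fun e => h1 (by rw [e]; rfl)
    split_ifs at h with h2 h3 h4
    · have hl := (one_spec hu h2 (Nat.log2 u)).2 rfl
      have hl9 : Nat.log2 u < 944 := by
        apply hz9
        have h4 := hm (Nat.log2 u)
        rw [hl] at h4
        exact (Bool.and_eq_true _ _ ▸ h4.symm : _ ∧ _).1
      rw [bt_eq] at h3 h4
      refine tF _ hl9 T F ok cf (fun hs hA => ?_) h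
      have h6 := (key fun i hi => ?_).2
      · exact h6.elim (hs.2 _ h3) (hs.2 _ h4)
      · by_cases h4 : i = Nat.log2 u
        · exact h4 ▸ hA
        · apply hs.1
          by_contra h5
          apply h4
          rw [← one_spec hu h2 i, hm i, hi]
          simpa using h5
    · exact Res_ok h id
    · exact Res_ok h id
    · exact Res_ok h id
end

end H23.LZ.Ck
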