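import Pool.Agent.H23.LZ.CkRun
import Pool.Agent.H23.LZ.CkI

/-!
# The cycle rule of the checker
-/

namespace H23.LZ.Ck

open H40.VT

/-- an entry of `qf` -/
def qfE (tb : Tab) (i : ℕ) : Bool :=
  fo (en tb.qf i) fun e => fo (e18 tb.r4 (Nat.div i 40)) fun m =>
    ic (Nat.blt (eg e) 18) (ic (Nat.blt (eid e) 304) (ic (Nat.blt (ea e) (eb e))
      (ic (Nat.blt (eb e) 18) (ic (Nat.beq (Nat.land m (Nat.lor (bi (ea e)) (bi (eb e)))) 0)
        (Nat.beq (img tb (eg e) (e18 tb.r6 (eid e)))
          (Nat.lor m (Nat.lor (bi (ea e)) (bi (eb e))))) false) false) false) false) false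

/-- an entry of `qy` -/
def qyE (tb : Tab) (i : ℕ) : Bool :=
  fo (en tb.qy i) fun e => fo (e18 tb.r4 (Nat.div i 10)) fun m =>
    ic (Nat.blt (eg e) 18) (ic (Nat.blt (eid e) 224) (ic (Nat.blt (ea e) 18)
      (ic (Nat.beq (Nat.land m (bi (ea e))) 0)
        (Nat.beq (img tb (eg e) (e18 tb.r5 (eid e))) (Nat.lor m (bi (ea e)))) false) false) false)
      false

/-- the pairs of vertices of the entries are distinct -/
def qfD (tb : Tab) (n : ℕ) : ℕ → ℕ → Bool :=
  @Nat.rec (fun _ => ℕ → ℕ → Bool) (fun _ _ => true)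
    (fun _ ih i M => fo (en tb.qf i) fun e => fo (Nat.add (Nat.mul 32 (ea e)) (eb e)) fun k =>
      ic (bt M k) false (fo (Nat.lor M (bi k)) fun M' => ih (Nat.add i 1) M')) n

/-- the check of the tables for the cycle rule -/
def chkQ (tb : Tab) : Bool :=
  ic (@Nat.rec (fun _ => Bool) true (fun i acc => ic (qfE tb i) acc false) 4480)
    (ic (@Nat.rec (fun _ => Bool) true (fun i acc => ic (qyE tb i) acc false) 1120)
      (@Nat.rec (fun _ => Bool) true (fun q acc => ic (qfD tb 40 (Nat.mul 40 q) 0) acc false) 112)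
      false) false

/-- the key of an entry -/
def qk (tb : Tab) (i : ℕ) : ℕ := 32 * ea (en tb.qf i) + eb (en tb.qf i)

theorem qfD_spec (tb : Tab) (n : ℕ) : ∀ i M, qfD tb n i M = true →
    (∀ j < n, M.testBit (qk tb (i + j)) = false) ∧
      ∀ j < n, ∀ j' < n, j < j' → qk tb (i + j) ≠ qk tb (i + j') := by
  induction n with
  | zero =>
    intro i M _
    exact ⟨fun j hj => absurd hj (by omega), fun j hj => absurd hj (by omega)⟩
  | succ n ih =>
    intro i M h
    change ic (bt M (qk tb i)) false (qfD tb n (i + 1) (M ||| bi (qk tb i))) = true at h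
    rw [ic_eq, bt_eq] at h
    split_ifs at h with h0
    obtain ⟨h1, h2⟩ := ih _ _ h
    rw [Bool.not_eq_true] at h0
    have h3 : ∀ j < n, M.testBit (qk tb (i + (j + 1))) = false ∧
        qk tb i ≠ qk tb (i + (j + 1)) := by
      intro j hj
      have h4 := h1 j hj
      have e : i + 1 + j = i + (j + 1) := by omega
      rw [Nat.testBit_or, Bool.or_eq_false_iff, bi_test, decide_eq_false_iff_not, e] at h4
      exact h4
    constructor
    · intro j hj
      rcases j with _ | j
      · exact h0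
      · exact (h3 j (by omega)).1
    · intro j hj j' hj' hjj
      rcases j' with _ | j'
      · omega
      · rcases j with _ | j
        · exact (h3 j' (by omega)).2
        · have h5 := h2 j (by omega) j' (by omega) (by omega)
          have e : i + 1 + j = i + (j + 1) := by omega
          have e' : i + 1 + j' = i + (j' + 1) := by omega
          rw [e, e'] at h5
          exact h5

/-- the mask of an edge -/
def em (tb : Tab) (q j : ℕ) : ℕ :=
  bi (ea (en tb.qf (40 * q + j))) ||| bi (eb (en tb.qf (40 * q + j)))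

theorem cyc_spec (tb : Tab) (q T : ℕ) (n : ℕ) : ∀ (p c x o : ℕ) (k : ℕ → ℕ → Bool),
    cyc tb q T n p c x o k = true →
    ∃ J : Finset ℕ, J.card = n ∧ (∀ j ∈ J, j < p) ∧
      (∀ j ∈ J, T.testBit (eid (en tb.qf (40 * q + j))) = true ∨
        T.testBit (304 + eid (en tb.qf (40 * q + j))) = true) ∧
      ∃ x' o', k x' o' = true ∧
        (∀ i, x'.testBit i = (x.testBit i ^^
          decide ((J.filter fun j => (em tb q j).testBit i = true).card % 2 = 1))) ∧
        (∀ i, o'.testBit i = true ↔ o.testBit i = true ∨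
          ∃ j ∈ J, (em tb q j).testBit i = true) := by
  induction n with
  | zero =>
    intro p c x o k h
    refine ⟨∅, rfl, by simp, by simp, x, o, h, by simp, by simp⟩
  | succ n ih =>
    intro p c x o k h
    change ic (Nat.blt (c % 64) p)
      (ic (ic (bt T (eid (en tb.qf (40 * q + c % 64)))) true
        (bt T (304 + eid (en tb.qf (40 * q + c % 64)))))
        (cyc tb q T n (c % 64) (c >>> 6) (x ^^^ em tb q (c % 64)) (o ||| em tb q (c % 64)) k)
        false) false = true at h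
    obtain ⟨h1, h2⟩ := ic_false h
    obtain ⟨h3, h4⟩ := ic_false h2
    have hp := blt_lt h1
    obtain ⟨J, e1, e2, e3, x', o', e4, e5, e6⟩ := ih _ _ _ _ _ h4
    have hn : c % 64 ∉ J := fun hj => lt_irrefl _ (e2 _ hj)
    refine ⟨insert (c % 64) J, ?_, ?_, ?_, x', o', e4, ?_, ?_⟩
    · rw [Finset.card_insert_of_notMem hn, e1]
    · intro j hj
      rcases Finset.mem_insert.1 hj with rfl | hj
      · exact hp
      · exact lt_trans (e2 j hj) hp
    · intro j hj
      rcases Finset.mem_insert.1 hj with rfl | hj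
      · rw [ic_eq, bt_eq, bt_eq] at h3
        split_ifs at h3 with h5
        · exact Or.inl h5
        · exact Or.inr h3
      · exact e3 j hj
    · intro i
      rw [e5 i, Nat.testBit_xor, Finset.filter_insert]
      by_cases hb : (em tb q (c % 64)).testBit i = true
      · rw [if_pos hb, Finset.card_insert_of_notMem (fun hh => hn (Finset.mem_filter.1 hh).1), hb]
        rcases Nat.mod_two_eq_zero_or_one
          (J.filter fun j => (em tb q j).testBit i = true).card with h6 | h6
        · have h7 : ((J.filter fun j => (em tb q j).testBit i = true).card + 1) % 2 = 1 := by omega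
          rw [h6, h7]
          cases x.testBit i <;> rfl
        · have h7 : ((J.filter fun j => (em tb q j).testBit i = true).card + 1) % 2 = 0 := by omega
          rw [h6, h7]
          cases x.testBit i <;> rfl
      · rw [if_neg hb]
        rw [Bool.not_eq_true] at hb
        rw [hb, Bool.xor_false]
    · intro i
      rw [e6 i, Nat.testBit_or, Bool.or_eq_true]
      constructor
      · rintro ((h6 | h6) | ⟨j, hj, h6⟩)
        · exact Or.inl h6
        · exact Or.inr ⟨_, Finset.mem_insert_self _ _, h6⟩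
        · exact Or.inr ⟨j, Finset.mem_insert_of_mem hj, h6⟩
      · rintro (h6 | ⟨j, hj, h6⟩)
        · exact Or.inl (Or.inl h6)
        · rcases Finset.mem_insert.1 hj with rfl | hj
          · exact Or.inl (Or.inr h6)
          · exact Or.inr ⟨j, hj, h6⟩

/-- a nonempty set of edges of the link of a face with 4 vertices with even degrees contains all
vertices of the link -/
theorem cycle_link {K : Finset (Finset (Fin 18))} (h : Sph 6 K) {Q : Finset (Fin 18)}
    (hc : Q.card = 4) (hQ : Q ∈ K) {J : Finset ℕ} (a b : ℕ → Fin 18)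
    (hab : ∀ j ∈ J, a j ≠ b j ∧ a j ∉ Q ∧ b j ∉ Q ∧ insert (a j) (insert (b j) Q) ∈ K)
    (hinj : ∀ j ∈ J, ∀ j' ∈ J, (a j = a j' ∧ b j = b j') ∨ (a j = b j' ∧ b j = a j') → j = j')
    (hev : ∀ v, (J.filter fun j => a j = v ∨ b j = v).card % 2 = 0) (hne : J.Nonempty) :
    ∀ v, v ∉ Q → insert v Q ∈ K → ∃ j ∈ J, a j = v ∨ b j = v := by
  classical
  have key := link_conn h hQ (by omega)
    (S := Finset.univ.filter fun v => ∃ j ∈ J, a j = v ∨ b j = v) ?_ ?_
  · intro v hv hvK
    exact (Finset.mem_filter.1 (key v hv hvK)).2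
  · obtain ⟨j, hj⟩ := hne
    obtain ⟨h1, h2, h3, h4⟩ := hab j hj
    refine ⟨a j, Finset.mem_filter.2 ⟨Finset.mem_univ _, j, hj, Or.inl rfl⟩, h2,
      h.1 _ h4 _ ?_⟩
    exact Finset.insert_subset_insert _ (Finset.subset_insert _ _)
  · intro u hu v huQ hvQ huv
    by_cases hvu : v = u
    · exact hvu ▸ hu
    obtain ⟨j0, hj0, hj0'⟩ := (Finset.mem_filter.1 hu).2
    have hpos : 0 < (J.filter fun j => a j = u ∨ b j = u).card :=
      Finset.card_pos.2 ⟨j0, Finset.mem_filter.2 ⟨hj0, hj0'⟩⟩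
    have hev' := hev u
    obtain ⟨j1, hj1, j2, hj2, hne12⟩ := Finset.one_lt_card.1
      (show 1 < (J.filter fun j => a j = u ∨ b j = u).card by omega)
    rw [Finset.mem_filter] at hj1 hj2
    obtain ⟨o, ho⟩ : ∃ o : ℕ → Fin 18, ∀ j, o j = if a j = u then b j else a j := ⟨_, fun _ => rfl⟩
    have hop : ∀ j ∈ J, (a j = u ∨ b j = u) → o j ≠ u ∧ o j ∉ Q ∧
        insert (o j) (insert u Q) ∈ K ∧ (a j = o j ∨ b j = o j) ∧
        ((a j = u ∧ b j = o j) ∨ (a j = o j ∧ b j = u)) := by
      intro j hj hju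
      obtain ⟨h1, h2, h3, h4⟩ := hab j hj
      by_cases hau : a j = u
      · rw [ho j, if_pos hau]
        refine ⟨fun e => h1 (hau.trans e.symm), h3, ?_, Or.inr rfl, Or.inl ⟨hau, rfl⟩⟩
        rw [Finset.insert_comm, ← hau]
        exact h4
      · have hbu : b j = u := hju.resolve_left hau
        rw [ho j, if_neg hau]
        refine ⟨hau, h2, ?_, Or.inl rfl, Or.inr ⟨rfl, hbu⟩⟩
        rw [← hbu]
        exact h4
    obtain ⟨p1, p2, p3, p4, p5⟩ := hop j1 hj1.1 hj1.2
    obtain ⟨q1, q2, q3, q4, q5⟩ := hop j2 hj2.1 hj2.2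
    have h12 : o j1 ≠ o j2 := by
      intro e
      apply hne12
      apply hinj j1 hj1.1 j2 hj2.1
      rcases p5 with ⟨r1, r2⟩ | ⟨r1, r2⟩ <;> rcases q5 with ⟨s1, s2⟩ | ⟨s1, s2⟩
      · exact Or.inl ⟨r1.trans s1.symm, r2.trans (e.trans s2.symm)⟩
      · exact Or.inr ⟨r1.trans s2.symm, r2.trans (e.trans s1.symm)⟩
      · exact Or.inr ⟨r1.trans (e.trans s2.symm), r2.trans s1.symm⟩
      · exact Or.inl ⟨r1.trans (e.trans s1.symm), r2.trans s2.symm⟩
    have huK : insert u Q ∈ K := h.1 _ huv _ (Finset.insert_subset_insert _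
      (Finset.subset_insert _ _))
    have hr := ridge h huK (by rw [Finset.card_insert_of_notMem huQ, hc])
    have hsub : ∀ w, w ≠ u → w ∉ Q → insert w (insert u Q) ∈ K →
        w ∈ Finset.univ.filter fun v => v ∉ insert u Q ∧ insert v (insert u Q) ∈ K := by
      intro w w1 w2 w3
      refine Finset.mem_filter.2 ⟨Finset.mem_univ _, ?_, w3⟩
      rw [Finset.mem_insert, not_or]
      exact ⟨w1, w2⟩
    have hv : v = o j1 ∨ v = o j2 := by
      by_contra hcon
      rw [not_or] at hcon
      have h3 : ({v, o j1, o j2} : Finset (Fin 18)) ⊆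
          Finset.univ.filter fun v => v ∉ insert u Q ∧ insert v (insert u Q) ∈ K := by
        intro w hw
        rw [Finset.mem_insert, Finset.mem_insert, Finset.mem_singleton] at hw
        rcases hw with rfl | rfl | rfl
        · exact hsub _ hvu hvQ (by rw [Finset.insert_comm]; exact huv)
        · exact hsub _ p1 p2 p3
        · exact hsub _ q1 q2 q3
      have h4 := Finset.card_le_card h3
      rw [hr, Finset.card_insert_of_notMem (by
        rw [Finset.mem_insert, Finset.mem_singleton, not_or]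
        exact hcon), Finset.card_pair h12] at h4
      omega
    rcases hv with rfl | rfl
    · exact Finset.mem_filter.2 ⟨Finset.mem_univ _, j1, hj1.1, p4⟩
    · exact Finset.mem_filter.2 ⟨Finset.mem_univ _, j2, hj2.1, q4⟩

theorem land_bit {m x i : ℕ} (h : m &&& x = 0) (hx : x.testBit i = true) : m.testBit i ≠ true := by
  intro h1
  have h2 : (m &&& x).testBit i = true := by rw [Nat.testBit_and, h1, hx]; rfl
  rw [h, Nat.zero_testBit] at h2
  exact absurd h2 (by decide)

section

variable {tb : Tab} {K : Finset (Finset (Fin 18))} {y : Finset (Fin 18) → ZMod 3}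

theorem chkQ_spec (h : chkQ tb = true) :
    (∀ i < 4480, qfE tb i = true) ∧ (∀ i < 1120, qyE tb i = true) ∧
      ∀ q < 112, qfD tb 40 (Nat.mul 40 q) 0 = true := by
  obtain ⟨h1, h2⟩ := ic_false h
  obtain ⟨h3, h4⟩ := ic_false h2
  exact ⟨chk_all h1, chk_all h3, chk_all (p := fun q => qfD tb 40 (Nat.mul 40 q) 0) h4⟩

theorem qfE_spec (G : Good tb K y) (hg : chkG tb = true) {i : ℕ} (h : qfE tb i = true) :
    ea (en tb.qf i) < eb (en tb.qf i) ∧ eb (en tb.qf i) < 18 ∧
      e18 tb.r4 (i / 40) &&& (bi (ea (en tb.qf i)) ||| bi (eb (en tb.qf i))) = 0 ∧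
      ((At tb K y (eid (en tb.qf i)) ∨ At tb K y (304 + eid (en tb.qf i))) →
        D (e18 tb.r4 (i / 40) ||| (bi (ea (en tb.qf i)) ||| bi (eb (en tb.qf i)))) ∈ K ∧
        (D (e18 tb.r4 (i / 40) ||| (bi (ea (en tb.qf i)) ||| bi (eb (en tb.qf i))))).card = 6) := by
  unfold qfE at h
  rw [fo_eq, fo_eq] at h
  obtain ⟨h1, h⟩ := ic_false h
  obtain ⟨h2, h⟩ := ic_false h
  obtain ⟨h3, h⟩ := ic_false h
  obtain ⟨h4, h⟩ := ic_false h
  obtain ⟨h5, h⟩ := ic_false h
  have h1' := blt_lt h1
  have h2' := blt_lt h2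
  have h6 : img tb (eg (en tb.qf i)) (e18 tb.r6 (eid (en tb.qf i))) =
      e18 tb.r4 (i / 40) ||| (bi (ea (en tb.qf i)) ||| bi (eb (en tb.qf i))) :=
    Nat.eq_of_beq_eq_true h
  refine ⟨blt_lt h3, blt_lt h4, Nat.eq_of_beq_eq_true h5, fun hA => ?_⟩
  have hy : y (D (e18 tb.r6 (eid (en tb.qf i)))) ≠ 0 := by
    rcases hA with hA | hA
    · unfold At at hA
      rw [if_pos h2'] at hA
      rw [hA.2]
      decide
    · unfold At at hA
      rw [if_neg (by omega), if_pos (by omega), Nat.add_sub_cancel_left] at hA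
      rw [hA.2]
      decide
  rw [← h6, D_img hg h1']
  apply (G.yK _).1
  rw [G.yg _ h1']
  intro h7
  rcases mul_eq_zero.1 h7 with h8 | h8
  · rcases neg_one_pow_eq_or (ZMod 3) (ivn (gf tb (eg (en tb.qf i)))
      (D (e18 tb.r6 (eid (en tb.qf i))))) with h9 | h9
    · rw [h9] at h8
      exact absurd h8 (by decide)
    · rw [h9] at h8
      exact absurd h8 (by decide)
  · exact hy h8

theorem qyE_spec (G : Good tb K y) (hg : chkG tb = true) {i : ℕ} (h : qyE tb i = true) :
    608 + eid (en tb.qy i) < 944 ∧ ∃ ha : ea (en tb.qy i) < 18,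
      (⟨_, ha⟩ : Fin 18) ∉ D (e18 tb.r4 (i / 10)) ∧
      (At tb K y (608 + eid (en tb.qy i)) →
        insert (⟨_, ha⟩ : Fin 18) (D (e18 tb.r4 (i / 10))) ∈ K) := by
  unfold qyE at h
  rw [fo_eq, fo_eq] at h
  obtain ⟨h1, h⟩ := ic_false h
  obtain ⟨h2, h⟩ := ic_false h
  obtain ⟨h3, h⟩ := ic_false h
  obtain ⟨h4, h⟩ := ic_false h
  have h1' := blt_lt h1
  have h2' := blt_lt h2
  have h3' := blt_lt h3
  have h4' : e18 tb.r4 (i / 10) &&& bi (ea (en tb.qy i)) = 0 := Nat.eq_of_beq_eq_true h4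
  have h6 : img tb (eg (en tb.qy i)) (e18 tb.r5 (eid (en tb.qy i))) =
      e18 tb.r4 (i / 10) ||| bi (ea (en tb.qy i)) := Nat.eq_of_beq_eq_true h
  refine ⟨by omega, h3', ?_, fun hA => ?_⟩
  · rw [mem_D]
    exact land_bit h4' (by rw [bi_test]; simp)
  · unfold At at hA
    rw [if_neg (by omega), if_neg (by omega), if_pos (by omega), Nat.add_sub_cancel_left] at hA
    rw [← D_ins _ h3', ← h6]
    exact (G.img_mem hg h1' _).2 hA

theorem qout_syn (tb : Tab) (o : ℕ) (cf : Bool) (ok : ℕ → ℕ → Bool) (n : ℕ) :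
    ∀ i T F, qout tb o cf ok n i T F = true → cf = true ∨ ∃ T' F', ok T' F' = true := by
  induction n with
  | zero =>
    intro i T F h
    exact Or.inr ⟨T, F, h⟩
  | succ n ih =>
    intro i T F h
    change ic (bt o (ea (en tb.qy i))) (qout tb o cf ok n (i + 1) T F)
      (asF tb (608 + eid (en tb.qy i)) T F (fun T' F' => qout tb o cf ok n (i + 1) T' F') cf)
      = true at h
    rw [ic_eq] at h
    split_ifs at h with h0
    · exact ih _ _ _ h
    · rcases asF_syn h with h1 | ⟨T', F', h1⟩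
      · exact Or.inl h1
      · exact ih _ _ _ h1

theorem qout_res (tF : ∀ a < 944, ∀ T F ok cf, (Sat (At tb K y) T F → ¬ At tb K y a) →
      asF tb a T F ok cf = true → Res (At tb K y) T F ok cf)
    (o : ℕ) (cf : Bool) (ok : ℕ → ℕ → Bool) (n : ℕ) :
    ∀ i, (∀ j < n, 608 + eid (en tb.qy (i + j)) < 944 ∧ (o.testBit (ea (en tb.qy (i + j))) ≠ true →
      ¬ At tb K y (608 + eid (en tb.qy (i + j))))) → ∀ T F,
    qout tb o cf ok n i T F = true → Res (At tb K y) T F ok cf := by
  induction n with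
  | zero =>
    intro i _ T F h
    exact Res_ok h fun hs => hs
  | succ n ih =>
    intro i hi T F h
    change ic (bt o (ea (en tb.qy i))) (qout tb o cf ok n (i + 1) T F)
      (asF tb (608 + eid (en tb.qy i)) T F (fun T' F' => qout tb o cf ok n (i + 1) T' F') cf)
      = true at h
    have hi' : ∀ j < n, 608 + eid (en tb.qy (i + 1 + j)) < 944 ∧
        (o.testBit (ea (en tb.qy (i + 1 + j))) ≠ true →
          ¬ At tb K y (608 + eid (en tb.qy (i + 1 + j)))) := by
      intro j hj
      have e : i + 1 + j = i + (j + 1) := by omega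
      rw [e]
      exact hi (j + 1) (by omega)
    rw [ic_eq, bt_eq] at h
    split_ifs at h with h0
    · exact ih _ hi' _ _ h
    · obtain ⟨h1, h2⟩ := hi 0 (by omega)
      exact Res_trans (tF _ h1 _ _ _ _ (fun _ => h2 h0) h) fun T' F' h3 => ih _ hi' _ _ h3

/-- the cycle rule is sound -/
theorem ruQ_res (hg : chkG tb = true) (hq : chkQ tb = true) (G : Good tb K y)
    (tF : ∀ a < 944, ∀ T F ok cf, (Sat (At tb K y) T F → ¬ At tb K y a) →
      asF tb a T F ok cf = true → Res (At tb K y) T F ok cf) :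
    ∀ q < 112, ∀ n es T F ok cf, ruQ tb q n es T F ok cf = true → Res (At tb K y) T F ok cf := by
  intro q hq0 n es T F ok cf h
  obtain ⟨c1, c2, c3⟩ := chkQ_spec hq
  unfold ruQ at h
  rw [ic_eq] at h
  split_ifs at h with hn
  have hn' : n ≠ 0 := fun e => hn (by rw [e]; rfl)
  obtain ⟨J, j1, j2, j3, x, o, h, hx, ho⟩ := cyc_spec _ _ _ _ _ _ _ _ _ h
  obtain ⟨hx0, h⟩ := ic_false h
  have hx0' : x = 0 := Nat.eq_of_beq_eq_true hx0
  by_cases hs : Sat (At tb K y) T F
  · -- the data of the edges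
    have hJ : J.Nonempty := Finset.card_pos.1 (by omega)
    have hdat : ∀ j ∈ J, ea (en tb.qf (40 * q + j)) < eb (en tb.qf (40 * q + j)) ∧
        eb (en tb.qf (40 * q + j)) < 18 ∧ e18 tb.r4 q &&& em tb q j = 0 ∧
        D (e18 tb.r4 q ||| em tb q j) ∈ K ∧ (D (e18 tb.r4 q ||| em tb q j)).card = 6 := by
      intro j hj
      have hj40 := j2 j hj
      obtain ⟨d1, d2, d3, d4⟩ := qfE_spec G hg (c1 (40 * q + j) (by omega))
      have e : (40 * q + j) / 40 = q := by omega
      rw [e] at d3 d4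
      have d5 := d4 ((j3 j hj).imp (hs.1 _) (hs.1 _))
      exact ⟨d1, d2, d3, d5.1, d5.2⟩
    obtain ⟨a, ha⟩ : ∃ a : ℕ → Fin 18, ∀ j, a j = Fin.ofNat 18 (ea (en tb.qf (40 * q + j))) :=
      ⟨_, fun _ => rfl⟩
    obtain ⟨b, hb⟩ : ∃ b : ℕ → Fin 18, ∀ j, b j = Fin.ofNat 18 (eb (en tb.qf (40 * q + j))) :=
      ⟨_, fun _ => rfl⟩
    have hav : ∀ j ∈ J, ((a j : Fin 18) : ℕ) = ea (en tb.qf (40 * q + j)) := by
      intro j hj
      obtain ⟨d1, d2, _⟩ := hdat j hj
      rw [ha j]
      exact Nat.mod_eq_of_lt (by omega)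
    have hbv : ∀ j ∈ J, ((b j : Fin 18) : ℕ) = eb (en tb.qf (40 * q + j)) := by
      intro j hj
      obtain ⟨d1, d2, _⟩ := hdat j hj
      rw [hb j]
      exact Nat.mod_eq_of_lt (by omega)
    have hem : ∀ j ∈ J, ∀ v : Fin 18, (em tb q j).testBit v = true ↔ (a j = v ∨ b j = v) := by
      intro j hj v
      unfold em
      rw [Nat.testBit_or, Bool.or_eq_true, bi_test, bi_test, decide_eq_true_eq, decide_eq_true_eq,
        ← hav j hj, ← hbv j hj, Fin.val_inj, Fin.val_inj]
    have hD : ∀ j ∈ J, D (e18 tb.r4 q ||| em tb q j)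
        = insert (a j) (insert (b j) (D (e18 tb.r4 q))) := by
      intro j hj
      ext v
      rw [D_lor, Finset.mem_union, mem_D (em tb q j), hem j hj v, Finset.mem_insert,
        Finset.mem_insert]
      constructor
      · rintro (h1 | h1 | h1)
        · exact Or.inr (Or.inr h1)
        · exact Or.inl h1.symm
        · exact Or.inr (Or.inl h1.symm)
      · rintro (h1 | h1 | h1)
        · exact Or.inr (Or.inl h1.symm)
        · exact Or.inr (Or.inr h1.symm)
        · exact Or.inl h1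
    have hab : ∀ j ∈ J, a j ≠ b j ∧ a j ∉ D (e18 tb.r4 q) ∧ b j ∉ D (e18 tb.r4 q) ∧
        insert (a j) (insert (b j) (D (e18 tb.r4 q))) ∈ K := by
      intro j hj
      obtain ⟨d1, d2, d3, d4, d5⟩ := hdat j hj
      refine ⟨?_, ?_, ?_, ?_⟩
      · intro e
        have e' := congrArg Fin.val e
        rw [hav j hj, hbv j hj] at e'
        omega
      · rw [mem_D]
        exact land_bit d3 ((hem j hj _).2 (Or.inl rfl))
      · rw [mem_D]
        exact land_bit d3 ((hem j hj _).2 (Or.inr rfl))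
      · rw [← hD j hj]
        exact d4
    have hcQ : (D (e18 tb.r4 q)).card = 4 ∧ D (e18 tb.r4 q) ∈ K := by
      obtain ⟨j, hj⟩ := hJ
      obtain ⟨d1, d2, d3, d4, d5⟩ := hdat j hj
      obtain ⟨f1, f2, f3, f4⟩ := hab j hj
      rw [hD j hj, Finset.card_insert_of_notMem (by
        rw [Finset.mem_insert, not_or]
        exact ⟨f1, f2⟩), Finset.card_insert_of_notMem f3] at d5
      refine ⟨by omega, G.hyp.sph.1 _ f4 _ ?_⟩
      exact (Finset.subset_insert _ _).trans (Finset.subset_insert _ _)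
    have hinj : ∀ j ∈ J, ∀ j' ∈ J, (a j = a j' ∧ b j = b j') ∨ (a j = b j' ∧ b j = a j') →
        j = j' := by
      intro j hj j' hj' hh
      have hlt := (hdat j hj).1
      have hlt' := (hdat j' hj').1
      have hk : qk tb (40 * q + j) = qk tb (40 * q + j') := by
        unfold qk
        rw [← hav j hj, ← hav j' hj', ← hbv j hj, ← hbv j' hj'] at *
        rcases hh with ⟨g1, g2⟩ | ⟨g1, g2⟩
        · rw [g1, g2]
        · rw [g1, g2] at hlt
          omega
      have hds := (qfD_spec tb 40 _ _ (c3 q hq0)).2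
      by_contra hjj
      rcases lt_or_gt_of_ne hjj with g | g
      · exact hds j (j2 j hj) j' (j2 j' hj') g hk
      · exact hds j' (j2 j' hj') j (j2 j hj) g hk.symm
    have hev : ∀ v, (J.filter fun j => a j = v ∨ b j = v).card % 2 = 0 := by
      intro v
      have h1 := hx (v : ℕ)
      rw [hx0', Nat.zero_testBit, Bool.false_xor, eq_comm,
        decide_eq_false_iff_not] at h1
      have h2 : (J.filter fun j => a j = v ∨ b j = v)
          = J.filter fun j => (em tb q j).testBit v = true :=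
        Finset.filter_congr fun j hj => (hem j hj v).symm
      rw [h2]
      omega
    have hfin := cycle_link G.hyp.sph hcQ.1 hcQ.2 a b hab hinj hev hJ
    refine qout_res tF o cf ok 10 (10 * q) ?_ T F h
    intro j hj
    obtain ⟨d1, d2, d3, d4⟩ := qyE_spec G hg (c2 (10 * q + j) (by omega))
    have e : (10 * q + j) / 10 = q := by omega
    rw [e] at d3 d4
    refine ⟨d1, fun hno hA => hno ?_⟩
    obtain ⟨j', hj', hv⟩ := hfin _ d3 (d4 hA)
    exact (ho _).2 (Or.inr ⟨j', hj', (hem j' hj' ⟨_, d2⟩).2 hv⟩)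
  · rcases qout_syn _ _ _ _ _ _ _ _ h with h1 | ⟨T', F', h1⟩
    · exact Res_cf h1 hs
    · exact Res_ok h1 fun hs' => absurd hs' hs

end

end H23.LZ.Ck
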