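import Pool.Agent.H23.LZ.CkI

/-!
# Soundness of the ridge rule
-/

namespace H23.LZ.Ck.Rid

open H40.VT

theorem one_unique {x : ℕ} (h : one x = true) {i j : ℕ} (hi : x.testBit i = true)
    (hj : x.testBit j = true) : i = j := by
  have h0 : x ≠ 0 := by
    rintro rfl
    rw [Nat.zero_testBit] at hi
    exact absurd hi (by decide)
  have h1 : x &&& (x - 1) = 0 := Nat.eq_of_beq_eq_true h
  obtain ⟨k, hk⟩ := (Nat.and_sub_one_eq_zero_iff_isPowerOfTwo h0).1 h1
  rw [hk, Nat.testBit_two_pow, decide_eq_true_eq] at hi hj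
  omega

theorem one_of {x : ℕ} (h0 : x ≠ 0) (h : ∀ i, x.testBit i = true → i = x.log2) :
    one x = true := by
  have h1 : x = 2 ^ x.log2 := by
    apply Nat.eq_of_testBit_eq
    intro i
    rw [Nat.testBit_two_pow]
    by_cases hi : x.log2 = i
    · rw [decide_eq_true hi, ← hi, Nat.testBit_log2 h0]
    · rw [decide_eq_false hi]
      by_contra hc
      exact hi (h i (by rwa [Bool.not_eq_false] at hc)).symm
  have h2 : x &&& (x - 1) = 0 :=
    (Nat.and_sub_one_eq_zero_iff_isPowerOfTwo h0).2 ⟨_, h1⟩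
  change Nat.beq (x &&& (x - 1)) 0 = true
  rw [h2]
  rfl

/-- one side of a ridge -/
theorem side_res {A : ℕ → Prop} {tb : Tab} {S r : ℕ} (hr : r < 224)
    (tT : ∀ a < 944, ∀ T F ok cf, (Sat A T F → A a) → asT tb a T F ok cf = true →
      Res A T F ok cf)
    (tF : ∀ a < 944, ∀ T F ok cf, (Sat A T F → ¬ A a) → asF tb a T F ok cf = true →
      Res A T F ok cf)
    (hS : ∀ a, S.testBit a = true → a < 608)
    (h2 : ∀ a b, S.testBit a = true → S.testBit b = true → A a → A b → a = b)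
    (h3 : A (608 + r) → ∃ a, S.testBit a = true ∧ A a)
    {T F : ℕ} {ok : ℕ → ℕ → Bool} {cf : Bool} (h : side tb S r T F ok cf = true) :
    Res A T F ok cf := by
  unfold side at h
  rw [fo_eq, ic_eq] at h
  split_ifs at h with ht
  · -- no atom of `S` is known to be true
    rw [fo_eq, ic_eq] at h
    have hu : ∀ a, S.testBit a = true → F.testBit a = false →
        (Nat.xor S (Nat.land S F)).testBit a = true := by
      intro a h4 h5
      change (S ^^^ (S &&& F)).testBit a = true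
      rw [Nat.testBit_xor, Nat.testBit_and, h4, h5]
      rfl
    have hu' : ∀ a, (Nat.xor S (Nat.land S F)).testBit a = true → S.testBit a = true := by
      intro a h4
      change (S ^^^ (S &&& F)).testBit a = true at h4
      rw [Nat.testBit_xor, Nat.testBit_and] at h4
      revert h4
      cases S.testBit a <;> simp
    have hu2 : Sat A T F → A (608 + r) →
        ∃ a, (Nat.xor S (Nat.land S F)).testBit a = true ∧ A a := by
      intro hs hA
      obtain ⟨a, h4, h5⟩ := h3 hA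
      refine ⟨a, hu a h4 ?_, h5⟩
      by_contra hc
      rw [Bool.not_eq_false] at hc
      exact hs.2 a hc h5
    generalize Nat.xor S (Nat.land S F) = u at h hu hu' hu2
    split_ifs at h with h0
    · refine tF _ (show 608 + r < 944 by omega) _ _ _ _ (fun hs hA => ?_) h
      obtain ⟨a, h4, _⟩ := hu2 hs hA
      rw [Nat.eq_of_beq_eq_true h0, Nat.zero_testBit] at h4
      exact absurd h4 (by decide)
    · rw [ic_eq] at h
      split_ifs at h with h1
      · rw [ic_eq, bt_eq, lg_eq] at h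
        split_ifs at h with h4
        · have hu0 : u ≠ 0 := by
            rintro rfl
            exact h0 rfl
          have hl := Nat.testBit_log2 hu0
          refine tT _ (by have := hS _ (hu' _ hl); omega) _ _ _ _ (fun hs => ?_) h
          obtain ⟨a, h5, h6⟩ := hu2 hs (hs.1 _ h4)
          rwa [one_unique h1 hl h5]
        · exact Res_ok h id
      · exact Res_ok h id
  · rw [ic_eq] at h
    have ht' : ∀ a, (Nat.land T S).testBit a = true → T.testBit a = true ∧ S.testBit a = true := by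
      intro a h4
      change (T &&& S).testBit a = true at h4
      rw [Nat.testBit_and, Bool.and_eq_true] at h4
      exact h4
    have ht2 : ∀ a, (Nat.xor S (Nat.land T S)).testBit a = true →
        S.testBit a = true ∧ (Nat.land T S).testBit a = false := by
      intro a h4
      change (S ^^^ (T &&& S)).testBit a = true at h4
      change S.testBit a = true ∧ (T &&& S).testBit a = false
      rw [Nat.testBit_xor, Nat.testBit_and] at h4
      rw [Nat.testBit_and]
      revert h4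
      cases S.testBit a <;> cases T.testBit a <;> simp
    generalize Nat.land T S = t at h ht ht' ht2
    have ht0 : t ≠ 0 := by
      rintro rfl
      exact ht rfl
    have hl := ht' _ (Nat.testBit_log2 ht0)
    split_ifs at h with h1
    · rw [fo_eq] at h
      refine Res_test (T' := T) (F' := Nat.lor F (Nat.xor S t)) (fun hs => ?_) h
      refine Sat_lorF hs fun i hi hA => ?_
      obtain ⟨h4, h5⟩ := ht2 i hi
      rw [h2 i t.log2 h4 hl.2 hA (hs.1 _ hl.1), Nat.testBit_log2 ht0] at h5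
      exact absurd h5 (by decide)
    · refine Res_cf h fun hs => h1 (one_of ht0 fun i hi => ?_)
      exact h2 i t.log2 (ht' i hi).2 hl.2 (hs.1 _ (ht' i hi).1) (hs.1 _ hl.1)

/-- sum mod 2 of Booleans -/
def xr (p : ℕ → Bool) (n : ℕ) : Bool :=
  @Nat.rec (fun _ => Bool) false (fun i acc => bx (p i) acc) n

/-- sign -/
def sg (b : Bool) : ZMod 3 := if b = true then -1 else 1

theorem sg_bx (a b : Bool) : sg (bx a b) = sg a * sg b := by
  cases a <;> cases b <;> decide

theorem sg_xr (p : ℕ → Bool) (n : ℕ) : sg (xr p n) = ∏ i ∈ Finset.range n, sg (p i) := by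
  induction n with
  | zero => rfl
  | succ n ih =>
    rw [Finset.prod_range_succ, ← ih, mul_comm, ← sg_bx]
    rfl

theorem sg_card {ι : Type*} (s : Finset ι) (p : ι → Bool) :
    (-1 : ZMod 3) ^ (s.filter fun i => p i = true).card = ∏ i ∈ s, sg (p i) := by
  unfold sg
  rw [Finset.prod_ite, Finset.prod_const, Finset.prod_const_one, mul_one]

theorem sg_card18 (p : ℕ → Bool) :
    (-1 : ZMod 3) ^ ((Finset.univ : Finset (Fin 18)).filter
      fun i : Fin 18 => p (i : ℕ) = true).card = sg (xr p 18) := by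
  rw [sg_card (Finset.univ : Finset (Fin 18)) fun i : Fin 18 => p (i : ℕ), sg_xr,
    Fin.prod_univ_eq_prod_range (fun i => sg (p i)) 18]

/-- parity of the number of vertices below `v` -/
def blw (m v : ℕ) : Bool := xr (fun u => ic (bt m u) (Nat.blt u v) false) 18

theorem blw_eq (m : ℕ) (v : Fin 18) :
    (-1 : ZMod 3) ^ ((D m).filter fun u => u < v).card = sg (blw m v) := by
  unfold blw
  rw [← sg_card18]
  congr 2
  ext u
  rw [Finset.mem_filter, mem_D, Finset.mem_filter, ic_eq, bt_eq]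
  constructor
  · rintro ⟨h1, h2⟩
    refine ⟨Finset.mem_univ _, ?_⟩
    rw [if_pos h1, Nat.blt_eq]
    exact h2
  · rintro ⟨_, h2⟩
    split_ifs at h2 with h3
    rw [Nat.blt_eq] at h2
    exact ⟨h3, h2⟩

/-- entry of the group table -/
def gv (tb : Tab) (s i : ℕ) : ℕ :=
  Nat.mod (Nat.shiftRight tb.gp (Nat.mul 5 (Nat.add (Nat.mul 18 s) i))) 32

/-- parity of the number of inversions -/
def ivb (tb : Tab) (s m : ℕ) : Bool :=
  xr (fun j => ic (bt m j) (fo (gv tb s j) fun g => xr (fun i =>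
    ic (Nat.blt i j) (ic (bt m i) (Nat.blt g (gv tb s i)) false) false) 18) false) 18

theorem ivb_eq {tb : Tab} (hg : chkG tb = true) {s : ℕ} (hs : s < 18) (m : ℕ) :
    (-1 : ZMod 3) ^ ivn (gf tb s) (D m) = sg (ivb tb s m) := by
  have h1 : ivn (gf tb s) (D m) = (((Finset.univ : Finset (Fin 18)) ×ˢ
      (Finset.univ : Finset (Fin 18))).filter fun p => (fun q : Fin 18 × Fin 18 =>
        (m.testBit q.2 && ((decide (q.1 < q.2) && (m.testBit q.1 &&
          decide (gf tb s q.2 < gf tb s q.1)))))) p = true).card := by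
    unfold ivn
    congr 1
    ext p
    simp only [Finset.mem_filter, Finset.mem_product, mem_D, Finset.mem_univ, true_and,
      Bool.and_eq_true, decide_eq_true_eq]
    tauto
  rw [h1, sg_card, Finset.prod_product_right]
  unfold ivb
  rw [sg_xr, ← Fin.prod_univ_eq_prod_range (fun j => sg (ic (bt m j) (fo (gv tb s j) fun g =>
    xr (fun i => ic (Nat.blt i j) (ic (bt m i) (Nat.blt g (gv tb s i)) false) false) 18) false)) 18]
  refine Finset.prod_congr rfl fun j _ => ?_
  rw [ic_eq, bt_eq, fo_eq]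
  by_cases hj : m.testBit (j : ℕ) = true
  · rw [if_pos hj, sg_xr, ← Fin.prod_univ_eq_prod_range (fun i => sg (ic (Nat.blt i j)
      (ic (bt m i) (Nat.blt (gv tb s j) (gv tb s i)) false) false)) 18]
    refine Finset.prod_congr rfl fun i _ => ?_
    congr 1
    rw [hj, Bool.true_and, ic_eq, ic_eq, bt_eq]
    have hv : ∀ k : Fin 18, gv tb s k = ((gf tb s k : Fin 18) : ℕ) := fun k =>
      (gf_val hg hs k).symm
    rw [hv, hv, Bool.eq_iff_iff, Bool.and_eq_true, Bool.and_eq_true, decide_eq_true_eq,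
      decide_eq_true_eq, Fin.lt_def, Fin.lt_def]
    constructor
    · rintro ⟨h2, h3, h4⟩
      rw [if_pos ((Nat.blt_eq).mpr h2), if_pos h3]
      exact (Nat.blt_eq).mpr h4
    · intro h2
      split_ifs at h2 with h3 h4
      exact ⟨(Nat.blt_eq).mp h3, h4, (Nat.blt_eq).mp h2⟩
  · rw [if_neg hj]
    rw [Bool.not_eq_true] at hj
    rw [show sg false = 1 from rfl]
    refine Finset.prod_eq_one fun i _ => ?_
    dsimp only
    rw [hj, Bool.false_and]
    rfl

/-- number of bits below 18 -/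
def pc (m : ℕ) : ℕ := @Nat.rec (fun _ => ℕ) 0 (fun i acc => cn (bt m i) (Nat.add acc 1) acc) 18

theorem pc_eq (m : ℕ) : (D m).card = pc m := by
  have h : ∀ n, ((Finset.range n).filter fun i => m.testBit i = true).card
      = @Nat.rec (fun _ => ℕ) 0 (fun i acc => cn (bt m i) (Nat.add acc 1) acc) n := by
    intro n
    induction n with
    | zero => rfl
    | succ n ih =>
      change _ = cn (bt m n) (Nat.add _ 1) _
      rw [cn_eq, bt_eq, ← ih, Finset.range_add_one, Finset.filter_insert]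
      split_ifs with h1
      · rw [Finset.card_insert_of_notMem (by simp)]
      · rfl
  have h2 := h 18
  unfold pc
  rw [← h2]
  refine Finset.card_bij (fun i _ => (i : ℕ)) ?_ ?_ ?_
  · intro i hi
    rw [Finset.mem_filter, Finset.mem_range]
    exact ⟨i.2, (mem_D m i).1 hi⟩
  · intro i _ j _ hij
    exact Fin.ext hij
  · intro j hj
    rw [Finset.mem_filter, Finset.mem_range] at hj
    exact ⟨⟨j, hj.1⟩, (mem_D m _).2 hj.2, rfl⟩

/-- the antipode of a mask -/
def anti (m : ℕ) : ℕ := Nat.lor (Nat.mod (Nat.shiftLeft m 9) 262144) (Nat.shiftRight m 9)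

theorem anti_test {m : ℕ} (hm : m < 262144) (v : Fin 18) (h : (anti m).testBit v = true) :
    Pool.Agent.H53.AEG.α9 v ∈ D m := by
  change ((m <<< 9) % 2 ^ 18 ||| m >>> 9).testBit v = true at h
  rw [mem_D, Pool.Agent.H53.AEG.α9_apply]
  rw [Nat.testBit_or, Nat.testBit_mod_two_pow, Nat.testBit_shiftLeft, Nat.testBit_shiftRight,
    Bool.or_eq_true, Bool.and_eq_true, Bool.and_eq_true, decide_eq_true_eq, decide_eq_true_eq] at h
  have hv := v.2
  have h9 : ((v + 9 : Fin 18) : ℕ) = ((v : ℕ) + 9) % 18 := Fin.val_add _ _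
  rw [h9]
  rcases h with ⟨_, h1, h2⟩ | h1
  · have h3 : ((v : ℕ) + 9) % 18 = (v : ℕ) - 9 := by omega
    rw [h3]
    exact h2
  · by_cases h2 : (v : ℕ) < 9
    · have h3 : ((v : ℕ) + 9) % 18 = 9 + (v : ℕ) := by omega
      rw [h3]
      exact h1
    · have h3 : m < 2 ^ (9 + (v : ℕ)) := lt_of_lt_of_le hm
        (show 2 ^ 18 ≤ 2 ^ (9 + (v : ℕ)) from Nat.pow_le_pow_right (by omega) (by omega))
      rw [Nat.testBit_lt_two_pow h3] at h1
      exact absurd h1 (by decide)

/-- union of masks -/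
def orr (f : ℕ → ℕ) (n : ℕ) : ℕ := @Nat.rec (fun _ => ℕ) 0 (fun j acc => Nat.lor acc (f j)) n

theorem orr_test (f : ℕ → ℕ) (n i : ℕ) :
    (orr f n).testBit i = true ↔ ∃ j < n, (f j).testBit i = true := by
  induction n with
  | zero =>
    change (0 : ℕ).testBit i = true ↔ _
    simp
  | succ n ih =>
    change (orr f n ||| f n).testBit i = true ↔ _
    rw [Nat.testBit_or, Bool.or_eq_true, ih]
    constructor
    · rintro (⟨j, h1, h2⟩ | h1)
      · exact ⟨j, by omega, h2⟩
      · exact ⟨n, by omega, h1⟩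
    · rintro ⟨j, h1, h2⟩
      rcases Nat.lt_succ_iff_lt_or_eq.1 h1 with h3 | h3
      · exact Or.inl ⟨j, h3, h2⟩
      · exact Or.inr (h3 ▸ h2)

/-- the entry `j` of the ridge `r` -/
def er (tb : Tab) (r j : ℕ) : ℕ := en tb.rf (Nat.add (Nat.mul 8 r) j)

/-- the atoms with induced sign `1` and `-1` of an entry -/
def atp (e : ℕ) : ℕ := cn (Nat.beq (eb e) 0) (eid e) (Nat.add 304 (eid e))
def atn (e : ℕ) : ℕ := cn (Nat.beq (eb e) 0) (Nat.add 304 (eid e)) (eid e)

/-- check of the entry `k` of `rf` -/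
def chkE (tb : Tab) (k : ℕ) : Bool :=
  fo (en tb.rf k) fun e => fo (e18 tb.r5 (Nat.div k 8)) fun m => fo (e18 tb.r6 (eid e)) fun m6 =>
    ic (Nat.blt (eid e) tb.nf) (ic (Nat.blt (eid e) 304) (ic (Nat.blt (eg e) 18)
      (ic (Nat.blt (ea e) 18) (ic (bt m (ea e)) false
        (ic (Nat.beq (img tb (eg e) m6) (Nat.lor m (bi (ea e))))
          (ic (bx (blw m (ea e)) (ivb tb (eg e) m6)) (Nat.beq (eb e) 1) (Nat.beq (eb e) 0))
          false)) false) false) false) false

/-- check of the ridge `r` -/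
def chkRr (tb : Tab) (r : ℕ) : Bool :=
  fo (e18 tb.r5 r) fun m => ic (Nat.beq (pc m) 5)
    (ic (Nat.beq (Nat.lor (Nat.lor m (anti m)) (orr (fun j => bi (ea (er tb r j))) 8)) 262143)
      (ic (Nat.beq (row tb.sa r) (orr (fun j => bi (atp (er tb r j))) 8))
        (Nat.beq (row tb.sb r) (orr (fun j => bi (atn (er tb r j))) 8)) false) false) false

/-- the vertex of the entry `i < j` is not `v` -/
def chkW (tb : Tab) (r j v i : ℕ) : Bool :=
  ic (Nat.blt i j) (ic (Nat.beq (ea (er tb r i)) v) false true) true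

/-- the vertex of the entry `j` is new -/
def chkU (tb : Tab) (r j : ℕ) : Bool :=
  fo (ea (er tb r j)) fun v =>
    @Nat.rec (fun _ => Bool) true (fun i acc => ic (chkW tb r j v i) acc false) 8

/-- the vertices of the entries of a ridge are different -/
def chkV (tb : Tab) (r : ℕ) : Bool :=
  @Nat.rec (fun _ => Bool) true (fun j acc => ic (chkU tb r j) acc false) 8

/-- the table check for the ridge rule -/
def chkR (tb : Tab) : Bool :=
  ic (@Nat.rec (fun _ => Bool) true (fun k acc => ic (chkE tb k) acc false) 1792)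
    (ic (@Nat.rec (fun _ => Bool) true (fun r acc => ic (chkRr tb r) acc false) 224)
      (@Nat.rec (fun _ => Bool) true (fun r acc => ic (chkV tb r) acc false) 224) false) false

theorem ic_and {c a : Bool} (h : ic c a false = true) : c = true ∧ a = true := by
  cases c
  · exact absurd h (by simp [ic])
  · exact ⟨rfl, h⟩

theorem ic_not {c a : Bool} (h : ic c false a = true) : c = false ∧ a = true := by
  cases c
  · exact ⟨rfl, h⟩
  · exact absurd h (by simp [ic])

section

variable {tb : Tab} {K : Finset (Finset (Fin 18))} {y : Finset (Fin 18) → ZMod 3}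

/-- term of the boundary -/
def tm (y : Finset (Fin 18) → ZMod 3) (ρ : Finset (Fin 18)) (v : Fin 18) : ZMod 3 :=
  (-1) ^ (ρ.filter fun u => u < v).card * y (insert v ρ)

theorem tm_ne (h : Good tb K y) {ρ : Finset (Fin 18)} (hc : ρ.card = 5) {v : Fin 18}
    (hv : v ∉ ρ) : tm y ρ v ≠ 0 ↔ insert v ρ ∈ K := by
  have h1 : (insert v ρ).card = 6 := by rw [Finset.card_insert_of_notMem hv, hc]
  have h2 := h.yK (insert v ρ)
  unfold tm
  rw [mul_ne_zero_iff, h2, h1]
  constructor
  · exact fun h3 => h3.2.1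
  · exact fun h3 => ⟨pow_ne_zero _ (by decide), h3, rfl⟩

theorem tm_zero (h : Good tb K y) {ρ : Finset (Fin 18)} (hc : ρ.card = 5) {v : Fin 18}
    (hv : v ∉ ρ) (hn : tm y ρ v ≠ 0) : ρ ∈ K :=
  h.hyp.sph.1 _ ((tm_ne h hc hv).1 hn) ρ (Finset.subset_insert v ρ)

theorem tm_two (h : Good tb K y) {ρ : Finset (Fin 18)} (hc : ρ.card = 5) (hρ : ρ ∈ K) :
    ∃ a b : Fin 18, a ∉ ρ ∧ b ∉ ρ ∧ tm y ρ a = 1 ∧ tm y ρ b = -1 ∧
      ∀ v, v ∉ ρ → tm y ρ v ≠ 0 → v = a ∨ v = b := by
  have h1 := ridge h.hyp.sph hρ (by rw [hc])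
  obtain ⟨a, b, hab, hF⟩ := Finset.card_eq_two.1 h1
  have hm : ∀ v, (v ∉ ρ ∧ insert v ρ ∈ K) ↔ v = a ∨ v = b := by
    intro v
    have h2 : v ∈ Finset.univ.filter (fun v => v ∉ ρ ∧ insert v ρ ∈ K) ↔ v ∈ ({a, b} : Finset _) := by
      rw [hF]
    rwa [Finset.mem_filter, Finset.mem_insert, Finset.mem_singleton,
      and_iff_right (Finset.mem_univ v)] at h2
  have ha := (hm a).2 (Or.inl rfl)
  have hb := (hm b).2 (Or.inr rfl)
  have h3 := congrFun h.yb ρ
  have h4 : obd y ρ = ∑ v ∈ ρᶜ, tm y ρ v := rfl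
  rw [h4, Pi.zero_apply] at h3
  have h5 : ∑ v ∈ ρᶜ, tm y ρ v = ∑ v ∈ ({a, b} : Finset (Fin 18)), tm y ρ v := by
    symm
    apply Finset.sum_subset
    · intro v hv
      rw [Finset.mem_insert, Finset.mem_singleton] at hv
      rw [Finset.mem_compl]
      exact ((hm v).2 hv).1
    · intro v hv hv'
      by_contra hn
      rw [Finset.mem_compl] at hv
      apply hv'
      rw [Finset.mem_insert, Finset.mem_singleton]
      exact (hm v).1 ⟨hv, (tm_ne h hc hv).1 hn⟩
  rw [h5, Finset.sum_pair hab] at h3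
  have ha' := (tm_ne h hc ha.1).2 ha.2
  have hd : ∀ s t : ZMod 3, s + t = 0 → s ≠ 0 → (s = 1 ∧ t = -1) ∨ (s = -1 ∧ t = 1) := by
    decide
  rcases hd _ _ h3 ha' with ⟨h6, h7⟩ | ⟨h6, h7⟩
  · exact ⟨a, b, ha.1, hb.1, h6, h7, fun v hv hn => (hm v).1 ⟨hv, (tm_ne h hc hv).1 hn⟩⟩
  · exact ⟨b, a, hb.1, ha.1, h7, h6, fun v hv hn =>
      ((hm v).1 ⟨hv, (tm_ne h hc hv).1 hn⟩).symm⟩

/-- the content of the table check for an entry -/
theorem entR (hg : chkG tb = true) (h : Good tb K y) {k : ℕ} (hk : chkE tb k = true) :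
    ∃ v : Fin 18, (v : ℕ) = ea (en tb.rf k) ∧ v ∉ D (e18 tb.r5 (Nat.div k 8)) ∧
      (At tb K y (atp (en tb.rf k)) ↔ tm y (D (e18 tb.r5 (Nat.div k 8))) v = 1) ∧
      (At tb K y (atn (en tb.rf k)) ↔ tm y (D (e18 tb.r5 (Nat.div k 8))) v = -1) ∧
      atp (en tb.rf k) < 608 ∧ atn (en tb.rf k) < 608 := by
  unfold chkE at hk
  rw [fo_eq, fo_eq, fo_eq] at hk
  generalize en tb.rf k = e at hk ⊢
  generalize e18 tb.r5 (Nat.div k 8) = m at hk ⊢
  obtain ⟨h1, hk⟩ := ic_and hk
  obtain ⟨h2, hk⟩ := ic_and hk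
  obtain ⟨h3, hk⟩ := ic_and hk
  obtain ⟨h4, hk⟩ := ic_and hk
  obtain ⟨h5, hk⟩ := ic_not hk
  obtain ⟨h6, h7⟩ := ic_and hk
  rw [Nat.blt_eq] at h1 h2 h3 h4
  rw [bt_eq] at h5
  have h6' : img tb (eg e) (e18 tb.r6 (eid e)) = m ||| bi (ea e) := Nat.eq_of_beq_eq_true h6
  have hv : (⟨ea e, h4⟩ : Fin 18) ∉ D m := by
    rw [mem_D]
    change ¬ m.testBit (ea e) = true
    rw [h5]
    decide
  have hD : insert (⟨ea e, h4⟩ : Fin 18) (D m) = (D (e18 tb.r6 (eid e))).image (gf tb (eg e)) := by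
    rw [← D_ins, ← h6', D_img hg h3]
  have ht : tm y (D m) ⟨ea e, h4⟩ = sg (bx (blw m (ea e)) (ivb tb (eg e) (e18 tb.r6 (eid e))))
      * y (D (e18 tb.r6 (eid e))) := by
    unfold tm
    rw [hD, h.yg _ h3, ← mul_assoc, blw_eq, ivb_eq hg h3, sg_bx]
  refine ⟨⟨ea e, h4⟩, rfl, hv, ?_⟩
  have hA : ∀ i, i < 304 → i < tb.nf → (At tb K y i ↔ y (D (e18 tb.r6 i)) = 1) := by
    intro i hi hi'
    unfold At
    rw [if_pos hi]
    exact ⟨fun h => h.2, fun h => ⟨hi', h⟩⟩
  have hB : ∀ i, i < 304 → i < tb.nf → (At tb K y (304 + i) ↔ y (D (e18 tb.r6 i)) = -1) := by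
    intro i hi hi'
    unfold At
    rw [if_neg (by omega), if_pos (by omega), Nat.add_sub_cancel_left]
    exact ⟨fun h => h.2, fun h => ⟨hi', h⟩⟩
  rw [ht]
  unfold atp atn
  rw [cn_eq, cn_eq]
  rw [ic_eq] at h7
  split_ifs at h7 with h8
  · have h9 : eb e = 1 := Nat.eq_of_beq_eq_true h7
    rw [h8, h9]
    change (At tb K y (304 + eid e) ↔ _) ∧ (At tb K y (eid e) ↔ _) ∧ 304 + eid e < 608 ∧
      eid e < 608
    rw [hA _ h2 h1, hB _ h2 h1, show sg true = -1 from rfl, neg_one_mul, neg_inj, neg_eq_iff_eq_neg]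
    exact ⟨Iff.rfl, Iff.rfl, by omega, by omega⟩
  · rw [Bool.not_eq_true] at h8
    have h9 : eb e = 0 := Nat.eq_of_beq_eq_true h7
    rw [h8, h9]
    change (At tb K y (eid e) ↔ _) ∧ (At tb K y (304 + eid e) ↔ _) ∧ eid e < 608 ∧
      304 + eid e < 608
    rw [hA _ h2 h1, hB _ h2 h1, show sg false = 1 from rfl, one_mul]
    exact ⟨Iff.rfl, Iff.rfl, by omega, by omega⟩

/-- the ridge rule -/
theorem ruR_res (hg : chkG tb = true) (hx : chkR tb = true) (h : Good tb K y)
    (tT : ∀ a < 944, ∀ T F ok cf, (Sat (At tb K y) T F → At tb K y a) →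
      asT tb a T F ok cf = true → Res (At tb K y) T F ok cf)
    (tF : ∀ a < 944, ∀ T F ok cf, (Sat (At tb K y) T F → ¬ At tb K y a) →
      asF tb a T F ok cf = true → Res (At tb K y) T F ok cf) :
    ∀ r < 224, ∀ T F ok cf, ruR tb r T F ok cf = true → Res (At tb K y) T F ok cf := by
  intro r hr T F ok cf hh
  obtain ⟨hx1, hx⟩ := ic_and hx
  obtain ⟨hx2, hx3⟩ := ic_and hx
  have hE0 := chk_all (p := chkE tb) (n := 1792) hx1
  have hE : ∀ j < 8, chkE tb (8 * r + j) = true := fun j hj => hE0 (8 * r + j) (by omega)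
  have hR := chk_all (p := chkRr tb) (n := 224) hx2 r hr
  have hV := chk_all (p := chkV tb) (n := 224) hx3 r hr
  -- the entries
  have hent : ∀ j < 8, ∃ v : Fin 18, (v : ℕ) = ea (er tb r j) ∧ v ∉ D (e18 tb.r5 r) ∧
      (At tb K y (atp (er tb r j)) ↔ tm y (D (e18 tb.r5 r)) v = 1) ∧
      (At tb K y (atn (er tb r j)) ↔ tm y (D (e18 tb.r5 r)) v = -1) ∧
      atp (er tb r j) < 608 ∧ atn (er tb r j) < 608 := by
    intro j hj
    have h1 := entR hg h (hE j hj)
    have h2 : Nat.div (8 * r + j) 8 = r := by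
      change (8 * r + j) / 8 = r
      omega
    rw [h2] at h1
    exact h1
  choose vx hvx using hent
  have hinj : ∀ i (hi : i < 8) j (hj : j < 8), vx i hi = vx j hj → i = j := by
    intro i hi j hj hij
    have h0 : ea (er tb r i) = ea (er tb r j) := by
      rw [← (hvx i hi).1, ← (hvx j hj).1, hij]
    have key : ∀ i j, i < 8 → j < 8 → i < j → ea (er tb r i) ≠ ea (er tb r j) := by
      intro i j hi hj hlt heq
      have h1 := chk_all (p := chkU tb r) (n := 8) hV j hj
      unfold chkU at h1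
      rw [fo_eq] at h1
      have h2 := chk_all (p := chkW tb r j (ea (er tb r j))) (n := 8) h1 i hi
      unfold chkW at h2
      rw [ic_eq, if_pos (Nat.blt_eq.mpr hlt), heq] at h2
      have h3 : Nat.beq (ea (er tb r j)) (ea (er tb r j)) = true := Nat.beq_refl _
      rw [h3] at h2
      exact absurd h2 (by decide)
    rcases lt_trichotomy i j with h1 | h1 | h1
    · exact absurd h0 (key i j hi hj h1)
    · exact h1
    · exact absurd h0.symm (key j i hj hi h1)
  unfold chkRr at hR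
  rw [fo_eq] at hR
  obtain ⟨h5, hR⟩ := ic_and hR
  obtain ⟨h6, hR⟩ := ic_and hR
  obtain ⟨h7, h8⟩ := ic_and hR
  have h5' : (D (e18 tb.r5 r)).card = 5 := by
    rw [pc_eq]
    exact Nat.eq_of_beq_eq_true h5
  have h6' : e18 tb.r5 r ||| anti (e18 tb.r5 r) ||| orr (fun j => bi (ea (er tb r j))) 8
      = 262143 := Nat.eq_of_beq_eq_true h6
  have h7' : row tb.sa r = orr (fun j => bi (atp (er tb r j))) 8 := Nat.eq_of_beq_eq_true h7
  have h8' : row tb.sb r = orr (fun j => bi (atn (er tb r j))) 8 := Nat.eq_of_beq_eq_true h8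
  have hlt : e18 tb.r5 r < 262144 := by
    change _ % 262144 < 262144
    exact Nat.mod_lt _ (by omega)
  have hatR : At tb K y (608 + r) ↔ D (e18 tb.r5 r) ∈ K := by
    unfold At
    rw [if_neg (by omega), if_neg (by omega), if_pos (by omega), Nat.add_sub_cancel_left]
  generalize e18 tb.r5 r = m at *
  -- every vertex with a nonzero term is the vertex of an entry
  have hcov : ∀ v : Fin 18, v ∉ D m → tm y (D m) v ≠ 0 → ∃ j, ∃ hj : j < 8, vx j hj = v := by
    intro v hv hn
    have h9 : (262143 : ℕ).testBit v = true := by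
      rw [show (262143 : ℕ) = 2 ^ 18 - 1 from rfl, Nat.testBit_two_pow_sub_one]
      exact decide_eq_true v.2
    rw [← h6', Nat.testBit_or, Nat.testBit_or, Bool.or_eq_true, Bool.or_eq_true] at h9
    rcases h9 with (h9 | h9) | h9
    · exact absurd ((mem_D m v).2 h9) hv
    · exfalso
      have h10 := anti_test hlt v h9
      have h11 := (tm_ne h h5' hv).1 hn
      exact h.hyp.noa _ h11 v (Finset.mem_insert_self _ _) (Finset.mem_insert_of_mem h10)
    · rw [orr_test] at h9
      obtain ⟨j, hj, h10⟩ := h9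
      rw [bi_test, decide_eq_true_eq] at h10
      exact ⟨j, hj, Fin.ext ((hvx j hj).1.trans h10)⟩
  have hne : ∀ c : ZMod 3, c = 1 ∨ c = -1 → c ≠ 0 := by
    decide
  have uniq : ∀ c : ZMod 3, c = 1 ∨ c = -1 → D m ∈ K →
      ∃ v0, v0 ∉ D m ∧ tm y (D m) v0 = c ∧ ∀ v, v ∉ D m → tm y (D m) v = c → v = v0 := by
    intro c hc hK
    obtain ⟨a, b, ha, hb, ha1, hb1, hab⟩ := tm_two h h5' hK
    have h0 : ∀ v, v ∉ D m → tm y (D m) v = c → v = a ∨ v = b := fun v hv hv1 =>
      hab v hv (by rw [hv1]; exact hne c hc)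
    have h12 : (1 : ZMod 3) ≠ -1 := by decide
    rcases hc with rfl | rfl
    · refine ⟨a, ha, ha1, fun v hv hv1 => ?_⟩
      rcases h0 v hv hv1 with h1 | h1
      · exact h1
      · rw [h1, hb1] at hv1
        exact absurd hv1.symm h12
    · refine ⟨b, hb, hb1, fun v hv hv1 => ?_⟩
      rcases h0 v hv hv1 with h1 | h1
      · rw [h1, ha1] at hv1
        exact absurd hv1 h12
      · exact h1
  have key : ∀ (atx : ℕ → ℕ) (c : ZMod 3), (c = 1 ∨ c = -1) →
      (∀ j (hj : j < 8), (At tb K y (atx (er tb r j)) ↔ tm y (D m) (vx j hj) = c) ∧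
        atx (er tb r j) < 608) →
      ∀ S, S = orr (fun j => bi (atx (er tb r j))) 8 → ∀ T F ok' cf,
        side tb S r T F ok' cf = true → Res (At tb K y) T F ok' cf := by
    intro atx c hc ha S hS T F ok' cf hs
    have hS' : ∀ a, S.testBit a = true → ∃ j, ∃ _ : j < 8, atx (er tb r j) = a := by
      intro a h1
      rw [hS, orr_test] at h1
      obtain ⟨j, hj, h2⟩ := h1
      rw [bi_test, decide_eq_true_eq] at h2
      exact ⟨j, hj, h2⟩
    refine side_res hr tT tF ?_ ?_ ?_ hs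
    · intro a h1
      obtain ⟨j, hj, rfl⟩ := hS' a h1
      exact (ha j hj).2
    · intro a b h1 h2 h3 h4
      obtain ⟨i, hi, rfl⟩ := hS' a h1
      obtain ⟨j, hj, rfl⟩ := hS' b h2
      have e1 := (ha i hi).1.1 h3
      have e2 := (ha j hj).1.1 h4
      have hK : D m ∈ K := tm_zero h h5' (hvx i hi).2.1 (by rw [e1]; exact hne c hc)
      obtain ⟨v0, _, _, hv0⟩ := uniq c hc hK
      have e3 := (hv0 _ (hvx i hi).2.1 e1).trans (hv0 _ (hvx j hj).2.1 e2).symm
      rw [hinj i hi j hj e3]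
    · intro h1
      obtain ⟨v0, h2, h3, _⟩ := uniq c hc (hatR.1 h1)
      obtain ⟨j, hj, h4⟩ := hcov v0 h2 (by rw [h3]; exact hne c hc)
      refine ⟨atx (er tb r j), ?_, (ha j hj).1.2 (by rw [h4, h3])⟩
      rw [hS, orr_test]
      exact ⟨j, hj, by rw [bi_test]; exact decide_eq_true rfl⟩
  unfold ruR at hh
  rw [fo_eq] at hh
  refine Res_trans (key atp 1 (Or.inl rfl) (fun j hj => ⟨(hvx j hj).2.2.1, (hvx j hj).2.2.2.2.1⟩)
    _ h7' _ _ _ _ hh) fun T' F' h' => ?_
  rw [fo_eq] at h'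
  exact key atn (-1) (Or.inr rfl) (fun j hj => ⟨(hvx j hj).2.2.2.1, (hvx j hj).2.2.2.2.2⟩)
    _ h8' _ _ _ _ h'

end

end H23.LZ.Ck.Rid
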