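import Pool.Agent.H23.LZ.CkD

/-!
# Soundness of the interpreter of certificates
-/

namespace H23.LZ.Ck

/-- the claim proved by a successful run -/
def Snd (A : ℕ → Prop) (ih : ℕ → List ℕ → ℕ → ℕ → (ℕ → List ℕ → Bool) → Bool) : Prop :=
  ∀ c l T F k, ih c l T F k = true → (∃ c' l', k c' l' = true) ∧ ¬ Sat A T F

theorem Snd.res {A : ℕ → Prop} {ih : ℕ → List ℕ → ℕ → ℕ → (ℕ → List ℕ → Bool) → Bool}
    (HI : Snd A ih) {c : ℕ} {l : List ℕ} {T F : ℕ} {k : ℕ → List ℕ → Bool}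
    (h : Res A T F (fun T' F' => ih c l T' F' k) (k c l)) :
    (∃ c' l', k c' l' = true) ∧ ¬ Sat A T F := by
  rcases h with ⟨h1, h2⟩ | ⟨T', F', h1, h2⟩
  · exact ⟨⟨c, l, h1⟩, h2⟩
  · obtain ⟨h3, h4⟩ := HI _ _ _ _ _ h1
    exact ⟨h3, fun hs => h4 (h2 hs)⟩

theorem asT_syn {tb : Tab} {a T F : ℕ} {ok : ℕ → ℕ → Bool} {cf : Bool}
    (h : asT tb a T F ok cf = true) : cf = true ∨ ∃ T' F', ok T' F' = true := by
  unfold asT at h
  rw [fo_eq, fo_eq, ic_eq] at h
  split_ifs at h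
  · exact Or.inr ⟨_, _, h⟩
  · exact Or.inl h

theorem asF_syn {tb : Tab} {a T F : ℕ} {ok : ℕ → ℕ → Bool} {cf : Bool}
    (h : asF tb a T F ok cf = true) : cf = true ∨ ∃ T' F', ok T' F' = true := by
  unfold asF at h
  rw [fo_eq, ic_eq] at h
  split_ifs at h
  · exact Or.inr ⟨_, _, h⟩
  · exact Or.inl h

theorem ic_false {c a : Bool} (h : ic c a false = true) : c = true ∧ a = true := by
  cases c
  · exact absurd h (by simp [ic])
  · exact ⟨rfl, h⟩

theorem blt_lt {a b : ℕ} (h : Nat.blt a b = true) : a < b := by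
  simpa [Nat.blt_eq] using h

section

variable {tb : Tab} {A : ℕ → Prop} (hR : Rules tb A) {xt xf nx : ℕ}
  (hX : ∀ j < nx, ¬ Sat A (row xt j) (row xf j))
  {ih : ℕ → List ℕ → ℕ → ℕ → (ℕ → List ℕ → Bool) → Bool} (HI : Snd A ih)
  {d c : ℕ} {l : List ℕ} {T F : ℕ} {k : ℕ → List ℕ → Bool}

include hR HI

theorem iR_snd (h : iR tb ih d l T F k = true) : (∃ c' l', k c' l' = true) ∧ ¬ Sat A T F := by
  unfold iR at h
  rw [fo_eq, fo_eq] at h
  obtain ⟨h1, h2⟩ := ic_false h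
  exact HI.res (hR.R _ (blt_lt h1) _ _ _ _ h2)

theorem iN5_snd (h : iN5 tb ih d l T F k = true) : (∃ c' l', k c' l' = true) ∧ ¬ Sat A T F := by
  unfold iN5 at h
  rw [fo_eq, fo_eq] at h
  obtain ⟨h1, h2⟩ := ic_false h
  exact HI.res (hR.N5 _ (blt_lt h1) _ _ _ _ h2)

theorem iN6_snd (h : iN6 tb ih d l T F k = true) : (∃ c' l', k c' l' = true) ∧ ¬ Sat A T F := by
  unfold iN6 at h
  rw [fo_eq, fo_eq] at h
  obtain ⟨h1, h2⟩ := ic_false h
  exact HI.res (hR.N6 _ (blt_lt h1) _ _ _ _ h2)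

theorem iQ_snd (h : iQ tb ih d l T F k = true) : (∃ c' l', k c' l' = true) ∧ ¬ Sat A T F := by
  unfold iQ at h
  rw [fo_eq, fo_eq, fo_eq, fo_eq, fo_eq] at h
  obtain ⟨h1, h2⟩ := ic_false h
  exact HI.res (hR.Q _ (blt_lt h1) _ _ _ _ _ _ h2)

theorem iS6_snd (h : iS6 tb ih d l T F k = true) : (∃ c' l', k c' l' = true) ∧ ¬ Sat A T F := by
  unfold iS6 at h
  rw [fo_eq, fo_eq, fo_eq, fo_eq] at h
  obtain ⟨h1, h2⟩ := ic_false h
  obtain ⟨h3, h4⟩ := ic_false h2
  generalize Nat.mod d 512 = f at *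
  generalize Nat.mod (Nat.shiftRight d 9) 262144 = m at *
  generalize Nat.shiftRight d 27 = c at *
  have h5 : m &&& (e18 tb.r6 f ^^^ m) = 0 := Nat.eq_of_beq_eq_true h3
  refine HI.res (hR.S6 f (blt_lt h1) m (e18 tb.r6 f ^^^ m) h5 ?_ _ _ _ _ h4)
  apply Nat.eq_of_testBit_eq
  intro i
  have h6 : (m &&& (e18 tb.r6 f ^^^ m)).testBit i = false := by rw [h5, Nat.zero_testBit]
  rw [Nat.testBit_and, Nat.testBit_xor] at h6
  rw [Nat.testBit_or, Nat.testBit_xor]
  revert h6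
  cases m.testBit i <;> cases (e18 tb.r6 f).testBit i <;> simp

theorem kF_snd {a : ℕ} (ha : a < 944) (hn : Sat A T F → ¬ A a)
    (h : kF tb ih T F k a c l = true) : ¬ Sat A T F := by
  unfold kF at h
  exact (HI.res (hR.tF a ha _ _ _ _ hn h)).2

theorem kT_snd {a : ℕ} (ha : a < 944) (hn : Sat A T F → A a)
    (h : kT tb ih T F k a c l = true) : ¬ Sat A T F := by
  unfold kT at h
  exact (HI.res (hR.tT a ha _ _ _ _ hn h)).2

omit hR in
theorem kF_syn {a : ℕ} (h : kF tb ih T F k a c l = true) : ∃ c' l', k c' l' = true := by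
  unfold kF at h
  rcases asF_syn h with h | ⟨T', F', h⟩
  · exact ⟨_, _, h⟩
  · exact (HI _ _ _ _ _ h).1

omit hR in
theorem kT_syn {a : ℕ} (h : kT tb ih T F k a c l = true) : ∃ c' l', k c' l' = true := by
  unfold kT at h
  rcases asT_syn h with h | ⟨T', F', h⟩
  · exact ⟨_, _, h⟩
  · exact (HI _ _ _ _ _ h).1

theorem iL_snd (h : iL tb ih d l T F k = true) : (∃ c' l', k c' l' = true) ∧ ¬ Sat A T F := by
  unfold iL at h
  rw [fo_eq, fo_eq] at h
  obtain ⟨h1, h2⟩ := ic_false h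
  generalize Nat.mod d 1024 = a at *
  generalize Nat.shiftRight d 11 = c at *
  have ha := blt_lt h1
  rw [ic_eq] at h2
  split_ifs at h2
  · -- first the case `a` true
    have h3 : ∃ c' l', kF tb ih T F k a c' l' = true := by
      rcases asT_syn h2 with h3 | ⟨T', F', h3⟩
      · exact ⟨_, _, h3⟩
      · exact (HI _ _ _ _ _ h3).1
    obtain ⟨c', l', h3⟩ := h3
    refine ⟨kF_syn HI h3, fun hs => ?_⟩
    by_cases hA : A a
    · exact (HI.res (hR.tT a ha _ _ _ _ (fun _ => hA) h2)).2 hs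
    · exact kF_snd hR HI ha (fun _ => hA) h3 hs
  · have h3 : ∃ c' l', kT tb ih T F k a c' l' = true := by
      rcases asF_syn h2 with h3 | ⟨T', F', h3⟩
      · exact ⟨_, _, h3⟩
      · exact (HI _ _ _ _ _ h3).1
    obtain ⟨c', l', h3⟩ := h3
    refine ⟨kT_syn HI h3, fun hs => ?_⟩
    by_cases hA : A a
    · exact kT_snd hR HI ha (fun _ => hA) h3 hs
    · exact (HI.res (hR.tF a ha _ _ _ _ (fun _ => hA) h2)).2 hs

omit hR in
theorem iE_snd (h : iE ih l T F k = true) : (∃ c' l', k c' l' = true) ∧ ¬ Sat A T F := by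
  cases l with
  | nil => exact absurd h (by simp [iE])
  | cons c l => exact HI _ _ _ _ _ h

include hX

theorem iO_snd (h : iO tb xt xf nx ih d l T F k = true) :
    (∃ c' l', k c' l' = true) ∧ ¬ Sat A T F := by
  unfold iO at h
  rw [ic_eq] at h
  split_ifs at h
  · rw [fo_eq, fo_eq] at h
    obtain ⟨h1, h2⟩ := ic_false h
    exact HI.res (hR.C1 _ (blt_lt h1) _ _ _ _ h2)
  rw [ic_eq] at h
  split_ifs at h
  · rw [fo_eq, fo_eq] at h
    obtain ⟨h1, h2⟩ := ic_false h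
    obtain ⟨h3, h4⟩ := ic_false h2
    obtain ⟨h5, h6⟩ := ic_false h4
    generalize Nat.mod (Nat.shiftRight d 2) 1024 = j at *
    have h7 : row xt j &&& T = row xt j := Nat.eq_of_beq_eq_true h3
    have h8 : row xf j &&& F = row xf j := Nat.eq_of_beq_eq_true h5
    refine ⟨⟨_, _, h6⟩, fun hs => hX j (blt_lt h1) ⟨fun i hi => hs.1 i ?_, fun i hi => hs.2 i ?_⟩⟩
    · rw [← h7, Nat.testBit_and, Bool.and_eq_true] at hi
      exact hi.2
    · rw [← h8, Nat.testBit_and, Bool.and_eq_true] at hi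
      exact hi.2
  · rw [fo_eq, fo_eq] at h
    obtain ⟨h1, h2⟩ := ic_false h
    exact HI.res (hR.C0 _ (blt_lt h1) _ _ _ _ h2)

theorem step_snd (h : step tb xt xf nx ih l T F k c = true) :
    (∃ c' l', k c' l' = true) ∧ ¬ Sat A T F := by
  unfold step at h
  rw [fo_eq, fo_eq] at h
  rw [ic_eq] at h
  split_ifs at h
  · exact iR_snd hR HI h
  rw [ic_eq] at h
  split_ifs at h
  · exact iS6_snd hR HI h
  rw [ic_eq] at h
  split_ifs at h
  · exact iL_snd hR HI h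
  rw [ic_eq] at h
  split_ifs at h
  · exact iQ_snd hR HI h
  rw [ic_eq] at h
  split_ifs at h
  · exact iN5_snd hR HI h
  rw [ic_eq] at h
  split_ifs at h
  · exact iN6_snd hR HI h
  rw [ic_eq] at h
  split_ifs at h
  · exact iO_snd hR hX HI h
  · exact iE_snd HI h

end

theorem run_sound {tb : Tab} {A : ℕ → Prop} (hR : Rules tb A) {xt xf nx : ℕ}
    (hX : ∀ j < nx, ¬ Sat A (row xt j) (row xf j)) (n : ℕ) : Snd A (run tb xt xf nx n) := by
  induction n with
  | zero => intro c l T F k h; exact absurd h (by simp [run])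
  | succ n ihn =>
    intro c l T F k h
    change step tb xt xf nx (run tb xt xf nx n) l T F k c = true at h
    exact step_snd hR hX ihn h

theorem check_sound {tb : Tab} {A : ℕ → Prop} (hR : Rules tb A) {xt xf nx : ℕ}
    (hX : ∀ j < nx, ¬ Sat A (row xt j) (row xf j)) {cert : List ℕ} {T F : ℕ}
    (h : check tb xt xf nx cert T F = true) : ¬ Sat A T F :=
  (run_sound hR hX 1000000 _ _ _ _ _ h).2

end H23.LZ.Ck
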