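import Pool.Agent.H23.LZ.Smith

/-!
# The fundamental cycle and its invariance

The antipode acts trivially on the top homology (a descent over the integers), hence there is a
fundamental cycle over `ZMod 3` which is invariant under all order three elements and under all
ninth roots of the antipode.
-/

namespace H23.LZ

open H40.VT

namespace Ort

open Sm

variable {N : ℕ} {R : Type*} [CommRing R]

theorem obd_add' (a b : Finset (Fin N) → R) : obd (a + b) = obd a + obd b :=
  (ordB (R := R) (N := N)).map_add a b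

theorem obd_sub' (a b : Finset (Fin N) → R) : obd (a - b) = obd a - obd b :=
  (ordB (R := R) (N := N)).map_sub a b

theorem obd_zero' : obd (0 : Finset (Fin N) → R) = 0 :=
  (ordB (R := R) (N := N)).map_zero

theorem obd_smul' (r : R) (a : Finset (Fin N) → R) : obd (r • a) = r • obd a :=
  (ordB (R := R) (N := N)).map_smul r a

theorem OIn_add {L : Finset (Finset (Fin N))} {n : ℕ} {a b : Finset (Fin N) → R}
    (ha : OIn L n a) (hb : OIn L n b) : OIn L n (a + b) := by
  intro σ h
  by_cases h1 : a σ = 0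
  · refine hb σ fun h2 => h ?_
    rw [Pi.add_apply, h1, h2, add_zero]
  · exact ha σ h1

theorem OIn_smul {L : Finset (Finset (Fin N))} {n : ℕ} (r : R) {a : Finset (Fin N) → R}
    (ha : OIn L n a) : OIn L n (r • a) := by
  intro σ h
  refine ha σ fun h2 => h ?_
  rw [Pi.smul_apply, h2, smul_zero]

theorem OIn_sub {L : Finset (Finset (Fin N))} {n : ℕ} {a b : Finset (Fin N) → R}
    (ha : OIn L n a) (hb : OIn L n b) : OIn L n (a - b) := by
  intro σ h
  by_cases h1 : a σ = 0
  · refine hb σ fun h2 => h ?_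
    rw [Pi.sub_apply, h1, h2, sub_zero]
  · exact ha σ h1

theorem OIn_obd {L : Finset (Finset (Fin N))} {n : ℕ} {c : Finset (Fin N) → R} (hL : DC L)
    (hc : OIn L (n + 1) c) : OIn L n (obd c) := by
  intro τ h
  rw [obd] at h
  obtain ⟨v, hv, h1⟩ := Finset.exists_ne_zero_of_sum_ne_zero h
  obtain ⟨h2, h3⟩ := hc (insert v τ) (right_ne_zero_of_mul h1)
  refine ⟨hL _ h2 _ (Finset.subset_insert v τ), ?_⟩
  rw [Finset.card_insert_of_notMem (Finset.mem_compl.1 hv)] at h3
  exact Nat.succ_injective h3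

theorem OIn_G {L : Finset (Finset (Fin N))} {n : ℕ} {c : Finset (Fin N) → R}
    {g : Equiv.Perm (Fin N)} (hL : ∀ σ ∈ L, σ.image g ∈ L) (hc : OIn L n c) :
    OIn L n (G g c) := by
  intro τ h
  rw [G_apply] at h
  obtain ⟨h1, h2⟩ := hc _ (right_ne_zero_of_mul h)
  have h3 := hL _ h1
  rw [im_symm_im] at h3
  refine ⟨h3, ?_⟩
  rw [← h2, Finset.card_image_of_injective _ g.symm.injective]

/-- composition of actions -/
theorem G_comp (g g' : Equiv.Perm (Fin N)) (c : Finset (Fin N) → R) :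
    G (g * g') c = G g (G g' c) := by
  have h : (G (g * g') : (Finset (Fin N) → R) →ₗ[R] (Finset (Fin N) → R)) =
      G g ∘ₗ G g' := by
    apply lin_ext
    intro l
    rw [LinearMap.comp_apply, G_phi, G_phi, G_phi, List.map_map]
    rfl
  rw [h]
  rfl

theorem G_one (c : Finset (Fin N) → R) : G (1 : Equiv.Perm (Fin N)) c = c := by
  have h : (G 1 : (Finset (Fin N) → R) →ₗ[R] (Finset (Fin N) → R)) = LinearMap.id := by
    apply lin_ext
    intro l
    rw [G_phi, LinearMap.id_apply]
    congr 1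
    exact List.map_id l
  rw [h]
  rfl

/-- the action on the image of a face -/
theorem G_image (g : Equiv.Perm (Fin N)) (c : Finset (Fin N) → R) (σ : Finset (Fin N)) :
    G g c (σ.image g) = (-1) ^ nv g σ * c σ := by
  have e : (σ.image g).image g.symm = σ := by
    rw [Finset.image_image]
    have e : (g.symm ∘ g : Fin N → Fin N) = id := by
      funext i
      exact g.symm_apply_apply i
    rw [e, Finset.image_id]
  rw [G_apply, e]

/-- a choice of one face in each antipodal pair -/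
noncomputable def sel (α : Equiv.Perm (Fin N)) (c : Finset (Fin N) → R) : Finset (Fin N) → R := by
  classical
  exact fun τ => if num τ < num (τ.image α) then c τ else 0

theorem OIn_sel {L : Finset (Finset (Fin N))} {n : ℕ} {c : Finset (Fin N) → R}
    (α : Equiv.Perm (Fin N)) (hc : OIn L n c) : OIn L n (sel α c) := by
  intro τ h
  unfold sel at h
  split_ifs at h with h1
  · exact hc τ h
  · exact absurd rfl h

/-- eigenchains of a free involution are induced -/
theorem split2 {L : Finset (Finset (Fin N))} {n : ℕ} {c : Finset (Fin N) → R}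
    {α : Equiv.Perm (Fin N)} (hα : ∀ i, α (α i) = i)
    (hf : ∀ σ ∈ L, σ.card = n → σ.image α ≠ σ)
    (hc : OIn L n c) {ε : R} (hG : G α c = ε • c) (hε : ε * ε = 1) :
    c = sel α c + ε • G α (sel α c) := by
  classical
  have hs : α.symm = α := by
    apply Equiv.ext
    intro i
    rw [Equiv.symm_apply_eq, hα]
  have hi : ∀ τ : Finset (Fin N), (τ.image α).image α = τ := by
    intro τ
    have := im_symm_im (g := α) τ
    rwa [hs] at this
  funext τ
  by_cases h0 : c τ = 0
  · -- the other face is zero as well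
    have h1 : c (τ.image α) = 0 := by
      have h2 := congrFun hG (τ.image α)
      rw [G_image, h0, mul_zero, Pi.smul_apply, smul_eq_mul] at h2
      have h3 : ε * (ε * c (τ.image α)) = 0 := by rw [← h2, mul_zero]
      rw [← mul_assoc, hε, one_mul] at h3
      exact h3
    have h4 : sel α c τ = 0 := by
      unfold sel
      rw [h0, ite_self]
    have h5 : sel α c (τ.image α) = 0 := by
      unfold sel
      rw [h1, ite_self]
    rw [Pi.add_apply, Pi.smul_apply, G_apply, hs, h4, h5, h0, mul_zero, smul_zero, add_zero]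
  · obtain ⟨k1, k2⟩ := hc τ h0
    have k3 := hf τ k1 k2
    have h2 := congrFun hG τ
    rw [G_apply, hs, Pi.smul_apply, smul_eq_mul] at h2
    rw [Pi.add_apply, Pi.smul_apply, G_apply, hs, smul_eq_mul]
    have k4 : num (τ.image α) ≠ num τ := fun e => k3 (num_inj e)
    rcases lt_or_gt_of_ne k4 with h | h
    · have h4 : sel α c τ = 0 := by
        unfold sel
        rw [if_neg (by omega)]
      have h5 : sel α c (τ.image α) = c (τ.image α) := by
        unfold sel
        rw [hi, if_pos h]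
      rw [h4, h5, h2, ← mul_assoc, hε, one_mul, zero_add]
    · have h4 : sel α c τ = c τ := by
        unfold sel
        rw [if_pos h]
      have h5 : sel α c (τ.image α) = 0 := by
        unfold sel
        rw [hi, if_neg (by omega)]
      rw [h4, h5, mul_zero, mul_zero, add_zero]

theorem G_invol {α : Equiv.Perm (Fin N)} (hα : ∀ i, α (α i) = i) (c : Finset (Fin N) → R) :
    G α (G α c) = c := by
  rw [← G_comp]
  have : α * α = 1 := by
    ext i
    exact congrArg Fin.val (hα i)
  rw [this, G_one]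

theorem G_empty_apply (g : Equiv.Perm (Fin N)) (c : Finset (Fin N) → R) : G g c ∅ = c ∅ := by
  have e : nv g ∅ = 0 := by
    unfold nv
    simp
  rw [G_apply, Finset.image_empty, e, pow_zero, one_mul]

/-- the descent -/
theorem descent (h2 : ∀ r : R, r + r = 0 → r = 0) {L : Finset (Finset (Fin N))} (hL : DC L)
    {α : Equiv.Perm (Fin N)} (hα : ∀ i, α (α i) = i)
    (hf : ∀ σ ∈ L, σ.Nonempty → σ.image α ≠ σ) (hi : ∀ σ ∈ L, σ.image α ∈ L)
    (n : ℕ) (hacy : ∀ m, 1 ≤ m → m ≤ n → OAcy R L m) :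
    ∀ ε : R, ε = (-1) ^ n → ∀ u : Finset (Fin N) → R, OIn L (n + 1) u →
      obd (u + ε • G α u) = 0 →
      ∃ t : Finset (Fin N) → R, OIn L (n + 1) t ∧ obd (u - (t - ε • G α t)) = 0 := by
  induction n with
  | zero =>
    intro ε hε u hu h
    rw [pow_zero] at hε
    subst hε
    refine ⟨0, fun σ h => absurd rfl h, ?_⟩
    rw [map_zero, smul_zero, sub_zero, sub_zero]
    have h1 : OIn L 0 (obd u) := OIn_obd hL hu
    rw [one_smul, obd_add', G_obd] at h
    funext τ
    by_contra hne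
    have h4 := h1 τ hne
    have h3 : τ = ∅ := Finset.card_eq_zero.1 h4.2
    subst h3
    have h5 := congrFun h ∅
    rw [Pi.add_apply, G_empty_apply] at h5
    exact hne (h2 _ h5)
  | succ n ih =>
    intro ε hε u hu h
    have hw : OIn L (n + 1) (obd u) := OIn_obd hL hu
    have hεε : ε * ε = 1 := by
      rw [hε, ← pow_add, ← two_mul, pow_mul, neg_one_sq, one_pow]
    have hε' : -ε = (-1) ^ n := by
      rw [hε, pow_succ]
      ring
    have hεε' : (-ε) * (-ε) = 1 := by rw [neg_mul_neg, hεε]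
    rw [obd_add', obd_smul', G_obd] at h
    have hG : G α (obd u) = (-ε) • obd u := by
      have h3 : ε • (obd u + ε • G α (obd u)) = 0 := by rw [h, smul_zero]
      rw [smul_add, smul_smul, hεε, one_smul] at h3
      rw [neg_smul]
      exact eq_neg_of_add_eq_zero_right h3
    have hs := split2 hα (fun σ hσ hc => hf σ hσ (by
      rw [← Finset.card_pos, hc]
      exact Nat.succ_pos n)) hw hG hεε'
    obtain ⟨u', hu'⟩ : ∃ u', u' = sel α (obd u) := ⟨_, rfl⟩
    rw [← hu'] at hs
    have hu'1 : OIn L (n + 1) u' := hu' ▸ OIn_sel α hw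
    obtain ⟨t', ht', ht2⟩ := ih (fun m h1 h2 => hacy m h1 (by omega)) (-ε) hε' u' hu'1 (by
      rw [← hs, obd_obd])
    obtain ⟨v', hv', hv2⟩ := hacy (n + 1) (by omega) le_rfl _
      (OIn_sub hu'1 (OIn_sub ht' (OIn_smul _ (OIn_G hi ht')))) ht2
    refine ⟨v', hv', ?_⟩
    have h6 : u' = obd v' + (t' - (-ε) • G α t') := by rw [hv2, sub_add_cancel]
    have h7 : G α u' = obd (G α v') + (G α t' - (-ε) • t') := by
      rw [h6, map_add, map_sub, map_smul, G_invol hα, G_obd]
    rw [obd_sub', obd_sub', obd_smul', hs, h7, h6]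
    have h8 : (-ε) • ((-ε) • t') = t' := by rw [smul_smul, hεε', one_smul]
    rw [smul_add, smul_sub, h8]
    simp only [neg_smul]
    abel

end Ort

open Ort Sm

variable {K : Finset (Finset (Fin 18))} {α : Equiv.Perm (Fin 18)}

/-- an automorphism acts on a fundamental cycle by a scalar -/
theorem act_scalar {R : Type*} [CommRing R] (h : Sph 6 K) {z y : Finset (Fin 18) → R}
    (hz2 : ∀ c : Finset (Fin 18) → R, OIn K 6 c → obd c = 0 → ∃ r : R, ∃ b, OIn K (6 + 1) b ∧
      obd b = c - r • z) (hy : OIn K 6 y) (hy0 : obd y = 0) : ∃ r : R, y = r • z := by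
  obtain ⟨r, b, hb, hb2⟩ := hz2 y hy hy0
  refine ⟨r, ?_⟩
  have hb0 : b = 0 := by
    funext σ
    by_contra hne
    obtain ⟨h1, h3⟩ := hb σ hne
    have h4 := sphere_card h.1 h.2.1 h.2.2 h1
    omega
  rw [hb0, obd_zero'] at hb2
  exact (sub_eq_zero.1 hb2.symm)

/-- the antipode preserves the integral fundamental cycle -/
theorem anti_one (h : Hyp K α) {z : Finset (Fin 18) → ℤ} (hz : OIn K 6 z) (hz0 : obd z = 0)
    (hz1 : ∀ r : ℤ, ∀ b, OIn K (6 + 1) b → obd b = r • z → r = 0)
    (hz2 : ∀ c : Finset (Fin 18) → ℤ, OIn K 6 c → obd c = 0 → ∃ r : ℤ, ∃ b, OIn K (6 + 1) b ∧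
      obd b = c - r • z) : G α z = z := by
  obtain ⟨hK, h0, hh⟩ := h.sph
  have hi : ∀ σ ∈ K, σ.image α ∈ K := fun σ hσ => (h.alK σ).1 hσ
  have hf : ∀ σ ∈ K, σ.Nonempty → σ.image α ≠ σ := by
    rintro σ hσ ⟨i, hiσ⟩ e
    refine h.noa σ hσ i hiσ ?_
    rw [← e]
    exact Finset.mem_image_of_mem _ hiσ
  have hne : ∀ r : ℤ, r • z = 0 → r = 0 := fun r hr =>
    hz1 r 0 (fun σ h => absurd rfl h) (by rw [obd_zero', hr])
  obtain ⟨r, hr⟩ := act_scalar h.sph hz2 (OIn_G hi hz) (by rw [G_obd, hz0, map_zero])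
  have hrr : r * r = 1 := by
    have h1 : G α (G α z) = z := G_invol h.inv z
    rw [hr, map_smul, hr, smul_smul] at h1
    have h3 : (r * r - 1) • z = 0 := by rw [sub_smul, one_smul, h1, sub_self]
    have h4 := hne _ h3
    linarith
  rcases mul_self_eq_one_iff.1 hrr with h1 | h1
  · rw [hr, h1, one_smul]
  · exfalso
    subst h1
    have hacy : ∀ m, 1 ≤ m → m ≤ 5 → OAcy ℤ K m := by
      intro m _ hm
      have h1 := link_acy (R := ℤ) hK h0 hh h0 (n := m) (by
        rw [Finset.card_empty]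
        omega)
      rwa [lk_empty] at h1
    have hs := split2 h.inv (fun σ hσ hc => hf σ hσ (by
      rw [← Finset.card_pos, hc]
      norm_num)) hz hr (by norm_num)
    obtain ⟨u, hu⟩ : ∃ u, u = sel α z := ⟨_, rfl⟩
    rw [← hu] at hs
    have hu1 : OIn K 6 u := hu ▸ OIn_sel α hz
    obtain ⟨t, ht, ht2⟩ := descent (R := ℤ) (fun r hr => by omega) hK h.inv hf hi 5 hacy (-1)
      (by norm_num) u hu1 (by rw [← hs, hz0])
    obtain ⟨r, hr2⟩ := act_scalar h.sph hz2 (OIn_sub hu1 (OIn_sub ht (OIn_smul _ (OIn_G hi ht))))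
      ht2
    have h6 : u = r • z + (t - (-1 : ℤ) • G α t) := by rw [← hr2, sub_add_cancel]
    have h7 : G α u = r • G α z + (G α t - (-1 : ℤ) • t) := by
      rw [h6, map_add, map_sub, map_smul, map_smul, G_invol h.inv]
    have h8 : (1 - 2 * r) • z = 0 := by
      have h9 : z = (2 * r) • z := by
        conv_lhs => rw [hs, h7, h6, hr]
        module
      rw [sub_smul, one_smul, ← h9, sub_self]
    have := hne _ h8
    omega

/-- **The invariant fundamental cycle.** -/
theorem orient (h : Hyp K α) : ∃ y : Finset (Fin 18) → ZMod 3,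
    (∀ σ, y σ ≠ 0 ↔ σ ∈ K ∧ σ.card = 6) ∧ obd y = 0 ∧
    (∀ σ, y (σ.image α) = (-1) ^ nv α σ * y σ) ∧
    (∀ g : Equiv.Perm (Fin 18), (∀ σ, σ ∈ K ↔ σ.image g ∈ K) → (∀ i, g (g (g i)) = i) →
      ∀ σ, y (σ.image g) = (-1) ^ nv g σ * y σ) ∧
    (∀ g : Equiv.Perm (Fin 18), (∀ σ, σ ∈ K ↔ σ.image g ∈ K) → g ^ 9 = α →
      ∀ σ, y (σ.image g) = (-1) ^ nv g σ * y σ) := by
  obtain ⟨hK, h0, hh⟩ := h.sph
  have hone : OOne ℤ K 6 := by
    have h1 := link_one (R := ℤ) hK h0 hh h0 (n := 6) (by simp)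
    rwa [lk_empty] at h1
  have hone3 : OOne (ZMod 3) K 6 := by
    have h1 := link_one (R := ZMod 3) hK h0 hh h0 (n := 6) (by simp)
    rwa [lk_empty] at h1
  obtain ⟨z, hz, hz0, hz1, hz2⟩ := hone
  obtain ⟨w, hw, hw0, hw1, hw2⟩ := hone3
  have hne : ∀ r : ℤ, r • z = 0 → r = 0 := fun r hr =>
    hz1 r 0 (fun σ h => absurd rfl h) (by rw [obd_zero', hr])
  have hanti := anti_one h hz hz0 hz1 hz2
  obtain ⟨y, hy⟩ : ∃ y : Finset (Fin 18) → ZMod 3, y = fun σ => ((z σ : ℤ) : ZMod 3) := ⟨_, rfl⟩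
  have hyG : ∀ g : Equiv.Perm (Fin 18), G g y = fun σ => ((G g z σ : ℤ) : ZMod 3) := by
    intro g
    funext σ
    rw [G_apply, G_apply, hy]
    push_cast
    rfl
  have hy6 : OIn K 6 y := by
    intro σ hσ
    refine hz σ fun h1 => hσ ?_
    rw [hy]
    simp only [h1, Int.cast_zero]
  have hy0 : obd y = 0 := by
    funext τ
    have h1 := congrFun hz0 τ
    have h2 := congrArg (Int.cast : ℤ → ZMod 3) h1
    rw [hy]
    unfold obd at h2 ⊢
    push_cast at h2
    exact h2
  obtain ⟨r, hr⟩ := act_scalar h.sph hw2 hy6 hy0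
  have hr0 : r ≠ 0 := by
    intro hr0
    rw [hr0, zero_smul] at hr
    have h1 : ∀ σ, (3 : ℤ) ∣ z σ := by
      intro σ
      have h2 := congrFun hr σ
      rw [hy] at h2
      exact (ZMod.intCast_zmod_eq_zero_iff_dvd _ _).1 h2
    choose v hv using h1
    have hzv : z = (3 : ℤ) • v := by
      funext σ
      rw [Pi.smul_apply, smul_eq_mul, ← hv]
    have hv6 : OIn K 6 v := by
      intro σ hσ
      refine hz σ fun h1 => hσ ?_
      have h2 := hv σ
      omega
    have hv0 : obd v = 0 := by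
      have h2 : (3 : ℤ) • obd v = 0 := by rw [← obd_smul', ← hzv, hz0]
      funext τ
      have h3 := congrFun h2 τ
      rw [Pi.smul_apply, smul_eq_mul, Pi.zero_apply] at h3
      rw [Pi.zero_apply]
      omega
    obtain ⟨r', hr'⟩ := act_scalar h.sph hz2 hv6 hv0
    have h4 : (1 - 3 * r') • z = 0 := by
      rw [sub_smul, one_smul, mul_smul, ← hr', ← hzv, sub_self]
    have := hne _ h4
    omega
  have hsupp : ∀ σ, y σ ≠ 0 ↔ σ ∈ K ∧ σ.card = 6 := by
    intro σ
    refine ⟨fun hσ => hy6 σ hσ, fun hσ => ?_⟩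
    rw [hr, Pi.smul_apply, smul_eq_mul]
    exact mul_ne_zero hr0 (z_ne h.sph hw hw0 hw1 hσ.1 hσ.2)
  have hyne : ∀ s : ZMod 3, s • y = 0 → s = 0 := by
    intro s hs
    rw [hr, smul_smul] at hs
    have h1 := hw1 (s * r) 0 (fun σ h => absurd rfl h) (by rw [obd_zero', hs])
    rcases mul_eq_zero.1 h1 with h2 | h2
    · exact h2
    · exact absurd h2 hr0
  -- every automorphism acts by a scalar
  have hscal : ∀ g : Equiv.Perm (Fin 18), (∀ σ, σ ∈ K ↔ σ.image g ∈ K) →
      ∃ s : ZMod 3, G g y = s • y := by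
    intro g hg
    obtain ⟨s, hs⟩ := act_scalar h.sph hw2 (OIn_G (g := g) (fun σ hσ => (hg σ).1 hσ) hy6)
      (by rw [G_obd, hy0, map_zero])
    refine ⟨s * r⁻¹, ?_⟩
    rw [hs, hr, smul_smul, mul_assoc, inv_mul_cancel₀ hr0, mul_one]
  have hα : G α y = y := by
    rw [hyG, hanti, hy]
  have fin : ∀ g : Equiv.Perm (Fin 18), G g y = y → ∀ σ, y (σ.image g) = (-1) ^ nv g σ * y σ := by
    intro g hg σ
    rw [← G_image, hg]
  have hpow : ∀ g : Equiv.Perm (Fin 18), ∀ s : ZMod 3, G g y = s • y → ∀ n : ℕ,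
      G (g ^ n) y = s ^ n • y := by
    intro g s hs n
    induction n with
    | zero => rw [pow_zero, pow_zero, one_smul, G_one]
    | succ n ih => rw [pow_succ', G_comp, ih, map_smul, hs, smul_smul, pow_succ]
  have h3 : ∀ s : ZMod 3, s ^ 3 = s := by decide
  have h9 : ∀ s : ZMod 3, s ^ 9 = s := by decide
  refine ⟨y, hsupp, hy0, fin α hα, ?_, ?_⟩
  · intro g hg hg3
    obtain ⟨s, hs⟩ := hscal g hg
    have h1 := hpow g s hs 3
    have hg3' : g ^ 3 = 1 := by
      apply Equiv.ext
      intro i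
      exact hg3 i
    rw [hg3', G_one, h3] at h1
    exact fin g (hs.trans h1.symm)
  · intro g hg hg9
    obtain ⟨s, hs⟩ := hscal g hg
    have h1 := hpow g s hs 9
    rw [hg9, hα, h9] at h1
    exact fin g (hs.trans h1.symm)

end H23.LZ
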