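import Pool.Agent.H23.LZ.Ck
import Pool.Agent.H23.LZ.Orient
import Pool.Agent.H53.AEG.Glue

/-!
# Semantics of the checker
-/

namespace H23.LZ.Ck

open H40.VT

/-- vertex set of a mask -/
def D (m : ℕ) : Finset (Fin 18) := Finset.univ.filter fun i => m.testBit i

/-- the group element `s` -/
def gf (tb : Tab) (s : ℕ) (i : Fin 18) : Fin 18 :=
  Fin.ofNat 18 (Nat.mod (Nat.shiftRight tb.gp (Nat.mul 5 (Nat.add (Nat.mul 18 s) i))) 32)

/-- inversions of a map on a set -/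
def ivn (g : Fin 18 → Fin 18) (ρ : Finset (Fin 18)) : ℕ :=
  ((ρ ×ˢ ρ).filter fun p => p.1 < p.2 ∧ g p.2 < g p.1).card

/-- the complex, with a group of order 18 and its invariant fundamental cycle over `F_3` -/
structure Good (tb : Tab) (K : Finset (Finset (Fin 18))) (y : Finset (Fin 18) → ZMod 3) : Prop where
  hyp : Hyp K Pool.Agent.H53.AEG.α9
  inv : ∀ s < 18, ∀ σ : Finset (Fin 18), σ.image (gf tb s) ∈ K ↔ σ ∈ K
  yK : ∀ σ, y σ ≠ 0 ↔ σ ∈ K ∧ σ.card = 6
  yb : obd y = 0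
  yg : ∀ s < 18, ∀ σ, y (σ.image (gf tb s)) = (-1) ^ ivn (gf tb s) σ * y σ

/-- the meaning of the atoms -/
def At (tb : Tab) (K : Finset (Finset (Fin 18))) (y : Finset (Fin 18) → ZMod 3) (i : ℕ) : Prop :=
  if i < 304 then i < tb.nf ∧ y (D (e18 tb.r6 i)) = 1
  else if i < 608 then i - 304 < tb.nf ∧ y (D (e18 tb.r6 (i - 304))) = -1
  else if i < 832 then D (e18 tb.r5 (i - 608)) ∈ K
  else i < 944 ∧ D (e18 tb.r4 (i - 832)) ∈ K

/-- the state `T`, `F` is correct for the valuation `A` -/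
def Sat (A : ℕ → Prop) (T F : ℕ) : Prop :=
  (∀ i, T.testBit i = true → A i) ∧ ∀ i, F.testBit i = true → ¬ A i

/-- what a sound rule may do -/
def Res (A : ℕ → Prop) (T F : ℕ) (ok : ℕ → ℕ → Bool) (cf : Bool) : Prop :=
  (cf = true ∧ ¬ Sat A T F) ∨ ∃ T' F', ok T' F' = true ∧ (Sat A T F → Sat A T' F')

theorem fo_eq (x : ℕ) (k : ℕ → Bool) : fo x k = k x := rfl

theorem ic_eq (c a b : Bool) : ic c a b = if c = true then a else b := by
  cases c <;> rfl

theorem lgs_eq (n u b : ℕ) (hu : u < 2 ^ (n + n)) (hn : n ≠ 0) : ∃ u' b',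
    (∀ k, lgs n u b k = k u' b') ∧ u' < 2 ^ n ∧ b' + Nat.log2 u' = b + Nat.log2 u := by
  by_cases h : u >>> n = 0
  · refine ⟨u, b, fun k => ?_, ?_, rfl⟩
    · unfold lgs
      change ic (Nat.beq (u >>> n) 0) _ _ = _
      rw [h]
      rfl
    · rw [Nat.shiftRight_eq_div_pow] at h
      exact (Nat.div_eq_zero_iff_lt (by positivity)).1 h
  · refine ⟨u >>> n, b + n, fun k => ?_, ?_, ?_⟩
    · unfold lgs
      change ic (Nat.beq (u >>> n) 0) _ (k (u >>> n) (b + n)) = _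
      rw [ic_eq, if_neg]
      intro h1
      exact h (Nat.eq_of_beq_eq_true h1)
    · rw [Nat.shiftRight_eq_div_pow, Nat.div_lt_iff_lt_mul (by positivity), ← pow_add]
      exact hu
    · have hu0 : u ≠ 0 := by
        rintro rfl
        exact h (Nat.zero_shiftRight n)
      have h1 : Nat.log2 u = Nat.log2 (u >>> n) + n := by
        rw [Nat.log2_eq_iff hu0]
        have h2 := Nat.log2_self_le h
        have h3 : u >>> n < 2 ^ (Nat.log2 (u >>> n) + 1) := Nat.lt_log2_self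
        rw [Nat.shiftRight_eq_div_pow] at h2 h3 ⊢
        constructor
        · rw [pow_add]
          exact le_trans (Nat.mul_le_mul_right _ h2) (Nat.div_mul_le_self _ _)
        · rw [Nat.div_lt_iff_lt_mul (by positivity)] at h3
          refine lt_of_lt_of_eq h3 ?_
          rw [← pow_add]
          congr 1
          omega
      rw [h1]
      omega

theorem lg_eq (u : ℕ) (k : ℕ → Bool) : lg u k = k (Nat.log2 u) := by
  unfold lg
  rw [ic_eq]
  split_ifs with h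
  · have h0 : u >>> 1024 = 0 := Nat.eq_of_beq_eq_true h
    rw [Nat.shiftRight_eq_div_pow] at h0
    have h0' : u < 2 ^ (512 + 512) := (Nat.div_eq_zero_iff_lt (by positivity)).1 h0
    obtain ⟨u1, b1, e1, h1, g1⟩ := lgs_eq 512 u 0 h0' (by norm_num)
    obtain ⟨u2, b2, e2, h2, g2⟩ := lgs_eq 256 u1 b1 h1 (by norm_num)
    obtain ⟨u3, b3, e3, h3, g3⟩ := lgs_eq 128 u2 b2 h2 (by norm_num)
    obtain ⟨u4, b4, e4, h4, g4⟩ := lgs_eq 64 u3 b3 h3 (by norm_num)
    obtain ⟨u5, b5, e5, h5, g5⟩ := lgs_eq 32 u4 b4 h4 (by norm_num)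
    obtain ⟨u6, b6, e6, h6, g6⟩ := lgs_eq 16 u5 b5 h5 (by norm_num)
    obtain ⟨u7, b7, e7, h7, g7⟩ := lgs_eq 8 u6 b6 h6 (by norm_num)
    obtain ⟨u8, b8, e8, h8, g8⟩ := lgs_eq 4 u7 b7 h7 (by norm_num)
    obtain ⟨u9, b9, e9, h9, g9⟩ := lgs_eq 2 u8 b8 h8 (by norm_num)
    obtain ⟨v, b, e, h', g⟩ := lgs_eq 1 u9 b9 h9 (by norm_num)
    rw [e1, e2, e3, e4, e5, e6, e7, e8, e9, e]
    have hv : Nat.log2 v = 0 := by
      have : v = 0 ∨ v = 1 := by omega
      rcases this with rfl | rfl <;> decide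
    have : b = Nat.log2 u := by omega
    rw [this]
  · rfl

theorem cn_eq (c : Bool) (a b : ℕ) : cn c a b = if c = true then a else b := by
  cases c <;> rfl

theorem bx_eq (a b : Bool) : bx a b = (a != b) := by
  cases a <;> cases b <;> rfl

theorem bt_eq (m i : ℕ) : bt m i = m.testBit i := by
  rw [Nat.testBit, Nat.and_comm, Nat.and_one_is_mod]
  unfold bt
  change Nat.beq ((m >>> i) % 2) 1 = ((m >>> i) % 2 != 0)
  rcases Nat.mod_two_eq_zero_or_one (m >>> i) with h | h <;> rw [h] <;> rfl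

theorem bi_eq (i : ℕ) : bi i = 2 ^ i := by
  change 1 <<< i = 2 ^ i
  rw [Nat.one_shiftLeft]

theorem bi_test (i j : ℕ) : (bi i).testBit j = decide (i = j) := by
  rw [bi_eq, Nat.testBit_two_pow]

theorem mem_D (m : ℕ) (i : Fin 18) : i ∈ D m ↔ m.testBit i = true := by
  simp [D]

theorem Sat_lor {A : ℕ → Prop} {T F m : ℕ} (h : Sat A T F) (hm : ∀ i, m.testBit i = true → A i) :
    Sat A (T ||| m) F := by
  refine ⟨fun i hi => ?_, h.2⟩
  rw [Nat.testBit_or, Bool.or_eq_true] at hi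
  exact hi.elim (h.1 i) (hm i)

theorem Sat_lorF {A : ℕ → Prop} {T F m : ℕ} (h : Sat A T F)
    (hm : ∀ i, m.testBit i = true → ¬ A i) : Sat A T (F ||| m) := by
  refine ⟨h.1, fun i hi => ?_⟩
  rw [Nat.testBit_or, Bool.or_eq_true] at hi
  exact hi.elim (h.2 i) (hm i)

/-- an overlap of `T` and `F` is a contradiction -/
theorem Sat_land {A : ℕ → Prop} {T F : ℕ} (h : Sat A T F) : T &&& F = 0 := by
  apply Nat.eq_of_testBit_eq
  intro i
  rw [Nat.testBit_and, Nat.zero_testBit]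
  by_contra hc
  rw [Bool.not_eq_false, Bool.and_eq_true] at hc
  exact h.2 i hc.2 (h.1 i hc.1)

theorem Res_ok {A : ℕ → Prop} {T F : ℕ} {ok : ℕ → ℕ → Bool} {cf : Bool} {T' F' : ℕ}
    (h : ok T' F' = true) (hs : Sat A T F → Sat A T' F') : Res A T F ok cf :=
  Or.inr ⟨T', F', h, hs⟩

theorem Res_cf {A : ℕ → Prop} {T F : ℕ} {ok : ℕ → ℕ → Bool} {cf : Bool}
    (h : cf = true) (hs : ¬ Sat A T F) : Res A T F ok cf := Or.inl ⟨h, hs⟩

/-- composition -/
theorem Res_trans {A : ℕ → Prop} {T F : ℕ} {ok ok' : ℕ → ℕ → Bool} {cf : Bool}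
    (h : Res A T F ok cf) (h' : ∀ T' F', ok T' F' = true → Res A T' F' ok' cf) :
    Res A T F ok' cf := by
  rcases h with h | ⟨T', F', h1, h2⟩
  · exact Or.inl h
  · rcases h' T' F' h1 with ⟨h3, h4⟩ | ⟨T2, F2, h3, h4⟩
    · exact Or.inl ⟨h3, fun hs => h4 (h2 hs)⟩
    · exact Or.inr ⟨T2, F2, h3, fun hs => h4 (h2 hs)⟩

/-- changing the state before -/
theorem Res_pre {A : ℕ → Prop} {T F T' F' : ℕ} {ok : ℕ → ℕ → Bool} {cf : Bool}
    (hs : Sat A T F → Sat A T' F') (h : Res A T' F' ok cf) : Res A T F ok cf := by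
  rcases h with ⟨h1, h2⟩ | ⟨T2, F2, h3, h4⟩
  · exact Or.inl ⟨h1, fun h => h2 (hs h)⟩
  · exact Or.inr ⟨T2, F2, h3, fun h => h4 (hs h)⟩

/-- the final test of every assertion -/
theorem Res_test {A : ℕ → Prop} {T F T' F' : ℕ} {ok : ℕ → ℕ → Bool} {cf : Bool}
    (hs : Sat A T F → Sat A T' F')
    (h : ic (Nat.beq (Nat.land T' F') 0) (ok T' F') cf = true) : Res A T F ok cf := by
  rw [ic_eq] at h
  split_ifs at h with h0
  · exact Res_ok h hs
  · refine Res_cf h fun h1 => h0 ?_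
    have h2 : Nat.land T' F' = 0 := Sat_land (hs h1)
    rw [h2]
    rfl

end H23.LZ.Ck
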