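import Pool.Agent.H23.LZ.CkRun
import Pool.Agent.H23.LZ.CkN

/-!
# The partition rule of the checker
-/

namespace H23.LZ.Ck

open H40.VT

/-- an entry of `fz`: the small 4-set is the facet minus the two vertices -/
def fzE (tb : Tab) (i : ℕ) : Bool :=
  fo (en tb.fz i) fun e => fo (e18 tb.r6 (Nat.div i 15)) fun B =>
    ic (Nat.blt (eg e) 18) (ic (Nat.blt (eid e) 112) (ic (Nat.blt (ea e) 18)
      (ic (Nat.blt (eb e) 18)
        (fo (img tb (eg e) (e18 tb.r4 (eid e))) fun m =>
          fo (Nat.lor (bi (ea e)) (bi (eb e))) fun w =>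
            ic (Nat.beq (Nat.land m w) 0) (Nat.beq (Nat.lor m w) B) false)
        false) false) false) false

/-- the pairs of vertices of the entries `15 f + i`, `i < n` -/
def prs (tb : Tab) (f n : ℕ) : ℕ :=
  @Nat.rec (fun _ => ℕ) 0 (fun i acc => Nat.lor acc
    (bi (Nat.add (Nat.mul 32 (ea (en tb.fz (Nat.add (Nat.mul 15 f) i))))
      (eb (en tb.fz (Nat.add (Nat.mul 15 f) i)))))) n

/-- all pairs of vertices of a facet occur -/
def fzP (tb : Tab) (f : ℕ) : Bool :=
  fo (prs tb f 15) fun M => fo (e18 tb.r6 f) fun B =>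
    @Nat.rec (fun _ => Bool) true (fun c acc => ic
      (ic (bt B (Nat.div c 18)) (ic (bt B (Nat.mod c 18))
        (ic (Nat.blt (Nat.div c 18) (Nat.mod c 18))
          (bt M (Nat.add (Nat.mul 32 (Nat.div c 18)) (Nat.mod c 18))) true) true) true) acc false)
      324

/-- the check of the tables for the partition rule -/
def chkS6 (tb : Tab) : Bool :=
  ic (@Nat.rec (fun _ => Bool) true (fun i acc => ic (fzE tb i) acc false) (Nat.mul tb.nf 15))
    (@Nat.rec (fun _ => Bool) true (fun f acc => ic (fzP tb f) acc false) tb.nf) false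

theorem prs_test (tb : Tab) (f n c : ℕ) : (prs tb f n).testBit c = true ↔
    ∃ i < n, 32 * ea (en tb.fz (15 * f + i)) + eb (en tb.fz (15 * f + i)) = c := by
  induction n with
  | zero =>
    change (0 : ℕ).testBit c = true ↔ _
    simp
  | succ n ih =>
    change (prs tb f n ||| bi (32 * ea (en tb.fz (15 * f + n)) + eb (en tb.fz (15 * f + n))) :
      ℕ).testBit c = true ↔ _
    rw [Nat.testBit_or, Bool.or_eq_true, ih, bi_test, decide_eq_true_eq]
    constructor
    · rintro (⟨i, h1, h2⟩ | h)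
      · exact ⟨i, by omega, h2⟩
      · exact ⟨n, by omega, h⟩
    · rintro ⟨i, h1, h2⟩
      rcases Nat.lt_succ_iff_lt_or_eq.1 h1 with h3 | h3
      · exact Or.inl ⟨i, h3, h2⟩
      · exact Or.inr (h3 ▸ h2)

theorem s6z_spec (tb : Tab) (A : ℕ) (n : ℕ) : ∀ (i z : ℕ) (k : ℕ → Bool),
    s6z tb A n i z k = true → ∃ z', k z' = true ∧ ∀ m, z'.testBit m = true ↔
      z.testBit m = true ∨ ∃ j < n,
        (A.testBit (ea (en tb.fz (i + j))) != A.testBit (eb (en tb.fz (i + j)))) = true ∧
          832 + eid (en tb.fz (i + j)) = m := by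
  induction n with
  | zero =>
    intro i z k h
    exact ⟨z, h, fun m => ⟨Or.inl, fun hh => hh.elim id fun ⟨j, hj, _⟩ => absurd hj (by omega)⟩⟩
  | succ n ih =>
    intro i z k h
    change ic (bx (bt A (ea (en tb.fz i))) (bt A (eb (en tb.fz i))))
      (s6z tb A n (i + 1) (z ||| bi (832 + eid (en tb.fz i))) k)
      (s6z tb A n (i + 1) z k) = true at h
    rw [ic_eq, bx_eq, bt_eq, bt_eq] at h
    have e : ∀ j, i + 1 + j = i + (j + 1) := fun j => by omega
    split_ifs at h with h0
    · obtain ⟨z', h1, h2⟩ := ih _ _ _ h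
      refine ⟨z', h1, fun m => ?_⟩
      rw [h2 m, Nat.testBit_or, Bool.or_eq_true, bi_test, decide_eq_true_eq]
      constructor
      · rintro ((h3 | h3) | ⟨j, hj, h3, h4⟩)
        · exact Or.inl h3
        · exact Or.inr ⟨0, by omega, h0, h3⟩
        · rw [e] at h3 h4
          exact Or.inr ⟨j + 1, by omega, h3, h4⟩
      · rintro (h3 | ⟨j, hj, h3, h4⟩)
        · exact Or.inl (Or.inl h3)
        · rcases j with _ | j
          · exact Or.inl (Or.inr h4)
          · refine Or.inr ⟨j, by omega, ?_⟩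
            rw [e]
            exact ⟨h3, h4⟩
    · obtain ⟨z', h1, h2⟩ := ih _ _ _ h
      refine ⟨z', h1, fun m => ?_⟩
      rw [h2 m]
      constructor
      · rintro (h3 | ⟨j, hj, h3, h4⟩)
        · exact Or.inl h3
        · rw [e] at h3 h4
          exact Or.inr ⟨j + 1, by omega, h3, h4⟩
      · rintro (h3 | ⟨j, hj, h3, h4⟩)
        · exact Or.inl h3
        · rcases j with _ | j
          · exact absurd h3 h0
          · refine Or.inr ⟨j, by omega, ?_⟩
            rw [e]
            exact ⟨h3, h4⟩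

theorem s6y_spec (tb : Tab) (A : ℕ) (n : ℕ) : ∀ (i z : ℕ) (k : ℕ → Bool),
    s6y tb A n i z k = true → ∃ z', k z' = true ∧ ∀ m, z'.testBit m = true ↔
      z.testBit m = true ∨ ∃ j < n,
        A.testBit (ea (en tb.fy (i + j))) = true ∧ 608 + eid (en tb.fy (i + j)) = m := by
  induction n with
  | zero =>
    intro i z k h
    exact ⟨z, h, fun m => ⟨Or.inl, fun hh => hh.elim id fun ⟨j, hj, _⟩ => absurd hj (by omega)⟩⟩
  | succ n ih =>
    intro i z k h
    change ic (bt A (ea (en tb.fy i)))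
      (s6y tb A n (i + 1) (z ||| bi (608 + eid (en tb.fy i))) k)
      (s6y tb A n (i + 1) z k) = true at h
    rw [ic_eq, bt_eq] at h
    have e : ∀ j, i + 1 + j = i + (j + 1) := fun j => by omega
    split_ifs at h with h0
    · obtain ⟨z', h1, h2⟩ := ih _ _ _ h
      refine ⟨z', h1, fun m => ?_⟩
      rw [h2 m, Nat.testBit_or, Bool.or_eq_true, bi_test, decide_eq_true_eq]
      constructor
      · rintro ((h3 | h3) | ⟨j, hj, h3, h4⟩)
        · exact Or.inl h3
        · exact Or.inr ⟨0, by omega, h0, h3⟩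
        · rw [e] at h3 h4
          exact Or.inr ⟨j + 1, by omega, h3, h4⟩
      · rintro (h3 | ⟨j, hj, h3, h4⟩)
        · exact Or.inl (Or.inl h3)
        · rcases j with _ | j
          · exact Or.inl (Or.inr h4)
          · refine Or.inr ⟨j, by omega, ?_⟩
            rw [e]
            exact ⟨h3, h4⟩
    · obtain ⟨z', h1, h2⟩ := ih _ _ _ h
      refine ⟨z', h1, fun m => ?_⟩
      rw [h2 m]
      constructor
      · rintro (h3 | ⟨j, hj, h3, h4⟩)
        · exact Or.inl h3
        · rw [e] at h3 h4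
          exact Or.inr ⟨j + 1, by omega, h3, h4⟩
      · rintro (h3 | ⟨j, hj, h3, h4⟩)
        · exact Or.inl h3
        · rcases j with _ | j
          · exact absurd h3 h0
          · refine Or.inr ⟨j, by omega, ?_⟩
            rw [e]
            exact ⟨h3, h4⟩

theorem s6a_syn (tb : Tab) (A : ℕ) (cf : Bool) (ok : ℕ → ℕ → Bool) (n : ℕ) :
    ∀ i T F, s6a tb A cf ok n i T F = true → cf = true ∨ ∃ T' F', ok T' F' = true := by
  induction n with
  | zero =>
    intro i T F h
    exact Or.inr ⟨T, F, h⟩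
  | succ n ih =>
    intro i T F h
    change ic (bt A (ea (en tb.fy i)))
      (asT tb (608 + eid (en tb.fy i)) T F (fun T' F' => s6a tb A cf ok n (i + 1) T' F') cf)
      (s6a tb A cf ok n (i + 1) T F) = true at h
    rw [ic_eq] at h
    split_ifs at h with h0
    · rcases asT_syn h with h1 | ⟨T', F', h1⟩
      · exact Or.inl h1
      · exact ih _ _ _ h1
    · exact ih _ _ _ h

theorem s6a_res {tb : Tab} {V : ℕ → Prop} (tT : ∀ a < 944, ∀ T F ok cf, (Sat V T F → V a) →
      asT tb a T F ok cf = true → Res V T F ok cf)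
    (A : ℕ) (cf : Bool) (ok : ℕ → ℕ → Bool) (n : ℕ) :
    ∀ i, (∀ j < n, A.testBit (ea (en tb.fy (i + j))) = true →
      608 + eid (en tb.fy (i + j)) < 944 ∧ V (608 + eid (en tb.fy (i + j)))) → ∀ T F,
    s6a tb A cf ok n i T F = true → Res V T F ok cf := by
  induction n with
  | zero =>
    intro i _ T F h
    exact Res_ok h fun hs => hs
  | succ n ih =>
    intro i hi T F h
    change ic (bt A (ea (en tb.fy i)))
      (asT tb (608 + eid (en tb.fy i)) T F (fun T' F' => s6a tb A cf ok n (i + 1) T' F') cf)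
      (s6a tb A cf ok n (i + 1) T F) = true at h
    have hi' : ∀ j < n, A.testBit (ea (en tb.fy (i + 1 + j))) = true →
        608 + eid (en tb.fy (i + 1 + j)) < 944 ∧ V (608 + eid (en tb.fy (i + 1 + j))) := by
      intro j hj
      have e : i + 1 + j = i + (j + 1) := by omega
      rw [e]
      exact hi (j + 1) (by omega)
    rw [ic_eq, bt_eq] at h
    split_ifs at h with h0
    · obtain ⟨h1, h2⟩ := hi 0 (by omega) h0
      exact Res_trans (tT _ h1 _ _ _ _ (fun _ => h2) h) fun T' F' h3 => ih _ hi' _ _ h3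
    · exact ih _ hi' _ _ h

theorem lor_D {m A : ℕ} {B : ℕ} (h : A ||| B = m) : D A ∪ D B = D m := by
  rw [← h, D_lor]

theorem land_D {A B : ℕ} (h : A &&& B = 0) : Disjoint (D A) (D B) := by
  rw [Finset.disjoint_left]
  intro v h1 h2
  rw [mem_D] at h1 h2
  have h3 : (A &&& B).testBit v = true := by rw [Nat.testBit_and, h1, h2]; rfl
  rw [h, Nat.zero_testBit] at h3
  exact absurd h3 (by decide)

section

variable {tb : Tab} {K : Finset (Finset (Fin 18))} {y : Finset (Fin 18) → ZMod 3}

/-- one entry of `fz` -/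
theorem fzE_spec (G : Good tb K y) (hg : chkG tb = true) {i : ℕ} (h : fzE tb i = true) :
    eid (en tb.fz i) < 112 ∧ ∀ (ha : ea (en tb.fz i) < 18) (hb : eb (en tb.fz i) < 18),
      (((D (e18 tb.r6 (i / 15))).erase ⟨_, ha⟩).erase ⟨_, hb⟩ ∈ K ↔
        At tb K y (832 + eid (en tb.fz i))) := by
  unfold fzE at h
  rw [fo_eq, fo_eq] at h
  obtain ⟨h1, h⟩ := ic_false h
  obtain ⟨h2, h⟩ := ic_false h
  obtain ⟨h3, h⟩ := ic_false h
  obtain ⟨h4, h⟩ := ic_false h
  rw [fo_eq, fo_eq] at h
  obtain ⟨h5, h⟩ := ic_false h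
  have h1' := blt_lt h1
  have h2' := blt_lt h2
  refine ⟨h2', fun ha hb => ?_⟩
  have h5' : img tb (eg (en tb.fz i)) (e18 tb.r4 (eid (en tb.fz i))) &&&
      (bi (ea (en tb.fz i)) ||| bi (eb (en tb.fz i))) = 0 := Nat.eq_of_beq_eq_true h5
  have h6 : img tb (eg (en tb.fz i)) (e18 tb.r4 (eid (en tb.fz i))) |||
      (bi (ea (en tb.fz i)) ||| bi (eb (en tb.fz i))) = e18 tb.r6 (i / 15) :=
    Nat.eq_of_beq_eq_true h
  have h7 : ((D (e18 tb.r6 (i / 15))).erase ⟨_, ha⟩).erase ⟨_, hb⟩
      = D (img tb (eg (en tb.fz i)) (e18 tb.r4 (eid (en tb.fz i)))) := by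
    rw [← h6]
    have hd := land_D h5'
    ext v
    rw [Finset.mem_erase, Finset.mem_erase, D_lor, Finset.mem_union, D_lor, Finset.mem_union,
      D_bi ha, D_bi hb, Finset.mem_singleton, Finset.mem_singleton]
    constructor
    · rintro ⟨g1, g2, g3 | g3 | g3⟩
      · exact g3
      · exact absurd g3 g2
      · exact absurd g3 g1
    · intro g
      refine ⟨?_, ?_, Or.inl g⟩
      · rintro rfl
        refine Finset.disjoint_left.1 hd g ?_
        rw [D_lor, Finset.mem_union, D_bi hb]
        exact Or.inr (Finset.mem_singleton_self _)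
      · rintro rfl
        refine Finset.disjoint_left.1 hd g ?_
        rw [D_lor, Finset.mem_union, D_bi ha]
        exact Or.inl (Finset.mem_singleton_self _)
  rw [h7, G.img_mem hg h1']
  unfold At
  rw [if_neg (by omega), if_neg (by omega), if_neg (by omega), Nat.add_sub_cancel_left]
  exact ⟨fun g => ⟨by omega, g⟩, fun g => g.2⟩

/-- the partition rule for the valuation -/
theorem s6_key (G : Good tb K y) (hg : chkG tb = true) (hN : chkN tb = true)
    (h6 : chkS6 tb = true) {f : ℕ} (hf : f < tb.nf) {A B : ℕ} (hAB : A &&& B = 0)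
    (hU : A ||| B = e18 tb.r6 f)
    (hz : ∀ j < 15, (A.testBit (ea (en tb.fz (15 * f + j))) !=
      A.testBit (eb (en tb.fz (15 * f + j)))) = true → At tb K y (832 + eid (en tb.fz (15 * f + j)))) :
    (∀ j < 6, A.testBit (ea (en tb.fy (6 * f + j))) = true →
      At tb K y (608 + eid (en tb.fy (6 * f + j)))) ∨
    ∀ j < 6, B.testBit (ea (en tb.fy (6 * f + j))) = true →
      At tb K y (608 + eid (en tb.fy (6 * f + j))) := by
  obtain ⟨hE, hP⟩ := ic_false h6
  have hE' := chk_all hE
  have hP' := chk_all hP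
  unfold chkN at hN
  rw [an_iff, an_iff, an_iff, an_iff] at hN
  obtain ⟨_, _, hT, hV⟩ := hN
  obtain ⟨c1, c2, _⟩ := rows_spec G hg (by norm_num) hT hV hf
  -- the entries of fy
  have hy : ∀ j < 6, eid (en tb.fy (6 * f + j)) < 224 ∧ ∃ ha : ea (en tb.fy (6 * f + j)) < 18,
      ((D (e18 tb.r6 f)).erase ⟨_, ha⟩ ∈ K ↔ At tb K y (608 + eid (en tb.fy (6 * f + j)))) := by
    intro j hj
    have g1 := chk_all hT (6 * f + j) (by
      change 6 * f + j < tb.nf * 6
      omega)
    have g2 : Nat.div (6 * f + j) 6 = f := by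
      change (6 * f + j) / 6 = f
      omega
    rw [fo_eq, fo_eq, fo_eq, g2, an_iff, an_iff] at g1
    have g3 : eid (en tb.fy (6 * f + j)) < 224 := blt_lt g1.1
    obtain ⟨ha, g4⟩ := chkE_spec G hg g1.2.1
    refine ⟨g3, ha, g4.trans ?_⟩
    unfold At
    rw [if_neg (by omega), if_neg (by omega), if_pos (by omega), Nat.add_sub_cancel_left]
  have hA6 : ∀ v, v ∈ D A → v ∈ D (e18 tb.r6 f) := fun v hv => by
    rw [← lor_D hU]
    exact Finset.mem_union_left _ hv
  have hB6 : ∀ v, v ∈ D B → v ∈ D (e18 tb.r6 f) := fun v hv => by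
    rw [← lor_D hU]
    exact Finset.mem_union_right _ hv
  have hc : ∀ a ∈ D A, ∀ b ∈ D B, ((D (e18 tb.r6 f)).erase a).erase b ∈ K := by
    intro a ha b hb
    have ha' := (mem_D _ _).1 (hA6 a ha)
    have hb' := (mem_D _ _).1 (hB6 b hb)
    have hAa : A.testBit a = true := (mem_D _ _).1 ha
    have hAb : A.testBit b = false := by
      rw [← Bool.not_eq_true]
      intro g
      exact Finset.disjoint_left.1 (land_D hAB) ((mem_D _ _).2 g) hb
    have hab : (a : ℕ) ≠ b := by
      intro e
      rw [e, hAb] at hAa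
      exact absurd hAa (by decide)
    have hPf := hP' f hf
    unfold fzP at hPf
    rw [fo_eq, fo_eq] at hPf
    have hPf' := chk_all (n := 324) (p := fun c => ic (bt (e18 tb.r6 f) (Nat.div c 18))
      (ic (bt (e18 tb.r6 f) (Nat.mod c 18)) (ic (Nat.blt (Nat.div c 18) (Nat.mod c 18))
        (bt (prs tb f 15) (Nat.add (Nat.mul 32 (Nat.div c 18)) (Nat.mod c 18))) true) true) true)
      hPf
    -- the entry of a pair
    have ent : ∀ p q : Fin 18, (p : ℕ) < q → (e18 tb.r6 f).testBit p = true →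
        (e18 tb.r6 f).testBit q = true → ∃ j < 15, ea (en tb.fz (15 * f + j)) = p ∧
          eb (en tb.fz (15 * f + j)) = q := by
      intro p q hpq hp hq
      have hp2 := p.2
      have hq2 := q.2
      have g := hPf' (18 * p + q) (by omega)
      have g1 : Nat.div (18 * (p : ℕ) + q) 18 = p := by
        change (18 * (p : ℕ) + q) / 18 = p
        omega
      have g2 : Nat.mod (18 * (p : ℕ) + q) 18 = q := by
        change (18 * (p : ℕ) + q) % 18 = q
        omega
      rw [g1, g2, ic_eq, bt_eq, if_pos hp, ic_eq, bt_eq, if_pos hq, ic_eq,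
        if_pos (by simpa [Nat.blt_eq] using hpq), bt_eq] at g
      obtain ⟨j, hj, hjk⟩ := (prs_test tb f 15 _).1 g
      refine ⟨j, hj, ?_⟩
      obtain ⟨e1, e2⟩ := fzE_spec G hg (hE' (15 * f + j) (by
        change 15 * f + j < tb.nf * 15
        omega))
      have hx := hE' (15 * f + j) (by
        change 15 * f + j < tb.nf * 15
        omega)
      unfold fzE at hx
      rw [fo_eq, fo_eq] at hx
      obtain ⟨x1, hx⟩ := ic_false hx
      obtain ⟨x2, hx⟩ := ic_false hx
      obtain ⟨x3, hx⟩ := ic_false hx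
      obtain ⟨x4, hx⟩ := ic_false hx
      have x3' := blt_lt x3
      have x4' := blt_lt x4
      change 32 * ea (en tb.fz (15 * f + j)) + eb (en tb.fz (15 * f + j)) = 32 * (p : ℕ) + q at hjk
      omega
    have fin : ∀ j < 15, (A.testBit (ea (en tb.fz (15 * f + j))) !=
        A.testBit (eb (en tb.fz (15 * f + j)))) = true →
        ∀ (h1 : ea (en tb.fz (15 * f + j)) < 18) (h2 : eb (en tb.fz (15 * f + j)) < 18),
        ((D (e18 tb.r6 f)).erase ⟨_, h1⟩).erase ⟨_, h2⟩ ∈ K := by
      intro j hj hA h1 h2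
      have g := (fzE_spec G hg (hE' (15 * f + j) (by
        change 15 * f + j < tb.nf * 15
        omega))).2 h1 h2
      have e : (15 * f + j) / 15 = f := by omega
      rw [e] at g
      exact g.2 (hz j hj hA)
    rcases lt_or_gt_of_ne hab with hl | hl
    · obtain ⟨j, hj, e1, e2⟩ := ent a b hl ha' hb'
      have g := fin j hj (by rw [e1, e2, hAa, hAb]; rfl) (by rw [e1]; exact a.2)
        (by rw [e2]; exact b.2)
      have e1' : (⟨ea (en tb.fz (15 * f + j)), by rw [e1]; exact a.2⟩ : Fin 18) = a := Fin.ext e1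
      have e2' : (⟨eb (en tb.fz (15 * f + j)), by rw [e2]; exact b.2⟩ : Fin 18) = b := Fin.ext e2
      rw [e1', e2'] at g
      exact g
    · obtain ⟨j, hj, e1, e2⟩ := ent b a hl hb' ha'
      have g := fin j hj (by rw [e1, e2, hAa, hAb]; rfl) (by rw [e1]; exact b.2)
        (by rw [e2]; exact a.2)
      have e1' : (⟨ea (en tb.fz (15 * f + j)), by rw [e1]; exact b.2⟩ : Fin 18) = b := Fin.ext e1
      have e2' : (⟨eb (en tb.fz (15 * f + j)), by rw [e2]; exact a.2⟩ : Fin 18) = a := Fin.ext e2
      rw [e1', e2', Finset.erase_right_comm] at g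
      exact g
  rcases s6 G.hyp c1 c2 (lor_D hU) (land_D hAB) hc with hh | hh
  · left
    intro j hj hA
    obtain ⟨_, ha, g⟩ := hy j hj
    exact g.1 (hh _ ((mem_D _ _).2 hA))
  · right
    intro j hj hB
    obtain ⟨_, ha, g⟩ := hy j hj
    exact g.1 (hh _ ((mem_D _ _).2 hB))

theorem fy_lt (hN : chkN tb = true) {f : ℕ} (hf : f < tb.nf) {j : ℕ} (hj : j < 6) :
    608 + eid (en tb.fy (6 * f + j)) < 944 := by
  unfold chkN at hN
  rw [an_iff, an_iff, an_iff, an_iff] at hN
  obtain ⟨_, _, hT, _⟩ := hN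
  have g1 := chk_all hT (6 * f + j) (by
    change 6 * f + j < tb.nf * 6
    omega)
  rw [fo_eq, fo_eq, fo_eq, an_iff] at g1
  have g3 : eid (en tb.fy (6 * f + j)) < 224 := blt_lt g1.1
  omega

theorem fz_lt (h6 : chkS6 tb = true) {f : ℕ} (hf : f < tb.nf) {j : ℕ} (hj : j < 15) :
    832 + eid (en tb.fz (15 * f + j)) < 944 := by
  have hE' := chk_all (ic_false h6).1
  have hx := hE' (15 * f + j) (by
    change 15 * f + j < tb.nf * 15
    omega)
  unfold fzE at hx
  rw [fo_eq, fo_eq] at hx
  obtain ⟨x1, hx⟩ := ic_false hx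
  obtain ⟨x2, hx⟩ := ic_false hx
  have := blt_lt x2
  omega

/-- the partition rule is sound -/
theorem ruS6_res (hg : chkG tb = true) (hN : chkN tb = true) (h6 : chkS6 tb = true)
    (G : Good tb K y)
    (tT : ∀ a < 944, ∀ T F ok cf, (Sat (At tb K y) T F → At tb K y a) →
      asT tb a T F ok cf = true → Res (At tb K y) T F ok cf)
    (tF : ∀ a < 944, ∀ T F ok cf, (Sat (At tb K y) T F → ¬ At tb K y a) →
      asF tb a T F ok cf = true → Res (At tb K y) T F ok cf) :
    ∀ f < tb.nf, ∀ A' B, A' &&& B = 0 → A' ||| B = e18 tb.r6 f → ∀ T F ok cf,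
      ruS6 tb f A' B T F ok cf = true → Res (At tb K y) T F ok cf := by
  intro f hf A B hAB hU T F ok cf h
  unfold ruS6 at h
  obtain ⟨z, h, hz⟩ := s6z_spec _ _ _ _ _ _ h
  rw [fo_eq, ic_eq] at h
  have hz' : ∀ m, z.testBit m = true ↔ ∃ j < 15,
      (A.testBit (ea (en tb.fz (15 * f + j))) != A.testBit (eb (en tb.fz (15 * f + j)))) = true ∧
        832 + eid (en tb.fz (15 * f + j)) = m := by
    intro m
    rw [hz m, Nat.zero_testBit]
    constructor
    · rintro (g | g)
      · exact absurd g (by decide)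
      · exact g
    · exact Or.inr
  have hm := miss_test z T
  generalize Nat.xor z (Nat.land z T) = u at h hm
  by_cases h1 : one u = true
  swap
  · rw [if_neg h1] at h
    exact Res_ok h fun hs => hs
  rw [if_pos h1] at h
  obtain ⟨ya, h, hya⟩ := s6y_spec _ _ _ _ _ _ h
  obtain ⟨yb, h, hyb⟩ := s6y_spec _ _ _ _ _ _ h
  have hya' : ∀ m, ya.testBit m = true → ∃ j < 6, A.testBit (ea (en tb.fy (6 * f + j))) = true ∧
      608 + eid (en tb.fy (6 * f + j)) = m := by
    intro m hm
    rcases (hya m).1 hm with g | g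
    · rw [Nat.zero_testBit] at g
      exact absurd g (by decide)
    · exact g
  have hyb' : ∀ m, yb.testBit m = true → ∃ j < 6, B.testBit (ea (en tb.fy (6 * f + j))) = true ∧
      608 + eid (en tb.fy (6 * f + j)) = m := by
    intro m hm
    rcases (hyb m).1 hm with g | g
    · rw [Nat.zero_testBit] at g
      exact absurd g (by decide)
    · exact g
  -- a false ridge
  have bad : ∀ Y X : ℕ, (∀ m, Y.testBit m = true → ∃ j < 6,
      X.testBit (ea (en tb.fy (6 * f + j))) = true ∧ 608 + eid (en tb.fy (6 * f + j)) = m) →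
      ¬ Nat.beq (Nat.land Y F) 0 = true → Sat (At tb K y) T F →
      ¬ ∀ j < 6, X.testBit (ea (en tb.fy (6 * f + j))) = true →
        At tb K y (608 + eid (en tb.fy (6 * f + j))) := by
    intro Y X hY hne hs hall
    apply hne
    have g0 : Y &&& F = 0 := by
      apply Nat.eq_of_testBit_eq
      intro i
      rw [Nat.testBit_and, Nat.zero_testBit]
      by_contra hc
      rw [Bool.not_eq_false, Bool.and_eq_true] at hc
      obtain ⟨j, hj, g1, g2⟩ := hY i hc.1
      exact hs.2 i hc.2 (g2 ▸ hall j hj g1)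
    change Nat.beq (Y &&& F) 0 = true
    rw [g0]
    rfl
  rw [ic_eq] at h
  by_cases h0 : Nat.beq u 0 = true
  · rw [if_pos h0] at h
    have hu : u = 0 := Nat.eq_of_beq_eq_true h0
    have hzT : ∀ i, z.testBit i = true → T.testBit i = true := by
      intro i hi
      have g := hm i
      rw [hu, Nat.zero_testBit, hi] at g
      revert g
      cases T.testBit i <;> simp
    have key : Sat (At tb K y) T F →
        (∀ j < 6, A.testBit (ea (en tb.fy (6 * f + j))) = true →
          At tb K y (608 + eid (en tb.fy (6 * f + j)))) ∨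
        ∀ j < 6, B.testBit (ea (en tb.fy (6 * f + j))) = true →
          At tb K y (608 + eid (en tb.fy (6 * f + j))) := by
      intro hs
      refine s6_key G hg hN h6 hf hAB hU fun j hj hj' => hs.1 _ (hzT _ ?_)
      exact (hz' _).2 ⟨j, hj, hj', rfl⟩
    have conc : ∀ X, (Sat (At tb K y) T F → ∀ j < 6,
        X.testBit (ea (en tb.fy (6 * f + j))) = true →
          At tb K y (608 + eid (en tb.fy (6 * f + j)))) →
        s6a tb X cf ok 6 (Nat.mul 6 f) T F = true → Res (At tb K y) T F ok cf := by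
      intro X hX hr
      by_cases hs : Sat (At tb K y) T F
      · exact s6a_res tT X cf ok 6 (6 * f) (fun j hj g => ⟨fy_lt hN hf hj, hX hs j hj g⟩) T F hr
      · rcases s6a_syn _ _ _ _ _ _ _ _ hr with g | ⟨T', F', g⟩
        · exact Res_cf g hs
        · exact Res_ok g fun hs' => absurd hs' hs
    rw [ic_eq] at h
    by_cases ha : Nat.beq (Nat.land ya F) 0 = true
    · rw [if_pos ha, ic_eq] at h
      by_cases hb : Nat.beq (Nat.land yb F) 0 = true
      · rw [if_pos hb] at h
        exact Res_ok h fun hs => hs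
      · rw [if_neg hb] at h
        exact conc A (fun hs => (key hs).resolve_right (bad yb B hyb' hb hs)) h
    · rw [if_neg ha] at h
      exact conc B (fun hs => (key hs).resolve_left (bad ya A hya' ha hs)) h
  · rw [if_neg h0, ic_eq] at h
    have hu : u ≠ 0 := fun e => h0 (by rw [e]; rfl)
    by_cases ha : Nat.beq (Nat.land ya F) 0 = true
    · rw [if_pos ha] at h
      exact Res_ok h fun hs => hs
    rw [if_neg ha, ic_eq] at h
    by_cases hb : Nat.beq (Nat.land yb F) 0 = true
    · rw [if_pos hb] at h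
      exact Res_ok h fun hs => hs
    rw [if_neg hb, lg_eq] at h
    have hl := (one_spec hu h1 (Nat.log2 u)).2 rfl
    have hlz : z.testBit (Nat.log2 u) = true := by
      have g := hm (Nat.log2 u)
      rw [hl] at g
      exact (Bool.and_eq_true _ _ ▸ g.symm : _ ∧ _).1
    have hl9 : Nat.log2 u < 944 := by
      obtain ⟨j, hj, _, g⟩ := (hz' _).1 hlz
      rw [← g]
      exact fz_lt h6 hf hj
    refine tF _ hl9 T F ok cf (fun hs hA => ?_) h
    have hall : ∀ j < 15, (A.testBit (ea (en tb.fz (15 * f + j))) !=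
        A.testBit (eb (en tb.fz (15 * f + j)))) = true →
        At tb K y (832 + eid (en tb.fz (15 * f + j))) := by
      intro j hj hj'
      have g1 : z.testBit (832 + eid (en tb.fz (15 * f + j))) = true := (hz' _).2 ⟨j, hj, hj', rfl⟩
      by_cases g2 : T.testBit (832 + eid (en tb.fz (15 * f + j))) = true
      · exact hs.1 _ g2
      · have g3 := hm (832 + eid (en tb.fz (15 * f + j)))
        rw [Bool.not_eq_true] at g2
        rw [g1, g2] at g3
        rw [(one_spec hu h1 _).1 g3]
        exact hA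
    rcases s6_key G hg hN h6 hf hAB hU hall with g | g
    · exact bad ya A hya' ha hs g
    · exact bad yb B hyb' hb hs g

end

end H23.LZ.Ck
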