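import Pool.Agent.H54.LZ.Acy

/-!
# The general rule from the vanishing of H_3 of induced subcomplexes
-/

namespace H23.LZ

open H40.VT

variable {K : Finset (Finset (Fin 18))} {α : Equiv.Perm (Fin 18)}

theorem h3_up (t : Finset (Fin 18)) (g : Finset (Fin 18) → ZMod 2) :
    ∑ v ∈ tᶜ, g (insert v t)
      = ∑ S ∈ Finset.univ.filter (fun S => t ⊆ S ∧ S.card = t.card + 1), g S := by
  refine Finset.sum_bij (fun v _ => insert v t) ?_ ?_ ?_ ?_
  · intro v hv
    rw [Finset.mem_compl] at hv
    rw [Finset.mem_filter]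
    exact ⟨Finset.mem_univ _, Finset.subset_insert v t, Finset.card_insert_of_notMem hv⟩
  · intro v hv v' _ e
    rw [Finset.mem_compl] at hv
    have h1 : v ∈ insert v' t := e ▸ Finset.mem_insert_self v t
    rcases Finset.mem_insert.1 h1 with h1 | h1
    · exact h1
    · exact absurd h1 hv
  · intro S hS
    rw [Finset.mem_filter] at hS
    obtain ⟨-, h1, h2⟩ := hS
    have h3 : (S \ t).card = 1 := by
      rw [Finset.card_sdiff_of_subset h1]
      omega
    obtain ⟨v, hv⟩ := Finset.card_eq_one.1 h3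
    have h4 : v ∈ S \ t := hv ▸ Finset.mem_singleton_self v
    rw [Finset.mem_sdiff] at h4
    refine ⟨v, Finset.mem_compl.2 h4.2, ?_⟩
    rw [Finset.insert_eq, ← hv, Finset.sdiff_union_of_subset h1]
  · intro v _
    rfl

theorem h3_zero {k : ℕ} (h : Even k) : (k : ZMod 2) = 0 :=
  (ZMod.natCast_eq_zero_iff_even).2 h

theorem h3_one {k : ℕ} (h : Odd k) : (k : ZMod 2) = 1 :=
  (ZMod.natCast_eq_one_iff_odd).2 h

/-- A set `z` of 4-faces inside `U` which is a 3-cycle mod 2 is the boundary of a set of 5-faces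
inside `U`; so a set `f` which meets `z` in an odd number of members meets the boundary of one of
these 5-faces in an odd number of members. -/
theorem h3rule (h : Hyp K α) {U : Finset (Fin 18)} (hU : U.card ≤ 13)
    (z f : Finset (Finset (Fin 18))) (hz : ∀ t ∈ z, t ∈ K ∧ t.card = 4 ∧ t ⊆ U)
    (hcyc : ∀ τ : Finset (Fin 18), τ.card = 3 → Even (z.filter fun t => τ ⊆ t).card)
    (hf : Odd (z.filter fun t => t ∈ f).card) :
    ∃ S ∈ K, S.card = 5 ∧ S ⊆ U ∧ Odd ((S.powersetCard 4).filter fun t => t ∈ f).card := by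
  obtain ⟨c, hc⟩ : ∃ c : Finset (Fin 18) → ZMod 2, ∀ τ, c τ = if τ ∈ z then 1 else 0 :=
    ⟨_, fun _ => rfl⟩
  have hc1 : OIn (K.filter fun τ => τ ⊆ U) 4 c := by
    intro τ hτ
    rw [hc] at hτ
    by_cases e : τ ∈ z
    · obtain ⟨h1, h2, h3⟩ := hz τ e
      exact ⟨Finset.mem_filter.2 ⟨h1, h3⟩, h2⟩
    · rw [if_neg e] at hτ
      exact absurd rfl hτ
  have hc2 : obd c = 0 := by
    funext τ
    rw [H54LZ.obd2, h3_up, Pi.zero_apply]
    simp only [hc]
    rw [Finset.sum_ite, Finset.sum_const_zero, add_zero, Finset.sum_const, nsmul_eq_mul, mul_one]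
    by_cases h3 : τ.card = 3
    · have e : (Finset.univ.filter (fun S => τ ⊆ S ∧ S.card = τ.card + 1)).filter (fun S => S ∈ z)
          = z.filter fun t => τ ⊆ t := by
        ext S
        simp only [Finset.mem_filter, Finset.mem_univ, true_and]
        constructor
        · rintro ⟨h1, h2⟩
          exact ⟨h2, h1.1⟩
        · rintro ⟨h1, h2⟩
          exact ⟨⟨h2, by rw [(hz S h1).2.1, h3]⟩, h1⟩
      rw [e]
      exact h3_zero (hcyc τ h3)
    · have e : (Finset.univ.filter (fun S => τ ⊆ S ∧ S.card = τ.card + 1)).filter (fun S => S ∈ z)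
          = ∅ := by
        rw [Finset.eq_empty_iff_forall_notMem]
        intro S hS
        simp only [Finset.mem_filter, Finset.mem_univ, true_and] at hS
        have := (hz S hS.2).2.1
        omega
      rw [e, Finset.card_empty, Nat.cast_zero]
  obtain ⟨b, hb1, hb2⟩ := H54LZ.acy4' h hU c hc1 hc2
  by_contra hcon
  push Not at hcon
  -- the pairing of the boundary with `f`
  have key : ∑ t ∈ f, c t = 0 := by
    rw [← hb2]
    have e1 : ∀ t ∈ f, obd b t = ∑ S : Finset (Fin 18),
        if t ⊆ S ∧ S.card = t.card + 1 then b S else 0 := by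
      intro t _
      rw [H54LZ.obd2, h3_up, Finset.sum_filter]
    rw [Finset.sum_congr rfl e1, Finset.sum_comm]
    refine Finset.sum_eq_zero fun S _ => ?_
    by_cases hbS : b S = 0
    · refine Finset.sum_eq_zero fun t _ => ?_
      rw [hbS, ite_self]
    · obtain ⟨h1, h2⟩ := hb1 S hbS
      rw [Finset.mem_filter] at h1
      have h3 := hcon S h1.1 h2 h1.2
      rw [Nat.not_odd_iff_even] at h3
      rw [Finset.sum_ite, Finset.sum_const_zero, add_zero, Finset.sum_const, nsmul_eq_mul]
      have e2 : f.filter (fun t => t ⊆ S ∧ S.card = t.card + 1)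
          = (S.powersetCard 4).filter fun t => t ∈ f := by
        ext t
        simp only [Finset.mem_filter, Finset.mem_powersetCard]
        constructor
        · rintro ⟨h4, h5, h6⟩
          exact ⟨⟨h5, by omega⟩, h4⟩
        · rintro ⟨⟨h5, h6⟩, h4⟩
          exact ⟨h4, h5, by omega⟩
      rw [e2, h3_zero h3, zero_mul]
  have key2 : ∑ t ∈ f, c t = 1 := by
    simp only [hc]
    rw [Finset.sum_ite, Finset.sum_const_zero, add_zero, Finset.sum_const, nsmul_eq_mul, mul_one]
    have e : f.filter (fun t => t ∈ z) = z.filter fun t => t ∈ f := by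
      ext t
      simp only [Finset.mem_filter]
      exact and_comm
    rw [e]
    exact h3_one hf
  rw [key] at key2
  exact zero_ne_one key2

end H23.LZ
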