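import Pool.Agent.H23.LZ.CkD
import Pool.Agent.H23.LZ.CkI
import Pool.Agent.H23.LZ.H3Rule

/-!
# External clauses: near-solutions excluded by the vanishing of `H_3` of induced subcomplexes
-/

namespace H23.LZ.Ck

open H40.VT

/-- mask of a vertex set -/
def ms (S : Finset (Fin 18)) : ℕ := Nat.ofBits fun i : Fin 18 => decide (i ∈ S)

theorem ms_test (S : Finset (Fin 18)) (i : Fin 18) : (ms S).testBit i = decide (i ∈ S) := by
  unfold ms
  rw [Nat.testBit_ofBits_lt _ _ i.2]

theorem ms_lt (S : Finset (Fin 18)) : ms S < 2 ^ 18 := Nat.ofBits_lt_two_pow _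

theorem ms_ge (S : Finset (Fin 18)) {j : ℕ} (hj : 18 ≤ j) : (ms S).testBit j = false :=
  Nat.testBit_ofBits_ge _ _ hj

theorem eq_of_D {m m' : ℕ} (h : m < 2 ^ 18) (h' : m' < 2 ^ 18) (e : D m = D m') : m = m' := by
  apply Nat.eq_of_testBit_eq
  intro j
  by_cases hj : j < 18
  · have h1 : (⟨j, hj⟩ : Fin 18) ∈ D m ↔ (⟨j, hj⟩ : Fin 18) ∈ D m' := by rw [e]
    rw [mem_D, mem_D] at h1
    exact Bool.eq_iff_iff.2 h1
  · have h2 : 2 ^ 18 ≤ 2 ^ j := Nat.pow_le_pow_right (by norm_num) (by omega)
    rw [Nat.testBit_lt_two_pow (lt_of_lt_of_le h h2),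
      Nat.testBit_lt_two_pow (lt_of_lt_of_le h' h2)]

theorem D_ms (S : Finset (Fin 18)) : D (ms S) = S := by
  ext i
  rw [mem_D, ms_test, decide_eq_true_eq]

theorem ms_D {m : ℕ} (hm : m < 2 ^ 18) : ms (D m) = m :=
  eq_of_D (ms_lt _) hm (D_ms _)

theorem ms_empty : ms ∅ = 0 := by
  apply eq_of_D (ms_lt _) (by norm_num)
  rw [D_ms]
  symm
  rw [Finset.eq_empty_iff_forall_notMem]
  intro i hi
  rw [mem_D, Nat.zero_testBit] at hi
  exact Bool.false_ne_true hi

theorem ms_insert (a : Fin 18) (S : Finset (Fin 18)) : ms (insert a S) = ms S ||| bi a := by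
  refine eq_of_D (ms_lt _) ?_ ?_
  · exact Nat.or_lt_two_pow (ms_lt _) (by
      rw [bi_eq]
      exact Nat.pow_lt_pow_right (by norm_num) a.2)
  · rw [D_ms, D_ins _ a.2, D_ms]

theorem ms_erase {a : Fin 18} {S : Finset (Fin 18)} (h : a ∈ S) :
    ms (S.erase a) = ms S ^^^ bi a := by
  refine eq_of_D (ms_lt _) ?_ ?_
  · exact Nat.xor_lt_two_pow (ms_lt _) (by
      rw [bi_eq]
      exact Nat.pow_lt_pow_right (by norm_num) a.2)
  · rw [D_ms]
    ext i
    rw [Finset.mem_erase, mem_D, Nat.testBit_xor, ms_test, bi_test]
    by_cases hi : i = a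
    · subst hi
      simp [h]
    · have h1 : ¬ ((a : ℕ) = (i : ℕ)) := fun e => hi (Fin.ext e.symm)
      simp [hi, h1]

/-- parity of the number of `v < n` with `q v` -/
def par (q : ℕ → Bool) (n : ℕ) : Bool :=
  @Nat.rec (fun _ => Bool) false (fun v acc => bx (q v) acc) n

theorem par_odd (q : ℕ → Bool) (n : ℕ) :
    par q n = true ↔ Odd ((Finset.range n).filter fun v => q v = true).card := by
  induction n with
  | zero =>
    change false = true ↔ _
    simp
  | succ n ih =>
    change bx (q n) (par q n) = true ↔ _
    rw [bx_eq, Finset.range_add_one, Finset.filter_insert]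
    split_ifs with h
    · rw [Finset.card_insert_of_notMem (by simp), Nat.odd_add_one, ← ih, h]
      cases par q n <;> simp
    · rw [← ih]
      rw [Bool.not_eq_true] at h
      rw [h]
      cases par q n <;> simp

theorem par_fin (q : ℕ → Bool) :
    par q 18 = true ↔
      Odd ((Finset.univ : Finset (Fin 18)).filter fun v : Fin 18 => q v = true).card := by
  rw [par_odd]
  have h : (Finset.range 18).filter (fun v => q v = true) =
      ((Finset.univ : Finset (Fin 18)).filter fun v : Fin 18 => q v = true).map
        Fin.valEmbedding := by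
    ext v
    simp only [Finset.mem_filter, Finset.mem_range, Finset.mem_map, Finset.mem_univ, true_and,
      Fin.valEmbedding_apply]
    constructor
    · rintro ⟨h1, h2⟩
      exact ⟨⟨v, h1⟩, h2, rfl⟩
    · rintro ⟨i, h1, rfl⟩
      exact ⟨i.2, h1⟩
  rw [h, Finset.card_map]

/-- number of elements of a mask -/
def pc (m : ℕ) : ℕ :=
  @Nat.rec (fun _ => ℕ) 0 (fun i acc => cn (bt m i) (Nat.add acc 1) acc) 18

theorem pc_card (m : ℕ) : pc m = (D m).card := by
  have h1 : ∀ n : ℕ, (@Nat.rec (fun _ => ℕ) 0
      (fun i acc => cn (bt m i) (Nat.add acc 1) acc) n : ℕ)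
      = ((Finset.range n).filter fun v => m.testBit v = true).card := by
    intro n
    induction n with
    | zero => rfl
    | succ n ih =>
      change cn (bt m n) (Nat.add _ 1) _ = _
      rw [ih, cn_eq, bt_eq, Finset.range_add_one, Finset.filter_insert]
      split_ifs with h
      · rw [Finset.card_insert_of_notMem (by simp)]
      · rfl
  have h2 : (Finset.range 18).filter (fun v => m.testBit v = true) =
      (D m).map Fin.valEmbedding := by
    ext v
    simp only [Finset.mem_filter, Finset.mem_range, Finset.mem_map, mem_D,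
      Fin.valEmbedding_apply]
    constructor
    · rintro ⟨h1, h2⟩
      exact ⟨⟨v, h1⟩, h2, rfl⟩
    · rintro ⟨i, h1, rfl⟩
      exact ⟨i.2, h1⟩
  unfold pc
  rw [h1, h2, Finset.card_map]

/-- all extensions of the mask `m` by `k` elements of `U` below `i` satisfy `p` -/
def subs (U : ℕ) (p : ℕ → Bool) (i : ℕ) : ℕ → ℕ → Bool :=
  @Nat.rec (fun _ => ℕ → ℕ → Bool) (fun k m => ic (Nat.beq k 0) (p m) true)
    (fun i ih k m => ic (Nat.beq k 0) (p m)
      (ic (bt U i)
        (ic (fo (Nat.lor m (bi i)) fun m' => fo (Nat.sub k 1) fun k' => ih k' m') (ih k m) false)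
        (ih k m))) i

theorem subs_ok {U : ℕ} {p : ℕ → Bool} (i : ℕ) : ∀ k m : ℕ, subs U p i k m = true →
    ∀ S : Finset (Fin 18), S.card = k → S ⊆ D U → (∀ j ∈ S, (j : ℕ) < i) →
      p (m ||| ms S) = true := by
  have h0 : ∀ m : ℕ, ∀ S : Finset (Fin 18), S.card = 0 → p m = true → p (m ||| ms S) = true := by
    intro m S hS h
    rw [Finset.card_eq_zero] at hS
    rw [hS, ms_empty, Nat.or_zero]
    exact h
  induction i with
  | zero =>
    intro k m h S hS hU hi
    have h1 : S = ∅ :=
      Finset.eq_empty_of_forall_notMem fun j hj => absurd (hi j hj) (Nat.not_lt_zero _)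
    have h2 : k = 0 := by rw [← hS, h1, Finset.card_empty]
    subst h2
    exact h0 m S hS h
  | succ i ih =>
    intro k m h S hS hU hi
    change ic (Nat.beq k 0) (p m) (ic (bt U i)
      (ic (subs U p i (Nat.sub k 1) (Nat.lor m (bi i))) (subs U p i k m) false)
        (subs U p i k m)) = true at h
    rw [ic_eq] at h
    split_ifs at h with hk
    · have hk' : k = 0 := Nat.eq_of_beq_eq_true hk
      exact h0 m S (hS.trans hk') h
    · rw [ic_eq] at h
      by_cases hiS : ∃ j ∈ S, (j : ℕ) = i
      · obtain ⟨j, hj, rfl⟩ := hiS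
        have hUj : bt U j = true := by
          rw [bt_eq]
          exact (mem_D U j).1 (hU hj)
        rw [if_pos hUj, ic_eq] at h
        split_ifs at h with h1
        have h2 := ih (Nat.sub k 1) (Nat.lor m (bi j)) h1 (S.erase j)
          (by
            rw [Finset.card_erase_of_mem hj, hS]
            rfl)
          ((Finset.erase_subset _ _).trans hU)
          (fun a ha => by
            rw [Finset.mem_erase] at ha
            have h3 := hi a ha.2
            have h4 : (a : ℕ) ≠ j := fun e => ha.1 (Fin.ext e)
            omega)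
        have h3 : (Nat.lor m (bi j)) ||| ms (S.erase j) = m ||| ms S := by
          have h4 : ms S = ms (S.erase j) ||| bi j := by
            rw [← ms_insert, Finset.insert_erase hj]
          rw [h4]
          change (m ||| bi j) ||| ms (S.erase j) = _
          rw [Nat.or_assoc, Nat.or_comm (bi j)]
        rw [← h3]
        exact h2
      · have hS' : ∀ j ∈ S, (j : ℕ) < i := by
          intro j hj
          have h1 := hi j hj
          have h2 : (j : ℕ) ≠ i := fun e => hiS ⟨j, hj, e⟩
          omega
        split_ifs at h with h1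
        · rw [ic_eq] at h
          split_ifs at h with h2
          exact ih k m h S hS hU hS'
        · exact ih k m h S hS hU hS'

/-- all subsets of `U` with `k` elements satisfy `p` -/
theorem subs_all {U : ℕ} {p : ℕ → Bool} {k : ℕ} (h : subs U p 18 k 0 = true)
    {S : Finset (Fin 18)} (hS : S.card = k) (hU : S ⊆ D U) : p (ms S) = true := by
  have h1 := subs_ok 18 k 0 h S hS hU fun j _ => j.2
  rwa [Nat.zero_or] at h1

theorem img_lt {tb : Tab} (hg : chkG tb = true) {s : ℕ} (hs : s < 18) (m : ℕ) :
    img tb s m < 2 ^ 18 := by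
  apply Nat.lt_pow_two_of_testBit
  intro j hj
  by_contra hc
  rw [Bool.not_eq_false] at hc
  unfold img at hc
  rw [img_test hg hs m 18 le_rfl j] at hc
  obtain ⟨i, _, _, h3⟩ := hc
  have := (gf tb s i).2
  omega

/-- collect a list of masks -/
def fmk (k : ℕ → Bool) (l : List ℕ) : ℕ → Bool :=
  @List.rec ℕ (fun _ => ℕ → Bool) (fun acc => k acc)
    (fun m _ ih acc => fo (Nat.lor acc (bi m)) fun acc' => ih acc') l

theorem fmk_ok {k : ℕ → Bool} (l : List ℕ) : ∀ acc, fmk k l acc = true → ∃ m, k m = true := by
  induction l with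
  | nil =>
    intro acc h
    exact ⟨acc, h⟩
  | cons m l ih =>
    intro acc h
    exact ih (Nat.lor acc (bi m)) h

/-- collect 5-sets which are not faces -/
def nmk (tb : Tab) (Y : ℕ) (k : ℕ → Bool) (l : List ℕ) : ℕ → Bool :=
  @List.rec ℕ (fun _ => ℕ → Bool) (fun acc => k acc)
    (fun e _ ih acc =>
      ic (bt Y (Nat.add 608 (eid e))) (ic (Nat.blt (eid e) 224) (ic (Nat.blt (eg e) 18)
        (fo (Nat.lor acc (bi (img tb (eg e) (e18 tb.r5 (eid e))))) fun acc' => ih acc')
        false) false) false) l

/-- collect the 4-sets of the cycle; `pr` is the parity of the intersection with `fm` -/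
def zmk (tb : Tab) (X U fm : ℕ) (k : ℕ → Bool → Bool) (l : List ℕ) : ℕ → Bool → Bool :=
  @List.rec ℕ (fun _ => ℕ → Bool → Bool) (fun acc pr => k acc pr)
    (fun e _ ih acc pr =>
      ic (bt X (Nat.add 832 (eid e))) (ic (Nat.blt (eg e) 18)
        (fo (img tb (eg e) (e18 tb.r4 (eid e))) fun m =>
          ic (Nat.beq (Nat.land m U) m) (ic (Nat.beq (pc m) 4) (ic (bt acc m) false
            (fo (Nat.lor acc (bi m)) fun acc' => ih acc' (bx (bt fm m) pr))) false) false)
        false) false) l

/-- the cycle condition at a triple -/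
def t3 (zk t : ℕ) : Bool :=
  ic (par (fun v => ic (bt t v) false (bt zk (Nat.lor t (bi v)))) 18) false true

/-- the condition at a 5-set -/
def t5 (fm nk S : ℕ) : Bool :=
  ic (par (fun v => ic (bt S v) (bt fm (Nat.xor S (bi v))) false) 18)
    (ic (bt nk S) true (ic (Nat.beq (Nat.land S (Nat.shiftRight S 9)) 0) false true)) true

/-- one external clause -/
def kill1 (tb : Tab) (X Y U : ℕ) (z f n : List ℕ) : Bool :=
  ic (Nat.ble (pc U) 13)
    (fmk (fun fm => zmk tb X U fm (fun zk pr => ic pr
      (nmk tb Y (fun nk => ic (subs U (t3 zk) 18 3 0) (subs U (t5 fm nk) 18 5 0) false) n 0)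
        false) z 0 false) f 0) false

variable {tb : Tab} {K : Finset (Finset (Fin 18))} {y : Finset (Fin 18) → ZMod 3}

theorem At4 {i : ℕ} (h : At tb K y (Nat.add 832 i)) : D (e18 tb.r4 i) ∈ K := by
  change At tb K y (832 + i) at h
  unfold At at h
  rw [if_neg (by omega), if_neg (by omega), if_neg (by omega)] at h
  have h1 : 832 + i - 832 = i := by omega
  rw [h1] at h
  exact h.2

theorem At5 {i : ℕ} (hi : i < 224) : At tb K y (Nat.add 608 i) ↔ D (e18 tb.r5 i) ∈ K := by
  change At tb K y (608 + i) ↔ _
  unfold At
  rw [if_neg (by omega), if_neg (by omega), if_pos (by omega)]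
  have h1 : 608 + i - 608 = i := by omega
  rw [h1]

theorem nmk_ok (hg : chkG tb = true) (hG : Good tb K y) {X Y : ℕ} (hs : Sat (At tb K y) X Y)
    {k : ℕ → Bool} (l : List ℕ) : ∀ acc, nmk tb Y k l acc = true →
      (∀ S : Finset (Fin 18), acc.testBit (ms S) = true → S ∉ K) →
      ∃ nk, k nk = true ∧ ∀ S : Finset (Fin 18), nk.testBit (ms S) = true → S ∉ K := by
  induction l with
  | nil =>
    intro acc h hacc
    exact ⟨acc, h, hacc⟩
  | cons e l ih =>
    intro acc h hacc
    change ic (bt Y (Nat.add 608 (eid e))) (ic (Nat.blt (eid e) 224) (ic (Nat.blt (eg e) 18)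
        (nmk tb Y k l (Nat.lor acc (bi (img tb (eg e) (e18 tb.r5 (eid e))))))
        false) false) false = true at h
    rw [ic_eq] at h
    split_ifs at h with h1
    rw [ic_eq] at h
    split_ifs at h with h2
    rw [ic_eq] at h
    split_ifs at h with h3
    have h2' : eid e < 224 := Eq.mp Nat.blt_eq h2
    have h3' : eg e < 18 := Eq.mp Nat.blt_eq h3
    refine ih _ h ?_
    intro S hS
    change (acc ||| bi _ : ℕ).testBit _ = true at hS
    rw [Nat.testBit_or, Bool.or_eq_true, bi_test, decide_eq_true_eq] at hS
    rcases hS with hS | hS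
    · exact hacc S hS
    · rw [bt_eq] at h1
      have h4 := hs.2 _ h1
      rw [At5 h2', ← hG.img_mem hg h3', hS, D_ms] at h4
      exact h4

theorem zmk_ok (hg : chkG tb = true) (hG : Good tb K y) {X Y U fm : ℕ}
    (hs : Sat (At tb K y) X Y) {k : ℕ → Bool → Bool} (l : List ℕ) :
    ∀ acc pr, zmk tb X U fm k l acc pr = true →
      (∀ t : Finset (Fin 18), acc.testBit (ms t) = true → t ∈ K ∧ t.card = 4 ∧ t ⊆ D U) →
      (pr = true ↔ Odd ((Finset.univ : Finset (Finset (Fin 18))).filter fun t =>
        acc.testBit (ms t) = true ∧ fm.testBit (ms t) = true).card) →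
      ∃ zk pr', k zk pr' = true ∧
        (∀ t : Finset (Fin 18), zk.testBit (ms t) = true → t ∈ K ∧ t.card = 4 ∧ t ⊆ D U) ∧
        (pr' = true ↔ Odd ((Finset.univ : Finset (Finset (Fin 18))).filter fun t =>
          zk.testBit (ms t) = true ∧ fm.testBit (ms t) = true).card) := by
  induction l with
  | nil =>
    intro acc pr h h1 h2
    exact ⟨acc, pr, h, h1, h2⟩
  | cons e l ih =>
    intro acc pr h h1 h2
    obtain ⟨m, hm⟩ : ∃ m, m = img tb (eg e) (e18 tb.r4 (eid e)) := ⟨_, rfl⟩
    change ic (bt X (Nat.add 832 (eid e))) (ic (Nat.blt (eg e) 18)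
      (ic (Nat.beq (Nat.land (img tb (eg e) (e18 tb.r4 (eid e))) U)
          (img tb (eg e) (e18 tb.r4 (eid e))))
        (ic (Nat.beq (pc (img tb (eg e) (e18 tb.r4 (eid e)))) 4)
          (ic (bt acc (img tb (eg e) (e18 tb.r4 (eid e)))) false
            (zmk tb X U fm k l (Nat.lor acc (bi (img tb (eg e) (e18 tb.r4 (eid e)))))
              (bx (bt fm (img tb (eg e) (e18 tb.r4 (eid e)))) pr))) false) false)
        false) false = true at h
    rw [ic_eq] at h
    split_ifs at h with h3
    rw [ic_eq] at h
    split_ifs at h with h4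
    have h4' : eg e < 18 := Eq.mp Nat.blt_eq h4
    have hmlt : m < 2 ^ 18 := hm ▸ img_lt hg h4' _
    rw [← hm, ic_eq] at h
    split_ifs at h with h5
    rw [ic_eq] at h
    split_ifs at h with h6
    rw [ic_eq] at h
    split_ifs at h with h7
    have h5' : m &&& U = m := Nat.eq_of_beq_eq_true h5
    have h6' : pc m = 4 := Nat.eq_of_beq_eq_true h6
    rw [pc_card] at h6'
    rw [bt_eq, Bool.not_eq_true] at h7
    have hmK : D m ∈ K := by
      rw [hm, hG.img_mem hg h4']
      rw [bt_eq] at h3
      exact At4 (hs.1 _ h3)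
    have hmU : D m ⊆ D U := by
      intro i hi
      rw [mem_D] at hi ⊢
      rw [← h5', Nat.testBit_and, Bool.and_eq_true] at hi
      exact hi.2
    have key : ∀ t : Finset (Fin 18), (acc ||| bi m).testBit (ms t) = true ↔
        acc.testBit (ms t) = true ∨ t = D m := by
      intro t
      rw [Nat.testBit_or, Bool.or_eq_true, bi_test, decide_eq_true_eq]
      constructor
      · rintro (h8 | h8)
        · exact Or.inl h8
        · exact Or.inr (by rw [h8, D_ms])
      · rintro (h8 | h8)
        · exact Or.inl h8
        · right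
          rw [h8, ms_D hmlt]
    refine ih _ _ h ?_ ?_
    · intro t ht
      rcases (key t).1 ht with h8 | h8
      · exact h1 t h8
      · rw [h8]
        exact ⟨hmK, h6', hmU⟩
    · change _ ↔ Odd ((Finset.univ : Finset (Finset (Fin 18))).filter fun t =>
          (acc ||| bi m).testBit (ms t) = true ∧ fm.testBit (ms t) = true).card
      rw [bx_eq, bt_eq]
      by_cases h8 : fm.testBit m = true
      · have e1 : (Finset.univ : Finset (Finset (Fin 18))).filter (fun t =>
            (acc ||| bi m).testBit (ms t) = true ∧ fm.testBit (ms t) = true) =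
            insert (D m) ((Finset.univ : Finset (Finset (Fin 18))).filter fun t =>
              acc.testBit (ms t) = true ∧ fm.testBit (ms t) = true) := by
          ext t
          simp only [Finset.mem_filter, Finset.mem_univ, true_and, Finset.mem_insert]
          rw [key t]
          constructor
          · rintro ⟨h9 | h9, h10⟩
            · exact Or.inr ⟨h9, h10⟩
            · exact Or.inl h9
          · rintro (h9 | ⟨h9, h10⟩)
            · refine ⟨Or.inr h9, ?_⟩
              rw [h9, ms_D hmlt]
              exact h8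
            · exact ⟨Or.inl h9, h10⟩
        rw [e1, Finset.card_insert_of_notMem, Nat.odd_add_one, ← h2, h8]
        · cases pr <;> simp
        · simp only [Finset.mem_filter, Finset.mem_univ, true_and, not_and]
          intro h9
          rw [ms_D hmlt, h7] at h9
          exact absurd h9 Bool.false_ne_true
      · have e1 : (Finset.univ : Finset (Finset (Fin 18))).filter (fun t =>
            (acc ||| bi m).testBit (ms t) = true ∧ fm.testBit (ms t) = true) =
            (Finset.univ : Finset (Finset (Fin 18))).filter fun t =>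
              acc.testBit (ms t) = true ∧ fm.testBit (ms t) = true := by
          ext t
          simp only [Finset.mem_filter, Finset.mem_univ, true_and]
          rw [key t]
          constructor
          · rintro ⟨h9 | h9, h10⟩
            · exact ⟨h9, h10⟩
            · rw [h9, ms_D hmlt] at h10
              exact absurd h10 h8
          · rintro ⟨h9, h10⟩
            exact ⟨Or.inl h9, h10⟩
        rw [e1, ← h2]
        rw [Bool.not_eq_true] at h8
        rw [h8]
        cases pr <;> simp

/-- soundness of the external clauses -/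
theorem kill1_sound (hg : chkG tb = true) (hG : Good tb K y) {X Y U : ℕ} {z f n : List ℕ}
    (h : kill1 tb X Y U z f n = true) : ¬ Sat (At tb K y) X Y := by
  intro hs
  unfold kill1 at h
  rw [ic_eq] at h
  split_ifs at h with h1
  have hU : (D U).card ≤ 13 := by
    rw [← pc_card]
    exact Nat.le_of_ble_eq_true h1
  obtain ⟨fm, h2⟩ := fmk_ok f 0 h
  obtain ⟨zk, pr, h3, h4, h5⟩ := zmk_ok (K := K) (y := y) hg hG hs z 0 false h2
    (fun t ht => by
      rw [Nat.zero_testBit] at ht
      exact absurd ht Bool.false_ne_true)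
    (by
      simp [Nat.zero_testBit])
  rw [ic_eq] at h3
  split_ifs at h3 with h6
  obtain ⟨nk, h7, h8⟩ := nmk_ok (K := K) (y := y) hg hG hs n 0 h3
    (fun t ht => by
      rw [Nat.zero_testBit] at ht
      exact absurd ht Bool.false_ne_true)
  rw [ic_eq] at h7
  split_ifs at h7 with h9
  obtain ⟨Z, hZ⟩ : ∃ Z : Finset (Finset (Fin 18)), ∀ t, t ∈ Z ↔ zk.testBit (ms t) = true :=
    ⟨Finset.univ.filter fun t => zk.testBit (ms t) = true, fun t => by simp⟩
  obtain ⟨F, hF⟩ : ∃ F : Finset (Finset (Fin 18)), ∀ t, t ∈ F ↔ fm.testBit (ms t) = true :=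
    ⟨Finset.univ.filter fun t => fm.testBit (ms t) = true, fun t => by simp⟩
  obtain ⟨S, hSK, hS5, hSU, hSo⟩ := h3rule hG.hyp (U := D U) hU Z F
    (fun t ht => h4 t ((hZ t).1 ht))
    (by
      intro τ hτ
      by_cases hτU : τ ⊆ D U
      · have h10 := subs_all h9 hτ hτU
        unfold t3 at h10
        rw [ic_eq] at h10
        split_ifs at h10 with h11
        rw [par_fin, Nat.not_odd_iff_even] at h11
        have e1 : (Z.filter fun t => τ ⊆ t).card =
            ((Finset.univ : Finset (Fin 18)).filter fun v : Fin 18 =>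
              ic (bt (ms τ) v) false (bt zk (Nat.lor (ms τ) (bi v))) = true).card := by
          symm
          refine Finset.card_bij (fun v _ => insert v τ) ?_ ?_ ?_
          · intro v hv
            rw [Finset.mem_filter, ic_eq, bt_eq, ms_test] at hv
            have hv2 := hv.2
            split_ifs at hv2 with h12
            rw [Finset.mem_filter, hZ, ms_insert]
            rw [bt_eq] at hv2
            exact ⟨hv2, Finset.subset_insert _ _⟩
          · intro v hv w hw e
            rw [Finset.mem_filter, ic_eq, bt_eq, ms_test] at hv hw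
            have hv2 := hv.2
            split_ifs at hv2 with h12
            rw [decide_eq_true_eq] at h12
            have h13 : v ∈ insert w τ := by
              rw [← e]
              exact Finset.mem_insert_self _ _
            rcases Finset.mem_insert.1 h13 with h14 | h14
            · exact h14
            · exact absurd h14 h12
          · intro t ht
            rw [Finset.mem_filter, hZ] at ht
            obtain ⟨h12, h13⟩ := ht
            obtain ⟨h14, h15, h16⟩ := h4 t h12
            have h17 : (t \ τ).card = 1 := by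
              rw [Finset.card_sdiff_of_subset h13]
              omega
            obtain ⟨v, hv⟩ := Finset.card_eq_one.1 h17
            have h18 : v ∈ t \ τ := by
              rw [hv]
              exact Finset.mem_singleton_self _
            rw [Finset.mem_sdiff] at h18
            have h19 : insert v τ = t := by
              rw [Finset.insert_eq, ← hv, Finset.sdiff_union_of_subset h13]
            refine ⟨v, ?_, h19⟩
            rw [Finset.mem_filter, ic_eq, bt_eq, ms_test, if_neg (by
              rw [decide_eq_true_eq]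
              exact h18.2), bt_eq]
            refine ⟨Finset.mem_univ _, ?_⟩
            change zk.testBit (ms τ ||| bi v) = true
            rw [← ms_insert, h19]
            exact h12
        rw [e1]
        exact h11
      · have e1 : (Z.filter fun t => τ ⊆ t) = ∅ := by
          rw [Finset.eq_empty_iff_forall_notMem]
          intro t ht
          rw [Finset.mem_filter, hZ] at ht
          exact hτU (ht.2.trans (h4 t ht.1).2.2)
        rw [e1]
        exact ⟨0, rfl⟩)
    (by
      have e1 : (Z.filter fun t => t ∈ F) =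
          (Finset.univ : Finset (Finset (Fin 18))).filter fun t =>
            zk.testBit (ms t) = true ∧ fm.testBit (ms t) = true := by
        ext t
        rw [Finset.mem_filter, hZ, hF]
        simp
      rw [e1]
      exact h5.1 h6)
  have h10 := subs_all h7 hS5 hSU
  unfold t5 at h10
  rw [ic_eq] at h10
  have e2 : ((S.powersetCard 4).filter fun t => t ∈ F).card =
      ((Finset.univ : Finset (Fin 18)).filter fun v : Fin 18 =>
        ic (bt (ms S) v) (bt fm (Nat.xor (ms S) (bi v))) false = true).card := by
    symm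
    refine Finset.card_bij (fun v _ => S.erase v) ?_ ?_ ?_
    · intro v hv
      rw [Finset.mem_filter, ic_eq, bt_eq, ms_test] at hv
      have hv2 := hv.2
      split_ifs at hv2 with h12
      rw [decide_eq_true_eq] at h12
      rw [bt_eq] at hv2
      rw [Finset.mem_filter, Finset.mem_powersetCard, hF, ms_erase h12]
      refine ⟨⟨Finset.erase_subset _ _, ?_⟩, hv2⟩
      rw [Finset.card_erase_of_mem h12, hS5]
    · intro v hv w hw e
      rw [Finset.mem_filter, ic_eq, bt_eq, ms_test] at hv hw
      have hv2 := hv.2
      split_ifs at hv2 with h12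
      rw [decide_eq_true_eq] at h12
      by_contra hne
      have h13 : v ∈ S.erase w := Finset.mem_erase.2 ⟨hne, h12⟩
      rw [← e] at h13
      exact Finset.notMem_erase _ _ h13
    · intro t ht
      rw [Finset.mem_filter, Finset.mem_powersetCard, hF] at ht
      obtain ⟨⟨h12, h13⟩, h14⟩ := ht
      have h17 : (S \ t).card = 1 := by
        rw [Finset.card_sdiff_of_subset h12]
        omega
      obtain ⟨v, hv⟩ := Finset.card_eq_one.1 h17
      have h18 : v ∈ S \ t := by
        rw [hv]
        exact Finset.mem_singleton_self _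
      rw [Finset.mem_sdiff] at h18
      have h19 : S.erase v = t := by
        rw [Finset.erase_eq, ← hv, Finset.sdiff_sdiff_eq_self h12]
      refine ⟨v, ?_, h19⟩
      rw [Finset.mem_filter, ic_eq, bt_eq, ms_test, if_pos (by
        rw [decide_eq_true_eq]
        exact h18.1), bt_eq]
      refine ⟨Finset.mem_univ _, ?_⟩
      change fm.testBit (ms S ^^^ bi v) = true
      rw [← ms_erase h18.1, h19]
      exact h14
  rw [if_pos (by
    rw [par_fin, ← e2]
    exact hSo), ic_eq] at h10
  split_ifs at h10 with h11
  · rw [bt_eq] at h11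
    exact h8 S h11 hSK
  · rw [ic_eq] at h10
    split_ifs at h10 with h12
    -- an antipodal pair
    have h13 : ms S &&& (ms S >>> 9) ≠ 0 := fun e => h12 (by
      change Nat.beq (ms S &&& (ms S >>> 9)) 0 = true
      rw [e]
      rfl)
    obtain ⟨i, hi⟩ := Nat.exists_testBit_of_ne_zero h13
    rw [Nat.testBit_and, Bool.and_eq_true, Nat.testBit_shiftRight] at hi
    obtain ⟨h14, h15⟩ := hi
    have h16 : 9 + i < 18 := by
      by_contra hc
      rw [ms_ge S (by omega)] at h15
      exact Bool.false_ne_true h15
    have h17 : (⟨i, by omega⟩ : Fin 18) ∈ S := by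
      have := ms_test S ⟨i, by omega⟩
      rw [h14] at this
      exact of_decide_eq_true this.symm
    have h18 : (⟨9 + i, h16⟩ : Fin 18) ∈ S := by
      have := ms_test S ⟨9 + i, h16⟩
      rw [h15] at this
      exact of_decide_eq_true this.symm
    have h19 := hG.hyp.noa S hSK _ h17
    apply h19
    have h20 : ∀ i : ℕ, ∀ (h21 : i < 18) (h22 : 9 + i < 18),
        Pool.Agent.H53.AEG.α9 ⟨i, h21⟩ = ⟨9 + i, h22⟩ := by
      intro i h21 h22
      rw [Pool.Agent.H53.AEG.α9_apply]
      apply Fin.ext
      rw [Fin.val_add]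
      change (i + 9) % 18 = 9 + i
      omega
    rw [h20 i _ h16]
    exact h18

end H23.LZ.Ck
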