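import Pool.Agent.H23.LZ.Defs

/-!
# The dual form of `H_2(K; F_3) = 0`
-/

namespace H23.LZ

open H40.VT

/-- the boundary and the coboundary are adjoint -/
theorem coch_adj {R : Type*} [CommRing R] {N : ℕ} (c e : Finset (Fin N) → R) :
    ∑ τ, c τ * obd e τ =
      ∑ S, e S * ∑ v ∈ S, (-1 : R) ^ (S.filter fun u => u < v).card * c (S.erase v) := by
  unfold obd
  simp only [Finset.mul_sum]
  rw [Finset.sum_sigma', Finset.sum_sigma']
  refine Finset.sum_bij' (fun p _ => ⟨insert p.2 p.1, p.2⟩) (fun p _ => ⟨p.1.erase p.2, p.2⟩)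
    ?_ ?_ ?_ ?_ ?_
  · rintro ⟨τ, v⟩ _
    simp only [Finset.mem_sigma, Finset.mem_univ, true_and]
    exact Finset.mem_insert_self _ _
  · rintro ⟨S, v⟩ _
    simp only [Finset.mem_sigma, Finset.mem_univ, true_and, Finset.mem_compl]
    exact Finset.notMem_erase _ _
  · rintro ⟨τ, v⟩ h
    simp only [Finset.mem_sigma, Finset.mem_univ, true_and, Finset.mem_compl] at h
    simp only [Finset.erase_insert h]
  · rintro ⟨S, v⟩ h
    simp only [Finset.mem_sigma, Finset.mem_univ, true_and] at h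
    simp only [Finset.insert_erase h]
  · rintro ⟨τ, v⟩ h
    simp only [Finset.mem_sigma, Finset.mem_univ, true_and, Finset.mem_compl] at h
    simp only [Finset.erase_insert h]
    rw [ord_filter_insert]
    ring

variable {K : Finset (Finset (Fin 18))} {α : Equiv.Perm (Fin 18)}

theorem coch (h : Hyp K α) (c : Finset (Fin 18) → ZMod 3)
    (hz : ∀ S ∈ K, S.card = 4 →
      ∑ v ∈ S, (-1 : ZMod 3) ^ (S.filter fun u => u < v).card * c (S.erase v) = 0)
    (S : Finset (Fin 18)) (hS : S.card = 4) (ha : ∀ i ∈ S, α i ∉ S) :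
    ∑ v ∈ S, (-1 : ZMod 3) ^ (S.filter fun u => u < v).card * c (S.erase v) = 0 := by
  obtain ⟨hK, h0, hh⟩ := h.sph
  -- the boundary of `S` is a cycle of `K`
  have hz1 : OIn K 3 (obd (Pi.single S (1 : ZMod 3) : Finset (Fin 18) → ZMod 3)) := by
    intro τ hτ
    unfold obd at hτ
    obtain ⟨v, hv, hv'⟩ := Finset.exists_ne_zero_of_sum_ne_zero hτ
    rw [Finset.mem_compl] at hv
    have h1 : insert v τ = S := by
      by_contra h2
      rw [Pi.single_eq_of_ne h2, mul_zero] at hv'
      exact hv' rfl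
    have h2 : τ.card = 3 := by
      have h3 := Finset.card_insert_of_notMem hv
      rw [h1, hS] at h3
      omega
    refine ⟨h.ngb τ h2 ?_, h2⟩
    intro i hi h3
    refine ha i ?_ ?_
    · rw [← h1]
      exact Finset.mem_insert_of_mem hi
    · rw [← h1]
      exact Finset.mem_insert_of_mem h3
  have hacy : OAcy (ZMod 3) K 3 := by
    have h1 := link_acy (R := ZMod 3) hK h0 hh h0 (n := 3) (by simp)
    rwa [lk_empty] at h1
  obtain ⟨b, hb1, hb2⟩ := hacy _ hz1 (obd_obd _)
  have e1 := coch_adj c (Pi.single S (1 : ZMod 3))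
  have e2 := coch_adj c b
  rw [hb2] at e2
  rw [e1] at e2
  have e3 : ∑ S', (Pi.single S (1 : ZMod 3) : Finset (Fin 18) → ZMod 3) S' *
      ∑ v ∈ S', (-1 : ZMod 3) ^ (S'.filter fun u => u < v).card * c (S'.erase v) =
      ∑ v ∈ S, (-1 : ZMod 3) ^ (S.filter fun u => u < v).card * c (S.erase v) := by
    rw [Finset.sum_eq_single S]
    · rw [Pi.single_eq_same, one_mul]
    · intro S' _ h1
      rw [Pi.single_eq_of_ne h1, zero_mul]
    · intro h1
      exact absurd (Finset.mem_univ _) h1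
  rw [← e3, e2]
  apply Finset.sum_eq_zero
  intro S' _
  by_cases h1 : b S' = 0
  · rw [h1, zero_mul]
  · obtain ⟨h2, h3⟩ := hb1 S' h1
    rw [hz S' h2 h3, mul_zero]

end H23.LZ
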