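import Pool.Agent.H23.LZ.Defs

/-!
# The number of facets
-/

namespace H23.LZ

open H40.VT

theorem Count_link {K : Finset (Finset (Fin 18))} (hK : DC K) {σ : Finset (Fin 18)} (j k : ℕ)
    (hc : σ.card = k) :
    ((K.filter fun ρ => ρ.card = j + k).bipartiteAbove (fun σ ρ => σ ⊆ ρ) σ).card =
      ((lk K σ).filter fun τ => τ.card = j).card := by
  classical
  symm
  refine Finset.card_bij (fun τ _ => τ ∪ σ) ?_ ?_ ?_
  · intro τ hτ
    rw [Finset.mem_filter, mem_lk] at hτ
    rw [Finset.mem_bipartiteAbove, Finset.mem_filter, Finset.card_union_of_disjoint hτ.1.1, hτ.2, hc]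
    exact ⟨⟨hτ.1.2, rfl⟩, Finset.subset_union_right⟩
  · intro τ hτ τ' hτ' e
    rw [Finset.mem_filter, mem_lk] at hτ hτ'
    have e1 : (τ ∪ σ) \ σ = τ := Finset.union_sdiff_cancel_right hτ.1.1
    have e2 : (τ' ∪ σ) \ σ = τ' := Finset.union_sdiff_cancel_right hτ'.1.1
    rw [← e1, ← e2]
    exact congrArg (· \ σ) e
  · intro ρ hρ
    rw [Finset.mem_bipartiteAbove, Finset.mem_filter] at hρ
    refine ⟨ρ \ σ, ?_, Finset.sdiff_union_of_subset hρ.2⟩
    rw [Finset.mem_filter, mem_lk, Finset.sdiff_union_of_subset hρ.2,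
      Finset.card_sdiff_of_subset hρ.2, hρ.1.2, hc]
    exact ⟨⟨Finset.sdiff_disjoint, hρ.1.1⟩, by omega⟩

theorem Count_double {K : Finset (Finset (Fin 18))} (hK : DC K) (j k : ℕ) :
    ∑ σ ∈ K.filter (fun σ => σ.card = k), ((lk K σ).filter fun τ => τ.card = j).card =
      (K.filter fun ρ => ρ.card = j + k).card * (j + k).choose k := by
  classical
  have h1 := Finset.sum_card_bipartiteAbove_eq_sum_card_bipartiteBelow
    (fun σ ρ : Finset (Fin 18) => σ ⊆ ρ)
    (s := K.filter fun σ => σ.card = k) (t := K.filter fun ρ => ρ.card = j + k)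
  rw [Finset.sum_congr rfl (fun σ hσ => Count_link hK j k (Finset.mem_filter.1 hσ).2)] at h1
  rw [h1, Finset.sum_congr rfl (g := fun _ => (j + k).choose k), Finset.sum_const, smul_eq_mul]
  intro ρ hρ
  rw [Finset.mem_filter] at hρ
  have e : (K.filter fun σ => σ.card = k).bipartiteBelow (fun σ ρ => σ ⊆ ρ) ρ
      = ρ.powersetCard k := by
    ext σ
    rw [Finset.mem_bipartiteBelow, Finset.mem_filter, Finset.mem_powersetCard]
    constructor
    · exact fun hh => ⟨hh.2, hh.1.2⟩
    · exact fun hh => ⟨⟨hK ρ hρ.1 σ hh.1, hh.2⟩, hh.1⟩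
  rw [e, Finset.card_powersetCard, hρ.2]

variable {K : Finset (Finset (Fin 18))} {α : Equiv.Perm (Fin 18)}

/-- the faces with at most three vertices are the antipode-free sets -/
theorem Count_small (h : Hyp K α) {τ : Finset (Fin 18)} (hc : τ.card ≤ 3) :
    τ ∈ K ↔ ∀ i ∈ τ, α i ∉ τ := by
  classical
  refine ⟨fun ht => h.noa τ ht, ?_⟩
  -- downward induction on the number of missing vertices
  have key : ∀ m : ℕ, ∀ τ : Finset (Fin 18), τ.card + m = 3 → (∀ i ∈ τ, α i ∉ τ) → τ ∈ K := by
    intro m
    induction m with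
    | zero => exact fun τ hτ ha => h.ngb τ hτ ha
    | succ m ih =>
      intro τ hτ ha
      obtain ⟨v, hv⟩ : ∃ v, v ∉ τ ∪ τ.image α := by
        by_contra hn
        push Not at hn
        have h1 : (Finset.univ : Finset (Fin 18)).card ≤ (τ ∪ τ.image α).card :=
          Finset.card_le_card fun v _ => hn v
        have h2 := Finset.card_union_le τ (τ.image α)
        have h3 := Finset.card_image_le (s := τ) (f := α)
        rw [Finset.card_univ, Fintype.card_fin] at h1
        omega
      rw [Finset.mem_union, not_or] at hv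
      have hva : α v ∉ τ := by
        intro hh
        exact hv.2 (Finset.mem_image.2 ⟨α v, hh, h.inv v⟩)
      refine h.sph.1 (insert v τ) (ih (insert v τ) ?_ ?_) τ (Finset.subset_insert _ _)
      · rw [Finset.card_insert_of_notMem hv.1]
        omega
      · intro i hi
        rw [Finset.mem_insert] at hi ⊢
        rcases hi with rfl | hi
        · rintro (e | e)
          · exact h.free _ e
          · exact hva e
        · rintro (e | e)
          · exact hv.2 (Finset.mem_image.2 ⟨i, hi, e⟩)
          · exact ha i hi e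
  exact fun ha => key (3 - τ.card) τ (by omega) ha

theorem Count_verts (h : Hyp K α) {σ : Finset (Fin 18)} (hσ : σ ∈ K) (hc : σ.card ≤ 2) :
    ((lk K σ).filter fun τ => τ.card = 1).card = 18 - 2 * σ.card := by
  classical
  rw [Cor_card_one]
  have e : (Finset.univ.filter fun v => {v} ∈ lk K σ) = (σ ∪ σ.image α)ᶜ := by
    ext v
    rw [Finset.mem_filter, Cor_vert, Finset.mem_compl, Finset.mem_union, not_or]
    constructor
    · rintro ⟨_, hv, hK⟩
      refine ⟨hv, fun hh => ?_⟩
      obtain ⟨i, hi, rfl⟩ := Finset.mem_image.1 hh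
      exact h.noa _ hK i (Finset.mem_insert_of_mem hi) (Finset.mem_insert_self _ _)
    · rintro ⟨hv, hva⟩
      refine ⟨Finset.mem_univ v, hv, ?_⟩
      rw [Count_small h (by rw [Finset.card_insert_of_notMem hv]; omega)]
      have ha := h.noa σ hσ
      have hva' : α v ∉ σ := by
        intro hh
        exact hva (Finset.mem_image.2 ⟨α v, hh, h.inv v⟩)
      intro i hi
      rw [Finset.mem_insert] at hi ⊢
      rcases hi with rfl | hi
      · rintro (e | e)
        · exact h.free _ e
        · exact hva' e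
      · rintro (e | e)
        · exact hva (Finset.mem_image.2 ⟨i, hi, e⟩)
        · exact ha i hi e
  have hd : Disjoint σ (σ.image α) := by
    rw [Finset.disjoint_left]
    intro i hi hh
    obtain ⟨i', hi', e⟩ := Finset.mem_image.1 hh
    exact h.noa σ hσ i' hi' (e ▸ hi)
  rw [e, Finset.card_compl, Finset.card_union_of_disjoint hd,
    Finset.card_image_of_injective _ α.injective, Fintype.card_fin]
  omega

theorem Count_step (h : Hyp K α) (k : ℕ) (hk : k ≤ 2) :
    (K.filter fun σ => σ.card = 1 + k).card * (1 + k) =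
      (K.filter fun σ => σ.card = k).card * (18 - 2 * k) := by
  have h1 := Count_double h.sph.1 1 k
  have h2 : (1 + k).choose k = 1 + k := by
    rw [Nat.add_comm 1 k, Nat.choose_succ_self_right]
  rw [h2] at h1
  rw [← h1, Finset.sum_congr rfl (g := fun _ => 18 - 2 * k), Finset.sum_const, smul_eq_mul]
  intro σ hσ
  rw [Finset.mem_filter] at hσ
  rw [Count_verts h hσ.1 (by omega), hσ.2]

theorem facet_count (h : Hyp K α) : (K.filter fun σ => σ.card = 6).card = 420 := by
  classical
  have f0 : (K.filter fun σ => σ.card = 0).card = 1 := Cor_card_zero h.sph.2.1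
  have s1 := Count_step h 0 (by omega)
  have s2 := Count_step h 1 (by omega)
  have s3 := Count_step h 2 (by omega)
  -- the Euler relation
  have e0 := Cor_euler h.sph h.sph.2.1 (m := 6) (by simp)
  rw [lk_empty] at e0
  -- the Euler relation of the links of the edges
  have e2 : ∑ σ ∈ K.filter (fun σ => σ.card = 2),
      ∑ k ∈ Finset.range 5, (-1 : ℤ) ^ k * (((lk K σ).filter fun τ => τ.card = k).card : ℤ)
      = ∑ σ ∈ K.filter (fun σ => σ.card = 2), (1 : ℤ) := by
    refine Finset.sum_congr rfl fun σ hσ => ?_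
    rw [Finset.mem_filter] at hσ
    rw [Cor_euler h.sph hσ.1 (m := 4) (by omega)]
    norm_num
  rw [Finset.sum_comm, Finset.sum_const, nsmul_eq_mul, mul_one] at e2
  have e4 : ∑ σ ∈ K.filter (fun σ => σ.card = 5), ((lk K σ).filter fun τ => τ.card = 1).card
      = ∑ σ ∈ K.filter (fun σ => σ.card = 5), 2 := by
    refine Finset.sum_congr rfl fun σ hσ => ?_
    rw [Finset.mem_filter] at hσ
    rw [Cor_card_one, ← ridge h.sph hσ.1 (by omega)]
    exact congrArg Finset.card (Finset.filter_congr fun v _ => Cor_vert)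
  have d0 := Count_double h.sph.1 0 2
  have d1 := Count_double h.sph.1 1 2
  have d2 := Count_double h.sph.1 2 2
  have d3 := Count_double h.sph.1 3 2
  have d4 := Count_double h.sph.1 4 2
  have d5 := Count_double h.sph.1 1 5
  rw [e4, Finset.sum_const, smul_eq_mul] at d5
  simp only [Finset.sum_range_succ, Finset.sum_range_zero, ← Finset.mul_sum, ← Nat.cast_sum] at e0 e2
  rw [d0, d1, d2, d3, d4] at e2
  simp only [Nat.reduceAdd, Nat.add_zero, Nat.zero_add] at *
  have c0 : (2 : ℕ).choose 2 = 1 := by decide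
  have c1 : (3 : ℕ).choose 2 = 3 := by decide
  have c2 : (4 : ℕ).choose 2 = 6 := by decide
  have c3 : (5 : ℕ).choose 2 = 10 := by decide
  have c4 : (6 : ℕ).choose 2 = 15 := by decide
  have c5 : (6 : ℕ).choose 5 = 6 := by decide
  rw [c0, c1, c2, c3, c4] at e2
  rw [c5] at d5
  rw [f0] at e0 s1
  clear d0 d1 d2 d3 d4 e4 c0 c1 c2 c3 c4 c5 f0
  generalize (K.filter fun σ => σ.card = 1).card = g1 at *
  generalize (K.filter fun σ => σ.card = 2).card = g2 at *
  generalize (K.filter fun σ => σ.card = 3).card = g3 at *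
  generalize (K.filter fun σ => σ.card = 4).card = g4 at *
  generalize (K.filter fun σ => σ.card = 5).card = g5 at *
  generalize (K.filter fun σ => σ.card = 6).card = g6 at *
  push_cast at e0 e2
  norm_num at e0 e2
  omega

end H23.LZ
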