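import Pool.Agent.H40.VT.Cor

/-!
# Standing hypotheses for the counterexample d = 6, v = 9
-/

namespace H23.LZ

open H40.VT

/-- centrally symmetric neighborly triangulated sphere of dimension 5 with 18 vertices -/
structure Hyp (K : Finset (Finset (Fin 18))) (α : Equiv.Perm (Fin 18)) : Prop where
  sph : Sph 6 K
  inv : ∀ i, α (α i) = i
  free : ∀ i, α i ≠ i
  alK : ∀ σ, σ ∈ K ↔ σ.image α ∈ K
  noa : ∀ σ ∈ K, ∀ i ∈ σ, α i ∉ σ
  ngb : ∀ τ : Finset (Fin 18), τ.card = 3 → (∀ i ∈ τ, α i ∉ τ) → τ ∈ K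

end H23.LZ
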