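import Pool.Agent.H23.LZ.Asm2
import Pool.Agent.H23.LZ.PC0
import Pool.Agent.H23.LZ.PC1
import Pool.Agent.H23.LZ.PC2
import Pool.Agent.H23.LZ.PC3
import Pool.Agent.H23.LZ.PC4
import Pool.Agent.H23.LZ.PC5
import Pool.Agent.H23.LZ.PC6
import Pool.Agent.H23.LZ.PC7
import Pool.Agent.H23.LZ.PC8
import Pool.Agent.H23.LZ.PC9
import Pool.Agent.H23.LZ.PC10
import Pool.Agent.H23.LZ.PC11
import Pool.Agent.H23.LZ.PC12
import Pool.Agent.H23.LZ.PC13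
import Pool.Agent.H23.LZ.PCS
import Pool.Agent.H23.LZ.PZ0
import Pool.Agent.H23.LZ.PZ1
import Pool.Agent.H23.LZ.PZ2
import Pool.Agent.H23.LZ.PZ3
import Pool.Agent.H23.LZ.PZ4
import Pool.Agent.H23.LZ.PZ5
import Pool.Agent.H23.LZ.PZ6
import Pool.Agent.H23.LZ.PZS

/-!
# No complex for the two groups
-/

namespace H23.LZ.Ck

open H40.VT St Pool.Agent.H53.AEG

set_option maxRecDepth 100000

/-- the first twelve clauses agree -/
def p12 (i : ℕ) : Bool :=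
  ic (Nat.beq (row cXT i) (row cXt i)) (Nat.beq (row cXF i) (row cXf i)) false

/-- the first twelve clauses agree -/
def b12 : Bool := @Nat.rec (fun _ => Bool) true (fun i acc => ic (p12 i) acc false) 12

theorem b12_ok : b12 = true := by decide +kernel

theorem h12 : ∀ j < 12, row cXT j = row cXt j ∧ row cXF j = row cXf j := by
  intro j hj
  have h1 : p12 j = true := chk_all b12_ok j hj
  unfold p12 at h1
  rw [ic_eq] at h1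
  split_ifs at h1 with h2
  exact ⟨Nat.eq_of_beq_eq_true h2, Nat.eq_of_beq_eq_true h1⟩

attribute [local irreducible] check row

theorem hpc' : ∀ n, 12 ≤ n → n < 99 → ∃ cert,
    check cTab cXT cXF 12 cert (row cXT n) (row cXF n) = true := by
  intro n h1 h2
  interval_cases n
  · exact ⟨pc0L, pc0⟩
  · exact ⟨pc1L, pc1⟩
  · exact ⟨pc2L, pc2⟩
  · exact ⟨pc3L, pc3⟩
  · exact ⟨pc4L, pc4⟩
  · exact ⟨pc5L, pc5⟩
  · exact ⟨pc6L, pc6⟩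
  · exact ⟨pc7L, pc7⟩
  · exact ⟨pc8L, pc8⟩
  · exact ⟨pc9L, pc9⟩
  · exact ⟨pc10L, pc10⟩
  · exact ⟨pc11L, pc11⟩
  · exact ⟨pc12L, pc12⟩
  · exact ⟨pc13L, pc13⟩
  · exact ⟨pc14L, pc14⟩
  · exact ⟨pc15L, pc15⟩
  · exact ⟨pc16L, pc16⟩
  · exact ⟨pc17L, pc17⟩
  · exact ⟨pc18L, pc18⟩
  · exact ⟨pc19L, pc19⟩
  · exact ⟨pc20L, pc20⟩
  · exact ⟨pc21L, pc21⟩
  · exact ⟨pc22L, pc22⟩
  · exact ⟨pc23L, pc23⟩
  · exact ⟨pc24L, pc24⟩
  · exact ⟨pc25L, pc25⟩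
  · exact ⟨pc26L, pc26⟩
  · exact ⟨pc27L, pc27⟩
  · exact ⟨pc28L, pc28⟩
  · exact ⟨pc29L, pc29⟩
  · exact ⟨pc30L, pc30⟩
  · exact ⟨pc31L, pc31⟩
  · exact ⟨pc32L, pc32⟩
  · exact ⟨pc33L, pc33⟩
  · exact ⟨pc34L, pc34⟩
  · exact ⟨pc35L, pc35⟩
  · exact ⟨pc36L, pc36⟩
  · exact ⟨pc37L, pc37⟩
  · exact ⟨pc38L, pc38⟩
  · exact ⟨pc39L, pc39⟩
  · exact ⟨pc40L, pc40⟩
  · exact ⟨pc41L, pc41⟩
  · exact ⟨pc42L, pc42⟩
  · exact ⟨pc43L, pc43⟩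
  · exact ⟨pc44L, pc44⟩
  · exact ⟨pc45L, pc45⟩
  · exact ⟨pc46L, pc46⟩
  · exact ⟨pc47L, pc47⟩
  · exact ⟨pc48L, pc48⟩
  · exact ⟨pc49L, pc49⟩
  · exact ⟨pc50L, pc50⟩
  · exact ⟨pc51L, pc51⟩
  · exact ⟨pc52L, pc52⟩
  · exact ⟨pc53L, pc53⟩
  · exact ⟨pc54L, pc54⟩
  · exact ⟨pc55L, pc55⟩
  · exact ⟨pc56L, pc56⟩
  · exact ⟨pc57L, pc57⟩
  · exact ⟨pc58L, pc58⟩
  · exact ⟨pc59L, pc59⟩
  · exact ⟨pc60L, pc60⟩
  · exact ⟨pc61L, pc61⟩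
  · exact ⟨pc62L, pc62⟩
  · exact ⟨pc63L, pc63⟩
  · exact ⟨pc64L, pc64⟩
  · exact ⟨pc65L, pc65⟩
  · exact ⟨pc66L, pc66⟩
  · exact ⟨pc67L, pc67⟩
  · exact ⟨pc68L, pc68⟩
  · exact ⟨pc69L, pc69⟩
  · exact ⟨pc70L, pc70⟩
  · exact ⟨pc71L, pc71⟩
  · exact ⟨pc72L, pc72⟩
  · exact ⟨pc73L, pc73⟩
  · exact ⟨pc74L, pc74⟩
  · exact ⟨pc75L, pc75⟩
  · exact ⟨pc76L, pc76⟩
  · exact ⟨pc77L, pc77⟩
  · exact ⟨pc78L, pc78⟩
  · exact ⟨pc79L, pc79⟩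
  · exact ⟨pc80L, pc80⟩
  · exact ⟨pc81L, pc81⟩
  · exact ⟨pc82L, pc82⟩
  · exact ⟨pc83L, pc83⟩
  · exact ⟨pc84L, pc84⟩
  · exact ⟨pc85L, pc85⟩
  · exact ⟨pc86L, pc86⟩

theorem hpc : ∀ j < 87, ∃ cert,
    check cTab cXT cXF 12 cert (row cXT (12 + j)) (row cXF (12 + j)) = true :=
  fun j hj => hpc' (12 + j) (Nat.le_add_right 12 j) (by omega)

theorem hpz : ∀ j < 44, ∃ cert, check zTab zXT zXF 0 cert (row zXT j) (row zXF j) = true := by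
  intro j hj
  interval_cases j
  · exact ⟨pz0L, pz0⟩
  · exact ⟨pz1L, pz1⟩
  · exact ⟨pz2L, pz2⟩
  · exact ⟨pz3L, pz3⟩
  · exact ⟨pz4L, pz4⟩
  · exact ⟨pz5L, pz5⟩
  · exact ⟨pz6L, pz6⟩
  · exact ⟨pz7L, pz7⟩
  · exact ⟨pz8L, pz8⟩
  · exact ⟨pz9L, pz9⟩
  · exact ⟨pz10L, pz10⟩
  · exact ⟨pz11L, pz11⟩
  · exact ⟨pz12L, pz12⟩
  · exact ⟨pz13L, pz13⟩
  · exact ⟨pz14L, pz14⟩
  · exact ⟨pz15L, pz15⟩
  · exact ⟨pz16L, pz16⟩
  · exact ⟨pz17L, pz17⟩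
  · exact ⟨pz18L, pz18⟩
  · exact ⟨pz19L, pz19⟩
  · exact ⟨pz20L, pz20⟩
  · exact ⟨pz21L, pz21⟩
  · exact ⟨pz22L, pz22⟩
  · exact ⟨pz23L, pz23⟩
  · exact ⟨pz24L, pz24⟩
  · exact ⟨pz25L, pz25⟩
  · exact ⟨pz26L, pz26⟩
  · exact ⟨pz27L, pz27⟩
  · exact ⟨pz28L, pz28⟩
  · exact ⟨pz29L, pz29⟩
  · exact ⟨pz30L, pz30⟩
  · exact ⟨pz31L, pz31⟩
  · exact ⟨pz32L, pz32⟩
  · exact ⟨pz33L, pz33⟩
  · exact ⟨pz34L, pz34⟩
  · exact ⟨pz35L, pz35⟩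
  · exact ⟨pz36L, pz36⟩
  · exact ⟨pz37L, pz37⟩
  · exact ⟨pz38L, pz38⟩
  · exact ⟨pz39L, pz39⟩
  · exact ⟨pz40L, pz40⟩
  · exact ⟨pz41L, pz41⟩
  · exact ⟨pz42L, pz42⟩
  · exact ⟨pz43L, pz43⟩

theorem eq_of_beq {a b : ℕ} (h : Nat.beq a b = true) : a = b := Nat.eq_of_beq_eq_true h

theorem cT_lit : cT = 0x18640000000000000000000000000000060000000000000000000000000000000000000000000000000000000000000000000000000000000000000000000000000000000000000000000000000020000000000000000000000000000000000000000000000000000000000000000 :=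
  eq_of_beq (by decide +kernel)

theorem cF_lit : cF = 0x200000000000000000000000000000000000000000000000000000000000000000000000000000000000000000000000000000000000000000000000000000000000000000000 :=
  eq_of_beq (by decide +kernel)

theorem zT_lit : zT = 0xf936109000c08c0000000000000cd800000090000000000000000000000000000000000000000008800000000000000000000000000000000000000000000000000000000000000000000000000000000000000000000000000000000000000000000000000000000000000000000000800000000000 :=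
  eq_of_beq (by decide +kernel)

theorem zF_lit : zF = 0x8000000000000000000000000000000000000000000000000000000000000000000000000000000000000000 :=
  eq_of_beq (by decide +kernel)

/-- no complex for `Z_18` -/
theorem c18 (K : Finset (Finset (Fin 18))) (hK : Hyp K α9)
    (hg : ∀ σ : Finset (Fin 18), σ ∈ K ↔ σ.image (fun i => i + 1) ∈ K) : False :=
  c18_of' h12 hpc (by rw [cT_lit, cF_lit]; exact pcS_ok) K hK hg

/-- no complex for `Z_3^2 x Z_2` -/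
theorem c33 (K : Finset (Finset (Fin 18))) (hK : Hyp K α9)
    (hg1 : ∀ σ : Finset (Fin 18), σ ∈ K ↔ σ.image a1 ∈ K)
    (hg2 : ∀ σ : Finset (Fin 18), σ ∈ K ↔ σ.image a2 ∈ K) : False :=
  c33_of' hpz (by rw [zT_lit, zF_lit]; exact pzS_ok) K hK hg1 hg2

end H23.LZ.Ck
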