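import Pool.Agent.H23.LZ.H3

/-!
# The general rule H3: a mod 2 cycle of faces with four vertices in a small vertex set bounds there
-/

namespace H23.LZ

open H40.VT

variable {N : ℕ}

/-- the sum over the one point extensions of `t` -/
theorem sum_cof (t : Finset (Fin N)) (g : Finset (Fin N) → ZMod 2) :
    ∑ v ∈ tᶜ, g (insert v t) =
      ∑ S ∈ Finset.univ.filter (fun S : Finset (Fin N) => t ⊆ S ∧ S.card = t.card + 1), g S := by
  classical
  refine Finset.sum_bij (fun v _ => insert v t) ?_ ?_ ?_ ?_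
  · intro v hv
    rw [Finset.mem_compl] at hv
    rw [Finset.mem_filter]
    exact ⟨Finset.mem_univ _, Finset.subset_insert _ _, Finset.card_insert_of_notMem hv⟩
  · intro v hv w hw e
    rw [Finset.mem_compl] at hv hw
    have h1 : v ∈ insert w t := by
      rw [← e]
      exact Finset.mem_insert_self _ _
    rcases Finset.mem_insert.1 h1 with h1 | h1
    · exact h1
    · exact absurd h1 hv
  · intro S hS
    rw [Finset.mem_filter] at hS
    obtain ⟨_, h1, h2⟩ := hS
    have h3 : (S \ t).card = 1 := by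
      rw [Finset.card_sdiff_of_subset h1]
      omega
    obtain ⟨v, hv⟩ := Finset.card_eq_one.1 h3
    have h4 : v ∈ S \ t := by
      rw [hv]
      exact Finset.mem_singleton_self _
    rw [Finset.mem_sdiff] at h4
    refine ⟨v, Finset.mem_compl.2 h4.2, ?_⟩
    apply Finset.eq_of_subset_of_card_le
    · intro x hx
      rcases Finset.mem_insert.1 hx with rfl | hx
      · exact h4.1
      · exact h1 hx
    · rw [Finset.card_insert_of_notMem h4.2]
      omega
  · intro v hv
    rfl

theorem odd_cast {n : ℕ} (h : Odd n) : (n : ZMod 2) = 1 := (ZMod.natCast_eq_one_iff_odd).2 h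

theorem even_cast {n : ℕ} (h : Even n) : (n : ZMod 2) = 0 := (ZMod.natCast_eq_zero_iff_even).2 h

theorem sum_uni (z : Finset (Finset (Fin N))) (g : Finset (Fin N) → ZMod 2) :
    ∑ a ∈ z, g a = ∑ a : Finset (Fin N), if a ∈ z then g a else 0 := by
  classical
  rw [Finset.sum_ite_mem, Finset.univ_inter]

/-- a cycle which bounds is not detected by a cochain which vanishes on the boundaries -/
theorem pair_rule {L : Finset (Finset (Fin N))} {n : ℕ} (hA : OAcy (ZMod 2) L n)
    {z : Finset (Finset (Fin N))} (hz : ∀ t ∈ z, t ∈ L ∧ t.card = n)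
    (hcyc : ∀ τ : Finset (Fin N), τ.card + 1 = n → Even (z.filter fun t => τ ⊆ t).card)
    {f : Finset (Finset (Fin N))} (hf : Odd (z.filter fun t => t ∈ f).card) :
    ∃ S ∈ L, S.card = n + 1 ∧ Odd ((S.powersetCard n).filter fun t => t ∈ f).card := by
  classical
  obtain ⟨c, hc⟩ : ∃ c : Finset (Fin N) → ZMod 2, ∀ t, c t = if t ∈ z then 1 else 0 :=
    ⟨_, fun _ => rfl⟩
  have hc0 : obd c = 0 := by
    funext τ
    rw [pl_obd, sum_cof τ c, Pi.zero_apply]
    by_cases hτ : τ.card + 1 = n
    · have h1 : ∑ S ∈ Finset.univ.filter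
          (fun S : Finset (Fin N) => τ ⊆ S ∧ S.card = τ.card + 1), c S =
          ((z.filter fun t => τ ⊆ t).card : ZMod 2) := by
        rw [← Finset.sum_boole, Finset.sum_filter, sum_uni z]
        refine Finset.sum_congr rfl fun S _ => ?_
        by_cases hS : S ∈ z
        · rw [if_pos hS]
          by_cases h3 : τ ⊆ S
          · rw [if_pos ⟨h3, by rw [(hz S hS).2, hτ]⟩, if_pos h3, hc, if_pos hS]
          · rw [if_neg (fun h => h3 h.1), if_neg h3]
        · rw [if_neg hS, hc, if_neg hS]
          split_ifs <;> rfl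
      rw [h1]
      exact even_cast (hcyc τ hτ)
    · refine Finset.sum_eq_zero fun S hS => ?_
      rw [Finset.mem_filter] at hS
      rw [hc, if_neg]
      intro h1
      have := (hz S h1).2
      omega
  obtain ⟨b, hb1, hb2⟩ := hA c (by
    intro t ht
    rw [hc] at ht
    split_ifs at ht with h1
    · exact hz t h1
    · exact absurd rfl ht) hc0
  have hsum : ∑ t ∈ f.filter (fun t => t.card = n), obd b t = 1 := by
    rw [hb2, ← odd_cast hf, ← Finset.sum_boole, Finset.sum_filter, sum_uni z, sum_uni f]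
    refine Finset.sum_congr rfl fun S _ => ?_
    by_cases hS : S ∈ z
    · rw [hc, if_pos hS, if_pos hS, if_pos (hz S hS).2]
    · rw [hc, if_neg hS, if_neg hS]
      split_ifs <;> rfl
  have hsw : ∑ t ∈ f.filter (fun t => t.card = n), obd b t =
      ∑ S : Finset (Fin N), if S.card = n + 1 then
        (((S.powersetCard n).filter fun t => t ∈ f).card : ZMod 2) * b S else 0 := by
    have h1 : ∀ t ∈ f.filter (fun t => t.card = n), obd b t =
        ∑ S : Finset (Fin N), if t ⊆ S ∧ S.card = n + 1 then b S else 0 := by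
      intro t ht
      rw [Finset.mem_filter] at ht
      rw [pl_obd, sum_cof t b, Finset.sum_filter, ht.2]
    rw [Finset.sum_congr rfl h1, Finset.sum_comm]
    refine Finset.sum_congr rfl fun S _ => ?_
    by_cases hS : S.card = n + 1
    · rw [if_pos hS]
      have h2 : (S.powersetCard n).filter (fun t => t ∈ f) =
          (f.filter fun t => t.card = n).filter fun t => t ⊆ S ∧ S.card = n + 1 := by
        ext t
        simp only [Finset.mem_filter, Finset.mem_powersetCard]
        tauto
      rw [h2, ← Finset.sum_filter, Finset.sum_const, nsmul_eq_mul]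
    · rw [if_neg hS]
      exact Finset.sum_eq_zero fun t _ => if_neg fun h => hS h.2
  rw [hsum] at hsw
  by_contra hcon
  push Not at hcon
  have h0 : (∑ S : Finset (Fin N), if S.card = n + 1 then
        (((S.powersetCard n).filter fun t => t ∈ f).card : ZMod 2) * b S else 0) = 0 := by
    refine Finset.sum_eq_zero fun S _ => ?_
    split_ifs with hS
    · by_cases hbS : b S = 0
      · rw [hbS, mul_zero]
      · have h3 := hcon S (hb1 S hbS).1 hS
        rw [Nat.not_odd_iff_even] at h3
        rw [even_cast h3, zero_mul]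
    · rfl
  rw [h0] at hsw
  exact absurd hsw (by decide)

variable {K : Finset (Finset (Fin 18))} {α : Equiv.Perm (Fin 18)}

/-- a set with at most 12 vertices misses three vertices of different pairs -/
theorem three_out {U : Finset (Fin 18)} (hU : U.card ≤ 13) (hinv : ∀ v, α (α v) = v) :
    ∃ a b c, a ∉ U ∧ b ∉ U ∧ c ∉ U ∧ a ≠ b ∧ a ≠ c ∧ b ≠ c ∧ a ≠ α b ∧ a ≠ α c ∧ b ≠ α c := by
  classical
  have hc : Uᶜ.card = 18 - U.card := by
    rw [Finset.card_compl, Fintype.card_fin]
  have step : ∀ D : Finset (Fin 18), D.card ≤ 4 → ∃ a, a ∉ U ∧ a ∉ D := by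
    intro D hD
    by_contra hcon
    push Not at hcon
    have h1 : Uᶜ ⊆ D := fun x hx => hcon x (Finset.mem_compl.1 hx)
    have h2 := Finset.card_le_card h1
    omega
  obtain ⟨a, haU, _⟩ := step ∅ (by simp)
  obtain ⟨b, hbU, hb⟩ := step {a, α a} (Finset.card_le_two.trans (by norm_num))
  obtain ⟨c, hcU, hcc⟩ := step {a, α a, b, α b} Finset.card_le_four
  simp only [Finset.mem_insert, Finset.mem_singleton, not_or] at hb hcc
  obtain ⟨hba, hba'⟩ := hb
  obtain ⟨hca, hca', hcb, hcb'⟩ := hcc
  refine ⟨a, b, c, haU, hbU, hcU, Ne.symm hba, Ne.symm hca, Ne.symm hcb, ?_, ?_, ?_⟩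
  · intro e
    apply hba'
    rw [e, hinv]
  · intro e
    apply hca'
    rw [e, hinv]
  · intro e
    apply hcb'
    rw [e, hinv]

theorem acyU (h : Hyp K α) {U : Finset (Fin 18)} (hU : U.card ≤ 13) :
    OAcy (ZMod 2) (av K Uᶜ) 4 := by
  obtain ⟨a, b, c, haU, hbU, hcU, hab, hac, hbc, hab', hac', hbc'⟩ := three_out hU h.inv
  have h1 := acy4 h hab hac hbc hab' hac' hbc' Uᶜ
  rwa [Finset.union_eq_left.2] at h1
  intro z hz
  simp only [Finset.mem_insert, Finset.mem_singleton] at hz
  rw [Finset.mem_compl]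
  rcases hz with rfl | rfl | rfl
  · exact hcU
  · exact hbU
  · exact haU

/-- (H3) -/
theorem h3ruleB (h : Hyp K α) {U : Finset (Fin 18)} (hU : U.card ≤ 13)
    {z : Finset (Finset (Fin 18))} (hz : ∀ t ∈ z, t ∈ K ∧ t.card = 4 ∧ t ⊆ U)
    (hcyc : ∀ τ : Finset (Fin 18), τ.card = 3 → Even (z.filter fun t => τ ⊆ t).card)
    {f : Finset (Finset (Fin 18))} (hf : Odd (z.filter fun t => t ∈ f).card) :
    ∃ S ∈ K, S.card = 5 ∧ S ⊆ U ∧ Odd ((S.powersetCard 4).filter fun t => t ∈ f).card := by
  obtain ⟨S, hS, h1, h2⟩ := pair_rule (acyU h hU)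
    (z := z) (fun t ht => ⟨mem_av.2 ⟨(hz t ht).1, dis_compl.2 (hz t ht).2.2⟩, (hz t ht).2.1⟩)
    (fun τ hτ => hcyc τ (by omega)) hf
  rw [mem_av, dis_compl] at hS
  exact ⟨S, hS.1, h1, hS.2, h2⟩

end H23.LZ
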