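import Pool.Agent.H23.LZ.Defs

/-!
# The planar edge bound in the link of a triple
-/

namespace H23.LZ

open H40.VT

variable {N : ℕ}

theorem pl_01 : ∀ p : ZMod 2, p = 0 ∨ p = 1 := by decide

theorem pl_obd (c : Finset (Fin N) → ZMod 2) (e : Finset (Fin N)) :
    obd c e = ∑ v ∈ eᶜ, c (insert v e) := by
  unfold obd
  refine Finset.sum_congr rfl fun v _ => ?_
  have e1 : (-1 : ZMod 2) = 1 := CharTwo.neg_eq 1
  rw [e1, one_pow, one_mul]

theorem pl_edge {L : Finset (Finset (Fin N))} {c : Finset (Fin N) → ZMod 2} {n : ℕ}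
    (hc : OIn L n c) {e : Finset (Fin N)} {v w : Fin N} (hvw : v ≠ w)
    (he : (Finset.univ.filter fun v => v ∉ e ∧ insert v e ∈ L) = {v, w}) :
    obd c e = c (insert v e) + c (insert w e) := by
  rw [pl_obd, ← Finset.sum_pair hvw (f := fun v => c (insert v e)), ← he]
  symm
  refine Finset.sum_subset (fun x hx => ?_) fun x hx hx2 => ?_
  · simpa using (Finset.mem_filter.1 hx).2.1
  · by_contra hne
    exact hx2 (Finset.mem_filter.2 ⟨Finset.mem_univ _, by simpa using hx, (hc _ hne).1⟩)

/-- triangles which share an edge outside `G` -/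
def PlR (L G : Finset (Finset (Fin N))) (a b : {t : Finset (Fin N) // t ∈ L ∧ t.card = 3}) :
    Prop := ∃ e ∈ L, e.card = 2 ∧ e ∉ G ∧ e ⊆ a.1 ∧ e ⊆ b.1

/-- the classes of triangles -/
def plS (L G : Finset (Finset (Fin N))) : Setoid {t : Finset (Fin N) // t ∈ L ∧ t.card = 3} :=
  Relation.EqvGen.setoid (PlR L G)

open Classical in
/-- functions on the classes as chains -/
noncomputable def plE (L G : Finset (Finset (Fin N))) :
    (Quotient (plS L G) → ZMod 2) →ₗ[ZMod 2] (Finset (Fin N) → ZMod 2) where
  toFun w := fun t => if h : t ∈ L ∧ t.card = 3 then w (Quotient.mk (plS L G) ⟨t, h⟩) else 0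
  map_add' a b := by
    funext t
    simp only [Pi.add_apply]
    split_ifs
    · rfl
    · rw [add_zero]
  map_smul' r a := by
    funext t
    simp only [Pi.smul_apply, smul_eq_mul, RingHom.id_apply]
    split_ifs
    · rfl
    · rw [mul_zero]

theorem plE_pos {L G : Finset (Finset (Fin N))} (w : Quotient (plS L G) → ZMod 2)
    {t : Finset (Fin N)} (h : t ∈ L ∧ t.card = 3) :
    plE L G w t = w (Quotient.mk (plS L G) ⟨t, h⟩) := dif_pos h

theorem plE_neg {L G : Finset (Finset (Fin N))} (w : Quotient (plS L G) → ZMod 2)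
    {t : Finset (Fin N)} (h : ¬ (t ∈ L ∧ t.card = 3)) : plE L G w t = 0 := dif_neg h

theorem plE_OIn {L G : Finset (Finset (Fin N))} (w : Quotient (plS L G) → ZMod 2) :
    OIn L 3 (plE L G w) := by
  intro t ht
  by_contra h
  exact ht (plE_neg w h)

section Main

variable {L : Finset (Finset (Fin N))} (hL : DC L)
  (hr : ∀ e ∈ L, e.card = 2 → (Finset.univ.filter fun v => v ∉ e ∧ insert v e ∈ L).card = 2)

include hr in
theorem pl_two {e : Finset (Fin N)} (he : e ∈ L) (h2 : e.card = 2) :
    ∃ v w, v ≠ w ∧ (Finset.univ.filter fun v => v ∉ e ∧ insert v e ∈ L) = {v, w} ∧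
      (insert v e ∈ L ∧ (insert v e).card = 3) ∧ (insert w e ∈ L ∧ (insert w e).card = 3) := by
  obtain ⟨v, w, hvw, h⟩ := Finset.card_eq_two.1 (hr e he h2)
  have hv : v ∈ (Finset.univ.filter fun v => v ∉ e ∧ insert v e ∈ L) := by rw [h]; simp
  have hw : w ∈ (Finset.univ.filter fun v => v ∉ e ∧ insert v e ∈ L) := by rw [h]; simp
  rw [Finset.mem_filter] at hv hw
  refine ⟨v, w, hvw, h, ⟨hv.2.2, ?_⟩, ⟨hw.2.2, ?_⟩⟩
  · rw [Finset.card_insert_of_notMem hv.2.1, h2]
  · rw [Finset.card_insert_of_notMem hw.2.1, h2]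

include hr in
/-- outside `G` the two triangles at an edge are in the same class -/
theorem pl_off {G : Finset (Finset (Fin N))} (w : Quotient (plS L G) → ZMod 2)
    {e : Finset (Fin N)} (he : e ∈ L) (h2 : e.card = 2) (hG : e ∉ G) :
    obd (plE L G w) e = 0 := by
  obtain ⟨x, y, hxy, h, hx, hy⟩ := pl_two hr he h2
  rw [pl_edge (plE_OIn w) hxy h, plE_pos w hx, plE_pos w hy]
  have e1 : Quotient.mk (plS L G) ⟨_, hx⟩ = Quotient.mk (plS L G) ⟨_, hy⟩ :=
    Quotient.sound (Relation.EqvGen.rel _ _ ⟨e, he, h2, hG, Finset.subset_insert _ _,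
      Finset.subset_insert _ _⟩)
  rw [e1]
  exact CharTwo.add_self_eq_zero _

include hr in
/-- a chain with boundary in `G` is constant on the classes -/
theorem pl_const {G : Finset (Finset (Fin N))} {b : Finset (Fin N) → ZMod 2} (hb : OIn L 3 b)
    (hG : ∀ e ∈ L, e.card = 2 → e ∉ G → obd b e = 0) : ∃ w, plE L G w = b := by
  classical
  have key : ∀ s t : {t : Finset (Fin N) // t ∈ L ∧ t.card = 3}, PlR L G s t → b s.1 = b t.1 := by
    rintro ⟨s, hs⟩ ⟨t, ht⟩ ⟨e, he, h2, hG', hes, het⟩
    by_cases hst : s = t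
    · exact congrArg b hst
    obtain ⟨x, y, hxy, h, hx, hy⟩ := pl_two hr he h2
    have h0 := hG e he h2 hG'
    rw [pl_edge hb hxy h] at h0
    have h1 : ∀ s, s ∈ L ∧ s.card = 3 → e ⊆ s → s = insert x e ∨ s = insert y e := by
      intro s hs hes
      obtain ⟨v, hv⟩ := Finset.card_eq_one.1 (show (s \ e).card = 1 by
        rw [Finset.card_sdiff_of_subset hes, hs.2, h2])
      have hv1 : v ∈ s ∧ v ∉ e := Finset.mem_sdiff.1 (hv ▸ Finset.mem_singleton_self v)
      have hse : insert v e = s := by
        rw [Finset.insert_eq, ← hv, Finset.sdiff_union_of_subset hes]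
      have hvm : v ∈ (Finset.univ.filter fun v => v ∉ e ∧ insert v e ∈ L) := by
        rw [Finset.mem_filter, hse]
        exact ⟨Finset.mem_univ _, hv1.2, hs.1⟩
      rw [h, Finset.mem_insert, Finset.mem_singleton] at hvm
      rcases hvm with rfl | rfl
      · exact Or.inl hse.symm
      · exact Or.inr hse.symm
    have h2' : ∀ p q : ZMod 2, p + q = 0 → p = q := by decide
    have h3 := h2' _ _ h0
    show b s = b t
    rcases h1 s hs hes with rfl | rfl <;> rcases h1 t ht het with rfl | rfl
    · exact absurd rfl hst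
    · exact h3
    · exact h3.symm
    · exact absurd rfl hst
  have key2 : ∀ s t : {t : Finset (Fin N) // t ∈ L ∧ t.card = 3},
      (plS L G).r s t → b s.1 = b t.1 := by
    intro s t h
    induction h with
    | rel s t h => exact key s t h
    | refl s => rfl
    | symm s t _ ih => exact ih.symm
    | trans s t u _ _ ih1 ih2 => exact ih1.trans ih2
  refine ⟨Quotient.lift (fun s => b s.1) key2, ?_⟩
  funext t
  by_cases h : t ∈ L ∧ t.card = 3
  · rw [plE_pos _ h]
    rfl
  · rw [plE_neg _ h]
    by_contra hne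
    exact h (hb t (Ne.symm hne))

end Main

/-- a nonzero cycle of edges has at least three edges -/
theorem pl_three {y : Finset (Fin N) → ZMod 2} (hy : ∀ e, y e ≠ 0 → e.card = 2)
    (h0 : obd y = 0) {e : Finset (Fin N)} (he : y e ≠ 0) {G : Finset (Finset (Fin N))}
    (hG : ∀ e, y e ≠ 0 → e ∈ G) : 3 ≤ (G.filter fun e => y e ≠ 0).card := by
  classical
  obtain ⟨a, b, hab, rfl⟩ := Finset.card_eq_two.1 (hy e he)
  have key : ∀ a b : Fin N, a ≠ b → y {a, b} ≠ 0 → ∃ c, c ≠ a ∧ c ≠ b ∧ y {c, a} ≠ 0 := by
    intro a b hab hne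
    by_contra hcon
    push Not at hcon
    have h1 := congrFun h0 {a}
    rw [pl_obd, Pi.zero_apply, Finset.sum_eq_single b] at h1
    · apply hne
      rw [Finset.pair_comm]
      exact h1
    · intro c hc hcb
      rw [Finset.mem_compl, Finset.mem_singleton] at hc
      exact hcon c hc hcb
    · intro h
      exact absurd (by simpa using hab.symm) h
  obtain ⟨c, hca, hcb, hc⟩ := key a b hab he
  obtain ⟨d, hdb, hda, hd⟩ := key b a hab.symm (by rwa [Finset.pair_comm])
  have h3 : ({{a, b}, {c, a}, {d, b}} : Finset (Finset (Fin N))).card = 3 := by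
    rw [Finset.card_eq_three]
    refine ⟨_, _, _, ?_, ?_, ?_, rfl⟩
    · intro h
      have : c ∈ ({a, b} : Finset (Fin N)) := by rw [h]; simp
      simp [hca, hcb] at this
    · intro h
      have : d ∈ ({a, b} : Finset (Fin N)) := by rw [h]; simp
      simp [hda, hdb] at this
    · intro h
      have : a ∈ ({d, b} : Finset (Fin N)) := by rw [← h]; simp
      simp [hda.symm, hab] at this
  rw [← h3]
  apply Finset.card_le_card
  intro x hx
  simp only [Finset.mem_insert, Finset.mem_singleton] at hx
  rcases hx with rfl | rfl | rfl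
  · exact Finset.mem_filter.2 ⟨hG _ he, he⟩
  · exact Finset.mem_filter.2 ⟨hG _ hc, hc⟩
  · exact Finset.mem_filter.2 ⟨hG _ hd, hd⟩

theorem pl_main {L : Finset (Finset (Fin N))} (h4 : ∀ τ ∈ L, τ.card ≤ 3) (hL : DC L)
    (hr : ∀ e ∈ L, e.card = 2 → (Finset.univ.filter fun v => v ∉ e ∧ insert v e ∈ L).card = 2)
    (hA : OAcy (ZMod 2) L 2) (hO : OOne (ZMod 2) L 3) {U : Finset (Fin N)} (hU : 3 ≤ U.card) :
    (L.filter fun e => e.card = 2 ∧ e ⊆ U).card + 6 ≤ 3 * U.card := by
  classical
  have : Fact (Nat.Prime 2) := ⟨Nat.prime_two⟩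
  obtain ⟨G, hGd⟩ : ∃ G, G = L.filter fun e => e.card = 2 ∧ e ⊆ U := ⟨_, rfl⟩
  rw [← hGd]
  have hG : ∀ e, e ∈ G ↔ e ∈ L ∧ e.card = 2 ∧ e ⊆ U := by
    intro e
    rw [hGd, Finset.mem_filter]
  rcases Finset.eq_empty_or_nonempty G with hG0 | ⟨e0, he0⟩
  · rw [hG0, Finset.card_empty]
    omega
  have two : ∀ p : ZMod 2, p + p = 0 := fun p => CharTwo.add_self_eq_zero p
  -- the sum of all triangles
  obtain ⟨x0, y0, _, _, hx0, _⟩ := pl_two hr ((hG e0).1 he0).1 ((hG e0).1 he0).2.1
  have hone : obd (plE L G 1) = 0 := by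
    funext e
    by_cases he : e ∈ L ∧ e.card = 2
    · obtain ⟨x, y, hxy, h, hx, hy⟩ := pl_two hr he.1 he.2
      rw [pl_edge (plE_OIn _) hxy h, plE_pos _ hx, plE_pos _ hy]
      exact two 1
    · rw [pl_obd, Pi.zero_apply]
      refine Finset.sum_eq_zero fun v hv => ?_
      rw [plE_neg]
      rintro ⟨h1, h2⟩
      apply he
      rw [Finset.mem_compl] at hv
      rw [Finset.card_insert_of_notMem hv] at h2
      exact ⟨hL _ h1 _ (Finset.subset_insert _ _), by omega⟩
  have hne1 : plE L G 1 ≠ 0 := by
    intro h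
    have := congrFun h (insert x0 e0)
    rw [plE_pos _ hx0] at this
    exact one_ne_zero this
  have hZ : ∀ c, OIn L 3 c → obd c = 0 → c = 0 ∨ c = plE L G 1 := by
    obtain ⟨z, _, _, _, hz⟩ := hO
    have h5 : ∀ c, OIn L 3 c → obd c = 0 → ∃ r : ZMod 2, c = r • z := by
      intro c hc hb
      obtain ⟨r, b, hb1, hb2⟩ := hz c hc hb
      refine ⟨r, ?_⟩
      have hb0 : b = 0 := by
        funext τ
        by_contra hne
        have h6 := hb1 τ hne
        have := h4 τ h6.1
        omega
      have h7 : obd (0 : Finset (Fin N) → ZMod 2) = 0 := by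
        funext τ
        rw [pl_obd]
        exact Finset.sum_eq_zero fun _ _ => rfl
      rw [hb0, h7] at hb2
      exact (sub_eq_zero.1 hb2.symm)
    intro c hc hb
    obtain ⟨r, hr1⟩ := h5 c hc hb
    obtain ⟨r', hr2⟩ := h5 _ (plE_OIn _) hone
    have h01 : ∀ p : ZMod 2, p = 0 ∨ p = 1 := pl_01
    rcases h01 r with rfl | rfl
    · left
      rw [hr1, zero_smul]
    · right
      rcases h01 r' with rfl | rfl
      · rw [zero_smul] at hr2
        exact absurd hr2 hne1
      · rw [hr1, hr2]
  have : Finite (Quotient (plS L G)) := Quotient.finite _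
  have : Fintype (Quotient (plS L G)) := Fintype.ofFinite _
  -- Euler: E + 2 ≤ V + c
  have hE : G.card + 2 ≤ U.card + Fintype.card (Quotient (plS L G)) := by
    obtain ⟨Φ, hΦ⟩ : ∃ Φ : (Quotient (plS L G) → ZMod 2) →ₗ[ZMod 2] (G → ZMod 2),
        ∀ w e, Φ w e = obd (plE L G w) e.1 :=
      ⟨LinearMap.pi fun e => (LinearMap.proj e.1).comp (ordB.comp (plE L G)), fun _ _ => rfl⟩
    obtain ⟨B, hB⟩ : ∃ B : (G → ZMod 2) →ₗ[ZMod 2] (U → ZMod 2),
        ∀ g u, B g u = ∑ e : G, if u.1 ∈ e.1 then g e else 0 := by
      refine ⟨⟨⟨fun g u => (∑ e : G, if u.1 ∈ e.1 then g e else 0), ?_⟩, ?_⟩, fun _ _ => rfl⟩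
      · intro a b
        funext u
        simp only [Pi.add_apply]
        rw [← Finset.sum_add_distrib]
        refine Finset.sum_congr rfl fun e _ => ?_
        split_ifs
        · rfl
        · rw [add_zero]
      · intro r a
        funext u
        simp only [Pi.smul_apply, smul_eq_mul, RingHom.id_apply]
        rw [Finset.mul_sum]
        refine Finset.sum_congr rfl fun e _ => ?_
        split_ifs
        · rfl
        · rw [mul_zero]
    obtain ⟨S, hS⟩ : ∃ S : (U → ZMod 2) →ₗ[ZMod 2] ZMod 2, ∀ f, S f = ∑ u, f u :=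
      ⟨∑ u, LinearMap.proj u, fun f => by simp⟩
    have hSB : LinearMap.range B ≤ LinearMap.ker S := by
      rintro _ ⟨g, rfl⟩
      rw [LinearMap.mem_ker, hS]
      simp only [hB]
      rw [Finset.sum_comm]
      refine Finset.sum_eq_zero fun e _ => ?_
      obtain ⟨h1, h2, h3⟩ := (hG e.1).1 e.2
      obtain ⟨a, b, hab, h⟩ := Finset.card_eq_two.1 h2
      rw [Finset.sum_coe_sort U (fun u => if u ∈ e.1 then g e else 0), ← Finset.sum_filter,
        Finset.filter_mem_eq_inter, Finset.inter_eq_right.2 h3, Finset.sum_const, h2, two_smul]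
      exact two _
    have hSs : Module.finrank (ZMod 2) (LinearMap.ker S) + 1 = U.card := by
      have h1 := LinearMap.finrank_range_add_finrank_ker S
      rw [Module.finrank_fintype_fun_eq_card, Fintype.card_coe] at h1
      have h2 : LinearMap.range S = ⊤ := by
        rw [LinearMap.range_eq_top]
        obtain ⟨u0, hu0⟩ : U.Nonempty := Finset.card_pos.1 (by omega)
        intro p
        refine ⟨Pi.single ⟨u0, hu0⟩ p, ?_⟩
        rw [hS, Finset.sum_pi_single']
        simp
      rw [h2, finrank_top, Module.finrank_self] at h1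
      omega
    have hrB : Module.finrank (ZMod 2) (LinearMap.range B) + 1 ≤ U.card := by
      rw [← hSs]
      have := Submodule.finrank_mono hSB
      omega
    have hkB : LinearMap.ker B ≤ LinearMap.range Φ := by
      intro g hg
      rw [LinearMap.mem_ker] at hg
      obtain ⟨f, hf1, hf2⟩ : ∃ f : Finset (Fin N) → ZMod 2, (∀ e : G, f e.1 = g e) ∧
          ∀ e, e ∉ G → f e = 0 :=
        ⟨fun e => if h : e ∈ G then g ⟨e, h⟩ else 0, fun e => dif_pos e.2, fun e he => dif_neg he⟩
      have hfG : ∀ e, f e ≠ 0 → e ∈ G := by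
        intro e he
        by_contra h
        exact he (hf2 e h)
      have hf3 : OIn L 2 f := by
        intro e he
        have := (hG e).1 (hfG e he)
        exact ⟨this.1, this.2.1⟩
      have hf4 : obd f = 0 := by
        funext τ
        rw [pl_obd, Pi.zero_apply]
        by_cases hτ : τ.card = 1
        · obtain ⟨u, rfl⟩ := Finset.card_eq_one.1 hτ
          by_cases hu : u ∈ U
          · have h1 := congrFun hg ⟨u, hu⟩
            rw [hB, Pi.zero_apply] at h1
            rw [← h1]
            have h2 : ∑ e : G, (if u ∈ e.1 then g e else 0) = ∑ e ∈ G, if u ∈ e then f e else 0 := by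
              rw [← Finset.sum_coe_sort G (fun e => if u ∈ e then f e else 0)]
              refine Finset.sum_congr rfl fun e _ => ?_
              rw [hf1]
            show ∑ v ∈ {u}ᶜ, f (insert v {u}) = ∑ e : G, (if u ∈ e.1 then g e else 0)
            rw [h2, ← Finset.sum_filter]
            have h3 : ∑ v ∈ ({u}ᶜ : Finset (Fin N)).filter (fun v => insert v {u} ∈ G),
                f (insert v {u}) = ∑ v ∈ {u}ᶜ, f (insert v {u}) := by
              refine Finset.sum_subset (Finset.filter_subset _ _) fun v hv hv2 => ?_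
              apply hf2
              intro h
              exact hv2 (Finset.mem_filter.2 ⟨hv, h⟩)
            rw [← h3]
            refine Finset.sum_bij (fun v _ => insert v {u}) ?_ ?_ ?_ ?_
            · intro v hv
              rw [Finset.mem_filter] at hv
              exact Finset.mem_filter.2 ⟨hv.2, by simp⟩
            · intro v hv w hw h
              rw [Finset.mem_filter, Finset.mem_compl, Finset.mem_singleton] at hv hw
              have : v ∈ (insert w {u} : Finset (Fin N)) := by rw [← h]; simp
              rw [Finset.mem_insert, Finset.mem_singleton] at this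
              rcases this with h | h
              · exact h
              · exact absurd h hv.1
            · intro e he
              rw [Finset.mem_filter] at he
              obtain ⟨a, b, hab, rfl⟩ := Finset.card_eq_two.1 ((hG e).1 he.1).2.1
              rcases (by simpa using he.2 : u = a ∨ u = b) with rfl | rfl
              · refine ⟨b, ?_, Finset.pair_comm _ _⟩
                rw [Finset.mem_filter]
                refine ⟨by simpa using hab.symm, ?_⟩
                have : (insert b {u} : Finset (Fin N)) = {u, b} := Finset.pair_comm _ _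
                rw [this]
                exact he.1
              · refine ⟨a, ?_, rfl⟩
                rw [Finset.mem_filter]
                exact ⟨by simpa using hab, he.1⟩
            · intro v _
              rfl
          · refine Finset.sum_eq_zero fun v _ => hf2 _ fun h => hu ?_
            exact ((hG _).1 h).2.2 (by simp)
        · refine Finset.sum_eq_zero fun v hv => hf2 _ fun h => hτ ?_
          have := ((hG _).1 h).2.1
          rw [Finset.mem_compl] at hv
          rw [Finset.card_insert_of_notMem hv] at this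
          omega
      obtain ⟨b, hb1, hb2⟩ := hA f hf3 hf4
      obtain ⟨w, hw⟩ := pl_const hr (G := G) hb1 (fun e _ _ he => by rw [hb2]; exact hf2 e he)
      refine ⟨w, ?_⟩
      funext e
      rw [hΦ, hw, hb2, hf1]
    have hk1 : 1 ≤ Module.finrank (ZMod 2) (LinearMap.ker Φ) := by
      have : Nontrivial (LinearMap.ker Φ) := by
        refine ⟨⟨⟨1, ?_⟩, 0, ?_⟩⟩
        · rw [LinearMap.mem_ker]
          funext e
          rw [hΦ, hone]
          rfl
        · intro h
          have h1 := congrArg Subtype.val h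
          have h2 : plE L G 1 = plE L G 0 := congrArg _ h1
          rw [map_zero] at h2
          exact hne1 h2
      exact Module.finrank_pos
    have h1 := LinearMap.finrank_range_add_finrank_ker Φ
    have h2 := LinearMap.finrank_range_add_finrank_ker B
    have h3 := Submodule.finrank_mono hkB
    rw [Module.finrank_fintype_fun_eq_card] at h1 h2
    rw [Fintype.card_coe] at h2
    omega
  -- every class has at least three boundary edges
  by_cases hc1 : Fintype.card (Quotient (plS L G)) ≤ 1
  · omega
  have hD : ∀ q : Quotient (plS L G),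
      3 ≤ (G.filter fun e => obd (plE L G (Pi.single q 1)) e ≠ 0).card := by
    intro q
    have h1 : ∀ e, obd (plE L G (Pi.single q 1)) e ≠ 0 → e ∈ L ∧ e.card = 2 := by
      intro e he
      rw [pl_obd] at he
      obtain ⟨v, hv, hv2⟩ := Finset.exists_ne_zero_of_sum_ne_zero he
      obtain ⟨h3, h5⟩ := plE_OIn _ _ hv2
      rw [Finset.mem_compl] at hv
      rw [Finset.card_insert_of_notMem hv] at h5
      exact ⟨hL _ h3 _ (Finset.subset_insert _ _), by omega⟩
    have h2 : ∀ e, obd (plE L G (Pi.single q 1)) e ≠ 0 → e ∈ G := by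
      intro e he
      by_contra h
      exact he (pl_off hr _ (h1 e he).1 (h1 e he).2 h)
    obtain ⟨e, he⟩ : ∃ e, obd (plE L G (Pi.single q 1)) e ≠ 0 := by
      by_contra hcon
      push Not at hcon
      have hq : ∃ t, ∃ h : t ∈ L ∧ t.card = 3, Quotient.mk (plS L G) ⟨t, h⟩ = q := by
        induction q using Quotient.inductionOn with
        | h t => exact ⟨t.1, t.2, rfl⟩
      rcases hZ _ (plE_OIn (Pi.single q 1)) (funext hcon) with h | h
      · obtain ⟨t, ht, hq⟩ := hq
        have h3 := congrFun h t
        rw [plE_pos _ ht, hq, Pi.single_eq_same] at h3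
        exact one_ne_zero h3
      · apply hc1
        rw [Fintype.card_le_one_iff]
        have h3 : ∀ q', q' = q := by
          intro q'
          by_contra hne
          obtain ⟨t, ht, hq'⟩ : ∃ t, ∃ h : t ∈ L ∧ t.card = 3,
              Quotient.mk (plS L G) ⟨t, h⟩ = q' := by
            induction q' using Quotient.inductionOn with
            | h t => exact ⟨t.1, t.2, rfl⟩
          have h3 := congrFun h t
          rw [plE_pos _ ht, plE_pos _ ht, hq', Pi.single_eq_of_ne hne] at h3
          exact zero_ne_one h3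
        intro a b
        rw [h3 a, h3 b]
    exact pl_three (fun e he => (h1 e he).2) (obd_obd _) he h2
  have hsum : ∑ q : Quotient (plS L G),
      (G.filter fun e => obd (plE L G (Pi.single q 1)) e ≠ 0).card ≤ 2 * G.card := by
    have h1 := Finset.sum_card_bipartiteAbove_eq_sum_card_bipartiteBelow
      (s := (Finset.univ : Finset (Quotient (plS L G)))) (t := G)
      (fun q e => obd (plE L G (Pi.single q 1)) e ≠ 0)
    rw [show ∑ q : Quotient (plS L G),
      (G.filter fun e => obd (plE L G (Pi.single q 1)) e ≠ 0).card = _ from h1, mul_comm,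
      ← smul_eq_mul]
    apply Finset.sum_le_card_nsmul
    intro e he
    obtain ⟨x, y, hxy, h, hx, hy⟩ := pl_two hr ((hG e).1 he).1 ((hG e).1 he).2.1
    refine le_trans (Finset.card_le_card (t := {Quotient.mk (plS L G) ⟨_, hx⟩,
      Quotient.mk (plS L G) ⟨_, hy⟩}) ?_) Finset.card_le_two
    intro q hq
    rw [Finset.mem_bipartiteBelow] at hq
    by_contra hcon
    rw [Finset.mem_insert, Finset.mem_singleton, not_or] at hcon
    apply hq.2
    rw [pl_edge (plE_OIn _) hxy h, plE_pos _ hx, plE_pos _ hy,
      Pi.single_eq_of_ne (Ne.symm hcon.1), Pi.single_eq_of_ne (Ne.symm hcon.2), add_zero]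
  have hlow : Fintype.card (Quotient (plS L G)) * 3 ≤ ∑ q : Quotient (plS L G),
      (G.filter fun e => obd (plE L G (Pi.single q 1)) e ≠ 0).card := by
    rw [← smul_eq_mul, ← Finset.card_univ]
    exact Finset.card_nsmul_le_sum _ _ _ fun q _ => hD q
  omega

variable {K : Finset (Finset (Fin 18))} {α : Equiv.Perm (Fin 18)}

/-- the link of a triple is planar: at most `3 |U| - 6` edges inside `U` -/
theorem planar (h : Hyp K α) {T : Finset (Fin 18)} (hT : T ∈ K) (hc : T.card = 3)
    (U : Finset (Fin 18)) (hU : 3 ≤ U.card) (hd : Disjoint U T) :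
    ((U.powersetCard 2).filter fun e => T ∪ e ∈ K).card + 6 ≤ 3 * U.card := by
  classical
  obtain ⟨hK, h0, hh⟩ := h.sph
  have : Fact (Nat.Prime 2) := ⟨Nat.prime_two⟩
  have h1 := pl_main (L := lk K T) (U := U)
    (fun τ hτ => by
      have := Cor_card h.sph hτ
      omega)
    (lk_DC hK T)
    (fun e he h2 => by
      rw [mem_lk] at he
      have h3 := ridge h.sph he.2 (by
        rw [Finset.card_union_of_disjoint he.1]
        omega)
      rw [← h3]
      congr 1
      refine Finset.filter_congr fun v _ => ?_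
      rw [mem_lk, Finset.disjoint_insert_left, Finset.mem_union, Finset.insert_union]
      have := he.1
      tauto)
    (link_acy hK h0 hh hT (by omega)) (link_one hK h0 hh hT (by omega)) hU
  refine le_trans (Nat.add_le_add_right (Finset.card_le_card ?_) 6) h1
  intro e he
  rw [Finset.mem_filter, Finset.mem_powersetCard] at he
  rw [Finset.mem_filter, mem_lk]
  refine ⟨⟨hd.mono_left he.1.1, ?_⟩, he.1.2, he.1.1⟩
  rw [Finset.union_comm]
  exact he.2

end H23.LZ
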