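import Pool.Agent.H23.LZ.CkRun
import Pool.Agent.H23.LZ.CkR
import Pool.Agent.H23.LZ.CkN
import Pool.Agent.H23.LZ.CkQ
import Pool.Agent.H23.LZ.CkC
import Pool.Agent.H23.LZ.CkS6
import Pool.Agent.H23.LZ.CkCl

/-!
# All rules together
-/

namespace H23.LZ.Ck

open H40.VT Rid Cnt

variable {K : Finset (Finset (Fin 18))} {y : Finset (Fin 18) → ZMod 3} {tb : Tab}

/-- The rules of the checker are sound for every good complex. -/
theorem rules_of (G : Good tb K y) (hg : chkG tb = true) (hcl : chkCl tb = true)
    (hR : Rid.chkR tb = true) (hN : chkN tb = true) (hQ : chkQ tb = true) (hC : chkC tb = true)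
    (h6 : chkS6 tb = true) : Rules tb (At tb K y) := by
  have tT : ∀ a < 944, ∀ T F ok cf, (Sat (At tb K y) T F → At tb K y a) →
      asT tb a T F ok cf = true → Res (At tb K y) T F ok cf :=
    fun a ha T F ok cf hA h => asT_res G hg hcl ha hA h
  have tF : ∀ a < 944, ∀ T F ok cf, (Sat (At tb K y) T F → ¬ At tb K y a) →
      asF tb a T F ok cf = true → Res (At tb K y) T F ok cf :=
    fun a ha T F ok cf hA h => asF_res G hg hcl ha hA h
  have hClo : Clo tb (At tb K y) := Clo_of tT tF
  exact
    { tT := tT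
      tF := tF
      R := ruR_res hg hR G tT tF
      N5 := fun r hr T F ok cf h => ruN5_res G hg hN tT tF hr h
      N6 := fun f hf T F ok cf h => ruN6_res G hg hN tT tF hf h
      S6 := ruS6_res hg hN h6 G tT tF
      Q := ruQ_res hg hQ G tF
      C0 := fun t ht T F ok cf h => ruC0_res G hg hC hClo ht T F ok cf h
      C1 := fun t ht T F ok cf h => ruC1_res G hg hC hClo ht T F ok cf h }

end H23.LZ.Ck
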