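import Pool.Agent.H23.LZ.H3

/-!
# Rule S4: a set of four vertices and an antipodal pair
-/

namespace H23.LZ

open H40.VT

variable {K : Finset (Finset (Fin 18))} {α : Equiv.Perm (Fin 18)}

/-- cycles of faces with 4 vertices in `U` bound in `U`, when `U` misses the antipodes of a set
`T` with at least 3 elements -/
theorem full4' (h : Hyp K α) {U T : Finset (Fin 18)} (hT : 3 ≤ T.card)
    (ha : ∀ i ∈ T, α i ∉ T) (hU : ∀ i ∈ T, α i ∉ U) : OAcy (ZMod 2) (av K Uᶜ) 4 := by
  obtain ⟨x, y, z, hx, hy, hz, hxy, hxz, hyz⟩ := Finset.two_lt_card_iff.1 hT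
  have i1 : ∀ x y, x ≠ y → α x ≠ α y := fun x y hxy e => hxy (α.injective e)
  have i2 : ∀ x y, x ∈ T → y ∈ T → α x ≠ α (α y) := by
    intro x y hx hy e
    rw [h.inv] at e
    exact ha x hx (e ▸ hy)
  have h1 := acy4 h (i1 _ _ hxy) (i1 _ _ hxz) (i1 _ _ hyz) (i2 _ _ hx hy) (i2 _ _ hx hz)
    (i2 _ _ hy hz) Uᶜ
  rwa [Finset.union_eq_left.2] at h1
  intro w hw
  simp only [Finset.mem_insert, Finset.mem_singleton] at hw
  rw [Finset.mem_compl]
  rcases hw with rfl | rfl | rfl
  · exact hU _ hz
  · exact hU _ hy
  · exact hU _ hx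

/-- (S4) -/
theorem s4 (h : Hyp K α) {T : Finset (Fin 18)} {a : Fin 18} (hT : T.card = 4)
    (hTa : ∀ i ∈ T, α i ∉ T) (ha : a ∉ T) (ha' : α a ∉ T)
    (hc : ∀ t ∈ T, insert a (T.erase t) ∈ K ∧ insert (α a) (T.erase t) ∈ K) :
    insert a T ∈ K ∧ insert (α a) T ∈ K := by
  classical
  have one0 : (1 : ZMod 2) ≠ 0 := by decide
  have two : ∀ p : ZMod 2, p + p = 0 := by decide
  have hne : a ≠ α a := (h.free a).symm
  obtain ⟨U, hUd⟩ : ∃ U, U = insert a (insert (α a) T) := ⟨_, rfl⟩
  have hU : ∀ i ∈ T, α i ∉ U := by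
    intro i hi hiU
    rw [hUd, Finset.mem_insert, Finset.mem_insert] at hiU
    rcases hiU with e | e | e
    · apply ha'
      rw [← e, h.inv]
      exact hi
    · exact ha (α.injective e ▸ hi)
    · exact hTa i hi e
  obtain ⟨e, he⟩ : ∃ e : Finset (Fin 18) → ZMod 2,
      e = Pi.single (insert a T) 1 + Pi.single (insert (α a) T) 1 := ⟨_, rfl⟩
  have hez : obd e = obd (Pi.single (insert a T) 1) + obd (Pi.single (insert (α a) T) 1) := by
    rw [he, obd_add2]
  have her1 : ∀ t ∈ T, (insert a T).erase t = insert a (T.erase t) := by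
    intro t ht
    exact Finset.erase_insert_of_ne (fun e => ha (e ▸ ht))
  have her2 : ∀ t ∈ T, (insert (α a) T).erase t = insert (α a) (T.erase t) := by
    intro t ht
    exact Finset.erase_insert_of_ne (fun e => ha' (e ▸ ht))
  -- the boundary at the set `T` vanishes
  have hTz : obd e T = 0 := by
    rw [hez, Pi.add_apply, obd_single, obd_single,
      if_pos ⟨a, Finset.mem_insert_self _ _, (Finset.erase_insert ha).symm⟩,
      if_pos ⟨α a, Finset.mem_insert_self _ _, (Finset.erase_insert ha').symm⟩]
    exact two 1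
  have hsup : ∀ τ, obd e τ ≠ 0 → ∃ t ∈ T, τ = insert a (T.erase t) ∨ τ = insert (α a) (T.erase t) := by
    intro τ hτ
    have h0 : τ ≠ T := fun e => hτ (e ▸ hTz)
    rw [hez, Pi.add_apply, obd_single, obd_single] at hτ
    have h5 : (∃ v ∈ insert a T, τ = (insert a T).erase v) ∨
        ∃ v ∈ insert (α a) T, τ = (insert (α a) T).erase v := by
      by_contra hcon
      push Not at hcon
      rw [if_neg (by push Not; exact hcon.1), if_neg (by push Not; exact hcon.2), add_zero] at hτ
      exact hτ rfl
    rcases h5 with ⟨v, hv, e1⟩ | ⟨v, hv, e1⟩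
    · rcases Finset.mem_insert.1 hv with rfl | hv
      · exact absurd (e1.trans (Finset.erase_insert ha)) h0
      · exact ⟨v, hv, Or.inl (e1.trans (her1 v hv))⟩
    · rcases Finset.mem_insert.1 hv with rfl | hv
      · exact absurd (e1.trans (Finset.erase_insert ha')) h0
      · exact ⟨v, hv, Or.inr (e1.trans (her2 v hv))⟩
  obtain ⟨b, hb1, hb2⟩ := full4' h (by omega) hTa hU (obd e) (by
    intro τ hτ
    obtain ⟨t, ht, h1⟩ := hsup τ hτ
    have hsub : T.erase t ⊆ T := Finset.erase_subset _ _
    have hcard : (T.erase t).card = 3 := by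
      rw [Finset.card_erase_of_mem ht, hT]
    rcases h1 with rfl | rfl
    · refine ⟨mem_av.2 ⟨(hc t ht).1, ?_⟩, ?_⟩
      · rw [dis_compl, hUd]
        exact Finset.insert_subset_insert _ (hsub.trans (Finset.subset_insert _ _))
      · rw [Finset.card_insert_of_notMem (fun h => ha (hsub h)), hcard]
    · refine ⟨mem_av.2 ⟨(hc t ht).2, ?_⟩, ?_⟩
      · rw [dis_compl, hUd]
        exact (Finset.insert_subset_insert _ hsub).trans (Finset.subset_insert _ _)
      · rw [Finset.card_insert_of_notMem (fun h => ha' (hsub h)), hcard]) (obd_obd _)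
  -- `b` lives on the two sets
  have hbs : ∀ τ, b τ ≠ 0 → τ = insert a T ∨ τ = insert (α a) T := by
    intro τ hτ
    obtain ⟨h1, h2⟩ := hb1 τ hτ
    rw [mem_av, dis_compl, hUd] at h1
    by_cases h3 : a ∈ τ
    · left
      have h4 : α a ∉ τ := h.noa τ h1.1 a h3
      apply Finset.eq_of_subset_of_card_le
      · intro x hx
        have := h1.2 hx
        rw [Finset.mem_insert, Finset.mem_insert] at this
        rcases this with rfl | rfl | h5
        · exact Finset.mem_insert_self _ _
        · exact absurd hx h4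
        · exact Finset.mem_insert_of_mem h5
      · rw [Finset.card_insert_of_notMem ha, hT, h2]
    · right
      apply Finset.eq_of_subset_of_card_le
      · intro x hx
        have := h1.2 hx
        rw [Finset.mem_insert, Finset.mem_insert] at this
        rcases this with rfl | rfl | h5
        · exact absurd hx h3
        · exact Finset.mem_insert_self _ _
        · exact Finset.mem_insert_of_mem h5
      · rw [Finset.card_insert_of_notMem ha', hT, h2]
  have hTne : T.Nonempty := Finset.card_pos.1 (by omega)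
  obtain ⟨t, ht⟩ := hTne
  have hta : t ≠ a := fun e => ha (e ▸ ht)
  have hta' : t ≠ α a := fun e => ha' (e ▸ ht)
  -- compare the boundaries at the set of `t` and `a`
  have hval : ∀ g : Finset (Fin 18) → ZMod 2, (∀ τ, g τ ≠ 0 → τ = insert a T ∨ τ = insert (α a) T) →
      obd g (insert a (T.erase t)) = g (insert a T) ∧
      obd g (insert (α a) (T.erase t)) = g (insert (α a) T) := by
    intro g hg
    have key : ∀ x y : Fin 18, x ∉ T → y ∉ T → x ≠ y →
        (∀ τ, g τ ≠ 0 → τ = insert x T ∨ τ = insert y T) →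
        obd g (insert x (T.erase t)) = g (insert x T) := by
      intro x y hx hy hxy hg
      have htx : t ≠ x := fun e => hx (e ▸ ht)
      rw [pl_obd, Finset.sum_eq_single t]
      · rw [Finset.insert_comm, Finset.insert_erase ht]
      · intro v hv hvt
        rw [Finset.mem_compl, Finset.mem_insert, Finset.mem_erase, not_or] at hv
        by_contra hne2
        rcases hg _ hne2 with e1 | e1
        · have h1 : t ∈ insert v (insert x (T.erase t)) := by
            rw [e1]
            exact Finset.mem_insert_of_mem ht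
          rw [Finset.mem_insert, Finset.mem_insert, Finset.mem_erase] at h1
          rcases h1 with h1 | h1 | h1
          · exact hvt h1.symm
          · exact htx h1
          · exact h1.1 rfl
        · have h1 : x ∈ insert y T := by
            rw [← e1]
            exact Finset.mem_insert_of_mem (Finset.mem_insert_self _ _)
          rcases Finset.mem_insert.1 h1 with h1 | h1
          · exact hxy h1
          · exact hx h1
      · intro h1
        exfalso
        apply h1
        rw [Finset.mem_compl, Finset.mem_insert, Finset.mem_erase, not_or]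
        exact ⟨htx, fun h => h.1 rfl⟩
    exact ⟨key a (α a) ha ha' hne hg, key (α a) a ha' ha hne.symm fun τ hτ => (hg τ hτ).symm⟩
  have hes : ∀ τ, e τ ≠ 0 → τ = insert a T ∨ τ = insert (α a) T := by
    intro τ hτ
    by_contra hcon
    push Not at hcon
    apply hτ
    rw [he, Pi.add_apply, Pi.single_eq_of_ne hcon.1, Pi.single_eq_of_ne hcon.2, add_zero]
  have hne2 : insert a T ≠ insert (α a) T := by
    intro e1
    have h1 : a ∈ insert (α a) T := e1 ▸ Finset.mem_insert_self _ _
    rcases Finset.mem_insert.1 h1 with h1 | h1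
    · exact hne h1
    · exact ha h1
  have h1 := (hval b hbs).1
  have h2 := (hval b hbs).2
  rw [hb2, (hval e hes).1] at h1
  rw [hb2, (hval e hes).2] at h2
  rw [he, Pi.add_apply, Pi.single_eq_same, Pi.single_eq_of_ne hne2, add_zero] at h1
  rw [he, Pi.add_apply, Pi.single_eq_same, Pi.single_eq_of_ne hne2.symm, zero_add] at h2
  constructor
  · exact (mem_av.1 (hb1 _ (by rw [← h1]; exact one0)).1).1
  · exact (mem_av.1 (hb1 _ (by rw [← h2]; exact one0)).1).1

end H23.LZ
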