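import Pool.Agent.H23.LZ.Defs

/-!
# Signed action of a permutation on oriented chains
-/

namespace H23.LZ

open H40.VT

namespace Sm

variable {N : ℕ} {R : Type*} [CommRing R]

/-- the number of inversions of `g` on `ρ` -/
def nv (g : Equiv.Perm (Fin N)) (ρ : Finset (Fin N)) : ℕ :=
  ((ρ ×ˢ ρ).filter fun p => p.1 < p.2 ∧ g p.2 < g p.1).card

theorem nv_eq (g : Equiv.Perm (Fin N)) (ρ : Finset (Fin N)) :
    nv g ρ = ∑ a ∈ ρ, (ρ.filter fun b => a < b ∧ g b < g a).card := by
  unfold nv
  rw [Finset.card_filter, Finset.sum_product]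
  refine Finset.sum_congr rfl fun a _ => ?_
  rw [Finset.card_filter]

theorem card_filter_insert {ι : Type*} [DecidableEq ι] (p : ι → Prop) [DecidablePred p]
    {x : ι} {ρ : Finset ι} (hx : x ∉ ρ) :
    ((insert x ρ).filter p).card = (if p x then 1 else 0) + (ρ.filter p).card := by
  rw [Finset.card_filter, Finset.card_filter, Finset.sum_insert hx]

theorem nv_insert (g : Equiv.Perm (Fin N)) {x : Fin N} {ρ : Finset (Fin N)} (hx : x ∉ ρ) :
    nv g (insert x ρ) = (ρ.filter fun b => x < b ∧ g b < g x).card +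
      (ρ.filter fun b => b < x ∧ g x < g b).card + nv g ρ := by
  rw [nv_eq, nv_eq, Finset.sum_insert hx, card_filter_insert _ hx]
  rw [Finset.sum_congr rfl fun a _ => card_filter_insert _ hx, Finset.sum_add_distrib,
    ← Finset.card_filter]
  rw [if_neg (fun h => lt_irrefl _ h.1)]
  ring

theorem card_split (g : Equiv.Perm (Fin N)) {x : Fin N} {ρ : Finset (Fin N)} (hx : x ∉ ρ) :
    (ρ.filter fun b => b < x).card = (ρ.filter fun b => b < x ∧ g x < g b).card +
      (ρ.filter fun b => b < x ∧ g b < g x).card := by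
  rw [← Finset.card_filter_add_card_filter_not (s := ρ.filter fun b => b < x)
    (fun b => g x < g b), Finset.filter_filter, Finset.filter_filter]
  congr 2
  refine Finset.filter_congr fun b hb => ?_
  refine and_congr_right fun _ => ?_
  rw [not_lt]
  refine ⟨fun h => lt_of_le_of_ne h fun e => hx ?_, le_of_lt⟩
  rw [← g.injective e]
  exact hb

theorem card_split' (g : Equiv.Perm (Fin N)) {x : Fin N} {ρ : Finset (Fin N)} (hx : x ∉ ρ) :
    (ρ.filter fun b => g b < g x).card = (ρ.filter fun b => x < b ∧ g b < g x).card +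
      (ρ.filter fun b => b < x ∧ g b < g x).card := by
  rw [← Finset.card_filter_add_card_filter_not (s := ρ.filter fun b => g b < g x)
    (fun b => x < b), Finset.filter_filter, Finset.filter_filter]
  congr 2
  · refine Finset.filter_congr fun b hb => ?_
    exact and_comm
  · refine Finset.filter_congr fun b hb => ?_
    rw [and_comm]
    refine and_congr_left fun _ => ?_
    rw [not_lt]
    refine ⟨fun h => lt_of_le_of_ne h fun e => hx ?_, le_of_lt⟩
    rw [← e]
    exact hb

theorem neg_pow_parity {a b k : ℕ} (h : a = b + 2 * k) : (-1 : R) ^ a = (-1) ^ b := by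
  rw [h, pow_add, pow_mul, neg_one_sq, one_pow, mul_one]

/-- the sign of `g` on `ρ` changes by the positions -/
theorem sg_insert (g : Equiv.Perm (Fin N)) {x : Fin N} {ρ : Finset (Fin N)} (hx : x ∉ ρ) :
    (-1 : R) ^ nv g (insert x ρ) * (-1) ^ (ρ.filter fun b => b < x).card =
      (-1) ^ (ρ.filter fun b => g b < g x).card * (-1) ^ nv g ρ := by
  rw [← pow_add, ← pow_add]
  apply neg_pow_parity (k := (ρ.filter fun b => b < x ∧ g x < g b).card)
  rw [nv_insert g hx, card_split g hx, card_split' g hx]
  ring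

/-- the action of `g` on oriented chains -/
def G (g : Equiv.Perm (Fin N)) : (Finset (Fin N) → R) →ₗ[R] (Finset (Fin N) → R) where
  toFun c := fun τ => (-1) ^ nv g (τ.image g.symm) * c (τ.image g.symm)
  map_add' a b := by
    funext τ
    simp only [Pi.add_apply, mul_add]
  map_smul' r a := by
    funext τ
    simp only [Pi.smul_apply, smul_eq_mul, RingHom.id_apply]
    ring

theorem G_apply (g : Equiv.Perm (Fin N)) (c : Finset (Fin N) → R) (τ : Finset (Fin N)) :
    G g c τ = (-1) ^ nv g (τ.image g.symm) * c (τ.image g.symm) := rfl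

theorem mem_im {g : Equiv.Perm (Fin N)} {τ : Finset (Fin N)} {x : Fin N} :
    x ∈ τ.image g.symm ↔ g x ∈ τ := by
  rw [Finset.mem_image]
  constructor
  · rintro ⟨y, hy, rfl⟩
    rwa [Equiv.apply_symm_apply]
  · intro h
    exact ⟨g x, h, g.symm_apply_apply x⟩

theorem G_ins (g : Equiv.Perm (Fin N)) (x : Fin N) (c : Finset (Fin N) → R) :
    G g (ordIns x c) = ordIns (g x) (G g c) := by
  funext τ
  rw [G_apply, ordIns_apply, ordIns_apply, G_apply]
  by_cases hx : g x ∈ τ
  · rw [if_pos (mem_im.2 hx), if_pos hx]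
    have e1 : (τ.erase (g x)).image g.symm = (τ.image g.symm).erase x := by
      ext y
      rw [mem_im, Finset.mem_erase, Finset.mem_erase, mem_im]
      simp
    obtain ⟨ρ, hρ⟩ : ∃ ρ, ρ = (τ.image g.symm).erase x := ⟨_, rfl⟩
    have hxρ : x ∉ ρ := by
      rw [hρ]
      exact Finset.notMem_erase _ _
    have e2 : τ.image g.symm = insert x ρ := by
      rw [hρ, Finset.insert_erase (mem_im.2 hx)]
    have e3 : (τ.filter fun u => u < g x).card = (ρ.filter fun b => g b < g x).card := by
      symm
      refine Finset.card_bij (fun b _ => g b) ?_ ?_ ?_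
      · intro b hb
        rw [Finset.mem_filter] at hb ⊢
        refine ⟨?_, hb.2⟩
        rw [← mem_im, e2]
        exact Finset.mem_insert_of_mem hb.1
      · intro a _ b _ h
        exact g.injective h
      · intro u hu
        rw [Finset.mem_filter] at hu
        refine ⟨g.symm u, ?_, g.apply_symm_apply u⟩
        rw [Finset.mem_filter, Equiv.apply_symm_apply]
        refine ⟨?_, hu.2⟩
        rw [hρ, Finset.mem_erase, mem_im, Equiv.apply_symm_apply]
        refine ⟨?_, hu.1⟩
        intro h
        have h1 : u = g x := by rw [← h, Equiv.apply_symm_apply]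
        rw [h1] at hu
        exact lt_irrefl _ hu.2
    rw [e1, ← hρ, e2, e3, ← mul_assoc, ← mul_assoc, ord_filter_insert, sg_insert g hxρ]
  · rw [if_neg (fun h => hx (mem_im.1 h)), if_neg hx, mul_zero]

theorem G_empty (g : Equiv.Perm (Fin N)) :
    G g (Pi.single ∅ 1 : Finset (Fin N) → R) = Pi.single ∅ 1 := by
  funext τ
  rw [G_apply]
  by_cases h : τ = ∅
  · subst h
    rw [Finset.image_empty]
    have e : nv g ∅ = 0 := by
      unfold nv
      simp
    rw [e, pow_zero, one_mul]
  · rw [Pi.single_eq_of_ne h, Pi.single_eq_of_ne, mul_zero]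
    intro h1
    exact h (Finset.image_eq_empty.1 h1)

theorem G_phi (g : Equiv.Perm (Fin N)) (l : List (Fin N)) :
    G g (ordPhiL (R := R) l) = ordPhiL (l.map g) := by
  induction l with
  | nil => exact G_empty g
  | cons x l ih =>
    have e1 : ordPhiL (R := R) (x :: l) = ordIns x (ordPhiL l) := rfl
    have e2 : ordPhiL (R := R) ((x :: l).map g) = ordIns (g x) (ordPhiL (l.map g)) := rfl
    rw [e1, e2, G_ins, ih]

/-- linear maps which agree on lists are equal -/
theorem lin_ext {M : Type*} [AddCommGroup M] [Module R M]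
    {f h : (Finset (Fin N) → R) →ₗ[R] M}
    (H : ∀ l : List (Fin N), f (ordPhiL l) = h (ordPhiL l)) : f = h := by
  apply LinearMap.ext
  intro c
  rw [← ordPhi_ordPsi c, ordPsi_apply, map_sum, map_sum, map_sum]
  refine Finset.sum_congr rfl fun τ _ => ?_
  rw [map_smul, map_smul, map_smul, ordPhi_s, H]

theorem G_obd (g : Equiv.Perm (Fin N)) (c : Finset (Fin N) → R) :
    obd (G g c) = G g (obd c) := by
  have h : (ordB ∘ₗ G g : (Finset (Fin N) → R) →ₗ[R] (Finset (Fin N) → R)) = G g ∘ₗ ordB := by
    apply lin_ext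
    intro l
    rw [LinearMap.comp_apply, LinearMap.comp_apply, ordB_apply, ordB_apply]
    induction l with
    | nil =>
      have e1 : ordPhiL (R := R) ([] : List (Fin N)) = Pi.single ∅ 1 := rfl
      rw [e1, G_empty, ord_obd_single, map_zero]
    | cons x l ih =>
      have e1 : ordPhiL (R := R) (x :: l) = ordIns x (ordPhiL l) := rfl
      rw [e1, G_ins, ord_obd_ins, ord_obd_ins, map_sub, G_ins, ih]
  exact LinearMap.congr_fun h c

theorem G_three {g : Equiv.Perm (Fin N)} (hg3 : ∀ i, g (g (g i)) = i)
    (c : Finset (Fin N) → R) : G g (G g (G g c)) = c := by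
  have h : (G g ∘ₗ G g ∘ₗ G g : (Finset (Fin N) → R) →ₗ[R] (Finset (Fin N) → R)) =
      LinearMap.id := by
    apply lin_ext
    intro l
    rw [LinearMap.comp_apply, LinearMap.comp_apply, G_phi, G_phi, G_phi, LinearMap.id_apply,
      List.map_map, List.map_map]
    congr 1
    have e : (g ∘ g) ∘ g = id := by
      funext i
      exact hg3 i
    rw [e, List.map_id]
  exact LinearMap.congr_fun h c

end Sm

end H23.LZ
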