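import Pool.Agent.H23.LZ.SmA

/-!
# Chains over `F_3` and a permutation of order three
-/

namespace H23.LZ

open H40.VT

namespace Sm

variable {N : ℕ}

/-- restriction of a chain to the sets with property `p` -/
noncomputable def rs (p : Finset (Fin N) → Prop) :
    (Finset (Fin N) → ZMod 3) →ₗ[ZMod 3] (Finset (Fin N) → ZMod 3) := by
  classical
  exact
    { toFun := fun c τ => if p τ then c τ else 0
      map_add' := by
        intro a b
        funext τ
        simp only [Pi.add_apply]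
        split_ifs
        · rfl
        · rw [add_zero]
      map_smul' := by
        intro r a
        funext τ
        simp only [Pi.smul_apply, smul_eq_mul, RingHom.id_apply]
        split_ifs
        · rfl
        · rw [mul_zero] }

theorem rs_pos {p : Finset (Fin N) → Prop} {c : Finset (Fin N) → ZMod 3} {τ : Finset (Fin N)}
    (h : p τ) : rs p c τ = c τ := if_pos h

theorem rs_neg {p : Finset (Fin N) → Prop} {c : Finset (Fin N) → ZMod 3} {τ : Finset (Fin N)}
    (h : ¬ p τ) : rs p c τ = 0 := if_neg h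

theorem rs_ne {p : Finset (Fin N) → Prop} {c : Finset (Fin N) → ZMod 3} {τ : Finset (Fin N)}
    (h : rs p c τ ≠ 0) : p τ ∧ c τ ≠ 0 := by
  by_cases hp : p τ
  · rw [rs_pos hp] at h
    exact ⟨hp, h⟩
  · rw [rs_neg hp] at h
    exact absurd rfl h

/-- chains with faces in `L` with `n` vertices -/
def C (L : Finset (Finset (Fin N))) (n : ℕ) : Submodule (ZMod 3) (Finset (Fin N) → ZMod 3) where
  carrier := {c | OIn L n c}
  zero_mem' := fun σ h => absurd rfl h
  add_mem' := by
    intro a b ha hb σ h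
    by_cases h1 : a σ = 0
    · refine hb σ fun h2 => h ?_
      rw [Pi.add_apply, h1, h2, add_zero]
    · exact ha σ h1
  smul_mem' := by
    intro r a ha σ h
    refine ha σ fun h2 => h ?_
    rw [Pi.smul_apply, h2, smul_zero]

theorem mem_C {L : Finset (Finset (Fin N))} {n : ℕ} {c : Finset (Fin N) → ZMod 3} :
    c ∈ C L n ↔ OIn L n c := Iff.rfl

variable {L : Finset (Finset (Fin N))} {n : ℕ} {c : Finset (Fin N) → ZMod 3}

theorem C_rs (p : Finset (Fin N) → Prop) (hc : c ∈ C L n) : rs p c ∈ C L n :=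
  fun σ h => hc σ (rs_ne h).2

theorem C_obd (hL : DC L) (hc : c ∈ C L (n + 1)) : obd c ∈ C L n := by
  intro τ h
  rw [obd] at h
  obtain ⟨v, hv, h1⟩ := Finset.exists_ne_zero_of_sum_ne_zero h
  obtain ⟨h2, h3⟩ := hc (insert v τ) (right_ne_zero_of_mul h1)
  refine ⟨hL _ h2 _ (Finset.subset_insert v τ), ?_⟩
  rw [Finset.card_insert_of_notMem (Finset.mem_compl.1 hv)] at h3
  exact Nat.succ_injective h3

theorem obd_add (a b : Finset (Fin N) → ZMod 3) : obd (a + b) = obd a + obd b :=
  (ordB (R := ZMod 3) (N := N)).map_add a b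

theorem obd_sub (a b : Finset (Fin N) → ZMod 3) : obd (a - b) = obd a - obd b :=
  (ordB (R := ZMod 3) (N := N)).map_sub a b

theorem obd_neg (a : Finset (Fin N) → ZMod 3) : obd (-a) = -obd a :=
  (ordB (R := ZMod 3) (N := N)).map_neg a

theorem obd_zero : obd (0 : Finset (Fin N) → ZMod 3) = 0 :=
  (ordB (R := ZMod 3) (N := N)).map_zero

theorem obd_smul (r : ZMod 3) (a : Finset (Fin N) → ZMod 3) : obd (r • a) = r • obd a :=
  (ordB (R := ZMod 3) (N := N)).map_smul r a

/-- the permutation has order three and no fixed points -/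
structure Ord3 (g : Equiv.Perm (Fin N)) : Prop where
  three : ∀ i, g (g (g i)) = i
  free : ∀ i, g i ≠ i

variable {g : Equiv.Perm (Fin N)}

theorem symm_eq (hg : Ord3 g) (i : Fin N) : g.symm i = g (g i) := by
  rw [Equiv.symm_apply_eq, hg.three]

theorem im_symm (hg : Ord3 g) (τ : Finset (Fin N)) :
    τ.image g.symm = (τ.image g).image g := by
  rw [Finset.image_image]
  exact Finset.image_congr fun i _ => symm_eq hg i

theorem im_symm_im (τ : Finset (Fin N)) : (τ.image g.symm).image g = τ := by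
  rw [Finset.image_image]
  have e : (g ∘ g.symm : Fin N → Fin N) = id := by
    funext i
    exact g.apply_symm_apply i
  rw [e, Finset.image_id]

theorem im_three (hg : Ord3 g) (τ : Finset (Fin N)) :
    ((τ.image g).image g).image g = τ := by
  have h := im_symm_im (g := g) τ
  rwa [im_symm hg] at h

theorem C_G (hL : ∀ σ ∈ L, σ.image g ∈ L) (hc : c ∈ C L n) : G g c ∈ C L n := by
  intro τ h
  rw [G_apply] at h
  obtain ⟨h1, h2⟩ := hc _ (right_ne_zero_of_mul h)
  have h3 := hL _ h1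
  rw [im_symm_im] at h3
  refine ⟨h3, ?_⟩
  rw [← h2, Finset.card_image_of_injective _ g.symm.injective]

theorem G_rs (p : Finset (Fin N) → Prop) (c : Finset (Fin N) → ZMod 3) :
    G g (rs p c) = rs (fun τ => p (τ.image g.symm)) (G g c) := by
  funext τ
  by_cases h : p (τ.image g.symm)
  · rw [G_apply, rs_pos h, rs_pos (p := fun τ => p (τ.image g.symm)) h, G_apply]
  · rw [G_apply, rs_neg h, rs_neg (p := fun τ => p (τ.image g.symm)) h, mul_zero]

theorem cube (r : ZMod 3) : r * r * r = r := by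
  revert r
  decide

/-- invariance on fixed sets -/
theorem G_fix (hg : Ord3 g) {τ : Finset (Fin N)} (hτ : τ.image g = τ)
    (c : Finset (Fin N) → ZMod 3) : G g c τ = c τ := by
  have h1 : τ.image g.symm = τ := by rw [im_symm hg, hτ, hτ]
  have h2 : ∀ d : Finset (Fin N) → ZMod 3, G g d τ = (-1) ^ nv g τ * d τ := by
    intro d
    rw [G_apply, h1]
  have h3 := congrFun (G_three hg.three c) τ
  rw [h2, h2, h2, ← mul_assoc, ← mul_assoc, cube] at h3
  rw [h2, h3]

/-- the fixed sets -/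
def Fixd (g : Equiv.Perm (Fin N)) (τ : Finset (Fin N)) : Prop := τ.image g = τ

theorem fixd_symm (hg : Ord3 g) (τ : Finset (Fin N)) : Fixd g (τ.image g.symm) ↔ Fixd g τ := by
  unfold Fixd
  rw [im_symm_im, im_symm hg]
  constructor
  · intro h
    have h2 := congrArg (Finset.image g) h
    rw [im_three hg] at h2
    exact h2
  · intro h
    rw [h, h]

/-- the part of a chain on the fixed sets -/
noncomputable def Fx (g : Equiv.Perm (Fin N)) := rs (Fixd g)

theorem G_Fx (hg : Ord3 g) (c : Finset (Fin N) → ZMod 3) : G g (Fx g c) = Fx g c := by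
  funext τ
  by_cases h : Fixd g τ
  · rw [G_fix hg h]
  · have h1 : ¬ Fixd g (τ.image g.symm) := fun h2 => h ((fixd_symm hg τ).1 h2)
    rw [G_apply]
    unfold Fx
    rw [rs_neg h, rs_neg h1, mul_zero]

theorem Fx_G (hg : Ord3 g) (c : Finset (Fin N) → ZMod 3) : Fx g (G g c) = Fx g c := by
  funext τ
  unfold Fx
  by_cases h : Fixd g τ
  · rw [rs_pos h, rs_pos h, G_fix hg h]
  · rw [rs_neg h, rs_neg h]

/-- the sum over the group -/
def Nm (g : Equiv.Perm (Fin N)) (c : Finset (Fin N) → ZMod 3) : Finset (Fin N) → ZMod 3 :=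
  c + G g c + G g (G g c)

/-- the difference -/
def e (g : Equiv.Perm (Fin N)) (c : Finset (Fin N) → ZMod 3) : Finset (Fin N) → ZMod 3 :=
  G g c - c

theorem three_zero (c : Finset (Fin N) → ZMod 3) : c + c + c = 0 := by
  funext τ
  simp only [Pi.add_apply, Pi.zero_apply]
  generalize c τ = r
  revert r
  decide

theorem Nm_e (hg : Ord3 g) (c : Finset (Fin N) → ZMod 3) : Nm g (e g c) = 0 := by
  unfold Nm e
  rw [map_sub, map_sub, G_three hg.three]
  abel

theorem e_Nm (hg : Ord3 g) (c : Finset (Fin N) → ZMod 3) : e g (Nm g c) = 0 := by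
  unfold Nm e
  rw [map_add, map_add, G_three hg.three]
  abel

theorem Nm_add (a b : Finset (Fin N) → ZMod 3) : Nm g (a + b) = Nm g a + Nm g b := by
  unfold Nm
  simp only [map_add]
  abel

theorem Nm_sub (a b : Finset (Fin N) → ZMod 3) : Nm g (a - b) = Nm g a - Nm g b := by
  unfold Nm
  simp only [map_sub]
  abel

theorem e_add (a b : Finset (Fin N) → ZMod 3) : e g (a + b) = e g a + e g b := by
  unfold e
  simp only [map_add]
  abel

theorem e_sub (a b : Finset (Fin N) → ZMod 3) : e g (a - b) = e g a - e g b := by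
  unfold e
  simp only [map_sub]
  abel

theorem obd_Nm (c : Finset (Fin N) → ZMod 3) : obd (Nm g c) = Nm g (obd c) := by
  unfold Nm
  rw [obd_add, obd_add, G_obd, G_obd, G_obd]

theorem obd_e (c : Finset (Fin N) → ZMod 3) : obd (e g c) = e g (obd c) := by
  unfold e
  rw [obd_sub, G_obd]

theorem Nm_fix {c : Finset (Fin N) → ZMod 3} (h : G g c = c) : Nm g c = 0 := by
  unfold Nm
  rw [h, h]
  exact three_zero c

theorem Fx_Nm (hg : Ord3 g) (c : Finset (Fin N) → ZMod 3) : Fx g (Nm g c) = 0 := by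
  unfold Nm
  rw [map_add, map_add, Fx_G hg, Fx_G hg, Fx_G hg]
  exact three_zero _

theorem C_Nm (hL : ∀ σ ∈ L, σ.image g ∈ L) (hc : c ∈ C L n) : Nm g c ∈ C L n :=
  (C L n).add_mem ((C L n).add_mem hc (C_G hL hc)) (C_G hL (C_G hL hc))

theorem C_e (hL : ∀ σ ∈ L, σ.image g ∈ L) (hc : c ∈ C L n) : e g c ∈ C L n :=
  (C L n).sub_mem (C_G hL hc) hc

/-- a numbering of a finite type -/
noncomputable def num {ι : Type*} [Fintype ι] (x : ι) : ℕ := (Fintype.equivFin ι x).val

theorem num_inj {ι : Type*} [Fintype ι] {x y : ι} (h : num x = num y) : x = y :=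
  (Fintype.equivFin ι).injective (Fin.ext h)

/-- a choice of representatives -/
def Sel {ι : Type*} [Fintype ι] (γ : ι → ι) (x : ι) : Prop :=
  num x < num (γ x) ∧ num x < num (γ (γ x))

theorem sel_cases {ι : Type*} [Fintype ι] {γ : ι → ι} {x : ι} (h3 : γ (γ (γ x)) = x)
    (hx : γ x ≠ x) :
    (Sel γ x ∧ ¬ Sel γ (γ x) ∧ ¬ Sel γ (γ (γ x))) ∨
      (¬ Sel γ x ∧ Sel γ (γ x) ∧ ¬ Sel γ (γ (γ x))) ∨
      (¬ Sel γ x ∧ ¬ Sel γ (γ x) ∧ Sel γ (γ (γ x))) := by
  unfold Sel
  rw [h3]
  have h1 : num x ≠ num (γ x) := fun h => hx (num_inj h).symm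
  have h2 : num x ≠ num (γ (γ x)) := fun h => by
    have h4 := num_inj h
    apply hx
    have h5 := congrArg γ h4
    rw [h3] at h5
    exact h5
  have h4 : num (γ x) ≠ num (γ (γ x)) := fun h => by
    have h4 := num_inj h
    apply hx
    have h5 := congrArg γ (congrArg γ h4)
    rw [h3] at h5
    exact h5.symm
  omega

theorem sel_fix {ι : Type*} [Fintype ι] {γ : ι → ι} {x : ι} (hx : γ x = x) : ¬ Sel γ x := by
  unfold Sel
  rw [hx]
  exact fun h => lt_irrefl _ h.1

/-- the selected part of a chain -/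
noncomputable def P (g : Equiv.Perm (Fin N)) := rs (Sel fun τ : Finset (Fin N) => τ.image g)

/-- the splitting identity -/
theorem split (hg : Ord3 g) (c : Finset (Fin N) → ZMod 3) :
    P g c + G g (P g (G g (G g c))) + G g (G g (P g (G g c))) = c - Fx g c := by
  unfold P
  rw [G_rs, G_rs, G_rs, G_three hg.three]
  funext τ
  have e1 : τ.image g.symm = (τ.image g).image g := im_symm hg τ
  have e2 : (τ.image g.symm).image g.symm = τ.image g := by
    rw [im_symm hg (τ.image g.symm), im_symm hg τ, im_three hg]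
  obtain ⟨γ, hγ⟩ : ∃ γ : Finset (Fin N) → Finset (Fin N), ∀ τ, γ τ = τ.image g := ⟨_, fun _ => rfl⟩
  have hγ' : (fun τ : Finset (Fin N) => τ.image g) = γ := funext fun τ => (hγ τ).symm
  have h3 : γ (γ (γ τ)) = τ := by
    rw [hγ, hγ, hγ, im_three hg]
  simp only [Pi.add_apply, Pi.sub_apply]
  rw [hγ']
  by_cases hx : Fixd g τ
  · have hf : γ τ = τ := by rw [hγ]; exact hx
    have hf1 : τ.image g.symm = τ := by rw [e1, ← hγ, ← hγ, hf, hf]
    have n1 := sel_fix hf
    rw [rs_neg n1, rs_neg (by rwa [hf1]), rs_neg (by rwa [hf1, hf1])]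
    unfold Fx
    rw [rs_pos hx]
    ring
  · have hf : γ τ ≠ τ := by rw [hγ]; exact hx
    unfold Fx
    rw [rs_neg hx]
    rcases sel_cases h3 hf with ⟨h1, h2, h4⟩ | ⟨h1, h2, h4⟩ | ⟨h1, h2, h4⟩
    · rw [rs_pos h1, rs_neg (by rwa [e1, ← hγ, ← hγ]), rs_neg (by rwa [e2, ← hγ])]
      ring
    · rw [rs_neg h1, rs_neg (by rwa [e1, ← hγ, ← hγ]), rs_pos (by rwa [e2, ← hγ])]
      ring
    · rw [rs_neg h1, rs_pos (by rwa [e1, ← hγ, ← hγ]), rs_neg (by rwa [e2, ← hγ])]
      ring

/-- invariant chains are sums over the group, up to the fixed part -/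
theorem B1 (hg : Ord3 g) {c : Finset (Fin N) → ZMod 3} (h : G g c = c) :
    c = Nm g (P g c) + Fx g c := by
  have h1 := split hg c
  rw [h, h] at h1
  unfold Nm
  rw [h1]
  abel

/-- the lift of a chain with `N c = 0` -/
noncomputable def Y (g : Equiv.Perm (Fin N)) :
    (Finset (Fin N) → ZMod 3) →ₗ[ZMod 3] (Finset (Fin N) → ZMod 3) :=
  -P g - G g ∘ₗ (P g + P g ∘ₗ G g ∘ₗ G g)

theorem Y_apply (c : Finset (Fin N) → ZMod 3) :
    Y g c = -P g c - G g (P g c + P g (G g (G g c))) := rfl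

theorem B2 (hg : Ord3 g) {c : Finset (Fin N) → ZMod 3} (h : Nm g c = 0) :
    c = e g (Y g c) + Fx g c := by
  have h1 := split hg c
  have h2 : G g c = -(c + G g (G g c)) := by
    unfold Nm at h
    rw [eq_neg_iff_add_eq_zero, ← h]
    abel
  have h3 : G g (G g (P g (G g c))) = -G g (G g (P g c)) - G g (G g (P g (G g (G g c)))) := by
    have h5 := congrArg (fun z => G g (G g (P g z))) h2
    simp only [map_neg, map_add] at h5
    rw [h5]
    abel
  unfold e
  rw [Y_apply]
  simp only [map_neg, map_add, map_sub]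
  have h4 : c = P g c + G g (P g (G g (G g c))) + G g (G g (P g (G g c))) + Fx g c := by
    rw [h1]
    abel
  rw [h3] at h4
  conv_lhs => rw [h4]
  abel

theorem C_P (hc : c ∈ C L n) : P g c ∈ C L n := C_rs _ hc

theorem C_Fx (hc : c ∈ C L n) : Fx g c ∈ C L n := C_rs _ hc

theorem C_Y (hL : ∀ σ ∈ L, σ.image g ∈ L) (hc : c ∈ C L n) : Y g c ∈ C L n := by
  rw [Y_apply]
  exact (C L n).sub_mem ((C L n).neg_mem (C_P hc))
    (C_G hL ((C L n).add_mem (C_P hc) (C_P (C_G hL (C_G hL hc)))))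

/-- sums over orbits -/
theorem orb_sum {ι : Type*} [Fintype ι] [DecidableEq ι] (A : Finset ι) (γ : ι → ι)
    (h3 : ∀ x, γ (γ (γ x)) = x) (hA : ∀ x ∈ A, γ x ∈ A) (w : ι → ZMod 3)
    (hw : ∀ x ∈ A, w (γ x) = w x) :
    ∑ x ∈ A, w x = ∑ x ∈ A.filter (fun x => γ x = x), w x := by
  classical
  have h1 : ∀ f : ι → ZMod 3, ∑ x ∈ A, f (γ x) = ∑ x ∈ A, f x := by
    intro f
    refine Finset.sum_bij' (fun x _ => γ x) (fun x _ => γ (γ x)) hA
      (fun x hx => hA _ (hA x hx)) (fun x _ => h3 x) (fun x _ => h3 x) (fun x _ => rfl)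
  obtain ⟨f, hf⟩ : ∃ f : ι → ZMod 3, ∀ x, f x = if Sel γ x then w x else 0 := ⟨_, fun _ => rfl⟩
  have h2 : ∀ x ∈ A, w x = (if γ x = x then w x else 0) + (f x + f (γ x) + f (γ (γ x))) := by
    intro x hx
    have w1 := hw x hx
    have w2 := hw _ (hA x hx)
    rw [hf, hf, hf, w2, w1]
    by_cases hfx : γ x = x
    · have n1 := sel_fix hfx
      rw [if_pos hfx, hfx, hfx, if_neg n1]
      ring
    · rw [if_neg hfx]
      rcases sel_cases (h3 x) hfx with ⟨h1, h2, h4⟩ | ⟨h1, h2, h4⟩ | ⟨h1, h2, h4⟩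
      · rw [if_pos h1, if_neg h2, if_neg h4]
        ring
      · rw [if_neg h1, if_pos h2, if_neg h4]
        ring
      · rw [if_neg h1, if_neg h2, if_pos h4]
        ring
  rw [Finset.sum_congr rfl h2, Finset.sum_add_distrib, Finset.sum_add_distrib,
    Finset.sum_add_distrib, h1 (fun x => f (γ x)), h1 f, Finset.sum_filter]
  have h4 : ∀ r : ZMod 3, r + r + r = 0 := by decide
  rw [h4, add_zero]

/-- fixed sets have cardinality divisible by three -/
theorem fixd_card (hg : Ord3 g) {τ : Finset (Fin N)} (hτ : Fixd g τ) : 3 ∣ τ.card := by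
  have h := orb_sum τ g hg.three (fun x hx => by
    have h1 := Finset.mem_image_of_mem g hx
    rw [hτ] at h1
    exact h1) (fun _ => 1) (fun _ _ => rfl)
  have h1 : τ.filter (fun x => g x = x) = ∅ := Finset.filter_false_of_mem fun x _ => hg.free x
  rw [h1, Finset.sum_empty, Finset.sum_const, nsmul_eq_mul, mul_one] at h
  exact (ZMod.natCast_eq_zero_iff _ _).1 h

/-- no fixed sets in the cardinality `n` -/
theorem Fx_zero (hg : Ord3 g) (hn : ¬ 3 ∣ n) (hc : c ∈ C L n) : Fx g c = 0 := by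
  funext τ
  by_contra h
  obtain ⟨h1, h2⟩ := rs_ne h
  apply hn
  rw [← (hc τ h2).2]
  exact fixd_card hg h1

theorem C1 (hg : Ord3 g) (hn : ¬ 3 ∣ n) (hc : c ∈ C L n) (h : G g c = c) :
    c = Nm g (P g c) := by
  have h1 := B1 hg h
  rwa [Fx_zero hg hn hc, add_zero] at h1

theorem C2 (hg : Ord3 g) (hn : ¬ 3 ∣ n) (hc : c ∈ C L n) (h : Nm g c = 0) :
    c = e g (Y g c) := by
  have h1 := B2 hg h
  rwa [Fx_zero hg hn hc, add_zero] at h1

end Sm

end H23.LZ
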