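import Pool.Agent.H23.LZ.SmB

/-!
# The transfer between fixed chains
-/

namespace H23.LZ

open H40.VT

namespace Sm

variable {N : ℕ} {L : Finset (Finset (Fin N))} {n : ℕ} {g : Equiv.Perm (Fin N)}

/-- three steps down -/
noncomputable def Q (g : Equiv.Perm (Fin N)) :
    (Finset (Fin N) → ZMod 3) →ₗ[ZMod 3] (Finset (Fin N) → ZMod 3) :=
  ordB ∘ₗ Y g ∘ₗ ordB ∘ₗ P g ∘ₗ ordB

theorem Q_apply (c : Finset (Fin N) → ZMod 3) :
    Q g c = obd (Y g (obd (P g (obd c)))) := rfl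

theorem C_Q (hL : DC L) (hi : ∀ σ ∈ L, σ.image g ∈ L) {c : Finset (Fin N) → ZMod 3}
    (hc : c ∈ C L (n + 3)) : Q g c ∈ C L n := by
  rw [Q_apply]
  exact C_obd hL (C_Y hi (C_obd hL (C_P (C_obd hL hc))))

/-- the first two steps -/
theorem stepP (hg : Ord3 g) (hL : DC L) (hn : ¬ 3 ∣ n)
    {c : Finset (Fin N) → ZMod 3} (hc : c ∈ C L (n + 1)) (h : G g c = c) :
    obd c = Nm g (P g (obd c)) ∧ Nm g (obd (P g (obd c))) = 0 := by
  have h1 : obd c = Nm g (P g (obd c)) := by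
    apply C1 hg hn (C_obd hL hc)
    rw [← G_obd, h]
  refine ⟨h1, ?_⟩
  rw [← obd_Nm, ← h1, obd_obd]

theorem stepY (hg : Ord3 g) (hL : DC L) (hn : ¬ 3 ∣ n) (hn' : ¬ 3 ∣ n + 1)
    {c : Finset (Fin N) → ZMod 3} (hc : c ∈ C L (n + 2)) (h : G g c = c) :
    obd (P g (obd c)) = e g (Y g (obd (P g (obd c)))) := by
  apply C2 hg hn (C_obd hL (C_P (C_obd hL hc)))
  exact (stepP hg hL hn' hc h).2

theorem G_Q (hg : Ord3 g) (hL : DC L) (hn : ¬ 3 ∣ n) (hn' : ¬ 3 ∣ n + 1)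
    {c : Finset (Fin N) → ZMod 3} (hc : c ∈ C L (n + 2)) (h : G g c = c) :
    G g (Q g c) = Q g c := by
  have h1 := stepY hg hL hn hn' hc h
  have h2 := congrArg obd h1
  rw [obd_obd, obd_e, ← Q_apply] at h2
  unfold e at h2
  exact (sub_eq_zero.1 h2.symm)

/-- the transfer of a transfer is zero -/
theorem E2 (hg : Ord3 g) (hL : DC L) (hi : ∀ σ ∈ L, σ.image g ∈ L)
    {c : Finset (Fin N) → ZMod 3} (hc : c ∈ C L 6) (h : G g c = c) :
    Q g (Fx g (Q g c)) ∅ = 0 := by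
  have hQ : Q g c ∈ C L 3 := C_Q hL hi hc
  have hGQ : G g (Q g c) = Q g c :=
    G_Q (n := 4) hg hL (by norm_num) (by norm_num) hc h
  have hd : Fx g (Q g c) ∈ C L 3 := C_Fx hQ
  have hGd : G g (Fx g (Q g c)) = Fx g (Q g c) := G_Fx hg _
  have h0 : obd (Q g c) = 0 := by
    rw [Q_apply, obd_obd]
  have h1 := B1 hg hGQ
  obtain ⟨d, hdd⟩ : ∃ d, d = Fx g (Q g c) := ⟨_, rfl⟩
  rw [← hdd] at hd hGd h1 ⊢
  obtain ⟨y3, hy3⟩ : ∃ y3, y3 = P g (Q g c) := ⟨_, rfl⟩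
  have hy3C : y3 ∈ C L 3 := hy3 ▸ C_P hQ
  rw [← hy3] at h1
  have h2 : obd (Nm g y3) + obd d = 0 := by
    rw [← obd_add, ← h1, h0]
  obtain ⟨h3, -⟩ := stepP (n := 2) hg hL (by norm_num) hd hGd
  have h4 : Nm g (P g (obd d) + obd y3) = 0 := by
    rw [Nm_add, ← h3, ← obd_Nm, add_comm]
    exact h2
  have hm : P g (obd d) + obd y3 ∈ C L 2 :=
    (C L 2).add_mem (C_P (C_obd hL hd)) (C_obd hL hy3C)
  have h5 := C2 (n := 2) hg (by norm_num) hm h4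
  obtain ⟨w, hw⟩ : ∃ w, w = Y g (P g (obd d) + obd y3) := ⟨_, rfl⟩
  have hwC : w ∈ C L 2 := hw ▸ C_Y hi hm
  rw [← hw] at h5
  have h6 : obd (P g (obd d)) = e g (obd w) := by
    have h7 := congrArg obd h5
    rwa [obd_add, obd_obd, add_zero, obd_e] at h7
  have h7 := stepY (n := 1) hg hL (by norm_num) (by norm_num) hd hGd
  obtain ⟨q, hq⟩ : ∃ q, q = Y g (obd (P g (obd d))) := ⟨_, rfl⟩
  have hqC : q ∈ C L 1 := hq ▸ C_Y hi (C_obd hL (C_P (C_obd hL hd)))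
  rw [← hq] at h7
  have h8 : e g (q - obd w) = 0 := by
    rw [e_sub, ← h7, h6, sub_self]
  have h9 : G g (q - obd w) = q - obd w := by
    unfold e at h8
    exact sub_eq_zero.1 h8
  have hm2 : q - obd w ∈ C L 1 := (C L 1).sub_mem hqC (C_obd hL hwC)
  have h10 := C1 (n := 1) hg (by norm_num) hm2 h9
  have h11 := congrArg obd h10
  rw [obd_sub, obd_obd, sub_zero, obd_Nm] at h11
  rw [Q_apply, ← hq, h11]
  have h12 : Fixd g (∅ : Finset (Fin N)) := Finset.image_empty _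
  unfold Nm
  simp only [Pi.add_apply]
  rw [G_fix hg h12, G_fix hg h12, G_fix hg h12]
  exact congrFun (three_zero (obd (P g (q - obd w)))) ∅

/-- chains of cardinality zero -/
theorem C_zero {c : Finset (Fin N) → ZMod 3} (hc : c ∈ C L 0) (h : c ∅ = 0) : c = 0 := by
  funext τ
  by_contra h1
  have h2 := Finset.card_eq_zero.1 (hc τ h1).2
  rw [h2] at h1
  exact h1 h

theorem C_ins {c : Finset (Fin N) → ZMod 3} {x : Fin N} {O : Finset (Fin N)} (hx : x ∈ O)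
    (hc : c ∈ C O.powerset n) : ordIns x c ∈ C O.powerset (n + 1) := by
  intro τ h
  rw [ordIns_apply] at h
  split_ifs at h with hxτ
  · obtain ⟨h1, h2⟩ := hc _ (right_ne_zero_of_mul h)
    rw [Finset.mem_powerset] at h1 ⊢
    refine ⟨?_, ?_⟩
    · rw [← Finset.insert_erase hxτ]
      exact Finset.insert_subset hx h1
    · rw [← h2, Finset.card_erase_add_one hxτ]
  · exact absurd rfl h

/-- full simplices are acyclic -/
theorem C_full {c : Finset (Fin N) → ZMod 3} {x : Fin N} {O : Finset (Fin N)} (hx : x ∈ O)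
    (hc : c ∈ C O.powerset n) (h : obd c = 0) :
    ordIns x c ∈ C O.powerset (n + 1) ∧ obd (ordIns x c) = c := by
  refine ⟨C_ins hx hc, ?_⟩
  rw [ord_obd_ins, h, map_zero, sub_zero]

/-- the transfer of an orbit is not zero -/
theorem E3 (hg : Ord3 g) {O : Finset (Fin N)} (hO : Fixd g O) (h3 : O.card = 3) :
    Q g (Pi.single O 1) ∅ ≠ 0 := by
  intro h0
  obtain ⟨x, hx⟩ : O.Nonempty := by
    rw [← Finset.card_pos, h3]
    norm_num
  have hL : DC O.powerset := by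
    intro σ hσ τ hτ
    rw [Finset.mem_powerset] at hσ ⊢
    exact hτ.trans hσ
  have hi : ∀ σ ∈ O.powerset, σ.image g ∈ O.powerset := by
    intro σ hσ
    rw [Finset.mem_powerset] at hσ ⊢
    have h1 := Finset.image_subset_image (f := g) hσ
    rw [hO] at h1
    exact h1
  obtain ⟨a, ha⟩ : ∃ a : Finset (Fin N) → ZMod 3, a = Pi.single O 1 := ⟨_, rfl⟩
  rw [← ha] at h0
  have haC : a ∈ C O.powerset 3 := by
    intro τ hτ
    by_cases h1 : τ = O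
    · rw [h1]
      exact ⟨Finset.mem_powerset_self O, h3⟩
    · rw [ha, Pi.single_eq_of_ne h1] at hτ
      exact absurd rfl hτ
  have hGc : ∀ b ∈ C O.powerset 3, G g b = b := by
    intro b hb
    funext τ
    by_cases h1 : τ = O
    · rw [h1, G_fix hg hO]
    · have hz : ∀ d ∈ C O.powerset 3, d τ = 0 := by
        intro d hd
        by_contra h2
        obtain ⟨h4, h5⟩ := hd τ h2
        apply h1
        exact Finset.eq_of_subset_of_card_le (Finset.mem_powerset.1 h4) (by rw [h3, h5])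
      rw [hz b hb, hz _ (C_G hi hb)]
  have hGa := hGc a haC
  obtain ⟨h4, -⟩ := stepP (n := 2) hg hL (by norm_num) haC hGa
  have h5 := stepY (n := 1) hg hL (by norm_num) (by norm_num) haC hGa
  rw [Q_apply] at h0
  obtain ⟨p, hp⟩ : ∃ p, p = P g (obd a) := ⟨_, rfl⟩
  have hpC : p ∈ C O.powerset 2 := hp ▸ C_P (C_obd hL haC)
  rw [← hp] at h0 h4 h5
  obtain ⟨q, hq⟩ : ∃ q, q = Y g (obd p) := ⟨_, rfl⟩
  have hqC : q ∈ C O.powerset 1 := hq ▸ C_Y hi (C_obd hL hpC)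
  rw [← hq] at h0 h5
  have h6 : obd q = 0 := C_zero (C_obd hL hqC) h0
  obtain ⟨hb2, h7⟩ := C_full hx hqC h6
  obtain ⟨b2, hb2e⟩ : ∃ b2, b2 = ordIns x q := ⟨_, rfl⟩
  rw [← hb2e] at hb2 h7
  have h8 : obd (p - e g b2) = 0 := by
    rw [obd_sub, obd_e, h7, h5, sub_self]
  have hm : p - e g b2 ∈ C O.powerset 2 := (C _ 2).sub_mem hpC (C_e hi hb2)
  obtain ⟨hb3, h9⟩ := C_full hx hm h8
  obtain ⟨b3, hb3e⟩ : ∃ b3, b3 = ordIns x (p - e g b2) := ⟨_, rfl⟩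
  rw [← hb3e] at hb3 h9
  have h10 : obd a = 0 := by
    have h11 : Nm g (obd b3) = Nm g p := by
      rw [h9, Nm_sub, Nm_e hg, sub_zero]
    rw [h4, ← h11, ← obd_Nm, Nm_fix (hGc b3 hb3), obd_zero]
  obtain ⟨h11, h12⟩ := C_full hx haC h10
  have h13 : a O = 1 := by rw [ha, Pi.single_eq_same]
  have h14 : ordIns x a = 0 := by
    funext τ
    by_contra h15
    obtain ⟨h16, h17⟩ := h11 τ h15
    have h18 := Finset.card_le_card (Finset.mem_powerset.1 h16)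
    omega
  rw [h14, obd_zero] at h12
  rw [← h12, Pi.zero_apply] at h13
  exact zero_ne_one h13

/-- chains with trivial transfer are transfers -/
theorem E1 (hg : Ord3 g) (hL : DC L) (hi : ∀ σ ∈ L, σ.image g ∈ L)
    (hacy : ∀ n, n < 6 → OAcy (ZMod 3) L n) (h7 : ∀ σ ∈ L, σ.card ≤ 6)
    {z : Finset (Fin N) → ZMod 3} (hz : ∀ c : Finset (Fin N) → ZMod 3, OIn L 6 c → obd c = 0 →
      ∃ r : ZMod 3, ∃ b, OIn L (6 + 1) b ∧ obd b = c - r • z)
    {F : Finset (Fin N)} (hF : Fixd g F) (hzF : z F ≠ 0)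
    {a : Finset (Fin N) → ZMod 3} (ha : a ∈ C L 3) (hfa : Fx g a = a) (h0 : Q g a ∅ = 0) :
    ∃ φ ∈ C L 6, Fx g φ = φ ∧ a = Fx g (Q g φ) := by
  have hGa : G g a = a := by
    rw [← hfa]
    exact G_Fx hg a
  obtain ⟨h4, -⟩ := stepP (n := 2) hg hL (by norm_num) ha hGa
  have h5 := stepY (n := 1) hg hL (by norm_num) (by norm_num) ha hGa
  rw [Q_apply] at h0
  obtain ⟨p, hp⟩ : ∃ p, p = P g (obd a) := ⟨_, rfl⟩
  have hpC : p ∈ C L 2 := hp ▸ C_P (C_obd hL ha)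
  rw [← hp] at h0 h4 h5
  obtain ⟨q, hq⟩ : ∃ q, q = Y g (obd p) := ⟨_, rfl⟩
  have hqC : q ∈ C L 1 := hq ▸ C_Y hi (C_obd hL hpC)
  rw [← hq] at h0 h5
  have h6 : obd q = 0 := C_zero (C_obd hL hqC) h0
  obtain ⟨b2, hb2, hb2q⟩ := hacy 1 (by norm_num) q hqC h6
  have hb2 : b2 ∈ C L 2 := hb2
  have h8 : obd (p - e g b2) = 0 := by
    rw [obd_sub, obd_e, hb2q, h5, sub_self]
  obtain ⟨b3, hb3, h9⟩ := hacy 2 (by norm_num) (p - e g b2)
    ((C L 2).sub_mem hpC (C_e hi hb2)) h8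
  have hb3 : b3 ∈ C L 3 := hb3
  have h10 : obd (a - Nm g b3) = 0 := by
    rw [obd_sub, obd_Nm, h9, Nm_sub, Nm_e hg, sub_zero, ← h4, sub_self]
  obtain ⟨y4, hy4, h11⟩ := hacy 3 (by norm_num) (a - Nm g b3)
    ((C L 3).sub_mem ha (C_Nm hi hb3)) h10
  have hy4 : y4 ∈ C L 4 := hy4
  have hea : e g a = 0 := by
    unfold e
    rw [hGa, sub_self]
  have h12 : obd (e g y4) = 0 := by
    rw [obd_e, h11, e_sub, hea, e_Nm hg, sub_self]
  obtain ⟨u5, hu5, h13⟩ := hacy 4 (by norm_num) (e g y4) (C_e hi hy4) h12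
  have hu5 : u5 ∈ C L 5 := hu5
  have h14 : obd (Nm g u5) = 0 := by
    rw [obd_Nm, h13, Nm_e hg]
  obtain ⟨f, hf, h15⟩ := hacy 5 (by norm_num) (Nm g u5) (C_Nm hi hu5) h14
  have hf : f ∈ C L 6 := hf
  have h16 : obd (e g f) = 0 := by
    rw [obd_e, h15, e_Nm hg]
  obtain ⟨r, b, hb, h17⟩ := hz (e g f) (C_e hi hf) h16
  have hb0 : b = 0 := by
    funext τ
    by_contra h18
    obtain ⟨h19, h20⟩ := hb τ h18
    have := h7 τ h19
    omega
  rw [hb0, obd_zero] at h17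
  have h18 : e g f = r • z := (sub_eq_zero.1 h17.symm)
  have hr : r = 0 := by
    have h19 := congrFun h18 F
    unfold e at h19
    rw [Pi.sub_apply, G_fix hg hF, sub_self, Pi.smul_apply, smul_eq_mul] at h19
    exact (mul_eq_zero.1 h19.symm).resolve_right hzF
  rw [hr, zero_smul] at h18
  have hGf : G g f = f := by
    unfold e at h18
    exact sub_eq_zero.1 h18
  have h19 := B1 hg hGf
  obtain ⟨φ, hφ⟩ : ∃ φ, φ = Fx g f := ⟨_, rfl⟩
  have hφC : φ ∈ C L 6 := hφ ▸ C_Fx hf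
  obtain ⟨f', hf'⟩ : ∃ f', f' = P g f := ⟨_, rfl⟩
  have hf'C : f' ∈ C L 6 := hf' ▸ C_P hf
  rw [← hφ, ← hf'] at h19
  have hFF : Fx g φ = φ := by
    rw [hφ]
    funext τ
    unfold Fx
    by_cases hτ : Fixd g τ
    · rw [rs_pos hτ]
    · rw [rs_neg hτ, rs_neg hτ]
  have hGφ : G g φ = φ := by
    rw [hφ]
    exact G_Fx hg f
  refine ⟨φ, hφC, hFF, ?_⟩
  obtain ⟨k4, -⟩ := stepP (n := 5) hg hL (by norm_num) hφC hGφ
  have k5 := stepY (n := 4) hg hL (by norm_num) (by norm_num) hφC hGφ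
  rw [Q_apply]
  obtain ⟨s, hs⟩ : ∃ s, s = P g (obd φ) := ⟨_, rfl⟩
  have hsC : s ∈ C L 5 := hs ▸ C_P (C_obd hL hφC)
  rw [← hs] at k4 k5 ⊢
  obtain ⟨t, ht⟩ : ∃ t, t = Y g (obd s) := ⟨_, rfl⟩
  have htC : t ∈ C L 4 := ht ▸ C_Y hi (C_obd hL hsC)
  rw [← ht] at k5 ⊢
  have h20 : Nm g (obd f' + s - u5) = 0 := by
    rw [Nm_sub, Nm_add, ← k4, ← h15, h19, obd_add, obd_Nm, sub_self]
  have hm5 : obd f' + s - u5 ∈ C L 5 :=
    (C L 5).sub_mem ((C L 5).add_mem (C_obd hL hf'C) hsC) hu5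
  have h21 := C2 (n := 5) hg (by norm_num) hm5 h20
  obtain ⟨w, hw⟩ : ∃ w, w = Y g (obd f' + s - u5) := ⟨_, rfl⟩
  have hwC : w ∈ C L 5 := hw ▸ C_Y hi hm5
  rw [← hw] at h21
  have h22 : e g (t - y4 - obd w) = 0 := by
    have h23 := congrArg obd h21
    rw [obd_sub, obd_add, obd_obd, zero_add, h13, k5, obd_e] at h23
    rw [e_sub, e_sub, h23, sub_self]
  have hm4 : t - y4 - obd w ∈ C L 4 :=
    (C L 4).sub_mem ((C L 4).sub_mem htC hy4) (C_obd hL hwC)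
  have h23 := C1 (n := 4) hg (by norm_num) hm4 (by
    unfold e at h22
    exact sub_eq_zero.1 h22)
  have h24 := congrArg obd h23
  rw [obd_sub, obd_sub, obd_obd, sub_zero, h11, obd_Nm] at h24
  have h25 : obd t = Nm g (obd (P g (t - y4 - obd w))) + (a - Nm g b3) :=
    sub_eq_iff_eq_add.1 h24
  rw [h25, map_add, (Fx g).map_sub a, Fx_Nm hg, Fx_Nm hg, hfa, zero_add, sub_zero]

end Sm

end H23.LZ
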