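import Pool.Agent.H23.LZ.SmC

/-!
# The graph of orbits of a free automorphism of order three is connected
-/

namespace H23.LZ

open H40.VT

variable {K : Finset (Finset (Fin 18))} {α : Equiv.Perm (Fin 18)}

namespace Sm

/-- the orbit of a point -/
def orb (g : Equiv.Perm (Fin 18)) (i : Fin 18) : Finset (Fin 18) := {i, g i, g (g i)}

variable {g : Equiv.Perm (Fin 18)}

theorem mem_orb {i j : Fin 18} : j ∈ orb g i ↔ j = i ∨ j = g i ∨ j = g (g i) := by
  unfold orb
  rw [Finset.mem_insert, Finset.mem_insert, Finset.mem_singleton]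

theorem orb_card (hg : Ord3 g) (i : Fin 18) : (orb g i).card = 3 := by
  unfold orb
  have h1 : i ≠ g i := (hg.free i).symm
  have h2 : g i ≠ g (g i) := (hg.free (g i)).symm
  have h3 : i ≠ g (g i) := by
    intro h
    have h4 := congrArg g h
    rw [hg.three] at h4
    exact hg.free i h4
  exact Finset.card_eq_three.2 ⟨i, g i, g (g i), h1, h3, h2, rfl⟩

theorem orb_fixd (hg : Ord3 g) (i : Fin 18) : Fixd g (orb g i) := by
  unfold Fixd orb
  rw [Finset.image_insert, Finset.image_insert, Finset.image_singleton, hg.three]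
  ext x
  simp only [Finset.mem_insert, Finset.mem_singleton]
  tauto

theorem fixd_mem {τ : Finset (Fin 18)} (h : Fixd g τ) {i : Fin 18} (hi : i ∈ τ) : g i ∈ τ := by
  have h1 := Finset.mem_image_of_mem g hi
  rwa [h] at h1

theorem orb_sub {τ : Finset (Fin 18)} (h : Fixd g τ) {i : Fin 18} (hi : i ∈ τ) :
    orb g i ⊆ τ := by
  intro x hx
  rcases mem_orb.1 hx with rfl | rfl | rfl
  · exact hi
  · exact fixd_mem h hi
  · exact fixd_mem h (fixd_mem h hi)

theorem fixd_sdiff {σ τ : Finset (Fin 18)} (h1 : Fixd g σ) (h2 : Fixd g τ) :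
    Fixd g (σ \ τ) := by
  unfold Fixd at *
  rw [Finset.image_sdiff _ _ g.injective, h1, h2]

theorem fixd_union {σ τ : Finset (Fin 18)} (h1 : Fixd g σ) (h2 : Fixd g τ) :
    Fixd g (σ ∪ τ) := by
  unfold Fixd at *
  rw [Finset.image_union, h1, h2]

/-- a fixed facet -/
theorem ex_facet (h : Sph 6 K) (hg : Ord3 g) (hgK : ∀ σ, σ ∈ K ↔ σ.image g ∈ K)
    (i : Fin 18) (hi : orb g i ∈ K) : ∃ F ∈ K, Fixd g F ∧ F.card = 6 := by
  classical
  by_contra hno
  push Not at hno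
  have h1 := euler_link h hi
  rw [orb_card hg] at h1
  have h2 : ∑ τ ∈ lk K (orb g i), (-1 : ZMod 3) ^ (τ.card + 3) = 1 := by
    have h3 := congrArg (Int.cast : ℤ → ZMod 3) h1
    push_cast at h3
    rw [h3]
  rw [orb_sum (lk K (orb g i)) (fun τ => τ.image g) (im_three hg) ?_ _ ?_] at h2
  · have h3 : (lk K (orb g i)).filter (fun τ => τ.image g = τ) = {∅} := by
      ext τ
      rw [Finset.mem_filter, Finset.mem_singleton, mem_lk]
      constructor
      · rintro ⟨⟨k1, k2⟩, k3⟩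
        by_contra hne
        have k4 := fixd_card hg k3
        have k5 : τ.card ≠ 0 := fun hh => hne (Finset.card_eq_zero.1 hh)
        have k6 : (τ ∪ orb g i).card = τ.card + 3 := by
          rw [Finset.card_union_of_disjoint k1, orb_card hg]
        have k7 := sphere_card h.1 h.2.1 h.2.2 k2
        exact hno _ k2 (fixd_union k3 (orb_fixd hg i)) (by omega)
      · rintro rfl
        exact ⟨⟨Finset.disjoint_empty_left _, by rwa [Finset.empty_union]⟩,
          Finset.image_empty _⟩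
    rw [h3, Finset.sum_singleton, Finset.card_empty] at h2
    revert h2
    decide
  · intro τ hτ
    rw [mem_lk] at hτ ⊢
    have k1 := orb_fixd hg i
    unfold Fixd at k1
    constructor
    · rw [← k1]
      exact (Finset.disjoint_image g.injective).2 hτ.1
    · rw [← k1, ← Finset.image_union]
      exact (hgK _).1 hτ.2
  · intro τ _
    rw [Finset.card_image_of_injective _ g.injective]

/-- the fundamental cycle does not vanish on a facet -/
theorem z_ne (h : Sph 6 K) {z : Finset (Fin 18) → ZMod 3} (hz : OIn K 6 z) (hz0 : obd z = 0)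
    (h1 : ∀ r : ZMod 3, ∀ b, OIn K (6 + 1) b → obd b = r • z → r = 0)
    {F : Finset (Fin 18)} (hF : F ∈ K) (hc : F.card = 6) : z F ≠ 0 := by
  intro h0
  obtain ⟨hK, he, hh⟩ := h
  have hne : (↑F : Set (Fin 18)).Nonempty := by
    rw [Finset.coe_nonempty, ← Finset.card_pos, hc]
    norm_num
  have h2 := LA_sphere (R := ZMod 3) hK he hh ↑F ((mem_Fam hK).2 hF) hne
  rw [del_Fam hK] at h2
  have h3 : OAcy (ZMod 3) (del K F) 6 := OAcy_of (del_DC hK F) fun c hc _ hb => h2 c hc hb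
  obtain ⟨b, hb, hb2⟩ := h3 z (by
    intro σ hσ
    obtain ⟨k1, k2⟩ := hz σ hσ
    refine ⟨Finset.mem_filter.2 ⟨k1, fun k3 => ?_⟩, k2⟩
    have k4 := Finset.eq_of_subset_of_card_le k3 (by rw [k2, hc])
    rw [← k4] at hσ
    exact hσ h0) hz0
  have h4 := h1 1 b (fun σ hσ => by
    obtain ⟨k1, k2⟩ := hb σ hσ
    exact ⟨(Finset.mem_filter.1 k1).1, k2⟩) (by rw [hb2, one_smul])
  exact one_ne_zero h4

end Sm

open Sm

theorem smith (h : Hyp K α) (g : Equiv.Perm (Fin 18)) (hg3 : ∀ i, g (g (g i)) = i)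
    (hgf : ∀ i, g i ≠ i) (hgK : ∀ σ, σ ∈ K ↔ σ.image g ∈ K)
    (horb : ∀ i, ({i, g i, g (g i)} : Finset (Fin 18)) ∈ K)
    (S : Finset (Fin 18)) (hne : S.Nonempty) (hS : ∀ i ∈ S, g i ∈ S)
    (hadj : ∀ i ∈ S, ∀ j, ({i, g i, g (g i), j, g j, g (g j)} : Finset (Fin 18)) ∈ K → j ∈ S) :
    ∀ j, j ∈ S := by
  classical
  intro j
  by_contra hj
  obtain ⟨i, hiS⟩ := hne
  have hg : Ord3 g := ⟨hg3, hgf⟩
  obtain ⟨hK, h0, hh⟩ := h.sph
  obtain ⟨F, hFK, hF, hFc⟩ := ex_facet h.sph hg hgK i (horb i)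
  have hone : OOne (ZMod 3) K 6 := by
    have h1 := link_one (R := ZMod 3) hK h0 hh h0 (n := 6) (by simp)
    rwa [lk_empty] at h1
  obtain ⟨z, hz, hz0, hz1, hz2⟩ := hone
  have hzF := z_ne h.sph hz hz0 hz1 hFK hFc
  have hacy : ∀ n, n < 6 → OAcy (ZMod 3) K n := by
    intro n hn
    have h1 := link_acy (R := ZMod 3) hK h0 hh h0 (n := n) (by
      rw [Finset.card_empty]
      omega)
    rwa [lk_empty] at h1
  have hSj : Disjoint (orb g j) S := by
    rw [Finset.disjoint_left]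
    intro x hx hxS
    rcases mem_orb.1 hx with rfl | rfl | rfl
    · exact hj hxS
    · have k := hS _ (hS _ hxS)
      rw [hg3] at k
      exact hj k
    · have k := hS _ hxS
      rw [hg3] at k
      exact hj k
  have hSi : orb g i ⊆ S := by
    intro x hx
    rcases mem_orb.1 hx with rfl | rfl | rfl
    · exact hiS
    · exact hS _ hiS
    · exact hS _ (hS _ hiS)
  have hne' : orb g j ≠ orb g i := by
    intro e
    rw [e] at hSj
    have k : i ∈ orb g i := mem_orb.2 (Or.inl rfl)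
    exact Finset.disjoint_left.1 hSj k (hSi k)
  have hsC : ∀ k, (Pi.single (orb g k) 1 : Finset (Fin 18) → ZMod 3) ∈ C K 3 := by
    intro k τ hτ
    by_cases h1 : τ = orb g k
    · rw [h1]
      exact ⟨horb k, orb_card hg k⟩
    · rw [Pi.single_eq_of_ne h1] at hτ
      exact absurd rfl hτ
  have hsF : ∀ k, Fx g (Pi.single (orb g k) 1 : Finset (Fin 18) → ZMod 3) =
      Pi.single (orb g k) 1 := by
    intro k
    funext τ
    unfold Fx
    by_cases h1 : Fixd g τ
    · rw [rs_pos h1]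
    · rw [rs_neg h1, Pi.single_eq_of_ne]
      rintro rfl
      exact h1 (orb_fixd hg k)
  obtain ⟨ei, hei⟩ : ∃ r, r = Q g (Pi.single (orb g i) 1) ∅ := ⟨_, rfl⟩
  obtain ⟨ej, hej⟩ : ∃ r, r = Q g (Pi.single (orb g j) 1) ∅ := ⟨_, rfl⟩
  have hei0 : ei ≠ 0 := hei ▸ E3 hg (orb_fixd hg i) (orb_card hg i)
  have hej0 : ej ≠ 0 := hej ▸ E3 hg (orb_fixd hg j) (orb_card hg j)
  obtain ⟨a, ha⟩ : ∃ a : Finset (Fin 18) → ZMod 3,
    a = ej • Pi.single (orb g i) 1 - ei • Pi.single (orb g j) 1 := ⟨_, rfl⟩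
  have haC : a ∈ C K 3 := by
    rw [ha]
    exact (C K 3).sub_mem ((C K 3).smul_mem _ (hsC i)) ((C K 3).smul_mem _ (hsC j))
  have haF : Fx g a = a := by
    rw [ha, map_sub, map_smul, map_smul, hsF, hsF]
  have haQ : Q g a ∅ = 0 := by
    rw [ha, map_sub, map_smul, map_smul, Pi.sub_apply, Pi.smul_apply, Pi.smul_apply, ← hei, ← hej,
      smul_eq_mul, smul_eq_mul]
    ring
  obtain ⟨φ, hφ, hφF, hφa⟩ := E1 hg hK (fun σ hσ => (hgK σ).1 hσ) hacy
    (fun σ hσ => sphere_card hK h0 hh hσ) hz2 hF hzF haC haF haQ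
  -- split the chain
  obtain ⟨A, hA⟩ : ∃ A : Finset (Fin 18) → ZMod 3, A = rs (fun τ => τ ⊆ S) φ := ⟨_, rfl⟩
  obtain ⟨B, hB⟩ : ∃ B : Finset (Fin 18) → ZMod 3, B = rs (fun τ => Disjoint τ S) φ := ⟨_, rfl⟩
  have hφs : ∀ τ, φ τ ≠ 0 → τ ∈ K ∧ τ.card = 6 ∧ Fixd g τ := by
    intro τ hτ
    obtain ⟨k1, k2⟩ := hφ τ hτ
    refine ⟨k1, k2, ?_⟩
    rw [← hφF] at hτ
    exact (rs_ne hτ).1
  have hsub : ∀ τ, φ τ ≠ 0 → ¬ Disjoint τ S → τ ⊆ S := by
    intro τ hτ hd
    obtain ⟨k1, k2, k3⟩ := hφs τ hτ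
    rw [Finset.not_disjoint_iff] at hd
    obtain ⟨x, hxτ, hxS⟩ := hd
    intro y hy
    by_cases hyx : y ∈ orb g x
    · rcases mem_orb.1 hyx with rfl | rfl | rfl
      · exact hxS
      · exact hS _ hxS
      · exact hS _ (hS _ hxS)
    · apply hadj x hxS y
      apply hK _ k1
      intro w hw
      have k4 := orb_sub k3 hxτ
      have k5 := orb_sub k3 hy
      simp only [Finset.mem_insert, Finset.mem_singleton] at hw
      rcases hw with rfl | rfl | rfl | rfl | rfl | rfl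
      · exact hxτ
      · exact fixd_mem k3 hxτ
      · exact fixd_mem k3 (fixd_mem k3 hxτ)
      · exact hy
      · exact fixd_mem k3 hy
      · exact fixd_mem k3 (fixd_mem k3 hy)
  have hAB : φ = A + B := by
    funext τ
    rw [Pi.add_apply, hA, hB]
    by_cases h1 : φ τ = 0
    · have k1 : rs (fun τ => τ ⊆ S) φ τ = 0 := by
        by_contra k
        exact (rs_ne k).2 h1
      have k2 : rs (fun τ => Disjoint τ S) φ τ = 0 := by
        by_contra k
        exact (rs_ne k).2 h1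
      rw [h1, k1, k2, add_zero]
    · by_cases h2 : Disjoint τ S
      · rw [rs_pos (p := fun τ => Disjoint τ S) h2, rs_neg (p := fun τ => τ ⊆ S), zero_add]
        intro h3
        obtain ⟨-, k2, -⟩ := hφs τ h1
        have k3 : τ = ∅ := by
          rw [← Finset.disjoint_self_iff_empty]
          exact h2.mono_right h3
        rw [k3, Finset.card_empty] at k2
        omega
      · rw [rs_neg (p := fun τ => Disjoint τ S) h2, rs_pos (p := fun τ => τ ⊆ S) (hsub τ h1 h2),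
          add_zero]
  have hS' : ∀ x, g x ∈ S → x ∈ S := by
    intro x hx
    have k := hS _ (hS _ hx)
    rwa [hg3] at k
  obtain ⟨L1, hL1⟩ : ∃ L1, L1 = K.filter fun τ => τ ⊆ S := ⟨_, rfl⟩
  obtain ⟨L2, hL2⟩ : ∃ L2, L2 = K.filter fun τ => Disjoint τ S := ⟨_, rfl⟩
  have d1 : DC L1 := by
    intro σ hσ τ hτ
    rw [hL1, Finset.mem_filter] at hσ ⊢
    exact ⟨hK σ hσ.1 τ hτ, hτ.trans hσ.2⟩
  have d2 : DC L2 := by
    intro σ hσ τ hτ
    rw [hL2, Finset.mem_filter] at hσ ⊢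
    exact ⟨hK σ hσ.1 τ hτ, hσ.2.mono_left hτ⟩
  have i1 : ∀ σ ∈ L1, σ.image g ∈ L1 := by
    intro σ hσ
    rw [hL1, Finset.mem_filter] at hσ ⊢
    refine ⟨(hgK σ).1 hσ.1, ?_⟩
    intro x hx
    obtain ⟨y, hy, rfl⟩ := Finset.mem_image.1 hx
    exact hS _ (hσ.2 hy)
  have i2 : ∀ σ ∈ L2, σ.image g ∈ L2 := by
    intro σ hσ
    rw [hL2, Finset.mem_filter] at hσ ⊢
    refine ⟨(hgK σ).1 hσ.1, ?_⟩
    rw [Finset.disjoint_left]
    intro x hx hxS
    obtain ⟨y, hy, rfl⟩ := Finset.mem_image.1 hx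
    exact Finset.disjoint_left.1 hσ.2 hy (hS' _ hxS)
  have hAC : A ∈ C L1 6 := by
    intro τ hτ
    rw [hA] at hτ
    obtain ⟨k1, k2⟩ := rs_ne hτ
    obtain ⟨k3, k4⟩ := hφ τ k2
    rw [hL1]
    exact ⟨Finset.mem_filter.2 ⟨k3, k1⟩, k4⟩
  have hBC : B ∈ C L2 6 := by
    intro τ hτ
    rw [hB] at hτ
    obtain ⟨k1, k2⟩ := rs_ne hτ
    obtain ⟨k3, k4⟩ := hφ τ k2
    rw [hL2]
    exact ⟨Finset.mem_filter.2 ⟨k3, k1⟩, k4⟩
  have hGA : G g A = A := by
    have k1 : A = Fx g A := by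
      funext τ
      unfold Fx
      by_cases h1 : Fixd g τ
      · rw [rs_pos h1]
      · rw [rs_neg h1]
        by_contra k
        rw [hA] at k
        exact h1 (hφs τ (rs_ne k).2).2.2
    rw [k1]
    exact G_Fx hg A
  have hE2 := E2 hg d1 i1 hAC hGA
  have hDA : Fx g (Q g A) ∈ C L1 3 := C_Fx (C_Q d1 i1 hAC)
  have hDB : Fx g (Q g B) ∈ C L2 3 := C_Fx (C_Q d2 i2 hBC)
  have hfin : Fx g (Q g A) = ej • Pi.single (orb g i) 1 := by
    have k0 : a = Fx g (Q g A) + Fx g (Q g B) := by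
      rw [hφa, hAB, map_add, map_add]
    funext τ
    have k1 := congrFun k0 τ
    rw [ha, Pi.sub_apply, Pi.add_apply, Pi.smul_apply, Pi.smul_apply] at k1
    rw [Pi.smul_apply]
    by_cases h1 : τ ⊆ S
    · have k2 : Fx g (Q g B) τ = 0 := by
        by_contra k
        obtain ⟨k3, k4⟩ := hDB τ k
        rw [hL2, Finset.mem_filter] at k3
        have k5 : τ = ∅ := by
          rw [← Finset.disjoint_self_iff_empty]
          exact k3.2.mono_right h1
        rw [k5, Finset.card_empty] at k4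
        omega
      have k3 : τ ≠ orb g j := by
        rintro rfl
        have k : j ∈ orb g j := mem_orb.2 (Or.inl rfl)
        exact hj (h1 k)
      rw [k2, Pi.single_eq_of_ne k3, smul_zero, sub_zero, add_zero] at k1
      exact k1.symm
    · have k2 : Fx g (Q g A) τ = 0 := by
        by_contra k
        obtain ⟨k3, k4⟩ := hDA τ k
        rw [hL1, Finset.mem_filter] at k3
        exact h1 k3.2
      rw [k2, Pi.single_eq_of_ne, smul_zero]
      rintro rfl
      exact h1 hSi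
  rw [hfin, map_smul, Pi.smul_apply, ← hei, smul_eq_mul] at hE2
  rcases mul_eq_zero.1 hE2 with k | k
  · exact hej0 k
  · exact hei0 k

end H23.LZ
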